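import Pool.Agent.MP_ca0a54_nt.H78M.Spec
import Pool.Agent.MP_ca0a54_nt.P.MER

/-! The second theorem of Mertens on logarithmic intervals. -/

open Filter Finset MeasureTheory

namespace Pool.Agent.MP_ca0a54_nt.H78M

namespace MER

theorem mass : ∃ D : ℝ, 0 ≤ D ∧ ∀ u v : ℝ, 0 ≤ u → u ≤ v →
    |∑ p ∈ pr u v, Real.log p / p - (v - u)| ≤ D := by
  obtain ⟨D, h0, h⟩ := P.MER.mass
  refine ⟨D, h0, fun u v hu huv => ?_⟩
  have e : pr u v = P.prs 1 u v := by
    ext p
    simp only [mem_pr, P.MER.mem_prs one_pos, one_mul]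
  simpa only [e, one_mul, mul_one] using h 1 u v one_pos hu huv

theorem w_nonneg (p : ℕ) : 0 ≤ Real.log p / p :=
  div_nonneg (Real.log_natCast_nonneg p) (Nat.cast_nonneg p)

theorem int_sq {a b : ℝ} (ha : 0 < a) (hab : a ≤ b) :
    IntervalIntegrable (fun v : ℝ => (v ^ 2)⁻¹) volume a b ∧
      ∫ v in a..b, (v ^ 2)⁻¹ = a⁻¹ - b⁻¹ := by
  have p : ∀ v ∈ Set.uIcc a b, v ≠ 0 := fun v hv => by
    rw [Set.uIcc_of_le hab] at hv
    exact (ha.trans_le hv.1).ne'
  have i : IntervalIntegrable (fun v : ℝ => (v ^ 2)⁻¹) volume a b :=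
    ((continuousOn_pow 2).inv₀ fun v hv => pow_ne_zero 2 (p v hv)).intervalIntegrable
  refine ⟨i, ?_⟩
  rw [intervalIntegral.integral_eq_sub_of_hasDerivAt (f := fun v => -v⁻¹)
    (fun v hv => by simpa using (hasDerivAt_inv (p v hv)).fun_neg) i]
  ring

theorem int_lin {a b : ℝ} (ha : 0 < a) (hab : a ≤ b) :
    IntervalIntegrable (fun v : ℝ => (v - a) * (v ^ 2)⁻¹) volume a b ∧
      ∫ v in a..b, (v - a) * (v ^ 2)⁻¹ = Real.log (b / a) - (b - a) * b⁻¹ := by
  have p : ∀ v ∈ Set.uIcc a b, v ≠ 0 := fun v hv => by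
    rw [Set.uIcc_of_le hab] at hv
    exact (ha.trans_le hv.1).ne'
  have i : IntervalIntegrable (fun v : ℝ => (v - a) * (v ^ 2)⁻¹) volume a b :=
    (int_sq ha hab).1.continuousOn_mul (by fun_prop)
  refine ⟨i, ?_⟩
  have hb := (ha.trans_le hab).ne'
  rw [intervalIntegral.integral_eq_sub_of_hasDerivAt (f := fun v => Real.log v + a * v⁻¹)
    (fun v hv => ((Real.hasDerivAt_log (p v hv)).fun_add
      ((hasDerivAt_inv (p v hv)).const_mul a)).congr_deriv (by have := p v hv; field_simp; ring)) i,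
    Real.log_div hb ha.ne']
  field_simp
  ring

theorem int_ind {a b x : ℝ} (ha : 0 < a) (hx : a < x) (hb : x ≤ b) :
    IntervalIntegrable (fun v : ℝ => if x ≤ v then (v ^ 2)⁻¹ else 0) volume a b ∧
      ∫ v in a..b, (if x ≤ v then (v ^ 2)⁻¹ else 0) = x⁻¹ - b⁻¹ := by
  have e : (fun v : ℝ => if x ≤ v then (v ^ 2)⁻¹ else 0) =
      (Set.Ici x).indicator fun v => (v ^ 2)⁻¹ := rfl
  have hab := hx.le.trans hb
  rw [e]
  refine ⟨?_, ?_⟩
  · rw [intervalIntegrable_iff]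
    exact (intervalIntegrable_iff.1 (int_sq ha hab).1).indicator measurableSet_Ici
  · have s : Set.Ioc a b ∩ Set.Ici x = Set.Icc x b := by
      ext v
      exact ⟨fun h => ⟨h.2, h.1.2⟩, fun h => ⟨⟨hx.trans_le h.1, h.2⟩, h.1⟩⟩
    rw [intervalIntegral.integral_of_le hab, setIntegral_indicator measurableSet_Ici, s,
      integral_Icc_eq_integral_Ioc, ← intervalIntegral.integral_of_le hb,
      (int_sq (ha.trans hx) hb).2]

theorem two {D : ℝ} (h : ∀ u v : ℝ, 0 ≤ u → u ≤ v →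
    |∑ p ∈ pr u v, Real.log p / p - (v - u)| ≤ D) {A B : ℝ} (hA : 0 < A) (hAB : A ≤ B) :
    |∑ p ∈ pr A B, (p : ℝ)⁻¹ - Real.log (B / A)| ≤ D / A := by
  have hB := hA.trans_le hAB
  have k : ∀ p ∈ pr A B, _ := fun p hp => int_ind hA (mem_pr.1 hp).2.1 (mem_pr.1 hp).2.2
  have i : ∀ p ∈ pr A B, IntervalIntegrable (fun v : ℝ =>
      Real.log p / p * if Real.log p ≤ v then (v ^ 2)⁻¹ else 0) volume A B :=
    fun p hp => (k p hp).1.const_mul _
  have e1 : ∑ p ∈ pr A B, (p : ℝ)⁻¹ = (∑ p ∈ pr A B, Real.log p / p) * B⁻¹ + ∫ v in A..B,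
      ∑ p ∈ pr A B, Real.log p / p * if Real.log p ≤ v then (v ^ 2)⁻¹ else 0 := by
    rw [intervalIntegral.integral_finsetSum i, sum_mul, ← sum_add_distrib]
    refine sum_congr rfl fun p hp => ?_
    have := (hA.trans (mem_pr.1 hp).2.1).ne'
    rw [intervalIntegral.integral_const_mul, (k p hp).2]
    field_simp
    ring
  have e2 := intervalIntegral.norm_integral_le_of_norm_le (μ := volume) hAB
    (f := fun v => (∑ p ∈ pr A B, Real.log p / p * if Real.log p ≤ v then (v ^ 2)⁻¹ else 0) -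
      (v - A) * (v ^ 2)⁻¹) (g := fun v => D * (v ^ 2)⁻¹) (Eventually.of_forall fun v hv => by
      have s : (pr A B).filter (fun p : ℕ => Real.log p ≤ v) = pr A v := by
        ext p
        simp only [mem_filter, mem_pr]
        exact ⟨fun x => ⟨x.1.1, x.1.2.1, x.2⟩, fun x => ⟨⟨x.1, x.2.1, x.2.2.trans hv.2⟩, x.2.2⟩⟩
      simp only [mul_ite, mul_zero]
      rw [← sum_filter, s, ← sum_mul, ← sub_mul, Real.norm_eq_abs, abs_mul,
        abs_of_nonneg (by positivity : 0 ≤ (v ^ 2)⁻¹)]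
      exact mul_le_mul_of_nonneg_right (h A v hA.le hv.1.le) (by positivity))
    ((int_sq hA hAB).1.const_mul D)
  rw [intervalIntegral.integral_sub (by
      simpa only [Finset.sum_fn] using IntervalIntegrable.sum _ i) (int_lin hA hAB).1,
    (int_lin hA hAB).2, intervalIntegral.integral_const_mul, (int_sq hA hAB).2, Real.norm_eq_abs,
    abs_le] at e2
  have e3 := mul_le_mul_of_nonneg_right (h A B hA.le hAB) (inv_pos.2 hB).le
  rw [← abs_of_pos (inv_pos.2 hB), ← abs_mul, abs_of_pos (inv_pos.2 hB), abs_le] at e3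
  rw [e1, abs_le, div_eq_mul_inv D]
  constructor <;> linarith [e2.1, e2.2, e3.1, e3.2]

theorem up {D : ℝ} (h : ∀ u v : ℝ, 0 ≤ u → u ≤ v →
    |∑ p ∈ pr u v, Real.log p / p - (v - u)| ≤ D) {u v : ℝ} (huv : u ≤ v) :
    ∑ p ∈ pr u v, Real.log p / p ≤ v - u + D := by
  have h1 := (abs_le.1 (h (max u 0) (max v 0) (le_max_right _ _) (max_le_max_right 0 huv))).2
  have h2 := (abs_le.1 (abs_max_sub_max_le_abs v u 0)).2
  rw [abs_of_nonneg (sub_nonneg.2 huv)] at h2
  refine (sum_le_sum_of_subset_of_nonneg (t := pr (max u 0) (max v 0)) (fun p hp => ?_)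
    fun p _ _ => w_nonneg p).trans (by linarith)
  obtain ⟨p1, p2, p3⟩ := mem_pr.1 hp
  exact mem_pr.2 ⟨p1, max_lt p2 (Real.log_pos (by exact_mod_cast p1.one_lt)), le_max_of_le_left p3⟩

theorem three {D : ℝ} (hD : 0 ≤ D) (h : ∀ u v : ℝ, 0 ≤ u → u ≤ v →
    |∑ p ∈ pr u v, Real.log p / p - (v - u)| ≤ D) (A B v : ℝ) :
    ∑ p ∈ pr A B, Real.log p / p * gw 2 (Real.log p - v) ≤ 2 * (2 + D) := by
  obtain ⟨K, hK⟩ : ∃ K, ∀ p ∈ pr A B, ⌊|Real.log p - v|⌋₊ ∈ range K :=
    ⟨(pr A B).sup (fun p : ℕ => ⌊|Real.log p - v|⌋₊) + 1, fun p hp => mem_range.2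
      (Nat.lt_succ_of_le (le_sup (f := fun p : ℕ => ⌊|Real.log p - v|⌋₊) hp))⟩
  rw [← sum_fiberwise_of_maps_to hK]
  refine (sum_le_sum (g := fun k => (1 / 2 : ℝ) ^ k * (2 + D)) fun k _ => ?_).trans ?_
  · have k0 : (0 : ℝ) ≤ k := Nat.cast_nonneg k
    have s : ∀ p ∈ (pr A B).filter (fun p : ℕ => ⌊|Real.log p - v|⌋₊ = k),
        p ∈ pr (v - (k + 1)) (v + (k + 1)) ∧ gw 2 (Real.log p - v) ≤ Real.exp (-(2 * k ^ 2)) := by
      intro p hp
      obtain ⟨p1, p2⟩ := mem_filter.1 hp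
      obtain ⟨p3, p4⟩ := (Nat.floor_eq_iff (abs_nonneg _)).1 p2
      obtain ⟨p5, p6⟩ := abs_lt.1 p4
      refine ⟨mem_pr.2 ⟨(mem_pr.1 p1).1, by linarith, by linarith⟩, Real.exp_le_exp.2 ?_⟩
      have := pow_le_pow_left₀ k0 p3 2
      rw [sq_abs] at this
      linarith
    have a : (k + 1 : ℝ) * Real.exp (-(2 * k ^ 2)) ≤ (1 / 2) ^ k := by
      have b : (k : ℝ) ≤ k ^ 2 := by exact_mod_cast Nat.le_self_pow two_ne_zero k
      have c : Real.exp (-1) ≤ 1 / 2 := by
        rw [Real.exp_neg, one_div]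
        exact inv_anti₀ two_pos (by linarith [Real.add_one_le_exp 1])
      calc _ ≤ Real.exp k * Real.exp (-(2 * k ^ 2)) := by gcongr; exact Real.add_one_le_exp _
        _ ≤ Real.exp (k * (-1)) := by
          rw [← Real.exp_add]
          exact Real.exp_le_exp.2 (by linarith)
        _ ≤ _ := by
          rw [Real.exp_nat_mul]
          gcongr
    have b := up h (u := v - (k + 1)) (v := v + (k + 1)) (by linarith)
    have e := Real.exp_pos (-(2 * (k : ℝ) ^ 2))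
    calc _ ≤ ∑ p ∈ (pr A B).filter (fun p : ℕ => ⌊|Real.log p - v|⌋₊ = k),
          Real.log p / p * Real.exp (-(2 * k ^ 2)) :=
          sum_le_sum fun p hp => mul_le_mul_of_nonneg_left (s p hp).2 (w_nonneg p)
      _ ≤ ((k + 1) * (2 + D)) * Real.exp (-(2 * k ^ 2)) := by
          rw [← sum_mul]
          refine mul_le_mul_of_nonneg_right ((sum_le_sum_of_subset_of_nonneg
            (fun p hp => (s p hp).1) fun p _ _ => w_nonneg p).trans (b.trans ?_)) e.le
          nlinarith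
      _ ≤ _ := by
          rw [mul_right_comm]
          gcongr
  · rw [← sum_mul]
    exact mul_le_mul_of_nonneg_right (sum_geometric_two_le K) (by linarith)

end MER

theorem mer : MerStmt := by
  obtain ⟨D, hD, h⟩ := MER.mass
  refine ⟨2 * (2 + D), by positivity, fun A B hA hAB => ?_, fun B hB => ?_, fun A B v hA => ?_⟩
  · exact (MER.two h (by linarith) hAB).trans (by gcongr; linarith)
  · linarith [MER.up h hB]
  · refine le_trans ?_ (div_le_div_of_nonneg_right (MER.three hD h A B v) (by linarith))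
    rw [sum_div]
    refine sum_le_sum fun p hp => ?_
    have := (mem_pr.1 hp).2.1
    have g := gw_pos 2 (Real.log p - v)
    rw [le_div_iff₀ (by linarith), mul_right_comm, ← div_eq_inv_mul]
    gcongr

end Pool.Agent.MP_ca0a54_nt.H78M
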