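import Pool.Agent.MP_ca0a54_nt.H78M.Spec

/-! The Liouville function twisted by a character does not pretend to be `n ^ (i s)`. -/

open Filter Finset Topology

namespace Pool.Agent.MP_ca0a54_nt.H78M

namespace NP

open ArithmeticFunction ArithmeticFunction.vonMangoldt

/-- the reciprocals of the primes that are one modulo `q` -/
noncomputable def hq (q n : ℕ) : ℝ := if n.Prime ∧ (n : ZMod q) = 1 then (n : ℝ)⁻¹ else 0

theorem hq_nonneg (q n : ℕ) : 0 ≤ hq q n := by
  unfold hq
  split_ifs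
  · positivity
  · exact le_rfl

theorem term_le (q n : ℕ) {x : ℝ} (hx : x ∈ Set.Ioc (1 : ℝ) 2) :
    (x - 1) * (residueClass (1 : ZMod q) n / (n : ℝ) ^ x) ≤
      hq q n + (if n.Prime then 0 else residueClass (1 : ZMod q) n) / n := by
  rcases n.eq_zero_or_pos with rfl | hn
  · simp [hq]
  have hn' : (1 : ℝ) ≤ n := by exact_mod_cast hn
  have hn0 : (0 : ℝ) < n := by linarith
  have h0 := residueClass_nonneg (1 : ZMod q) n
  have hx1 : 0 < x - 1 := by linarith [hx.1]
  have hsplit : (n : ℝ) ^ x = n * Real.exp ((x - 1) * Real.log n) := by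
    rw [show x = 1 + (x - 1) by ring, Real.rpow_add hn0, Real.rpow_one,
      Real.rpow_def_of_pos hn0]
    congr 2
    ring
  have hlog : 0 ≤ Real.log n := Real.log_nonneg hn'
  by_cases hp : n.Prime
  · rw [if_pos hp, zero_div, add_zero]
    by_cases h1 : (n : ZMod q) = 1
    · have : residueClass (1 : ZMod q) n = Real.log n := by
        rw [residueClass, Set.indicator_of_mem (by exact h1), vonMangoldt_apply_prime hp]
      rw [this, hq, if_pos ⟨hp, h1⟩, hsplit]
      have he := Real.add_one_le_exp ((x - 1) * Real.log n)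
      have hE := Real.exp_pos ((x - 1) * Real.log n)
      rw [← mul_div_assoc, div_le_iff₀ (by positivity), ← mul_assoc, inv_mul_cancel₀ hn0.ne',
        one_mul]
      linarith
    · have : residueClass (1 : ZMod q) n = 0 := by
        rw [residueClass, Set.indicator_of_notMem (by exact h1)]
      rw [this, zero_div, mul_zero]
      exact hq_nonneg q n
  · rw [if_neg hp]
    have h2 : residueClass (1 : ZMod q) n / (n : ℝ) ^ x ≤ residueClass (1 : ZMod q) n / n := by
      refine div_le_div_of_nonneg_left h0 hn0 ?_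
      calc (n : ℝ) = (n : ℝ) ^ (1 : ℝ) := (Real.rpow_one _).symm
        _ ≤ (n : ℝ) ^ x := Real.rpow_le_rpow_of_exponent_le hn' hx.1.le
    have h3 : 0 ≤ residueClass (1 : ZMod q) n / (n : ℝ) ^ x := by positivity
    have h4 := hq_nonneg q n
    nlinarith [hx.2]

theorem not_summable (q : ℕ) [NeZero q] : ¬ Summable (hq q) := by
  intro H
  obtain ⟨C, hC⟩ := LSeries_residueClass_lower_bound (a := (1 : ZMod q)) isUnit_one
  have hs := H.add (summable_residueClass_non_primes_div (1 : ZMod q))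
  have hev : ∀ᶠ x : ℝ in 𝓝[>] 1, x ∈ Set.Ioc (1 : ℝ) 2 := Ioc_mem_nhdsGT (by norm_num)
  have h1 : Tendsto (fun x : ℝ => ∑' n : ℕ, (x - 1) * (residueClass (1 : ZMod q) n / (n : ℝ) ^ x))
      (𝓝[>] 1) (𝓝 (∑' _ : ℕ, (0 : ℝ))) := by
    refine tendsto_tsum_of_dominated_convergence hs (fun n => ?_) ?_
    · rcases n.eq_zero_or_pos with rfl | hn
      · simp
      have hn0 : (0 : ℝ) < n := by exact_mod_cast hn
      have hc : ContinuousAt
          (fun x : ℝ => (x - 1) * (residueClass (1 : ZMod q) n / (n : ℝ) ^ x)) 1 := by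
        refine (continuousAt_id.sub continuousAt_const).mul (continuousAt_const.div ?_ ?_)
        · exact Real.continuousAt_const_rpow hn0.ne'
        · exact (Real.rpow_pos_of_pos hn0 _).ne'
      have := hc.tendsto.mono_left (nhdsWithin_le_nhds (s := Set.Ioi 1))
      simpa using this
    · filter_upwards [hev] with x hx n
      have h0 := residueClass_nonneg (1 : ZMod q) n
      have hx1 : 0 < x - 1 := by linarith [hx.1]
      rw [Real.norm_of_nonneg (by positivity)]
      exact term_le q n hx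
  rw [tsum_zero] at h1
  have h2 : Tendsto (fun x : ℝ => (q.totient : ℝ)⁻¹ - (x - 1) * C) (𝓝[>] 1)
      (𝓝 ((q.totient : ℝ)⁻¹ - (1 - 1) * C)) := by
    refine Tendsto.mono_left ?_ (nhdsWithin_le_nhds (s := Set.Ioi 1))
    exact (Continuous.tendsto (by fun_prop) _)
  have h3 : (q.totient : ℝ)⁻¹ - (1 - 1) * C ≤ 0 := by
    refine le_of_tendsto_of_tendsto h2 h1 ?_
    filter_upwards [hev] with x hx
    have hx1 : 0 < x - 1 := by linarith [hx.1]
    have := mul_le_mul_of_nonneg_left (hC hx) hx1.le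
    rw [tsum_mul_left]
    refine le_trans (le_of_eq ?_) this
    field_simp
  have h4 : (0 : ℝ) < (q.totient : ℝ)⁻¹ := by
    have : 0 < q.totient := Nat.totient_pos.2 (NeZero.pos q)
    positivity
  linarith

theorem exists_big (q : ℕ) [NeZero q] (A : ℝ) : ∃ P : ℕ, 1 ≤ P ∧ A ≤ ∑ n ∈ range P, hq q n := by
  have h := (not_summable_iff_tendsto_nat_atTop_of_nonneg (hq_nonneg q)).1 (not_summable q)
  obtain ⟨P, hP⟩ := ((h.eventually_ge_atTop A).and (eventually_ge_atTop 1)).exists
  exact ⟨P, hP.2, hP.1⟩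

theorem norm_one_sub_pow {z : ℂ} (hz : ‖z‖ = 1) (m : ℕ) : ‖1 - z ^ m‖ ≤ m * ‖1 - z‖ := by
  induction m with
  | zero => simp
  | succ m ih =>
    have : 1 - z ^ (m + 1) = (1 - z ^ m) + z ^ m * (1 - z) := by ring
    rw [this]
    refine (norm_add_le _ _).trans ?_
    rw [norm_mul, norm_pow, hz, one_pow, one_mul]
    push_cast
    linarith

theorem normSq_one_sub {z : ℂ} (hz : ‖z‖ = 1) : ‖1 - z‖ ^ 2 = 2 * (1 - z.re) := by
  have h : z.re ^ 2 + z.im ^ 2 = 1 := by
    have := Complex.sq_norm z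
    rw [hz, Complex.normSq_apply] at this
    nlinarith
  rw [Complex.sq_norm, Complex.normSq_apply]
  simp only [Complex.sub_re, Complex.one_re, Complex.sub_im, Complex.one_im]
  nlinarith

theorem re_pow_le {z : ℂ} (hz : ‖z‖ = 1) (m : ℕ) :
    1 - (z ^ m).re ≤ (m : ℝ) ^ 2 * (1 - z.re) := by
  have h1 := normSq_one_sub hz
  have h2 := normSq_one_sub (z := z ^ m) (by rw [norm_pow, hz, one_pow])
  have h3 := pow_le_pow_left₀ (norm_nonneg _) (norm_one_sub_pow hz m) 2
  rw [mul_pow, h1, h2] at h3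
  linarith

theorem nt_re (t : ℝ) (n : ℕ) : (nt t n).re = Real.cos (t * Real.log n) := by
  rw [nt, show -(Complex.I * t * Real.log n) = ((-(t * Real.log n) : ℝ) : ℂ) * Complex.I by
    push_cast; ring, Complex.exp_ofReal_mul_I_re, Real.cos_neg]

theorem nt_pow (t : ℝ) (n m : ℕ) : nt t n ^ m = nt (m * t) n := by
  rw [nt, nt, ← Complex.exp_nat_mul]
  congr 1
  push_cast
  ring

theorem term_nonneg {q : ℕ} (χ : DirichletCharacter ℂ q) (s : ℝ) (p : ℕ) :
    0 ≤ 1 - (lc χ p * nt s p).re := by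
  have h := Complex.re_le_norm (lc χ p * nt s p)
  rw [norm_mul, norm_nt, mul_one] at h
  linarith [(cm_lc χ).1 p]

theorem cos_le {q : ℕ} (hq0 : 0 < q) (χ : DirichletCharacter ℂ q) (s : ℝ) {p : ℕ}
    (hp : p.Prime) :
    1 - Real.cos ((2 * q.totient : ℕ) * s * Real.log p) ≤
      ((2 * q.totient : ℕ) : ℝ) ^ 2 * (1 - (lc χ p * nt s p).re) := by
  have hφ : 1 ≤ q.totient := Nat.totient_pos.2 hq0
  by_cases hu : IsUnit (p : ZMod q)
  · obtain ⟨u, hu⟩ := hu
    have h1 : χ p ^ q.totient = 1 := by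
      rw [← hu, ← map_pow, ← Units.val_pow_eq_pow_val, ZMod.pow_totient, Units.val_one, map_one]
    have hz : ‖lc χ p * nt s p‖ = 1 := by
      rw [norm_mul, norm_nt, mul_one, lc, lam_prime hp, norm_mul, norm_neg, norm_one, one_mul,
        ← hu, χ.unit_norm_eq_one]
    have h2 := re_pow_le hz (2 * q.totient)
    have h3 : (lc χ p * nt s p) ^ (2 * q.totient) = nt ((2 * q.totient : ℕ) * s) p := by
      rw [mul_pow, nt_pow, lc, lam_prime hp, mul_pow, pow_mul, mul_comm 2 q.totient,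
        pow_mul (χ p), h1]
      simp
    rwa [h3, nt_re] at h2
  · have h0 : lc χ p = 0 := by rw [lc, χ.map_nonunit hu, mul_zero]
    have h2 : (2 : ℝ) ≤ ((2 * q.totient : ℕ) : ℝ) := by
      exact_mod_cast (by omega : 2 ≤ 2 * q.totient)
    have h3 := Real.neg_one_le_cos ((2 * q.totient : ℕ) * s * Real.log p)
    rw [h0, zero_mul, Complex.zero_re]
    nlinarith

theorem small {q : ℕ} (χ : DirichletCharacter ℂ q) {s : ℝ} {P Q : ℕ} (hPQ : P ≤ Q)
    (hs : |s| * Real.log P ≤ 1) : ∑ n ∈ range P, hq q n ≤ Dq (lc χ) Q s := by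
  have h1 : ∑ n ∈ range P, hq q n =
      ∑ n ∈ (range P).filter fun n : ℕ => n.Prime ∧ (n : ZMod q) = 1, (n : ℝ)⁻¹ := by
    rw [sum_filter]
    rfl
  rw [h1, Dq]
  refine le_trans (sum_le_sum fun p hp => ?_) (sum_le_sum_of_subset_of_nonneg
    (s := (range P).filter fun n : ℕ => n.Prime ∧ (n : ZMod q) = 1) (fun p hp => ?_)
    fun p _ _ => div_nonneg (term_nonneg χ s p) (Nat.cast_nonneg _))
  · obtain ⟨hp1, hp2, hp3⟩ := mem_filter.1 hp
    have hp0 : (0 : ℝ) < p := by exact_mod_cast hp2.pos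
    have hl : Real.log p ≤ Real.log P :=
      Real.log_le_log hp0 (by exact_mod_cast (mem_range.1 hp1).le)
    have hl0 : 0 ≤ Real.log p := Real.log_natCast_nonneg p
    have hb : |s * Real.log p| ≤ 1 := by
      rw [abs_mul, abs_of_nonneg hl0]
      exact (mul_le_mul_of_nonneg_left hl (abs_nonneg s)).trans hs
    have hc : 0 ≤ Real.cos (s * Real.log p) := by
      have := Real.pi_gt_three
      have h2 := abs_le.1 hb
      exact Real.cos_nonneg_of_neg_pi_div_two_le_of_le (by linarith [h2.1]) (by linarith [h2.2])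
    rw [lc, lam_prime hp2, hp3, map_one, mul_one, neg_one_mul, Complex.neg_re, nt_re,
      inv_eq_one_div]
    exact div_le_div_of_nonneg_right (by linarith) hp0.le
  · obtain ⟨hp1, hp2, -⟩ := mem_filter.1 hp
    exact mem_filter.2 ⟨mem_Icc.2 ⟨hp2.pos, (mem_range.1 hp1).le.trans hPQ⟩, hp2⟩

end NP

theorem np : CosStmt → NpStmt := by
  intro hcos q χ hq0 A κ hκ
  have : NeZero q := ⟨hq0.ne'⟩
  have hφ : 1 ≤ q.totient := Nat.totient_pos.2 hq0
  obtain ⟨m, hm⟩ : ∃ m : ℕ, m = 2 * q.totient := ⟨_, rfl⟩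
  have hm1 : (1 : ℝ) ≤ m := by exact_mod_cast (by omega : 1 ≤ m)
  obtain ⟨B, hB⟩ := hcos ((m : ℝ) ^ 2 * A) κ hκ
  obtain ⟨P, hP1, hP⟩ := NP.exists_big q A
  have e1 : ∀ᶠ X : ℕ in atTop, (P : ℝ) ≤ (X : ℝ) ^ κ :=
    ((tendsto_rpow_atTop hκ).comp tendsto_natCast_atTop_atTop).eventually_ge_atTop _
  have e2 : ∀ᶠ X : ℕ in atTop, |B| * Real.log P + 1 ≤ Real.log X :=
    (Real.tendsto_log_atTop.comp tendsto_natCast_atTop_atTop).eventually_ge_atTop _
  filter_upwards [hB, e1, e2, eventually_ge_atTop (2 * m)] with X hX h1 h2 h3 s hs Q hQ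
  have hlP : 0 ≤ Real.log P := Real.log_natCast_nonneg P
  have hlX : 0 < Real.log X := by
    have : 0 ≤ |B| * Real.log P := by positivity
    linarith
  have habs : |(m : ℝ) * s| = m * |s| := by rw [abs_mul, Nat.abs_cast]
  by_cases hc : B / Real.log X ≤ |(m : ℝ) * s|
  · have h3' : (2 : ℝ) * m ≤ X := by exact_mod_cast h3
    have hX0 : (0 : ℝ) ≤ X := Nat.cast_nonneg X
    have h4 : |(m : ℝ) * s| ≤ (X : ℝ) ^ 2 := by
      rw [habs]
      nlinarith [mul_le_mul_of_nonneg_left hs (by linarith : (0 : ℝ) ≤ m)]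
    have h5 := hX (m * s) hc h4 Q hQ
    have h6 : ∑ p ∈ (Icc 1 Q).filter Nat.Prime, (1 - Real.cos (m * s * Real.log p)) / p ≤
        (m : ℝ) ^ 2 * Dq (lc χ) Q s := by
      rw [Dq, mul_sum]
      refine sum_le_sum fun p hp => ?_
      rw [← mul_div_assoc]
      refine div_le_div_of_nonneg_right ?_ (Nat.cast_nonneg _)
      rw [hm]
      exact NP.cos_le hq0 χ s (mem_filter.1 hp).2
    exact le_of_mul_le_mul_left (h5.trans h6) (by positivity)
  · refine hP.trans (NP.small χ ?_ ?_)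
    · exact_mod_cast h1.trans hQ
    · rw [not_le, habs, lt_div_iff₀ hlX] at hc
      have h7 : |s| * Real.log X ≤ |B| := by
        have : |s| * Real.log X ≤ m * |s| * Real.log X := by
          have : 0 ≤ |s| * Real.log X := by positivity
          nlinarith
        linarith [le_abs_self B]
      have h8 : |s| * Real.log P * Real.log X ≤ 1 * Real.log X := by
        nlinarith [mul_le_mul_of_nonneg_right h7 hlP]
      exact le_of_mul_le_mul_right h8 hlX

end Pool.Agent.MP_ca0a54_nt.H78M
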