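import Pool.Agent.MP_ca0a54_nt.H78M.Spec

/-! From Dirichlet characters to periodic functions. -/

open Filter Finset

namespace Pool.Agent.MP_ca0a54_nt.H78M

namespace RAT

/-- the mean square of a combination with bounded coefficients -/
theorem sh_comb {ι : Type*} (s : Finset ι) (a : ι → ℕ → ℂ) (c : ι → ℂ) (hc : ∀ i, ‖c i‖ ≤ 1)
    (H X : ℕ) :
    sh (fun n => ∑ i ∈ s, c i * a i n) H X ≤ s.card * ∑ i ∈ s, sh (a i) H X := by
  unfold sh
  rw [sum_comm, mul_sum]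
  refine sum_le_sum fun x _ => ?_
  have h1 : (H : ℂ)⁻¹ * ∑ j ∈ Icc 1 H, ∑ i ∈ s, c i * a i (x + j) =
      ∑ i ∈ s, c i * ((H : ℂ)⁻¹ * ∑ j ∈ Icc 1 H, a i (x + j)) := by
    rw [sum_comm, mul_sum]
    refine sum_congr rfl fun i _ => ?_
    rw [← mul_sum]
    ring
  rw [h1]
  refine le_trans ?_ sq_sum_le_card_mul_sum_sq
  refine pow_le_pow_left₀ (norm_nonneg _) ((norm_sum_le _ _).trans (sum_le_sum fun i _ => ?_)) 2
  rw [norm_mul]
  exact mul_le_of_le_one_left (norm_nonneg _) (hc i)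

/-- uniformity over all combinations with bounded coefficients -/
theorem comb {ι : Type*} (s : Finset ι) (a : ι → ℕ → ℂ) (ha : ∀ i ∈ s, MR (a i)) (η : ℝ)
    (hη : 0 < η) : ∃ H₁ : ℕ, ∀ H : ℕ, H₁ ≤ H → ∀ᶠ X : ℕ in atTop, ∀ c : ι → ℂ,
      (∀ i, ‖c i‖ ≤ 1) → sh (fun n => ∑ i ∈ s, c i * a i n) H X ≤ η * X := by
  classical
  have hp : (0 : ℝ) < (s.card : ℝ) ^ 2 + 1 := by positivity
  choose! H₁ hH₁ using fun i hi => ha i hi (η / ((s.card : ℝ) ^ 2 + 1)) (div_pos hη hp)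
  refine ⟨s.sup H₁, fun H hH => ?_⟩
  have h1 : ∀ᶠ X : ℕ in atTop, ∀ i ∈ s, sh (a i) H X ≤ η / ((s.card : ℝ) ^ 2 + 1) * X :=
    (eventually_all_finset s).2 fun i hi => hH₁ i hi H ((le_sup hi).trans hH)
  filter_upwards [h1] with X hX c hc
  refine (sh_comb s a c hc H X).trans ?_
  have h2 : ∑ i ∈ s, sh (a i) H X ≤ s.card * (η / ((s.card : ℝ) ^ 2 + 1) * X) := by
    simpa using sum_le_card_nsmul s _ _ hX
  have h3 : (s.card : ℝ) * (s.card * (η / ((s.card : ℝ) ^ 2 + 1) * X)) ≤ η * X := by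
    have h4 : (s.card : ℝ) * (s.card * (η / ((s.card : ℝ) ^ 2 + 1) * X)) =
        ((s.card : ℝ) ^ 2 / ((s.card : ℝ) ^ 2 + 1)) * (η * X) := by
      field_simp
    rw [h4]
    exact mul_le_of_le_one_left (by positivity) ((div_le_one hp).2 (by linarith))
  exact (mul_le_mul_of_nonneg_left h2 (Nat.cast_nonneg _)).trans h3

theorem mr_comb {ι : Type*} (s : Finset ι) (a : ι → ℕ → ℂ) (ha : ∀ i ∈ s, MR (a i)) (c : ι → ℂ)
    (hc : ∀ i, ‖c i‖ ≤ 1) : MR fun n => ∑ i ∈ s, c i * a i n := by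
  intro η hη
  obtain ⟨H₁, h⟩ := comb s a ha η hη
  exact ⟨H₁, fun H hH => (h H hH).mono fun X hX => hX c hc⟩

theorem sum_shift (a : ℕ → ℂ) (x H : ℕ) :
    ∑ j ∈ Icc 1 H, a (x + j) = ∑ n ∈ Ioc x (x + H), a n := by
  induction H with
  | zero => simp
  | succ H ih =>
    rw [sum_Icc_succ_top (by omega), ih, ← add_assoc, sum_Ioc_succ_top (by omega)]

/-- the dilation of a sequence -/
noncomputable def dil (a : ℕ → ℂ) (g n : ℕ) : ℂ := if g ∣ n then a (n / g) else 0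

theorem sum_dil (a : ℕ → ℂ) {g : ℕ} (x H : ℕ) :
    ∑ n ∈ Ioc x (x + H), dil a g n = ∑ m ∈ Ioc (x / g) ((x + H) / g), a m := by
  induction H with
  | zero => simp
  | succ H ih =>
    rw [← add_assoc, sum_Ioc_succ_top (by omega), ih, dil]
    have hle : x / g ≤ (x + H) / g := Nat.div_le_div_right (by omega)
    split_ifs with h
    · rw [Nat.succ_div_of_dvd h, sum_Ioc_succ_top hle]
    · rw [Nat.succ_div_of_not_dvd h, add_zero]

theorem norm_avg_le (a : ℕ → ℂ) (ha : ∀ n, ‖a n‖ ≤ 1) (y K : ℕ) :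
    ‖(K : ℂ)⁻¹ * ∑ j ∈ Icc 1 K, a (y + j)‖ ^ 2 ≤ 1 := by
  refine pow_le_one₀ (norm_nonneg _) ?_
  have h1 : ‖∑ j ∈ Icc 1 K, a (y + j)‖ ≤ K := by
    refine (norm_sum_le _ _).trans ?_
    simpa using sum_le_card_nsmul (Icc 1 K) (fun j => ‖a (y + j)‖) 1 fun j _ => ha _
  rw [norm_mul, norm_inv, Complex.norm_natCast]
  exact inv_mul_le_one_of_le₀ h1 (Nat.cast_nonneg _)

theorem point (a : ℕ → ℂ) (ha : ∀ n, ‖a n‖ ≤ 1) {g H : ℕ} (hg : 0 < g) (hH : g ≤ H) (x : ℕ) :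
    ‖(H : ℂ)⁻¹ * ∑ j ∈ Icc 1 H, dil a g (x + j)‖ ^ 2 ≤
      2 * ‖((H / g : ℕ) : ℂ)⁻¹ * ∑ j ∈ Icc 1 (H / g), a (x / g + j)‖ ^ 2 + 2 / (H : ℝ) ^ 2 := by
  have hK : 0 < H / g := Nat.div_pos hH hg
  have hK' : (0 : ℝ) < (H / g : ℕ) := by exact_mod_cast hK
  have hH0 : (0 : ℝ) < H := by exact_mod_cast hg.trans_le hH
  have hKH : ((H / g : ℕ) : ℝ) ≤ H := by exact_mod_cast Nat.div_le_self H g
  have h1 : ‖∑ j ∈ Icc 1 H, dil a g (x + j)‖ ≤ ‖∑ j ∈ Icc 1 (H / g), a (x / g + j)‖ + 1 := by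
    rw [sum_shift, sum_shift, sum_dil, Nat.add_div hg]
    split_ifs with h
    · rw [sum_Ioc_succ_top (by omega)]
      exact (norm_add_le _ _).trans (by gcongr; exact ha _)
    · simp
  rw [norm_mul, norm_mul, norm_inv, norm_inv, Complex.norm_natCast, Complex.norm_natCast]
  set u := ‖∑ j ∈ Icc 1 (H / g), a (x / g + j)‖ with hu
  have hu0 : 0 ≤ u := norm_nonneg _
  have h2 : (H : ℝ)⁻¹ * ‖∑ j ∈ Icc 1 H, dil a g (x + j)‖ ≤
      ((H / g : ℕ) : ℝ)⁻¹ * u + (H : ℝ)⁻¹ := by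
    have h3 : (H : ℝ)⁻¹ ≤ ((H / g : ℕ) : ℝ)⁻¹ := inv_anti₀ hK' hKH
    calc (H : ℝ)⁻¹ * ‖∑ j ∈ Icc 1 H, dil a g (x + j)‖ ≤ (H : ℝ)⁻¹ * (u + 1) := by gcongr
      _ = (H : ℝ)⁻¹ * u + (H : ℝ)⁻¹ := by ring
      _ ≤ _ := by gcongr
  refine (pow_le_pow_left₀ (by positivity) h2 2).trans ?_
  rw [show 2 / (H : ℝ) ^ 2 = 2 * (H : ℝ)⁻¹ ^ 2 by field_simp]
  nlinarith [sq_nonneg (((H / g : ℕ) : ℝ)⁻¹ * u - (H : ℝ)⁻¹)]

theorem fiber (F : ℕ → ℝ) (h0 : ∀ y, 0 ≤ F y) (h1 : ∀ y, F y ≤ 1) {g : ℕ} (hg : 0 < g) (X : ℕ) :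
    ∑ x ∈ Ioc X (2 * X), F (x / g) ≤ g * (∑ y ∈ Ioc (X / g) (2 * (X / g)), F y + 2) := by
  have hm : ∀ x ∈ Ioc X (2 * X), x / g ∈ Icc (X / g) (2 * (X / g) + 1) := by
    intro x hx
    rw [mem_Ioc] at hx
    rw [mem_Icc]
    refine ⟨Nat.div_le_div_right hx.1.le, (Nat.div_le_div_right hx.2).trans ?_⟩
    rw [two_mul X, Nat.add_div hg]
    split_ifs <;> omega
  rw [← sum_fiberwise_of_maps_to hm]
  have h2 : ∑ y ∈ Icc (X / g) (2 * (X / g) + 1), F y ≤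
      ∑ y ∈ Ioc (X / g) (2 * (X / g)), F y + 2 := by
    rw [sum_Icc_succ_top (by omega), ← Ioc_insert_left (by omega), sum_insert (by simp)]
    linarith [h1 (X / g), h1 (2 * (X / g) + 1)]
  refine le_trans ?_ (mul_le_mul_of_nonneg_left h2 (Nat.cast_nonneg _))
  rw [mul_sum]
  refine sum_le_sum fun y _ => ?_
  rw [sum_congr rfl (g := fun _ => F y) (fun x hx => by rw [(mem_filter.1 hx).2]), sum_const,
    nsmul_eq_mul]
  refine mul_le_mul_of_nonneg_right ?_ (h0 y)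
  have h3 : ((Ioc X (2 * X)).filter fun x => x / g = y) ⊆ Ico (g * y) (g * y + g) := by
    intro x hx
    obtain rfl := (mem_filter.1 hx).2
    rw [mem_Ico]
    exact ⟨Nat.mul_div_le x g, Nat.lt_mul_div_self_add hg⟩
  exact_mod_cast (card_le_card h3).trans_eq (by simp)

/-- the dilation lemma -/
theorem mr_dil (a : ℕ → ℂ) (ha : ∀ n, ‖a n‖ ≤ 1) (h : MR a) {g : ℕ} (hg : 0 < g) :
    MR (dil a g) := by
  intro η hη
  obtain ⟨H₁, hH₁⟩ := h (η / 6) (by positivity)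
  obtain ⟨M, hM⟩ := exists_nat_ge (6 / η)
  refine ⟨g * (H₁ + 1) + M, fun H hH => ?_⟩
  have hgH : g ≤ H := by nlinarith
  have hK : H₁ ≤ H / g := by
    rw [Nat.le_div_iff_mul_le hg]
    nlinarith
  have ht : Tendsto (fun X : ℕ => X / g) atTop atTop :=
    tendsto_atTop.2 fun b => (eventually_ge_atTop (b * g)).mono fun X hX =>
      (Nat.le_div_iff_mul_le hg).2 hX
  obtain ⟨N, hN⟩ := exists_nat_ge (12 * g / η)
  filter_upwards [ht.eventually (hH₁ (H / g) hK), eventually_ge_atTop N] with X hX hXN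
  have hH1 : (1 : ℝ) ≤ H := by exact_mod_cast hg.trans_le hgH
  have hMH : (M : ℝ) ≤ H := by exact_mod_cast le_trans (by omega) hH
  have hXN' : (N : ℝ) ≤ X := by exact_mod_cast hXN
  have h1 := fiber (fun y => ‖((H / g : ℕ) : ℂ)⁻¹ * ∑ j ∈ Icc 1 (H / g), a (y + j)‖ ^ 2)
    (fun y => by positivity) (fun y => norm_avg_le a ha y _) hg X
  have h2 := sum_le_sum fun x (_ : x ∈ Ioc X (2 * X)) => point a ha hg hgH x
  rw [sum_add_distrib, ← mul_sum, sum_const, nsmul_eq_mul, Nat.card_Ioc,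
    show 2 * X - X = X by omega] at h2
  have h3 : (g : ℝ) * (X / g : ℕ) ≤ X := by exact_mod_cast Nat.mul_div_le X g
  have h4 : 2 / (H : ℝ) ^ 2 ≤ η / 3 := by
    rw [div_le_iff₀ hη] at hM
    rw [div_le_iff₀ (by positivity)]
    nlinarith [mul_le_mul_of_nonneg_right hMH hη.le,
      mul_le_mul_of_nonneg_right (mul_le_mul_of_nonneg_right hH1 hη.le) (by linarith : (0 : ℝ) ≤ H)]
  have h5 : 4 * (g : ℝ) ≤ η / 3 * X := by
    rw [div_le_iff₀ hη] at hN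
    nlinarith [mul_le_mul_of_nonneg_right hXN' hη.le]
  have h6 : (g : ℝ) * sh a (H / g) (X / g) ≤ η / 6 * X := by
    calc (g : ℝ) * sh a (H / g) (X / g) ≤ g * (η / 6 * (X / g : ℕ)) := by gcongr
      _ = η / 6 * (g * (X / g : ℕ)) := by ring
      _ ≤ _ := by gcongr
  have h7 : (X : ℝ) * (2 / (H : ℝ) ^ 2) ≤ X * (η / 3) := by gcongr
  unfold sh at h6 ⊢
  nlinarith

/-- a reduced residue class -/
theorem mr_unit (hM : ∀ (q : ℕ) (χ : DirichletCharacter ℂ q), 0 < q → MR (lc χ)) {q r : ℕ}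
    (hq : 0 < q) (hr : r.Coprime q) : MR fun n => if r ≡ n [MOD q] then lam n else 0 := by
  have : NeZero q := ⟨hq.ne'⟩
  have hu : IsUnit (r : ZMod q) := (ZMod.isUnit_iff_coprime r q).2 hr
  have ht : 0 < q.totient := Nat.totient_pos.2 hq
  have h := mr_comb univ (fun χ : DirichletCharacter ℂ q => lc χ) (fun χ _ => hM q χ hq)
    (fun χ => (q.totient : ℂ)⁻¹ * χ (r : ZMod q)⁻¹) fun χ => by
      rw [norm_mul, norm_inv, Complex.norm_natCast]
      exact mul_le_one₀ (inv_le_one_of_one_le₀ (by exact_mod_cast ht)) (norm_nonneg _)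
        (χ.norm_le_one _)
  convert h using 2 with n
  have h1 : ∑ χ : DirichletCharacter ℂ q, (q.totient : ℂ)⁻¹ * χ (r : ZMod q)⁻¹ * lc χ n =
      (q.totient : ℂ)⁻¹ * lam n *
        ∑ χ : DirichletCharacter ℂ q, χ (r : ZMod q)⁻¹ * χ (n : ZMod q) := by
    rw [mul_sum]
    refine sum_congr rfl fun χ _ => ?_
    rw [lc]
    ring
  have h2 : (q.totient : ℂ) ≠ 0 := by exact_mod_cast ht.ne'
  rw [h1, DirichletCharacter.sum_char_inv_mul_char_eq ℂ hu]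
  simp only [ZMod.natCast_eq_natCast_iff]
  split_ifs
  · field_simp
  · simp

/-- any residue class -/
theorem mr_class (hM : ∀ (q : ℕ) (χ : DirichletCharacter ℂ q), 0 < q → MR (lc χ)) {q : ℕ}
    (hq : 0 < q) (r : ℕ) : MR fun n => if r ≡ n [MOD q] then lam n else 0 := by
  obtain ⟨g, r', q', hg, hc, rfl, rfl⟩ := Nat.exists_coprime' (Nat.gcd_pos_of_pos_right r hq)
  have hq' : 0 < q' := Nat.pos_of_mul_pos_right hq
  have h1 := mr_dil _ (fun n => by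
    split_ifs
    · exact norm_lam_le n
    · simp) (mr_unit hM hq' hc) hg
  have h2 := mr_comb {()} (fun _ => dil (fun n => if r' ≡ n [MOD q'] then lam n else 0) g)
    (fun _ _ => h1) (fun _ => lam g) fun _ => norm_lam_le g
  convert h2 using 2 with n
  rw [sum_singleton, dil]
  by_cases h : g ∣ n
  · obtain ⟨m, rfl⟩ := h
    rw [if_pos (dvd_mul_right g m), Nat.mul_div_cancel_left m hg, mul_comm r' g, mul_comm q' g,
      lam_mul]
    simp only [Nat.ModEq.mul_left_cancel_iff' hg.ne']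
    split_ifs <;> simp
  · rw [if_neg h, mul_zero, if_neg]
    intro h3
    exact h ((h3.dvd_iff (dvd_mul_left g q')).1 (dvd_mul_left g r'))

theorem periodic_mod (ψ : ℕ → ℂ) {q : ℕ} (h : ∀ n, ψ (n + q) = ψ n) (n : ℕ) :
    ψ (n % q) = ψ n := (show Function.Periodic ψ q from h).map_mod_nat n

end RAT

theorem rat : RatStmt := by
  intro hM q η hq hη
  obtain ⟨H₁, h⟩ := RAT.comb (range q) (fun r n => if r ≡ n [MOD q] then lam n else 0)
    (fun r _ => RAT.mr_class hM hq r) η hη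
  refine ⟨H₁, fun H hH => (h H hH).mono fun X hX ψ h1 h2 => ?_⟩
  convert hX ψ h1 using 3 with n
  rw [sum_eq_single_of_mem (n % q) (mem_range.2 (Nat.mod_lt n hq)), if_pos (Nat.mod_modEq n q),
    RAT.periodic_mod ψ h2, mul_comm]
  intro r hr hne
  rw [if_neg, mul_zero]
  intro h3
  exact hne (by rw [← h3, Nat.mod_eq_of_lt (mem_range.1 hr)])

end Pool.Agent.MP_ca0a54_nt.H78M
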