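import Pool.Agent.MP_ca0a54_nt.H78M.Spec

/-! The amplified mean value bound. -/

open Filter Finset MeasureTheory

namespace Pool.Agent.MP_ca0a54_nt.H78M

namespace AMP

/-- the number of elements of `P` dividing `n` -/
def om (P : Finset ℕ) (n : ℕ) : ℕ := (P.filter (· ∣ n)).card

theorem om_mono (P : Finset ℕ) (p m : ℕ) : om P m ≤ om P (p * m) :=
  card_le_card fun q hq => by
    rw [mem_filter] at hq ⊢
    exact ⟨hq.1, hq.2.mul_left p⟩

theorem rep (a c : ℕ → ℂ) (Z : ℕ) (P : Finset ℕ) (L u : ℝ) (ha : ∀ n, ‖a n‖ ≤ 1)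
    (hc : ∀ n, ‖c n‖ ≤ 1) (hP : ∀ p ∈ P, p.Prime ∧ L ≤ Real.log p ∧ Real.log p ≤ L + 1) (l : ℕ) :
    ∃ (b : ℕ → ℂ) (S : Finset ℕ), (∀ t, pp c P t ^ l * Phi a Z u t = dv b S t) ∧
      ∀ n ∈ S, 1 ≤ n ∧ ∀ W : ℝ, (∀ θ : ℝ, 0 ≤ θ → θ ≤ l →
        gw 1 (Real.log n - (u + l * L) - θ) ≤ W) → ‖b n‖ ≤ (om P n : ℝ) ^ l * W / n := by
  induction l with
  | zero =>
    refine ⟨fun n => a n / n * (gw 1 (Real.log n - u) : ℝ), Icc 1 Z, fun t => by
      simp [Phi, ps], fun n hn => ⟨(mem_Icc.1 hn).1, fun W hW => ?_⟩⟩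
    have h := hW 0 le_rfl (by simp)
    have h0 := gw_pos 1 (Real.log n - u)
    simp only [Nat.cast_zero, zero_mul, add_zero, sub_zero] at h
    rw [norm_mul, norm_div, Complex.norm_natCast, Complex.norm_real, Real.norm_of_nonneg h0.le,
      pow_zero, one_mul, div_mul_eq_mul_div]
    gcongr
    exact (mul_le_of_le_one_left h0.le (ha n)).trans h
  | succ l ih =>
    obtain ⟨b, S, h1, h2⟩ := ih
    refine ⟨fun n => ∑ x ∈ (P ×ˢ S).filter (fun x => x.1 * x.2 = n), c x.1 / x.1 * b x.2,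
      (P ×ˢ S).image fun x => x.1 * x.2, fun t => ?_, fun n hn => ?_⟩
    · rw [pow_succ', mul_assoc, h1, pp, dv, dv, dv, sum_mul_sum, ← sum_product']
      rw [← sum_fiberwise_of_maps_to (g := fun x : ℕ × ℕ => x.1 * x.2)
        (fun x hx => mem_image_of_mem _ hx)]
      refine sum_congr rfl fun n _ => ?_
      rw [sum_mul]
      refine sum_congr rfl fun x hx => ?_
      obtain ⟨hx', rfl⟩ := mem_filter.1 hx
      obtain ⟨hx1, hx2⟩ := mem_product.1 hx'
      rw [nt_mul t (hP _ hx1).1.ne_zero (by have := (h2 _ hx2).1; omega)]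
      ring
    · obtain ⟨x0, hx0, hn0⟩ := mem_image.1 hn
      have hn1 : 1 ≤ n := by
        rw [← hn0]
        exact Nat.mul_pos (hP _ (mem_product.1 hx0).1).1.pos (h2 _ (mem_product.1 hx0).2).1
      refine ⟨hn1, fun W hW => ?_⟩
      have hW0 : 0 ≤ W := (gw_pos _ _).le.trans (hW 0 le_rfl (by positivity))
      refine (norm_sum_le _ _).trans ((sum_le_card_nsmul _ _ ((om P n : ℝ) ^ l * W / n)
        fun x hx => ?_).trans ?_)
      · obtain ⟨hx', rfl⟩ := mem_filter.1 hx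
        obtain ⟨hx1, hx2⟩ := mem_product.1 hx'
        obtain ⟨hp, hp1, hp2⟩ := hP _ hx1
        obtain ⟨hm, hb⟩ := h2 _ hx2
        have hp0 : (0 : ℝ) < x.1 := by exact_mod_cast hp.pos
        have hm0 : (0 : ℝ) < x.2 := by exact_mod_cast hm
        have hb' := hb W fun θ h0 h1 => by
          have := hW (θ + (Real.log x.1 - L)) (by linarith) (by push_cast; linarith)
          rw [Nat.cast_mul, Real.log_mul hp0.ne' hm0.ne'] at this
          convert this using 2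
          push_cast
          ring
        have ho : (om P x.2 : ℝ) ≤ om P (x.1 * x.2) := by exact_mod_cast om_mono P x.1 x.2
        rw [norm_mul, norm_div, Complex.norm_natCast, Nat.cast_mul]
        calc ‖c x.1‖ / x.1 * ‖b x.2‖ ≤ 1 / x.1 * ((om P (x.1 * x.2) : ℝ) ^ l * W / x.2) := by
              gcongr
              · exact hc _
              · exact hb'.trans (by gcongr)
          _ = _ := by field_simp
      · have hcard : ((P ×ˢ S).filter (fun x => x.1 * x.2 = n)).card ≤ om P n := by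
          refine card_le_card_of_injOn Prod.fst (fun x hx => ?_) fun x hx y hy hxy => ?_
          · obtain ⟨hx', rfl⟩ := mem_filter.1 (mem_coe.1 hx)
            exact mem_coe.2 (mem_filter.2 ⟨(mem_product.1 hx').1, dvd_mul_right _ _⟩)
          · obtain ⟨hx, hx'⟩ := mem_filter.1 (mem_coe.1 hx)
            obtain ⟨-, hy'⟩ := mem_filter.1 (mem_coe.1 hy)
            refine Prod.ext hxy (Nat.eq_of_mul_eq_mul_left (hP _ (mem_product.1 hx).1).1.pos ?_)
            rw [hx', hxy, hy']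
        rw [nsmul_eq_mul, pow_succ', mul_assoc, mul_div_assoc (om P n : ℝ)]
        gcongr

theorem sum_inv_le {P : Finset ℕ} {L : ℝ}
    (hP : ∀ p ∈ P, p.Prime ∧ L ≤ Real.log p ∧ Real.log p ≤ L + 1) :
    ∑ p ∈ P, (2 : ℝ) / p ≤ 6 := by
  have h1 : (P.card : ℝ) ≤ Real.exp (L + 1) := by
    refine le_trans ?_ (card_pr_le (L - 1) (L + 1))
    exact_mod_cast card_le_card fun p hp =>
      mem_pr.2 ⟨(hP p hp).1, by linarith [(hP p hp).2.1], (hP p hp).2.2⟩
  refine (sum_le_card_nsmul _ _ (2 / Real.exp L) fun p hp => ?_).trans ?_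
  · have : Real.exp L ≤ p := (Real.le_log_iff_exp_le (by exact_mod_cast (hP p hp).1.pos)).1
      (hP p hp).2.1
    gcongr
  · rw [nsmul_eq_mul]
    calc (P.card : ℝ) * (2 / Real.exp L) ≤ Real.exp (L + 1) * (2 / Real.exp L) := by gcongr
      _ = 2 * Real.exp 1 := by rw [Real.exp_add]; field_simp
      _ ≤ 6 := by linarith [Real.exp_one_lt_d9]

theorem sum_three_pow {P : Finset ℕ} (hP : ∀ p ∈ P, p.Prime) (N : ℕ) :
    ∑ n ∈ Ioc 0 N, (3 : ℝ) ^ om P n ≤ Real.exp (∑ p ∈ P, (2 : ℝ) / p) * N := by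
  have h1 : ∀ n, (3 : ℝ) ^ om P n = ∑ D ∈ P.powerset, ∏ p ∈ D, if p ∣ n then (2 : ℝ) else 0 := by
    intro n
    rw [← prod_one_add, om, ← prod_const, prod_filter]
    refine prod_congr rfl fun p _ => ?_
    split_ifs <;> norm_num
  simp_rw [h1]
  rw [sum_comm]
  calc _ ≤ ∑ D ∈ P.powerset, (∏ p ∈ D, (2 : ℝ) / p) * N := sum_le_sum fun D hD => ?_
    _ = (∏ p ∈ P, (1 + (2 : ℝ) / p)) * N := by rw [← sum_mul, prod_one_add]
    _ ≤ _ := by
      gcongr
      exact Real.prod_one_add_le_exp_sum _ fun p => by positivity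
  have hD' : ∀ p ∈ D, p.Prime := fun p hp => hP p (mem_powerset.1 hD hp)
  have h0 : 0 < ∏ p ∈ D, p := prod_pos fun p hp => (hD' p hp).pos
  calc _ ≤ ∑ n ∈ Ioc 0 N, if (∏ p ∈ D, p) ∣ n then ∏ p ∈ D, (2 : ℝ) else 0 :=
        sum_le_sum fun n _ => ?_
    _ = ((N / ∏ p ∈ D, p : ℕ) : ℝ) * ∏ p ∈ D, (2 : ℝ) := by
      rw [← sum_filter, sum_const, Nat.Ioc_filter_dvd_card_eq_div, nsmul_eq_mul]
    _ ≤ (N : ℝ) / (∏ p ∈ D, p : ℕ) * ∏ p ∈ D, (2 : ℝ) := by
      gcongr
      exact Nat.cast_div_le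
    _ = _ := by
      rw [prod_div_distrib, Nat.cast_prod]
      ring
  by_cases h : ∀ p ∈ D, p ∣ n
  · rw [if_pos (Finset.prod_primes_dvd n (fun p hp => (hD' p hp).prime) h)]
    exact (prod_congr rfl fun p hp => if_pos (h p hp)).le
  · push Not at h
    obtain ⟨p, hp, h⟩ := h
    rw [prod_eq_zero hp (if_neg h)]
    split_ifs <;> positivity

theorem moment {P : Finset ℕ} {L : ℝ}
    (hP : ∀ p ∈ P, p.Prime ∧ L ≤ Real.log p ∧ Real.log p ≤ L + 1) (l N : ℕ) :
    ∑ n ∈ Ioc 0 N, (Real.exp (l ^ 2) * (om P n : ℝ) ^ l) ^ 2 ≤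
      Real.exp (6 * l ^ 2 + 6) * N + 0 := by
  have hf : ((2 * l).factorial : ℝ) ≤ Real.exp (4 * l ^ 2) := by
    calc ((2 * l).factorial : ℝ) ≤ ((2 * l : ℕ) : ℝ) ^ (2 * l) := by
          exact_mod_cast Nat.factorial_le_pow _
      _ ≤ Real.exp (2 * l) ^ (2 * l) := by
          gcongr
          push_cast
          linarith [Real.add_one_le_exp (2 * l : ℝ)]
      _ = _ := by
          rw [← Real.exp_nat_mul]
          congr 1
          push_cast
          ring
  calc _ ≤ ∑ n ∈ Ioc 0 N, Real.exp (6 * l ^ 2) * (3 : ℝ) ^ om P n := sum_le_sum fun n _ => ?_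
    _ ≤ Real.exp (6 * l ^ 2) * (Real.exp 6 * N) := by
      rw [← mul_sum]
      gcongr
      refine (sum_three_pow (fun p hp => (hP p hp).1) N).trans ?_
      gcongr
      exact sum_inv_le hP
    _ = _ := by rw [Real.exp_add]; ring
  have h1 := Real.pow_div_factorial_le_exp (om P n : ℝ) (Nat.cast_nonneg _) (2 * l)
  rw [div_le_iff₀ (by positivity)] at h1
  have h2 : Real.exp (om P n) ≤ 3 ^ om P n := by
    rw [← Real.exp_one_pow]
    gcongr
    linarith [Real.exp_one_lt_d9]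
  calc _ = Real.exp (2 * l ^ 2) * (om P n : ℝ) ^ (2 * l) := by
        rw [mul_pow, ← pow_mul, mul_comm l 2, ← Real.exp_nat_mul]
        norm_num
    _ ≤ Real.exp (2 * l ^ 2) * (3 ^ om P n * Real.exp (4 * l ^ 2)) := by
        gcongr
        exact h1.trans (by gcongr)
    _ = _ := by
        rw [show (6 : ℝ) * l ^ 2 = 2 * l ^ 2 + 4 * l ^ 2 by ring, Real.exp_add]
        ring

end AMP

theorem amp : GmStmt → AmpStmt := by
  rintro ⟨C, hC, hG⟩
  refine ⟨6 + C, by positivity, fun a c Z l P L u T ha hc hT hP => ?_⟩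
  obtain ⟨b, S, h1, h2⟩ := AMP.rep a c Z P L u ha hc hP l
  have h := hG b (fun n => Real.exp (l ^ 2) * (AMP.om P n : ℝ) ^ l) S (Real.exp (6 * l ^ 2 + 6)) 0
    (u + l * L) T (by positivity) le_rfl hT (AMP.moment hP l) fun n hn => ⟨(h2 n hn).1, by
      refine ((h2 n hn).2 (Real.exp (l ^ 2) * gw (1 / 2) (Real.log n - (u + l * L)))
        fun θ h0 h1 => ?_).trans_eq ?_
      · rw [gw, gw, ← Real.exp_add, Real.exp_le_exp]
        nlinarith [sq_nonneg (Real.log n - (u + l * L) - 2 * θ), mul_self_le_mul_self h0 h1]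
      · rw [abs_of_nonneg (by positivity)]
        ring⟩
  have h3 : ∀ t, ‖pp c P t‖ ^ (2 * l) * ‖Phi a Z u t‖ ^ 2 = ‖dv b S t‖ ^ 2 := fun t => by
    rw [← h1, norm_mul, norm_pow, mul_pow, ← pow_mul, mul_comm l 2]
  simp_rw [h3]
  refine h.trans ?_
  rw [zero_mul, add_zero, mul_right_comm]
  gcongr
  calc C * Real.exp (6 * l ^ 2 + 6) ≤ Real.exp C * Real.exp (6 * l ^ 2 + 6) := by
        gcongr
        linarith [Real.add_one_le_exp C]
    _ ≤ _ := by
        rw [← Real.exp_add, Real.exp_le_exp]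
        have : (0 : ℝ) ≤ l := Nat.cast_nonneg l
        nlinarith [mul_nonneg hC this, mul_nonneg hC (sq_nonneg (l : ℝ))]

end Pool.Agent.MP_ca0a54_nt.H78M
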