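import Pool.Agent.MP_ca0a54_nt.H78M.Spec

/-! The sum of `(1 - cos (τ log p)) / p` over primes is large: comparison of two Euler products. -/

open Filter Finset MeasureTheory Topology

namespace Pool.Agent.MP_ca0a54_nt.H78M

namespace COS

theorem norm_one_sub_le {z : ℂ} (hz : ‖z‖ ≤ 1 / 2) :
    ‖1 - z‖ ≤ Real.exp (4 * (‖z‖ - z.re)) * (1 - ‖z‖) := by
  have h0 := norm_nonneg z
  have h1 : z.re ≤ ‖z‖ := Complex.re_le_norm z
  have h2 : ‖1 - z‖ ^ 2 = (1 - ‖z‖) ^ 2 + 2 * (‖z‖ - z.re) := by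
    have e1 : ‖z‖ ^ 2 = z.re ^ 2 + z.im ^ 2 := by
      rw [Complex.sq_norm, Complex.normSq_apply]; ring
    have e2 : ‖1 - z‖ ^ 2 = (1 - z.re) ^ 2 + z.im ^ 2 := by
      rw [Complex.sq_norm, Complex.normSq_apply]; simp; ring
    nlinarith
  have h3 : 1 + 8 * (‖z‖ - z.re) ≤ Real.exp (4 * (‖z‖ - z.re)) ^ 2 := by
    rw [← Real.exp_nat_mul]
    have := Real.add_one_le_exp (((2 : ℕ) : ℝ) * (4 * (‖z‖ - z.re)))
    push_cast at this ⊢
    linarith
  refine abs_le_of_sq_le_sq' ?_ (mul_nonneg (Real.exp_pos _).le (by linarith)) |>.2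
  rw [mul_pow, h2]
  have h4 : 1 / 4 ≤ (1 - ‖z‖) ^ 2 := by nlinarith
  have h5 : 0 ≤ ‖z‖ - z.re := by linarith
  calc (1 - ‖z‖) ^ 2 + 2 * (‖z‖ - z.re)
      ≤ (1 + 8 * (‖z‖ - z.re)) * (1 - ‖z‖) ^ 2 := by nlinarith
    _ ≤ _ := mul_le_mul_of_nonneg_right h3 (by positivity)

theorem cpow_eq {p : ℕ} (hp : 0 < p) (σ τ : ℝ) : (p : ℂ) ^ (-((σ : ℂ) + Complex.I * τ)) =
    Complex.exp ((-(σ * Real.log p) : ℝ) + (-(τ * Real.log p) : ℝ) * Complex.I) := by
  rw [Complex.cpow_def_of_ne_zero (by exact_mod_cast hp.ne'), ← Complex.natCast_log]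
  congr 1
  push_cast
  ring

theorem exp_le_inv {p : ℕ} (hp : 0 < p) {σ : ℝ} (hσ : 1 ≤ σ) :
    Real.exp (-(σ * Real.log p)) ≤ (p : ℝ)⁻¹ := by
  have h0 : (0 : ℝ) < p := by exact_mod_cast hp
  have h1 : 0 ≤ Real.log p := Real.log_natCast_nonneg p
  calc Real.exp (-(σ * Real.log p)) ≤ Real.exp (-Real.log p) :=
        Real.exp_le_exp.2 (by nlinarith)
    _ = _ := by rw [Real.exp_neg, Real.exp_log h0]

theorem factor_le {p : ℕ} (hp : p.Prime) {σ : ℝ} (hσ : 1 ≤ σ) (τ : ℝ) :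
    ‖(1 - (p : ℂ) ^ (-(σ : ℂ)))⁻¹‖ ≤
      Real.exp (4 * (Real.exp (-(σ * Real.log p)) * (1 - Real.cos (τ * Real.log p)))) *
        ‖(1 - (p : ℂ) ^ (-((σ : ℂ) + Complex.I * τ)))⁻¹‖ := by
  set x : ℝ := Real.exp (-(σ * Real.log p)) with hx
  have hx2 : x ≤ 1 / 2 := by
    refine (exp_le_inv hp.pos hσ).trans ?_
    rw [one_div]
    exact inv_anti₀ two_pos (by exact_mod_cast hp.two_le)
  have hx0 : 0 < x := Real.exp_pos _
  have e0 : (p : ℂ) ^ (-(σ : ℂ)) = (x : ℂ) := by
    have := cpow_eq hp.pos σ 0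
    simp only [Complex.ofReal_zero, mul_zero, add_zero, zero_mul, neg_zero] at this
    rw [this, hx, Complex.ofReal_exp]
  set z : ℂ := (p : ℂ) ^ (-((σ : ℂ) + Complex.I * τ)) with hz
  have e1 : ‖z‖ = x := by
    rw [hz, cpow_eq hp.pos, Complex.norm_exp]
    simp only [Complex.add_re, Complex.ofReal_re, Complex.mul_re, Complex.I_re, mul_zero,
      Complex.ofReal_im, Complex.I_im, mul_one, sub_self, add_zero, hx]
  have e2 : z.re = x * Real.cos (τ * Real.log p) := by
    rw [hz, cpow_eq hp.pos, Complex.exp_re]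
    simp only [Complex.add_re, Complex.ofReal_re, Complex.mul_re, Complex.I_re, mul_zero,
      Complex.ofReal_im, Complex.I_im, mul_one, sub_self, add_zero, hx, Complex.add_im,
      Complex.mul_im, zero_add, Real.cos_neg]
  have h1 := norm_one_sub_le (z := z) (by rw [e1]; exact hx2)
  rw [e1, e2] at h1
  have h2 : 0 < ‖1 - z‖ := by
    have := norm_sub_norm_le (1 : ℂ) z
    rw [norm_one, e1] at this
    linarith
  have h3 : ‖1 - (x : ℂ)‖ = 1 - x := by
    rw [← Complex.ofReal_one, ← Complex.ofReal_sub, Complex.norm_real, Real.norm_eq_abs,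
      abs_of_nonneg (by linarith)]
  rw [e0, norm_inv, norm_inv, h3, ← div_eq_mul_inv, le_div_iff₀ h2, inv_mul_eq_div,
    div_le_iff₀ (by linarith)]
  have e3 : x - x * Real.cos (τ * Real.log p) = x * (1 - Real.cos (τ * Real.log p)) := by ring
  rwa [e3] at h1

theorem tail_le {C : ℝ} (hC : 0 ≤ C)
    (hM : ∀ A B : ℝ, 1 / 2 ≤ A → A ≤ B → |∑ p ∈ pr A B, (p : ℝ)⁻¹ - Real.log (B / A)| ≤ C / A)
    {L : ℝ} (hL : 1 ≤ L) (K : ℕ) :
    ∑ p ∈ pr L ((K + 1) * L), Real.exp (-((1 + 1 / L) * Real.log p)) ≤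
      (1 + C) * (1 - (1 / 2) ^ K) := by
  induction K with
  | zero =>
    have : pr L (((0 : ℕ) + 1) * L) = ∅ := by
      ext p
      simp only [mem_pr, notMem_empty, iff_false]
      rintro ⟨-, h1, h2⟩
      push_cast at h2
      linarith
    rw [this]
    simp
  | succ K ih =>
    have hK : (0 : ℝ) ≤ K := Nat.cast_nonneg K
    have hsub : pr L (((K + 1 : ℕ) + 1) * L) ⊆
        pr L ((K + 1) * L) ∪ pr ((K + 1) * L) ((K + 2) * L) := by
      intro p hp
      rw [mem_pr] at hp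
      rw [mem_union, mem_pr, mem_pr]
      push_cast at hp
      by_cases h : Real.log p ≤ (K + 1) * L
      · exact Or.inl ⟨hp.1, hp.2.1, h⟩
      · exact Or.inr ⟨hp.1, not_le.1 h, by linarith [hp.2.2]⟩
    have hA : 1 ≤ (K + 1) * L := by nlinarith
    have h1 : ∑ p ∈ pr ((K + 1) * L) ((K + 2) * L), (p : ℝ)⁻¹ ≤ 1 + C := by
      have h2 := (abs_le.1 (hM ((K + 1) * L) ((K + 2) * L) (by linarith) (by nlinarith))).2
      have h3 : Real.log ((K + 2) * L / ((K + 1) * L)) ≤ 1 := by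
        refine (Real.log_le_sub_one_of_pos (by positivity)).trans ?_
        rw [sub_le_iff_le_add, div_le_iff₀ (by positivity)]
        nlinarith
      have h4 : C / ((K + 1) * L) ≤ C := div_le_self hC hA
      linarith
    have h5 : ∑ p ∈ pr ((K + 1) * L) ((K + 2) * L), Real.exp (-((1 + 1 / L) * Real.log p)) ≤
        (1 / 2) ^ (K + 1) * (1 + C) := by
      refine le_trans ?_ (mul_le_mul_of_nonneg_left h1 (by positivity))
      rw [mul_sum]
      refine sum_le_sum fun p hp => ?_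
      rw [mem_pr] at hp
      have h0 : (0 : ℝ) < p := by exact_mod_cast hp.1.pos
      have e1 : -((1 + 1 / L) * Real.log p) = -(Real.log p / L) + -Real.log p := by ring
      rw [e1, Real.exp_add, Real.exp_neg (Real.log p), Real.exp_log h0]
      refine mul_le_mul_of_nonneg_right ?_ (by positivity)
      have h6 : (K + 1 : ℝ) ≤ Real.log p / L := by
        rw [le_div_iff₀ (by linarith)]
        exact hp.2.1.le
      calc Real.exp (-(Real.log p / L)) ≤ Real.exp (((K + 1 : ℕ) : ℝ) * (-1)) :=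
            Real.exp_le_exp.2 (by push_cast; linarith)
        _ = Real.exp (-1) ^ (K + 1) := Real.exp_nat_mul _ _
        _ ≤ _ := by
            refine pow_le_pow_left₀ (Real.exp_pos _).le ?_ _
            rw [Real.exp_neg, one_div]
            exact inv_anti₀ two_pos (by linarith [Real.add_one_le_exp (1 : ℝ)])
    refine (sum_le_sum_of_subset_of_nonneg hsub fun _ _ _ => (Real.exp_pos _).le).trans ?_
    refine le_trans (sum_union_inter (f := fun p : ℕ =>
      Real.exp (-((1 + 1 / L) * Real.log p))) ▸ le_add_of_nonneg_right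
        (sum_nonneg fun _ _ => (Real.exp_pos _).le)) ?_
    calc _ ≤ (1 + C) * (1 - (1 / 2) ^ K) + (1 / 2) ^ (K + 1) * (1 + C) := add_le_add ih h5
      _ = _ := by ring

theorem zeta_le {C : ℝ} (hC : 0 ≤ C)
    (hM : ∀ A B : ℝ, 1 / 2 ≤ A → A ≤ B → |∑ p ∈ pr A B, (p : ℝ)⁻¹ - Real.log (B / A)| ≤ C / A)
    {L : ℝ} (hL : 1 ≤ L) {Q : ℕ} (hQ : Real.exp L ≤ Q) (τ : ℝ) :
    ‖riemannZeta ((1 + 1 / L : ℝ) : ℂ)‖ ≤
      Real.exp (4 * (∑ p ∈ (Icc 1 Q).filter Nat.Prime, (1 - Real.cos (τ * Real.log p)) / p +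
        2 * (1 + C))) * ‖riemannZeta ((1 + 1 / L : ℝ) + Complex.I * τ)‖ := by
  have hσ : (1 : ℝ) < 1 + 1 / L := by
    have : 0 < 1 / L := by positivity
    linarith
  have t1 := (riemannZeta_eulerProduct (s := ((1 + 1 / L : ℝ) : ℂ)) (by simpa using hσ)).norm
  have t2 := (riemannZeta_eulerProduct (s := ((1 + 1 / L : ℝ) : ℂ) + Complex.I * τ)
    (by simpa using hσ)).norm
  refine le_of_tendsto_of_tendsto' t1 (t2.const_mul _) fun n => ?_
  rw [norm_prod, norm_prod]
  refine (prod_le_prod (fun _ _ => norm_nonneg _) fun p hp =>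
    factor_le (Nat.mem_primesBelow.1 hp).2 hσ.le τ).trans ?_
  rw [prod_mul_distrib, ← Real.exp_sum, ← mul_sum]
  refine mul_le_mul_of_nonneg_right (Real.exp_le_exp.2 (mul_le_mul_of_nonneg_left ?_
    (by norm_num))) (prod_nonneg fun _ _ => norm_nonneg _)
  rw [← sum_filter_add_sum_filter_not (Nat.primesBelow n) (fun p => p ≤ Q)]
  have hc : ∀ p : ℕ, 0 ≤ 1 - Real.cos (τ * Real.log p) := fun p => by
    linarith [Real.cos_le_one (τ * Real.log p)]
  refine add_le_add ?_ ?_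
  · refine le_trans (sum_le_sum (g := fun p : ℕ => (1 - Real.cos (τ * Real.log p)) / p)
      fun p hp => ?_) (sum_le_sum_of_subset_of_nonneg ?_ fun p _ _ =>
        div_nonneg (hc p) (Nat.cast_nonneg p))
    · have h1 := (Nat.mem_primesBelow.1 (mem_filter.1 hp).1).2
      rw [div_eq_inv_mul _ (p : ℝ)]
      exact mul_le_mul_of_nonneg_right (exp_le_inv h1.pos hσ.le) (hc p)
    · intro p hp
      have h1 := (Nat.mem_primesBelow.1 (mem_filter.1 hp).1).2
      exact mem_filter.2 ⟨mem_Icc.2 ⟨h1.pos, (mem_filter.1 hp).2⟩, h1⟩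
  · have h2 := tail_le hC hM hL n
    have h3 : (1 + C) * (1 - (1 / 2 : ℝ) ^ n) ≤ 1 + C := by
      have : (0 : ℝ) ≤ (1 / 2) ^ n := by positivity
      nlinarith
    refine le_trans ?_ (mul_le_mul_of_nonneg_left (h2.trans h3) zero_le_two)
    rw [mul_sum]
    refine le_trans (sum_le_sum (g := fun p : ℕ => 2 * Real.exp (-((1 + 1 / L) * Real.log p)))
      fun p _ => ?_) (sum_le_sum_of_subset_of_nonneg ?_ fun p _ _ => by positivity)
    · rw [mul_comm 2]
      exact mul_le_mul_of_nonneg_left (by linarith [Real.neg_one_le_cos (τ * Real.log p)])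
        (Real.exp_pos _).le
    · intro p hp
      obtain ⟨h4, h5⟩ := Nat.mem_primesBelow.1 (mem_filter.1 hp).1
      have h6 : (Q : ℝ) < p := by exact_mod_cast not_le.1 (mem_filter.1 hp).2
      have h0 : (0 : ℝ) < p := by exact_mod_cast h5.pos
      refine mem_pr.2 ⟨h5, (Real.lt_log_iff_exp_lt h0).2 (by linarith), ?_⟩
      have h7 : (p : ℝ) ≤ n := by exact_mod_cast h4.le
      have h8 := Real.log_le_sub_one_of_pos h0
      nlinarith [Nat.cast_nonneg (α := ℝ) n]

theorem zeta_ge : ∀ᶠ L : ℝ in atTop, L / 2 ≤ ‖riemannZeta ((1 + 1 / L : ℝ) : ℂ)‖ := by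
  have t1 : Tendsto (fun L : ℝ => ((1 + 1 / L : ℝ) : ℂ)) atTop (𝓝[≠] 1) := by
    refine tendsto_nhdsWithin_iff.2 ⟨?_, ?_⟩
    · have h1 : Tendsto (fun L : ℝ => (1 + 1 / L : ℝ)) atTop (𝓝 (1 + 0)) :=
        tendsto_const_nhds.add (tendsto_const_nhds.div_atTop tendsto_id)
      have h2 := (Complex.continuous_ofReal.tendsto _).comp h1
      rw [add_zero, Complex.ofReal_one] at h2
      exact h2
    · filter_upwards [eventually_gt_atTop (0 : ℝ)] with L hL
      intro h
      have h' : ((1 + 1 / L : ℝ) : ℂ) = 1 := h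
      have h2 : (1 + 1 / L : ℝ) = 1 := by exact_mod_cast h'
      have : 0 < 1 / L := by positivity
      linarith
  have t2 := (riemannZeta_residue_one.comp t1).norm
  rw [norm_one] at t2
  filter_upwards [t2.eventually_const_le (by norm_num : (1 / 2 : ℝ) < 1),
    eventually_gt_atTop (0 : ℝ)] with L h hL
  simp only [Function.comp_apply, norm_mul] at h
  have e : ‖((1 + 1 / L : ℝ) : ℂ) - 1‖ = 1 / L := by
    rw [← Complex.ofReal_one, ← Complex.ofReal_sub, Complex.norm_real, Real.norm_eq_abs,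
      add_sub_cancel_left, abs_of_pos (by positivity)]
  rw [e] at h
  have h3 := mul_le_mul_of_nonneg_left h hL.le
  rw [← mul_assoc, mul_one_div_cancel hL.ne', one_mul] at h3
  linarith

end COS

open COS in
theorem cosl : ZbStmt → MerStmt → CosStmt := by
  rintro hZ ⟨C, hC, hM, -, -⟩ A κ hκ
  set k : ℝ := min κ 1 with hk
  have hk0 : 0 < k := lt_min hκ one_pos
  set E : ℝ := Real.exp (4 * (A + 2 * (1 + C))) with hE
  have hE0 : 0 < E := Real.exp_pos _
  set ε : ℝ := k / (10 * E) with hε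
  have hε0 : 0 < ε := by positivity
  obtain ⟨D, hD⟩ := hZ ε hε0
  have tl : Tendsto (fun X : ℕ => Real.log X) atTop atTop :=
    Real.tendsto_log_atTop.comp tendsto_natCast_atTop_atTop
  have tk : Tendsto (fun X : ℕ => k * Real.log X) atTop atTop := tl.const_mul_atTop hk0
  refine ⟨ε⁻¹, ?_⟩
  filter_upwards [tk.eventually zeta_ge, tk.eventually_ge_atTop 1,
    (tl.const_mul_atTop hε0).eventually_ge_atTop D, eventually_ge_atTop 2]
    with X h1 h2 h3 h4 τ hτ1 hτ2 Q hQ
  have hX : (2 : ℝ) ≤ X := by exact_mod_cast h4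
  have hl : 0 < Real.log X := Real.log_pos (by linarith)
  have hτ0 : 0 < |τ| := lt_of_lt_of_le (by positivity) hτ1
  have hQ' : Real.exp (k * Real.log X) ≤ Q := by
    refine le_trans ?_ hQ
    rw [Real.rpow_def_of_pos (by linarith), mul_comm]
    exact Real.exp_le_exp.2 (mul_le_mul_of_nonneg_left (min_le_left _ _) hl.le)
  have h5 := zeta_le hC hM h2 hQ' τ
  have h6 := hD (1 + 1 / (k * Real.log X)) τ
    (by have : 0 < 1 / (k * Real.log X) := by positivity
        linarith)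
    (by have : 1 / (k * Real.log X) ≤ 1 := (div_le_one (by linarith)).2 h2
        linarith) (abs_pos.1 hτ0)
  have h7 : Real.log (|τ| + 2) ≤ 3 * Real.log X := by
    have : Real.log (|τ| + 2) ≤ Real.log ((X : ℝ) ^ 3) :=
      Real.log_le_log (by positivity) (by nlinarith)
    rw [Real.log_pow] at this
    exact_mod_cast this
  have h8 : 1 / |τ| ≤ ε * Real.log X := by
    rw [div_le_iff₀ hl, inv_le_iff_one_le_mul₀ hε0] at hτ1
    rw [div_le_iff₀ hτ0]
    linarith
  have h9 : ‖riemannZeta ((1 + 1 / (k * Real.log X) : ℝ) + Complex.I * τ)‖ ≤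
      5 * ε * Real.log X := by nlinarith
  set S := ∑ p ∈ (Icc 1 Q).filter Nat.Prime, (1 - Real.cos (τ * Real.log p)) / p
  have h10 : k * Real.log X / 2 ≤ Real.exp (4 * (S + 2 * (1 + C))) * (5 * ε * Real.log X) :=
    h1.trans (h5.trans (mul_le_mul_of_nonneg_left h9 (Real.exp_pos _).le))
  have h11 : k * Real.log X / 2 = E * (5 * ε * Real.log X) := by
    rw [hε]
    field_simp
    norm_num
  rw [h11] at h10
  have h12 := Real.exp_le_exp.1 (le_of_mul_le_mul_right h10 (by positivity))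
  linarith

end Pool.Agent.MP_ca0a54_nt.H78M
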