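import Pool.Agent.MP_ca0a54_nt.H78M.Spec
import Pool.Agent.MP_57adf2_an.H72.Avg

/-! The Turan-Kubilius decomposition of the localised Dirichlet polynomial. -/

open Filter Finset MeasureTheory

namespace Pool.Agent.MP_ca0a54_nt.H78M

namespace DEC

theorem abs_exp_sub_one (y : ℝ) : |Real.exp y - 1| ≤ |y| * Real.exp |y| := by
  have h1 : 1 - y ≤ Real.exp (-y) := by linarith [Real.add_one_le_exp (-y)]
  have h2 : Real.exp y * Real.exp (-y) = 1 := by rw [← Real.exp_add]; simp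
  have h3 : Real.exp y ≤ Real.exp |y| := Real.exp_le_exp.2 (le_abs_self y)
  have h4 : 1 ≤ Real.exp |y| := Real.one_le_exp (abs_nonneg y)
  have h5 := Real.add_one_le_exp y
  have h6 := Real.exp_pos y
  have h7 : y * Real.exp y ≤ |y| * Real.exp |y| :=
    mul_le_mul (le_abs_self y) h3 h6.le (abs_nonneg y)
  have h8 : -y ≤ |y| * Real.exp |y| := by nlinarith [neg_abs_le y, abs_nonneg y]
  rw [abs_le]
  constructor
  · linarith
  · nlinarith

theorem gw_lip {x θ δ : ℝ} (h0 : 0 ≤ θ) (h1 : θ ≤ δ) (h2 : δ ≤ 1) :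
    |gw 1 (x - θ) - gw 1 x| ≤ Real.exp 9 * δ * gw (1 / 2) x := by
  have e1 : gw 1 (x - θ) - gw 1 x = gw 1 x * (Real.exp (θ * (2 * x - θ)) - 1) := by
    rw [mul_sub, mul_one, gw, gw, ← Real.exp_add]
    congr 2
    ring
  have e2 : |θ * (2 * x - θ)| ≤ δ * (2 * |x| + 1) := by
    rw [abs_mul, abs_of_nonneg h0]
    refine mul_le_mul h1 ?_ (abs_nonneg _) (h0.trans h1)
    rw [abs_le]
    constructor <;> linarith [le_abs_self x, neg_abs_le x]
  have e3 : δ * (2 * |x| + 1) ≤ 2 * |x| + 1 :=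
    mul_le_of_le_one_left (by positivity) h2
  have e4 : 2 * |x| + 1 ≤ Real.exp (2 * |x|) := Real.add_one_le_exp _
  have hδ : 0 ≤ δ := h0.trans h1
  have e5 : |Real.exp (θ * (2 * x - θ)) - 1| ≤
      δ * Real.exp (2 * |x|) * Real.exp (2 * |x| + 1) :=
    (abs_exp_sub_one _).trans (mul_le_mul (e2.trans (mul_le_mul_of_nonneg_left e4 hδ))
      (Real.exp_le_exp.2 (e2.trans e3)) (Real.exp_pos _).le (by positivity))
  have e6 : gw 1 x * (Real.exp (2 * |x|) * Real.exp (2 * |x| + 1)) ≤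
      Real.exp 9 * gw (1 / 2) x := by
    rw [gw, gw, ← Real.exp_add, ← Real.exp_add, ← Real.exp_add]
    refine Real.exp_le_exp.2 ?_
    nlinarith [sq_nonneg (|x| - 4), sq_abs x]
  rw [e1, abs_mul, abs_of_pos (gw_pos _ _)]
  calc gw 1 x * |Real.exp (θ * (2 * x - θ)) - 1|
      ≤ gw 1 x * (δ * Real.exp (2 * |x|) * Real.exp (2 * |x| + 1)) :=
        mul_le_mul_of_nonneg_left e5 (gw_pos _ _).le
    _ = δ * (gw 1 x * (Real.exp (2 * |x|) * Real.exp (2 * |x| + 1))) := by ring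
    _ ≤ δ * (Real.exp 9 * gw (1 / 2) x) := mul_le_mul_of_nonneg_left e6 hδ
    _ = _ := by ring

theorem gw_tail {x θ δ D : ℝ} (h0 : 0 ≤ θ) (h1 : θ ≤ 1) (hD : 0 ≤ D) (hx : D ≤ x)
    (hδ : Real.exp (-(D ^ 2 / 4)) ≤ δ) : gw 1 (x - θ) ≤ Real.exp 9 * δ * gw (1 / 2) x := by
  have e1 : gw 1 (x - θ) ≤ Real.exp 9 * Real.exp (-(D ^ 2 / 4)) * gw (1 / 2) x := by
    rw [gw, gw, ← Real.exp_add, ← Real.exp_add]
    refine Real.exp_le_exp.2 ?_
    have : D ^ 2 ≤ x ^ 2 := pow_le_pow_left₀ hD hx 2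
    nlinarith [sq_nonneg (x / 2 - 2 * θ), mul_le_mul h1 h1 h0 zero_le_one]
  refine e1.trans (mul_le_mul_of_nonneg_right ?_ (gw_pos _ _).le)
  exact mul_le_mul_of_nonneg_left hδ (Real.exp_pos _).le

theorem gw_mono (x : ℝ) : gw 1 x ≤ gw (1 / 2) x :=
  Real.exp_le_exp.2 (by nlinarith [sq_nonneg x])

theorem reindex (F : ℕ → ℂ) {p Z K : ℕ} (hp : 0 < p) (hK : p * Z ≤ K) :
    ∑ m ∈ Icc 1 Z, F (p * m) = ∑ n ∈ Icc 1 K, if p ∣ n ∧ n ≤ p * Z then F n else 0 := by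
  rw [← sum_filter]
  refine sum_bij (fun n _ => p * n) ?_ ?_ ?_ (fun _ _ => rfl)
  · intro n hn
    simp only [mem_Icc, mem_filter] at hn ⊢
    have := Nat.mul_le_mul_left p hn.2
    exact ⟨⟨Nat.mul_pos hp hn.1, this.trans hK⟩, dvd_mul_right _ _, this⟩
  · intro n _ m _ h
    exact Nat.eq_of_mul_eq_mul_left hp h
  · intro n hn
    simp only [mem_Icc, mem_filter] at hn
    obtain ⟨⟨h1, -⟩, ⟨m, rfl⟩, h2⟩ := hn
    exact ⟨m, mem_Icc.2 ⟨Nat.pos_of_mul_pos_left h1, Nat.le_of_mul_le_mul_left h2 hp⟩, rfl⟩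

/-- the weight of `n` in one product -/
noncomputable def wt (Z p : ℕ) (L u : ℝ) (n : ℕ) : ℝ :=
  if p ∣ n ∧ n ≤ p * Z then gw 1 (Real.log n - u - (Real.log p - L)) else 0

theorem term_eq (a c : ℕ → ℂ) {Z K p : ℕ} (L u t : ℝ) (hp : 0 < p) (hK : p * Z ≤ K)
    (ha : ∀ m, 1 ≤ m → a (p * m) = c p * a m) :
    c p / p * nt t p * Phi a Z (u - L) t =
      ∑ n ∈ Icc 1 K, a n / n * (wt Z p L u n : ℝ) * nt t n := by
  have h := reindex (fun n => a n / n * (gw 1 (Real.log n - u - (Real.log p - L)) : ℝ) * nt t n)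
    hp hK
  have h2 : ∀ n ∈ Icc 1 K, a n / n * (wt Z p L u n : ℝ) * nt t n =
      if p ∣ n ∧ n ≤ p * Z then
        a n / n * (gw 1 (Real.log n - u - (Real.log p - L)) : ℝ) * nt t n else 0 := by
    intro n _
    unfold wt
    split_ifs <;> simp
  rw [sum_congr rfl h2, ← h, Phi, ps, dv, mul_sum]
  refine sum_congr rfl fun m hm => ?_
  have hm1 := (mem_Icc.1 hm).1
  have hm0 : m ≠ 0 := by omega
  have e : Real.log (p * m : ℕ) - u - (Real.log p - L) = Real.log m - (u - L) := by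
    rw [Nat.cast_mul, Real.log_mul (Nat.cast_ne_zero.2 hp.ne') (Nat.cast_ne_zero.2 hm0)]
    ring
  rw [e, nt_mul t hp.ne' hm0, ha m hm1, Nat.cast_mul]
  ring

theorem Phi_eq (a : ℕ → ℂ) {Z K : ℕ} (u t : ℝ) (hK : Z ≤ K) :
    Phi a Z u t = ∑ n ∈ Icc 1 K,
      a n / n * ((if n ≤ Z then gw 1 (Real.log n - u) else 0 : ℝ) : ℂ) * nt t n := by
  have h : Icc 1 Z = (Icc 1 K).filter (· ≤ Z) := by
    ext n
    simp only [mem_Icc, mem_filter]
    omega
  rw [Phi, ps, dv, h, sum_filter]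
  refine sum_congr rfl fun n _ => ?_
  split_ifs <;> simp

theorem wt_le {Z p n : ℕ} {L u δ : ℝ} (hδ0 : 0 < δ) (hδ : δ ≤ 1) (hp : 0 < p)
    (h1 : L ≤ Real.log p) (h2 : Real.log p ≤ L + δ) (hu : u ≤ Real.log Z)
    (hZ : Real.exp (-((Real.log Z - u) ^ 2 / 4)) ≤ δ) (hn : 1 ≤ n) :
    |wt Z p L u n - (if p ∣ n then 1 else 0) * (if n ≤ Z then gw 1 (Real.log n - u) else 0)| ≤
      (if p ∣ n then 1 else 0) * (Real.exp 9 * δ * gw (1 / 2) (Real.log n - u)) := by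
  unfold wt
  by_cases hd : p ∣ n
  · rw [if_pos hd, one_mul, one_mul]
    by_cases hnZ : n ≤ Z
    · rw [if_pos hnZ, if_pos ⟨hd, hnZ.trans (Nat.le_mul_of_pos_left Z hp)⟩]
      exact gw_lip (by linarith) (by linarith) hδ
    · rw [if_neg hnZ, sub_zero]
      split_ifs with h
      · rw [abs_of_pos (gw_pos _ _)]
        refine gw_tail (by linarith) (by linarith) (sub_nonneg.2 hu) ?_ hZ
        have hZ0 : 0 < Z := Nat.pos_of_mul_pos_left (lt_of_lt_of_le hn h.2)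
        have : Real.log Z ≤ Real.log n :=
          Real.log_le_log (by exact_mod_cast hZ0) (by exact_mod_cast (not_le.1 hnZ).le)
        linarith
      · rw [abs_zero]
        have := gw_pos (1 / 2) (Real.log n - u)
        positivity
  · simp [hd]

theorem sq_bound {y d E : ℝ} (hE : 1 ≤ E) (hd0 : 0 ≤ d) (hd : d ≤ 1) :
    (|1 - y| + E * d * y) ^ 2 ≤ 6 * E ^ 2 * (1 - y) ^ 2 + 4 * E ^ 2 * d ^ 2 := by
  have h1 : (|1 - y| + E * d * y) ^ 2 ≤ 2 * (1 - y) ^ 2 + 2 * (E * d * y) ^ 2 := by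
    nlinarith [sq_nonneg (|1 - y| - E * d * y), sq_abs (1 - y)]
  have h2 : y ^ 2 ≤ 2 + 2 * (1 - y) ^ 2 := by nlinarith [sq_nonneg (y - 2)]
  have h3 : (E * d * y) ^ 2 ≤ (E * d) ^ 2 * (2 + 2 * (1 - y) ^ 2) := by
    rw [mul_pow]
    exact mul_le_mul_of_nonneg_left h2 (sq_nonneg _)
  have h4 : 1 ≤ E ^ 2 := one_le_pow₀ hE
  have h5 : d ^ 2 ≤ 1 := pow_le_one₀ hd0 hd
  have h6 : E ^ 2 * (1 - y) ^ 2 * d ^ 2 ≤ E ^ 2 * (1 - y) ^ 2 :=
    mul_le_of_le_one_right (by positivity) h5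
  have h7 : (1 - y) ^ 2 ≤ E ^ 2 * (1 - y) ^ 2 := le_mul_of_one_le_left (sq_nonneg _) h4
  nlinarith

end DEC

open DEC in
theorem dec : GmStmt → DecStmt := by
  rintro ⟨C, hC, hG⟩
  refine ⟨C * (12 * Real.exp 9 ^ 2), by positivity, ?_⟩
  intro a c Z V P L δ u T S ha _ hδ0 hδ hT hP hdis hS hS1 hu hZ
  have hS0 : 0 < S := by linarith
  have hE : 1 ≤ Real.exp 9 := Real.one_le_exp (by norm_num)
  obtain ⟨M, hM1, hM⟩ : ∃ M : ℕ, 1 ≤ M ∧ ∀ v ∈ V, ∀ p ∈ P v, p ≤ M :=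
    ⟨(V.biUnion P).sup id + 1, by omega, fun v hv p hp =>
      (le_sup (f := id) (mem_biUnion.2 ⟨v, hv, hp⟩)).trans (Nat.le_succ _)⟩
  set om : ℕ → ℝ := fun n => ∑ v ∈ V, ∑ p ∈ P v, if p ∣ n then (1 : ℝ) else 0 with hom
  set w0 : ℕ → ℝ := fun n => if n ≤ Z then gw 1 (Real.log n - u) else 0 with hw0
  set r : ℕ → ℝ := fun n => w0 n - S⁻¹ * ∑ v ∈ V, ∑ p ∈ P v, wt Z p (L v) u n with hr
  set B : ℝ := ∑ v ∈ V, ((P v).card : ℝ) with hB
  have hB0 : 0 ≤ B := sum_nonneg fun _ _ => Nat.cast_nonneg _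
  have hom0 : ∀ n, 0 ≤ om n := fun n =>
    sum_nonneg fun _ _ => sum_nonneg fun _ _ => by split_ifs <;> norm_num
  have key : ∀ t, Phi a Z u t - (S : ℂ)⁻¹ * ∑ v ∈ V, pp c (P v) t * Phi a Z (u - L v) t =
      dv (fun n => a n / n * (r n : ℝ)) (Icc 1 (M * Z)) t := by
    intro t
    have h1 : ∑ v ∈ V, pp c (P v) t * Phi a Z (u - L v) t = ∑ n ∈ Icc 1 (M * Z),
        a n / n * ((∑ v ∈ V, ∑ p ∈ P v, wt Z p (L v) u n : ℝ) : ℂ) * nt t n := by
      push_cast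
      simp only [mul_sum, sum_mul]
      rw [sum_comm]
      refine sum_congr rfl fun v hv => ?_
      rw [sum_comm, pp, dv, sum_mul]
      refine sum_congr rfl fun p hp => ?_
      obtain ⟨h1, -, -, h4⟩ := hP v hv p hp
      exact term_eq a c (L v) u t h1.pos (Nat.mul_le_mul_right Z (hM v hv p hp)) h4
    rw [h1, Phi_eq a u t (Nat.le_mul_of_pos_left Z hM1), dv, mul_sum, ← sum_sub_distrib]
    refine sum_congr rfl fun n _ => ?_
    simp only [hr, hw0]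
    push_cast
    ring
  have hvar : ∀ N : ℕ, ∑ n ∈ Ioc 0 N, (om n - S) ^ 2 ≤ N * S + 2 * S * B := by
    intro N
    have hpd : (V : Set ℕ).PairwiseDisjoint P := fun v hv w hw h => hdis v hv w hw h
    have h := Pool.Agent.MP_57adf2_an.H72.variance_le (V.biUnion P) (fun p hp => by
      obtain ⟨v, hv, hp⟩ := mem_biUnion.1 hp
      exact (hP v hv p hp).1) N
    simp only [sum_biUnion hpd, card_biUnion hpd, Nat.cast_sum] at h
    rwa [← hS] at h
  clear_value B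
  simp only [key]
  refine (hG (fun n => a n / n * (r n : ℝ))
    (fun n => |1 - om n / S| + Real.exp 9 * δ * (om n / S)) (Icc 1 (M * Z))
    (12 * Real.exp 9 ^ 2 * (S⁻¹ + δ ^ 2)) (12 * Real.exp 9 ^ 2 * (S⁻¹ + δ ^ 2) * B) u T
    (by positivity) (by positivity) hT ?_ ?_).trans_eq (by ring)
  · intro N
    have h1 : ∑ n ∈ Ioc 0 N, (1 - om n / S) ^ 2 ≤ N * S⁻¹ + 2 * S⁻¹ * B := by
      have e : ∀ n ∈ Ioc 0 N, (1 - om n / S) ^ 2 = S⁻¹ ^ 2 * (om n - S) ^ 2 := fun n _ => by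
        field_simp
        ring
      rw [sum_congr rfl e, ← mul_sum]
      refine (mul_le_mul_of_nonneg_left (hvar N) (sq_nonneg _)).trans_eq ?_
      field_simp
    refine (sum_le_sum fun n _ => sq_bound hE hδ0.le hδ).trans ?_
    rw [sum_add_distrib, ← mul_sum, sum_const, Nat.card_Ioc, tsub_zero, nsmul_eq_mul]
    have h2 := mul_le_mul_of_nonneg_left h1 (show 0 ≤ 6 * Real.exp 9 ^ 2 by positivity)
    have h3 : 0 ≤ Real.exp 9 ^ 2 * (N * S⁻¹) := by positivity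
    have h4 : 0 ≤ Real.exp 9 ^ 2 * (N * δ ^ 2) := by positivity
    have h5 : 0 ≤ Real.exp 9 ^ 2 * (B * δ ^ 2) := by positivity
    nlinarith
  · intro n hn
    have hn1 := (mem_Icc.1 hn).1
    refine ⟨hn1, ?_⟩
    set g := gw (1 / 2) (Real.log n - u) with hg
    have hg0 : 0 < g := gw_pos _ _
    have h1 : |w0 n| ≤ g := by
      simp only [hw0]
      split_ifs
      · rw [abs_of_pos (gw_pos _ _)]
        exact gw_mono _
      · simpa using hg0.le
    have h2 : |∑ v ∈ V, ∑ p ∈ P v, wt Z p (L v) u n - om n * w0 n| ≤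
        om n * (Real.exp 9 * δ * g) := by
      simp only [hom, sum_mul, ← sum_sub_distrib]
      refine (abs_sum_le_sum_abs _ _).trans (sum_le_sum fun v hv => ?_)
      refine (abs_sum_le_sum_abs _ _).trans (sum_le_sum fun p hp => ?_)
      obtain ⟨e1, e2, e3, -⟩ := hP v hv p hp
      exact wt_le hδ0 hδ e1.pos e2 e3 hu hZ hn1
    have h3 : r n = (1 - om n / S) * w0 n -
        S⁻¹ * (∑ v ∈ V, ∑ p ∈ P v, wt Z p (L v) u n - om n * w0 n) := by
      simp only [hr]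
      ring
    have h4 : |r n| ≤ (|1 - om n / S| + Real.exp 9 * δ * (om n / S)) * g := by
      rw [h3]
      refine (abs_sub _ _).trans ?_
      rw [abs_mul, abs_mul, abs_of_pos (inv_pos.2 hS0)]
      calc _ ≤ |1 - om n / S| * g + S⁻¹ * (om n * (Real.exp 9 * δ * g)) :=
            add_le_add (mul_le_mul_of_nonneg_left h1 (abs_nonneg _))
              (mul_le_mul_of_nonneg_left h2 (inv_pos.2 hS0).le)
        _ = _ := by ring
    have h5 : 0 ≤ |1 - om n / S| + Real.exp 9 * δ * (om n / S) := by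
      have := hom0 n
      positivity
    rw [abs_of_nonneg h5, norm_mul, norm_div, Complex.norm_natCast, Complex.norm_real,
      Real.norm_eq_abs, div_mul_eq_mul_div]
    refine div_le_div_of_nonneg_right ?_ (Nat.cast_nonneg _)
    exact (mul_le_of_le_one_left (abs_nonneg _) (ha n)).trans h4

end Pool.Agent.MP_ca0a54_nt.H78M
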