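import Pool.Agent.MP_ca0a54_nt.H78M.Spec

/-! Euler product over smooth numbers and the Rankin tail bound. -/

open Filter Finset MeasureTheory

namespace Pool.Agent.MP_ca0a54_nt.H78M

namespace EUL

theorem inv_le_exp {x : ℝ} (hx : x ≤ 3 / 4) : (1 - x)⁻¹ ≤ Real.exp (x + 4 * x ^ 2) := by
  have h1 : 0 < 1 - x := by linarith
  have h2 := Real.one_sub_inv_le_log_of_pos h1
  rw [← Real.exp_log (inv_pos.2 h1), Real.log_inv]
  apply Real.exp_le_exp.2
  have h3 : (1 - x)⁻¹ - 1 ≤ x + 4 * x ^ 2 := by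
    rw [sub_le_iff_le_add, inv_le_iff_one_le_mul₀ h1]
    nlinarith [sq_nonneg x, mul_nonneg (sq_nonneg x) (sub_nonneg.2 hx)]
  linarith

theorem norm_inv_le {z : ℂ} (hz : ‖z‖ ≤ 3 / 4) :
    ‖(1 - z)⁻¹‖ ≤ Real.exp (z.re + 4 * ‖z‖ ^ 2) := by
  have h1 : |z.re| ≤ ‖z‖ := Complex.abs_re_le_norm z
  have h2 : z.re ≤ 3 / 4 := (le_abs_self _).trans (h1.trans hz)
  have h3 : 1 - z.re ≤ ‖1 - z‖ := by
    simpa using Complex.re_le_norm (1 - z)
  have h4 : z.re ^ 2 ≤ ‖z‖ ^ 2 := by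
    rw [← sq_abs]
    exact pow_le_pow_left₀ (abs_nonneg _) h1 2
  rw [norm_inv]
  refine (inv_anti₀ (by linarith) h3).trans ((inv_le_exp h2).trans (Real.exp_le_exp.2 ?_))
  linarith

theorem sum_inv_sq (Q : ℕ) : ∑ p ∈ (Icc 1 Q).filter Nat.Prime, ((p : ℝ)⁻¹) ^ 2 ≤ 2 := by
  have h := sum_Ioo_inv_sq_le (α := ℝ) 0 (Q + 1)
  refine le_trans (sum_le_sum_of_subset_of_nonneg (t := Ioo 0 (Q + 1)) ?_ fun _ _ _ => by
    positivity) ?_
  · intro p hp
    simp only [mem_filter, mem_Icc] at hp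
    simp only [mem_Ioo]
    omega
  · simpa [inv_pow] using h

theorem primesBelow_eq (Q : ℕ) : (Q + 1).primesBelow = (Icc 1 Q).filter Nat.Prime := by
  ext p
  simp only [Nat.mem_primesBelow, mem_filter, mem_Icc]
  constructor
  · rintro ⟨h, hp⟩
    exact ⟨⟨hp.pos, by omega⟩, hp⟩
  · rintro ⟨⟨-, h⟩, hp⟩
    exact ⟨by omega, hp⟩

/-- the summand as a monoid homomorphism -/
noncomputable def gh (f : ℕ → ℂ) (hf : CM f) (s : ℝ) : ℕ →* ℂ where
  toFun n := f n / n * nt s n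
  map_one' := by simp [hf.2.1, nt_one]
  map_mul' m n := by
    rcases eq_or_ne m 0 with rfl | hm
    · simp
    rcases eq_or_ne n 0 with rfl | hn
    · simp
    rw [hf.2.2, nt_mul s hm hn]
    push_cast
    ring

/-- real powers as a monoid homomorphism -/
noncomputable def rh (e : ℝ) : ℕ →* ℝ where
  toFun n := (n : ℝ) ^ e
  map_one' := by simp
  map_mul' m n := by
    push_cast
    exact Real.mul_rpow (Nat.cast_nonneg m) (Nat.cast_nonneg n)

theorem norm_gh (f : ℕ → ℂ) (hf : CM f) (s : ℝ) (n : ℕ) : ‖gh f hf s n‖ ≤ (n : ℝ)⁻¹ := by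
  change ‖f n / n * nt s n‖ ≤ _
  rw [norm_mul, norm_nt, mul_one, norm_div, Complex.norm_natCast, ← one_div]
  exact div_le_div_of_nonneg_right (hf.1 n) (Nat.cast_nonneg n)

theorem inv_prime_le {p : ℕ} (hp : p.Prime) : (p : ℝ)⁻¹ ≤ 1 / 2 := by
  rw [one_div]
  exact inv_anti₀ two_pos (by exact_mod_cast hp.two_le)

theorem prod_gh (f : ℕ → ℂ) (hf : CM f) (s : ℝ) (Q : ℕ) :
    ‖∏ p ∈ (Icc 1 Q).filter Nat.Prime, (1 - gh f hf s p)⁻¹‖ ≤
      Real.exp ((∑ p ∈ (Icc 1 Q).filter Nat.Prime, (p : ℝ)⁻¹) - Dq f Q s + 8) := by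
  rw [norm_prod]
  have h : ∀ p ∈ (Icc 1 Q).filter Nat.Prime, ‖(1 - gh f hf s p)⁻¹‖ ≤
      Real.exp (((p : ℝ)⁻¹ - (1 - (f p * nt s p).re) / p) + 4 * ((p : ℝ)⁻¹) ^ 2) := by
    intro p hp
    have hp' := (mem_filter.1 hp).2
    have h1 := norm_gh f hf s p
    refine (norm_inv_le (h1.trans ((inv_prime_le hp').trans (by norm_num)))).trans
      (Real.exp_le_exp.2 ?_)
    have h2 : (gh f hf s p).re = (p : ℝ)⁻¹ - (1 - (f p * nt s p).re) / p := by
      change (f p / p * nt s p).re = _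
      rw [show f p / p * nt s p = (f p * nt s p) / ((p : ℝ) : ℂ) by push_cast; ring,
        Complex.div_ofReal_re]
      ring
    have h3 := pow_le_pow_left₀ (norm_nonneg _) h1 2
    rw [h2]
    linarith
  refine (prod_le_prod (fun _ _ => norm_nonneg _) h).trans ?_
  rw [← Real.exp_sum, sum_add_distrib, sum_sub_distrib, ← mul_sum]
  apply Real.exp_le_exp.2
  have := sum_inv_sq Q
  unfold Dq
  linarith

theorem prod_rh {Q : ℕ} {θ : ℝ} (h0 : 0 ≤ θ) (h1 : θ * Real.log Q ≤ 1 / 4) :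
    ∏ p ∈ (Icc 1 Q).filter Nat.Prime, (1 - rh (θ - 1) p)⁻¹ ≤
      Real.exp ((∑ p ∈ (Icc 1 Q).filter Nat.Prime, (p : ℝ)⁻¹) +
        2 * θ * (∑ p ∈ (Icc 1 Q).filter Nat.Prime, Real.log p / p) + 18) := by
  have h : ∀ p ∈ (Icc 1 Q).filter Nat.Prime, 0 ≤ (1 - rh (θ - 1) p)⁻¹ ∧ (1 - rh (θ - 1) p)⁻¹ ≤
      Real.exp (((p : ℝ)⁻¹ + 2 * θ * (Real.log p / p)) + 9 * ((p : ℝ)⁻¹) ^ 2) := by
    intro p hp
    obtain ⟨hq, hp'⟩ := mem_filter.1 hp
    have hp0 : (0 : ℝ) < p := by exact_mod_cast hp'.pos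
    have hl0 : 0 ≤ Real.log p := Real.log_natCast_nonneg p
    have hl : Real.log p ≤ Real.log Q :=
      Real.log_le_log hp0 (by exact_mod_cast (mem_Icc.1 hq).2)
    have hx0 : 0 ≤ θ * Real.log p := mul_nonneg h0 hl0
    have hx : θ * Real.log p ≤ 1 / 4 := (mul_le_mul_of_nonneg_left hl h0).trans h1
    have he : rh (θ - 1) p = Real.exp (θ * Real.log p) * (p : ℝ)⁻¹ := by
      change (p : ℝ) ^ (θ - 1) = _
      rw [Real.rpow_sub_one hp0.ne', Real.rpow_def_of_pos hp0, mul_comm (Real.log p), div_eq_mul_inv]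
    have hb : Real.exp (θ * Real.log p) ≤ 1 + 2 * (θ * Real.log p) := by
      have := Real.abs_exp_sub_one_le (x := θ * Real.log p) (by rw [abs_of_nonneg hx0]; linarith)
      rw [abs_of_nonneg hx0] at this
      linarith [le_abs_self (Real.exp (θ * Real.log p) - 1)]
    have hi := inv_prime_le hp'
    have hi0 : 0 < (p : ℝ)⁻¹ := inv_pos.2 hp0
    have hr0 : 0 ≤ rh (θ - 1) p := by rw [he]; positivity
    have hr1 : rh (θ - 1) p ≤ (p : ℝ)⁻¹ + 2 * θ * (Real.log p / p) := by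
      rw [he]
      calc _ ≤ (1 + 2 * (θ * Real.log p)) * (p : ℝ)⁻¹ := mul_le_mul_of_nonneg_right hb hi0.le
        _ = _ := by ring
    have hr2 : rh (θ - 1) p ≤ 3 / 2 * (p : ℝ)⁻¹ := by
      rw [he]
      exact mul_le_mul_of_nonneg_right (by linarith) hi0.le
    have hr3 : rh (θ - 1) p ≤ 3 / 4 := by linarith
    refine ⟨inv_nonneg.2 (by linarith), (inv_le_exp hr3).trans (Real.exp_le_exp.2 ?_)⟩
    have := pow_le_pow_left₀ hr0 hr2 2
    nlinarith
  refine (prod_le_prod (fun p hp => (h p hp).1) fun p hp => (h p hp).2).trans ?_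
  rw [← Real.exp_sum, sum_add_distrib, sum_add_distrib, ← mul_sum, ← mul_sum]
  apply Real.exp_le_exp.2
  have := sum_inv_sq Q
  linarith

theorem split (f : ℕ → ℂ) (hf : CM f) (s : ℝ) (Q Y : ℕ) {θ : ℝ} (h0 : 0 ≤ θ) (h1 : θ < 1)
    (hY : 1 ≤ Y) :
    ‖(∏ p ∈ (Icc 1 Q).filter Nat.Prime, (1 - gh f hf s p)⁻¹) -
      dv (fun n => f n / n) (S1 Q Y) s‖ ≤
      (Y : ℝ) ^ (-θ) * ∏ p ∈ (Icc 1 Q).filter Nat.Prime, (1 - rh (θ - 1) p)⁻¹ := by
  have hg := (EulerProduct.summable_and_hasSum_smoothNumbers_prod_primesBelow_geometric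
    (f := gh f hf s) (fun {p} hp => (norm_gh f hf s p).trans_lt
      ((inv_prime_le hp).trans_lt (by norm_num))) (Q + 1)).2
  have hr := (EulerProduct.summable_and_hasSum_smoothNumbers_prod_primesBelow_geometric
    (f := rh (θ - 1)) (fun {p} hp => by
      change ‖(p : ℝ) ^ (θ - 1)‖ < 1
      rw [Real.norm_of_nonneg (by positivity)]
      exact Real.rpow_lt_one_of_one_lt_of_neg (by exact_mod_cast hp.one_lt) (by linarith))
    (Q + 1)).2
  rw [primesBelow_eq] at hg hr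
  have hS : ∀ n, n ∈ S1 Q Y ↔ n ∈ (Q + 1).smoothNumbers ∧ n ≤ Y := by
    intro n
    simp only [S1, Smo, mem_filter, mem_Icc, Nat.mem_smoothNumbers, Nat.mem_primeFactors,
      Nat.mem_primeFactorsList', Nat.lt_succ_iff]
    constructor
    · rintro ⟨⟨a, b⟩, c⟩
      exact ⟨⟨by omega, c⟩, b⟩
    · rintro ⟨⟨a, c⟩, b⟩
      exact ⟨⟨by omega, b⟩, c⟩
  have hT : HasSum (fun m : (Q + 1).smoothNumbers => if (m : ℕ) ≤ Y then gh f hf s m else 0)
      (dv (fun n => f n / n) (S1 Q Y) s) := by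
    have h2 := hasSum_sum_of_ne_finset_zero (L := SummationFilter.unconditional _)
      (f := fun m : (Q + 1).smoothNumbers => if (m : ℕ) ≤ Y then gh f hf s m else 0)
      (s := (S1 Q Y).subtype (· ∈ (Q + 1).smoothNumbers)) (fun b hb => by
        rw [mem_subtype, hS] at hb
        exact if_neg fun h => hb ⟨b.2, h⟩)
    convert h2 using 1
    rw [sum_subtype_of_mem (fun n => if n ≤ Y then gh f hf s n else 0)
      (fun n hn => ((hS n).1 hn).1)]
    exact sum_congr rfl fun n hn => (if_pos ((hS n).1 hn).2).symm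
  refine (hg.sub hT).norm_le_of_bounded (hr.mul_left _) fun m => ?_
  have hm0 : (0 : ℝ) < (m : ℕ) := by exact_mod_cast Nat.pos_of_ne_zero m.2.1
  have hY0 : (0 : ℝ) < Y := by exact_mod_cast hY
  change _ ≤ (Y : ℝ) ^ (-θ) * ((m : ℕ) : ℝ) ^ (θ - 1)
  split_ifs with h
  · rw [sub_self, norm_zero]
    positivity
  · rw [sub_zero]
    refine (norm_gh f hf s m).trans ?_
    have h3 : ((m : ℕ) : ℝ) ^ (-θ) ≤ (Y : ℝ) ^ (-θ) :=
      Real.rpow_le_rpow_of_nonpos hY0 (by exact_mod_cast (not_le.1 h).le) (by linarith)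
    refine le_trans (le_of_eq ?_) (mul_le_mul_of_nonneg_right h3 (by positivity))
    rw [← Real.rpow_add hm0, show -θ + (θ - 1) = -1 by ring, Real.rpow_neg_one]

end EUL

theorem eul : MerStmt → EulStmt := by
  rintro ⟨C, hC, h1, h2, -⟩
  refine ⟨8 * Real.exp (3 * C + 19), by positivity, fun f hf Q Y s hQ hY => ?_⟩
  have hQ' : (2 : ℝ) ≤ Q := by exact_mod_cast hQ
  have hY' : (2 : ℝ) ≤ Y := by exact_mod_cast hY
  have hL : 1 / 2 ≤ Real.log Q := by
    linarith [Real.log_two_gt_d9, Real.log_le_log two_pos hQ']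
  have hLY : 0 < Real.log Y := Real.log_pos (by linarith)
  have hL0 : 0 < Real.log Q := by linarith
  have ha := h1 (1 / 2) (Real.log Q) le_rfl hL
  have hb := h2 (Real.log Q) hL0.le
  rw [pr_log le_rfl (by omega)] at ha
  rw [pr_log (by norm_num) (by omega)] at hb
  set L := Real.log Q with hLdef
  set σ := ∑ p ∈ (Icc 1 Q).filter Nat.Prime, (p : ℝ)⁻¹ with hσ
  have hs : Real.exp σ ≤ 2 * L * Real.exp (2 * C) := by
    have h3 : σ ≤ Real.log (L / (1 / 2)) + 2 * C := by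
      have := (abs_le.1 ha).2
      have h4 : C / (1 / 2) = 2 * C := by ring
      linarith
    refine (Real.exp_le_exp.2 h3).trans_eq ?_
    rw [Real.exp_add, Real.exp_log (by positivity)]
    ring
  have hθ0 : 0 < (4 * L)⁻¹ := by positivity
  have hθ1 : (4 * L)⁻¹ ≤ 1 / 2 := by
    rw [one_div]
    exact inv_anti₀ two_pos (by linarith)
  have hθL : (4 * L)⁻¹ * L = 1 / 4 := by field_simp
  have hsp := EUL.split f hf s Q Y hθ0.le (by linarith) (by omega)
  have hg := EUL.prod_gh f hf s Q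
  have hr := EUL.prod_rh (Q := Q) hθ0.le hθL.le
  have hYp : (Y : ℝ) ^ (-(4 * L)⁻¹) ≤ 4 * (L / Real.log Y) := by
    rw [Real.rpow_def_of_pos (by linarith), mul_neg, Real.exp_neg]
    have h5 : Real.log Y * (4 * L)⁻¹ ≤ Real.exp (Real.log Y * (4 * L)⁻¹) := by
      linarith [Real.add_one_le_exp (Real.log Y * (4 * L)⁻¹)]
    refine (inv_anti₀ (by positivity) h5).trans_eq ?_
    field_simp
  have hr' : ∏ p ∈ (Icc 1 Q).filter Nat.Prime, (1 - EUL.rh ((4 * L)⁻¹ - 1) p)⁻¹ ≤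
      2 * L * Real.exp (3 * C + 19) := by
    refine hr.trans ?_
    have h6 : 2 * (4 * L)⁻¹ * (∑ p ∈ (Icc 1 Q).filter Nat.Prime, Real.log p / p) ≤ 1 + C := by
      calc _ ≤ 2 * (4 * L)⁻¹ * (L + C) := mul_le_mul_of_nonneg_left hb (by positivity)
        _ = 2 * ((4 * L)⁻¹ * L) + 2 * (4 * L)⁻¹ * C := by ring
        _ ≤ 1 + C := by
          rw [hθL]
          nlinarith
    calc _ ≤ Real.exp (σ + (C + 19)) := Real.exp_le_exp.2 (by linarith)
      _ = Real.exp σ * Real.exp (C + 19) := Real.exp_add _ _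
      _ ≤ 2 * L * Real.exp (2 * C) * Real.exp (C + 19) :=
        mul_le_mul_of_nonneg_right hs (by positivity)
      _ = _ := by rw [mul_assoc, ← Real.exp_add]; congr 2; ring
  have hg' : ‖∏ p ∈ (Icc 1 Q).filter Nat.Prime, (1 - EUL.gh f hf s p)⁻¹‖ ≤
      8 * Real.exp (3 * C + 19) * L * Real.exp (-Dq f Q s) := by
    refine hg.trans ?_
    calc _ = Real.exp σ * Real.exp 8 * Real.exp (-Dq f Q s) := by
          rw [← Real.exp_add, ← Real.exp_add]; congr 1; ring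
      _ ≤ 2 * L * Real.exp (2 * C) * Real.exp 8 * Real.exp (-Dq f Q s) := by gcongr
      _ = 2 * Real.exp (2 * C + 8) * L * Real.exp (-Dq f Q s) := by rw [Real.exp_add]; ring
      _ ≤ _ := by gcongr <;> linarith
  have hsp' := hsp.trans (mul_le_mul hYp hr' (le_trans (norm_nonneg _) hsp |> fun h =>
    nonneg_of_mul_nonneg_right h (by positivity)) (by positivity))
  have hn := norm_sub_norm_le (dv (fun n => f n / n) (S1 Q Y) s)
    (∏ p ∈ (Icc 1 Q).filter Nat.Prime, (1 - EUL.gh f hf s p)⁻¹)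
  rw [norm_sub_rev] at hn
  nlinarith

end Pool.Agent.MP_ca0a54_nt.H78M
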