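import Pool.Agent.MP_ca0a54_nt.H78M.Spec

/-! Gaussian integrals of Dirichlet polynomials. -/

open Filter Finset MeasureTheory

namespace Pool.Agent.MP_ca0a54_nt.H78M

namespace GA

theorem quad {a : ℝ} (ha : 0 < a) (β γ : ℂ) :
    Integrable (fun x : ℝ => Complex.exp (-(a : ℂ) * x ^ 2 + β * x + γ)) ∧
    ∫ x : ℝ, Complex.exp (-(a : ℂ) * x ^ 2 + β * x + γ) =
      (√(Real.pi / a) : ℝ) * Complex.exp (γ + β ^ 2 / (4 * a)) := by
  have h : (-(a : ℂ)).re < 0 := by simpa using ha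
  refine ⟨integrable_cexp_quadratic' h β γ, ?_⟩
  rw [integral_cexp_quadratic h, neg_neg, Real.sqrt_eq_rpow,
    Complex.ofReal_cpow (by positivity), mul_neg, div_neg, sub_neg_eq_add]
  push_cast
  rfl

/-- the product of two Gaussians -/
theorem prod_gw {c : ℝ} (hc : 0 < c) (x y : ℝ) :
    Integrable (fun v : ℝ => (gw c (x - v) : ℂ) * (gw c (y - v) : ℂ)) ∧
    ∫ v : ℝ, (gw c (x - v) : ℂ) * (gw c (y - v) : ℂ) =
      (√(Real.pi / (2 * c)) : ℝ) * (gw (c / 2) (x - y) : ℂ) := by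
  have h := quad (a := 2 * c) (by positivity) (2 * c * (x + y)) (-(c * (x ^ 2 + y ^ 2)))
  have e : (fun v : ℝ => (gw c (x - v) : ℂ) * (gw c (y - v) : ℂ)) = fun v : ℝ =>
      Complex.exp (-((2 * c : ℝ) : ℂ) * v ^ 2 + 2 * c * (x + y) * v + -(c * (x ^ 2 + y ^ 2))) := by
    ext v
    simp only [gw]
    push_cast
    rw [← Complex.exp_add]
    congr 1
    ring
  rw [e]
  refine ⟨h.1, h.2.trans ?_⟩
  have hc' : (c : ℂ) ≠ 0 := by exact_mod_cast hc.ne'
  simp only [gw]
  push_cast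
  congr 2
  field_simp
  ring

/-- the Fourier transform of a Gaussian -/
theorem four_gw {c : ℝ} (hc : 0 < c) (n m : ℕ) :
    Integrable (fun τ : ℝ => (gw c τ : ℂ) * (nt (-τ) n * nt τ m)) ∧
    ∫ τ : ℝ, (gw c τ : ℂ) * (nt (-τ) n * nt τ m) =
      (√(Real.pi / c) : ℝ) * (gw (4 * c)⁻¹ (Real.log n - Real.log m) : ℂ) := by
  have h := quad hc (Complex.I * (Real.log n - Real.log m)) 0
  have e : (fun τ : ℝ => (gw c τ : ℂ) * (nt (-τ) n * nt τ m)) = fun τ : ℝ =>
      Complex.exp (-(c : ℂ) * τ ^ 2 + Complex.I * (Real.log n - Real.log m) * τ + 0) := by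
    ext v
    simp only [gw, nt, Complex.ofReal_exp]
    rw [← Complex.exp_add, ← Complex.exp_add]
    congr 1
    simp only [Complex.ofReal_neg, Complex.ofReal_mul, Complex.ofReal_pow]
    ring
  rw [e]
  refine ⟨h.1, h.2.trans ?_⟩
  simp only [gw, Complex.ofReal_exp]
  congr 2
  simp only [Complex.ofReal_neg, Complex.ofReal_mul, Complex.ofReal_pow, Complex.ofReal_inv,
    Complex.ofReal_sub, Complex.ofReal_ofNat, mul_pow, Complex.I_sq]
  ring

theorem sq_sum (S : Finset ℕ) (z : ℕ → ℂ) :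
    ((‖∑ n ∈ S, z n‖ ^ 2 : ℝ) : ℂ) = ∑ n ∈ S, ∑ m ∈ S, z n * (starRingEnd ℂ) (z m) := by
  rw [← sum_mul_sum, ← map_sum, Complex.mul_conj, Complex.normSq_eq_norm_sq]

/-- the common value of the two integrals -/
noncomputable def Qf (c : ℝ) (b : ℕ → ℂ) (S : Finset ℕ) (t : ℝ) : ℂ :=
  ∑ n ∈ S, ∑ m ∈ S, b n * nt t n * (starRingEnd ℂ) (b m * nt t m) *
    (gw c (Real.log n - Real.log m) : ℂ)

theorem int_sum {S : Finset ℕ} {F : ℝ → ℝ} {B : ℕ → ℕ → ℂ} {g : ℕ → ℕ → ℝ → ℂ}
    (hg : ∀ n m, Integrable (g n m)) (hF : ∀ v, (F v : ℂ) = ∑ n ∈ S, ∑ m ∈ S, B n m * g n m v) :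
    Integrable F ∧ ((∫ v, F v : ℝ) : ℂ) = ∑ n ∈ S, ∑ m ∈ S, B n m * ∫ v, g n m v := by
  have h1 : ∀ n, Integrable fun v => ∑ m ∈ S, B n m * g n m v := fun n =>
    integrable_finsetSum _ fun m _ => (hg n m).const_mul _
  constructor
  · have h2 := (integrable_finsetSum S fun n _ => h1 n).re
    simp only [← hF] at h2
    simpa using h2
  · rw [← integral_complex_ofReal]
    simp only [hF]
    rw [integral_finsetSum _ fun n _ => h1 n]
    refine sum_congr rfl fun n _ => ?_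
    rw [integral_finsetSum _ fun m _ => (hg n m).const_mul _]
    exact sum_congr rfl fun m _ => integral_const_mul _ _

theorem en_eq {c : ℝ} (hc : 0 < c) (b : ℕ → ℂ) (S : Finset ℕ) (t : ℝ) :
    Integrable (fun τ => gw c τ * ‖dv b S (t - τ)‖ ^ 2) ∧
    (En c b S t : ℂ) = (√(Real.pi / c) : ℝ) * Qf (4 * c)⁻¹ b S t := by
  have h := int_sum (S := S) (F := fun τ => gw c τ * ‖dv b S (t - τ)‖ ^ 2)
    (B := fun n m => b n * nt t n * (starRingEnd ℂ) (b m * nt t m))
    (fun n m => (four_gw hc n m).1) (fun τ => by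
      rw [Complex.ofReal_mul, dv, sq_sum, mul_sum]
      refine sum_congr rfl fun n _ => ?_
      rw [mul_sum]
      refine sum_congr rfl fun m _ => ?_
      simp only [sub_eq_add_neg, nt_add, map_mul, conj_nt, neg_neg]
      ring)
  refine ⟨h.1, h.2.trans ?_⟩
  simp only [Qf, mul_sum, (four_gw hc _ _).2]
  exact sum_congr rfl fun n _ => sum_congr rfl fun m _ => by ring

theorem ps_eq {c : ℝ} (hc : 0 < c) (b : ℕ → ℂ) (S : Finset ℕ) (t : ℝ) :
    Integrable (fun v => ‖ps b S c v t‖ ^ 2) ∧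
    ((∫ v : ℝ, ‖ps b S c v t‖ ^ 2 : ℝ) : ℂ) = (√(Real.pi / (2 * c)) : ℝ) * Qf (c / 2) b S t := by
  have h := int_sum (S := S) (F := fun v => ‖ps b S c v t‖ ^ 2)
    (B := fun n m => b n * nt t n * (starRingEnd ℂ) (b m * nt t m))
    (fun n m => (prod_gw hc (Real.log n) (Real.log m)).1) (fun v => by
      rw [ps, dv, sq_sum]
      refine sum_congr rfl fun n _ => sum_congr rfl fun m _ => ?_
      simp only [map_mul, Complex.conj_ofReal]
      ring)
  refine ⟨h.1, h.2.trans ?_⟩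
  simp only [Qf, mul_sum, (prod_gw hc _ _).2]
  exact sum_congr rfl fun n _ => sum_congr rfl fun m _ => by ring

theorem gw_int (x : ℝ) :
    Integrable (fun v => gw 2 (x - v)) ∧ ∫ v, gw 2 (x - v) ≤ Real.pi := by
  have e : gw 2 = fun y : ℝ => Real.exp (-2 * y ^ 2) := by
    ext y
    rw [gw, neg_mul]
  rw [e]
  refine ⟨(integrable_exp_neg_mul_sq two_pos).comp_sub_left x, ?_⟩
  rw [integral_sub_left_eq_self (fun y : ℝ => Real.exp (-2 * y ^ 2)), integral_gaussian,
    Real.sqrt_le_iff]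
  constructor
  · exact Real.pi_pos.le
  · nlinarith [Real.pi_gt_three]

theorem ps_rep (b : ℕ → ℂ) (S : Finset ℕ) (x t : ℝ) :
    ∫ v : ℝ, (gw 2 (x - v) : ℂ) * ps b S 2 v t = (√(Real.pi / 4) : ℝ) * ps b S 1 x t := by
  have e : ∀ v : ℝ, (gw 2 (x - v) : ℂ) * ps b S 2 v t =
      ∑ n ∈ S, b n * nt t n * ((gw 2 (Real.log n - v) : ℂ) * (gw 2 (x - v) : ℂ)) := by
    intro v
    rw [ps, dv, mul_sum]
    exact sum_congr rfl fun n _ => by ring
  simp only [e]
  rw [integral_finsetSum _ fun n _ => (prod_gw two_pos _ _).1.const_mul _, ps, dv, mul_sum]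
  refine sum_congr rfl fun n _ => ?_
  rw [integral_const_mul, (prod_gw two_pos _ _).2]
  norm_num
  ring

/-- the inequality of Cauchy and Schwarz -/
theorem cs {g f : ℝ → ℝ} {G : ℝ} (hG : 0 < G) (h0 : ∀ v, 0 ≤ g v) (h1 : Integrable g)
    (h2 : ∫ v, g v ≤ G) (h3 : Integrable fun v => g v * f v)
    (h4 : Integrable fun v => g v * f v ^ 2) :
    (∫ v, g v * f v) ^ 2 ≤ G * ∫ v, g v * f v ^ 2 := by
  obtain ⟨y, hy⟩ : ∃ y, y = ∫ v, g v * f v := ⟨_, rfl⟩
  have h5 := integral_mono (h3.const_mul (2 * y * G))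
    ((h4.const_mul (G ^ 2)).add (h1.const_mul (y ^ 2))) (fun v => by
      simp only [Pi.add_apply]
      nlinarith [mul_nonneg (h0 v) (sq_nonneg (G * f v - y))])
  simp only [Pi.add_apply] at h5
  rw [integral_add (h4.const_mul _) (h1.const_mul _), integral_const_mul, integral_const_mul,
    integral_const_mul, ← hy] at h5
  rw [← hy]
  refine le_of_mul_le_mul_left ?_ hG
  nlinarith [mul_le_mul_of_nonneg_left h2 (sq_nonneg y)]

end GA

open GA in
theorem ga : GaStmt := by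
  intro c b S hc
  refine ⟨?_, fun t => ⟨(en_eq hc b S t).1, (ps_eq hc b S t).1, ?_⟩⟩
  · have e : En c b S = fun t => ((√(Real.pi / c) : ℝ) * Qf (4 * c)⁻¹ b S t).re := by
      ext t
      rw [← (en_eq hc b S t).2, Complex.ofReal_re]
    rw [e]
    refine Complex.continuous_re.comp (continuous_const.mul ?_)
    refine continuous_finsetSum _ fun n _ => continuous_finsetSum _ fun m _ => ?_
    exact ((continuous_const.mul (continuous_nt n)).mul (Complex.continuous_conj.comp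
      (continuous_const.mul (continuous_nt m)))).mul continuous_const
  · have h2 : 0 < 2 * c := by positivity
    apply Complex.ofReal_injective
    rw [(ps_eq hc b S t).2, Complex.ofReal_mul, (en_eq (inv_pos.2 h2) b S t).2, ← mul_assoc,
      ← Complex.ofReal_mul]
    congr 2
    · rw [show Real.pi / (2 * c)⁻¹ = (2 * c) ^ 2 * (Real.pi / (2 * c)) by field_simp,
        Real.sqrt_mul (by positivity), Real.sqrt_sq h2.le]
      field_simp
    · field_simp
      norm_num

open GA in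
theorem bes (h : GaStmt) : BesStmt := by
  intro b S P μ x K t hμ hK
  obtain ⟨-, h1, h2⟩ := (h 2 b S two_pos).2 t
  have hc : Continuous fun v => ps b S 2 v t := by
    unfold ps dv gw
    fun_prop
  have hb : ∀ v, ‖ps b S 2 v t‖ ≤ ∑ n ∈ S, ‖b n‖ := fun v =>
    (norm_dv_le _ _ _).trans (sum_le_sum fun n _ => by
      rw [norm_mul, Complex.norm_real, Real.norm_of_nonneg (gw_pos _ _).le]
      exact mul_le_of_le_one_right (norm_nonneg _) (gw_le_one two_pos.le _))
  have hi : ∀ y, Integrable fun v => gw 2 (y - v) * ‖ps b S 2 v t‖ ^ 2 := fun y =>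
    (gw_int y).1.mul_bdd (c := (∑ n ∈ S, ‖b n‖) ^ 2) (hc.norm.pow 2).aestronglyMeasurable
      (Eventually.of_forall fun v => by
        rw [Real.norm_of_nonneg (by positivity)]
        exact pow_le_pow_left₀ (norm_nonneg _) (hb v) 2)
  have h3 : ∀ y, ‖ps b S 1 y t‖ ^ 2 ≤ 4 * ∫ v, gw 2 (y - v) * ‖ps b S 2 v t‖ ^ 2 := by
    intro y
    have k1 := cs (f := fun v => ‖ps b S 2 v t‖) Real.pi_pos (fun v => (gw_pos 2 (y - v)).le)
      (gw_int y).1 (gw_int y).2 ((gw_int y).1.mul_bdd hc.norm.aestronglyMeasurable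
        (Eventually.of_forall fun v => by rw [norm_norm]; exact hb v)) (hi y)
    have k2 := norm_integral_le_integral_norm (μ := volume)
      (fun v : ℝ => (gw 2 (y - v) : ℂ) * ps b S 2 v t)
    simp only [ps_rep, norm_mul, Complex.norm_real, Real.norm_of_nonneg (gw_pos _ _).le,
      Real.norm_of_nonneg (Real.sqrt_nonneg _)] at k2
    have k3 := (pow_le_pow_left₀ (by positivity) k2 2).trans k1
    rw [mul_pow, Real.sq_sqrt (by positivity)] at k3
    refine le_of_mul_le_mul_left ?_ Real.pi_pos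
    linarith
  calc ∑ p ∈ P, μ p * ‖ps b S 1 (x p) t‖ ^ 2
      ≤ ∑ p ∈ P, 4 * ∫ v, μ p * (gw 2 (x p - v) * ‖ps b S 2 v t‖ ^ 2) :=
        sum_le_sum fun p hp => by
          rw [integral_const_mul, mul_left_comm]
          exact mul_le_mul_of_nonneg_left (h3 _) (hμ p hp)
    _ = 4 * ∫ v, ∑ p ∈ P, μ p * (gw 2 (x p - v) * ‖ps b S 2 v t‖ ^ 2) := by
        rw [← mul_sum, integral_finsetSum _ fun p _ => (hi _).const_mul _]
    _ ≤ 4 * ∫ v, K * ‖ps b S 2 v t‖ ^ 2 := by
        refine mul_le_mul_of_nonneg_left (integral_mono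
          (integrable_finsetSum _ fun p _ => (hi _).const_mul _) (h1.const_mul _) fun v => ?_)
          (by norm_num)
        simp only [← mul_assoc, ← sum_mul]
        exact mul_le_mul_of_nonneg_right (hK v) (by positivity)
    _ = K * En (1 / 4) b S t := by
        rw [integral_const_mul, h2]
        norm_num
        ring

end Pool.Agent.MP_ca0a54_nt.H78M
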