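import Pool.Agent.MP_ca0a54_nt.H78M.Spec

/-! The mean value theorem with a Gaussian localisation. -/

open Filter Finset MeasureTheory

namespace Pool.Agent.MP_ca0a54_nt.H78M

namespace GM

theorem pt {y x : ℝ} (hy : 0 < y) (K : ℕ) (h : x ≤ 2 ^ K * y) :
    min 1 ((y / x) ^ 2) ≤ ∑ k ∈ range (K + 1), if x ≤ 2 ^ k * y then 4 * (1 / 4 : ℝ) ^ k else 0 := by
  induction K with
  | zero =>
    rw [sum_range_one, if_pos h]
    exact (min_le_left _ _).trans (by norm_num)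
  | succ K ih =>
    rw [sum_range_succ, if_pos h]
    by_cases h' : x ≤ 2 ^ K * y
    · exact (ih h').trans (le_add_of_nonneg_right (by positivity))
    · push Not at h'
      have hx : 0 < x := lt_trans (by positivity) h'
      have h1 : y / x ≤ (1 / 2) ^ K := by
        rw [div_le_iff₀ hx, one_div, inv_pow, inv_mul_eq_div, le_div_iff₀ (by positivity)]
        linarith
      have h2 : (y / x) ^ 2 ≤ 4 * (1 / 4 : ℝ) ^ (K + 1) := by
        refine (pow_le_pow_left₀ (by positivity) h1 2).trans_eq ?_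
        rw [← pow_mul, mul_comm K 2, pow_mul, pow_succ (1 / 4 : ℝ)]
        norm_num
        ring
      refine ((min_le_right _ _).trans h2).trans (le_add_of_nonneg_left ?_)
      exact sum_nonneg fun k _ => by split_ifs <;> positivity

theorem sum_le {e : ℕ → ℝ} {S : Finset ℕ} {α β y : ℝ} (hα : 0 ≤ α) (hβ : 0 ≤ β) (hy : 0 < y)
    (he : ∀ N : ℕ, ∑ n ∈ Ioc 0 N, e n ^ 2 ≤ α * N + β) (hS : ∀ n ∈ S, 1 ≤ n) :
    ∑ n ∈ S, e n ^ 2 * min 1 ((y / n) ^ 2) ≤ 8 * (α * y + β) := by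
  obtain ⟨K, hK⟩ := pow_unbounded_of_one_lt (((S.sup id : ℕ) : ℝ) / y) (one_lt_two (α := ℝ))
  have hK' : ∀ n ∈ S, (n : ℝ) ≤ 2 ^ K * y := fun n hn => by
    have h1 : (n : ℝ) ≤ ((S.sup id : ℕ) : ℝ) := by exact_mod_cast le_sup (f := id) hn
    rw [div_lt_iff₀ hy] at hK
    linarith
  calc ∑ n ∈ S, e n ^ 2 * min 1 ((y / n) ^ 2)
      ≤ ∑ n ∈ S, e n ^ 2 * ∑ k ∈ range (K + 1),
          if (n : ℝ) ≤ 2 ^ k * y then 4 * (1 / 4 : ℝ) ^ k else 0 :=
        sum_le_sum fun n hn => mul_le_mul_of_nonneg_left (pt hy K (hK' n hn)) (sq_nonneg _)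
    _ = ∑ k ∈ range (K + 1), 4 * (1 / 4 : ℝ) ^ k *
          ∑ n ∈ S.filter (fun n : ℕ => (n : ℝ) ≤ 2 ^ k * y), e n ^ 2 := by
        simp only [mul_sum]
        rw [sum_comm]
        refine sum_congr rfl fun k _ => ?_
        rw [sum_filter]
        refine sum_congr rfl fun n _ => ?_
        split_ifs <;> ring
    _ ≤ ∑ k ∈ range (K + 1), 4 * (α * y + β) * (1 / 2 : ℝ) ^ k := by
        refine sum_le_sum fun k _ => ?_
        have h1 : ∑ n ∈ S.filter (fun n : ℕ => (n : ℝ) ≤ 2 ^ k * y), e n ^ 2 ≤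
            ∑ n ∈ Ioc 0 ⌊2 ^ k * y⌋₊, e n ^ 2 := by
          refine sum_le_sum_of_subset_of_nonneg (fun n hn => ?_) fun _ _ _ => sq_nonneg _
          rw [mem_filter] at hn
          exact mem_Ioc.2 ⟨hS n hn.1, Nat.le_floor hn.2⟩
        have h2 : ((⌊2 ^ k * y⌋₊ : ℕ) : ℝ) ≤ 2 ^ k * y := Nat.floor_le (by positivity)
        have h3 : (1 : ℝ) ≤ 2 ^ k := one_le_pow₀ one_le_two
        have h4 : ∑ n ∈ S.filter (fun n : ℕ => (n : ℝ) ≤ 2 ^ k * y), e n ^ 2 ≤
            2 ^ k * (α * y + β) := by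
          refine (h1.trans (he _)).trans ?_
          nlinarith [mul_le_mul_of_nonneg_left h2 hα, mul_le_mul_of_nonneg_right h3 hβ]
        refine (mul_le_mul_of_nonneg_left h4 (by positivity)).trans_eq ?_
        have h5 : (1 / 4 : ℝ) ^ k * 2 ^ k = (1 / 2) ^ k := by
          rw [← mul_pow]
          norm_num
        rw [← h5]
        ring
    _ ≤ 8 * (α * y + β) := by
        rw [← mul_sum]
        have h1 := sum_geometric_two_le (K + 1)
        have h2 : 0 ≤ α * y + β := by positivity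
        nlinarith

theorem exp_le_min {z x : ℝ} (h1 : z ≤ 1) (h2 : z ≤ 1 - 2 * x) :
    Real.exp z ≤ Real.exp 1 * min 1 (Real.exp (-x) ^ 2) := by
  rw [mul_min_of_nonneg _ _ (Real.exp_pos 1).le, mul_one, ← Real.exp_nat_mul, ← Real.exp_add]
  refine le_min (Real.exp_le_exp.2 h1) (Real.exp_le_exp.2 ?_)
  push_cast
  linarith

theorem term {n u T : ℝ} (hn : 0 < n) (hT : 0 ≤ T) :
    (gw (1 / 2) (Real.log n - u) / n) ^ 2 * (T + n) ≤
      Real.exp 1 * (Real.exp (-u) * (1 + T * Real.exp (-u))) *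
        min 1 ((Real.exp u / n) ^ 2) := by
  obtain ⟨x, rfl⟩ : ∃ x, n = Real.exp (u + x) := ⟨Real.log n - u, by simp [Real.exp_log hn]⟩
  have e1 : Real.exp u / Real.exp (u + x) = Real.exp (-x) := by
    rw [← Real.exp_sub]
    congr 1
    ring
  have e2 : (gw (1 / 2) (Real.log (Real.exp (u + x)) - u) / Real.exp (u + x)) ^ 2 =
      Real.exp (-u) * Real.exp (-u) * Real.exp (-x ^ 2 - 2 * x) := by
    rw [Real.log_exp, gw, ← Real.exp_sub, ← Real.exp_nat_mul, ← Real.exp_add, ← Real.exp_add]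
    congr 1
    push_cast
    ring
  have e3 : Real.exp (-u) * Real.exp (-x ^ 2 - 2 * x) * Real.exp (u + x) =
      Real.exp (-x ^ 2 - x) := by
    rw [← Real.exp_add, ← Real.exp_add]
    congr 1
    ring
  have b1 := exp_le_min (z := -x ^ 2 - 2 * x) (x := x) (by nlinarith [sq_nonneg (x + 1)])
    (by nlinarith [sq_nonneg x])
  have b2 := exp_le_min (z := -x ^ 2 - x) (x := x) (by nlinarith [sq_nonneg (x + 1 / 2)])
    (by nlinarith [sq_nonneg (x - 1 / 2)])
  rw [e1, e2]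
  have hu := Real.exp_pos (-u)
  calc _ = Real.exp (-u) * (T * Real.exp (-u) * Real.exp (-x ^ 2 - 2 * x) +
        Real.exp (-x ^ 2 - x)) := by rw [← e3]; ring
    _ ≤ Real.exp (-u) * (T * Real.exp (-u) * (Real.exp 1 * min 1 (Real.exp (-x) ^ 2)) +
        Real.exp 1 * min 1 (Real.exp (-x) ^ 2)) := by gcongr
    _ = _ := by ring

end GM

theorem gm : MvtStmt → GmStmt := by
  rintro ⟨C, hC, H⟩
  refine ⟨C * (8 * Real.exp 1), by positivity, fun b e S α β u T hα hβ hT he hb => ?_⟩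
  refine (H b S T (fun n hn => (hb n hn).1) hT).trans ?_
  have hu := Real.exp_pos (-u)
  have h1 : ∑ n ∈ S, ‖b n‖ ^ 2 * (T + n) ≤
      Real.exp 1 * (Real.exp (-u) * (1 + T * Real.exp (-u))) *
        ∑ n ∈ S, e n ^ 2 * min 1 ((Real.exp u / n) ^ 2) := by
    rw [mul_sum]
    refine sum_le_sum fun n hn => ?_
    have hn0 : (0 : ℝ) < n := by exact_mod_cast (hb n hn).1
    have h2 : ‖b n‖ ^ 2 ≤ e n ^ 2 * (gw (1 / 2) (Real.log n - u) / n) ^ 2 := by
      refine (pow_le_pow_left₀ (norm_nonneg _) (hb n hn).2 2).trans_eq ?_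
      rw [mul_div_assoc, mul_pow, sq_abs]
    calc ‖b n‖ ^ 2 * (T + n)
        ≤ e n ^ 2 * ((gw (1 / 2) (Real.log n - u) / n) ^ 2 * (T + n)) := by
          rw [← mul_assoc]
          exact mul_le_mul_of_nonneg_right h2 (by positivity)
      _ ≤ e n ^ 2 * _ := mul_le_mul_of_nonneg_left (GM.term hn0 hT) (sq_nonneg _)
      _ = _ := by ring
  have h2 := GM.sum_le (S := S) hα hβ (Real.exp_pos u) he fun n hn => (hb n hn).1
  have h3 : Real.exp (-u) * Real.exp u = 1 := by rw [← Real.exp_add]; simp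
  calc _ ≤ C * (Real.exp 1 * (Real.exp (-u) * (1 + T * Real.exp (-u))) *
        (8 * (α * Real.exp u + β))) := by
        refine mul_le_mul_of_nonneg_left (h1.trans ?_) hC
        exact mul_le_mul_of_nonneg_left h2 (by positivity)
    _ = C * (8 * Real.exp 1) * (1 + T * Real.exp (-u)) *
        (α * (Real.exp (-u) * Real.exp u) + β * Real.exp (-u)) := by ring
    _ = _ := by rw [h3, mul_one]

end Pool.Agent.MP_ca0a54_nt.H78M
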