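import Pool.Agent.MP_ca0a54_nt.H78M.Spec

/-! Row HM: the mean value over a thin set, by duality and the test of Schur. -/

open Filter Finset MeasureTheory

namespace Pool.Agent.MP_ca0a54_nt.H78M

namespace HM

theorem int_exp (U : Set ℝ) (t : ℝ) : ∫ s in U, Real.exp (-|t - s|) ≤ 2 := by
  have h1 : ∫ s : ℝ, Real.exp (-|s|) = 2 := by
    rw [integral_comp_abs (f := fun x => Real.exp (-x)), integral_exp_neg_Ioi_zero, mul_one]
  have h2 : ∫ s : ℝ, Real.exp (-|t - s|) = 2 :=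
    (integral_sub_left_eq_self (fun s => Real.exp (-|s|)) volume t).trans h1
  rw [← h2]
  exact setIntegral_le_integral (Integrable.of_integral_ne_zero (by rw [h2]; norm_num))
    (ae_of_all _ fun s => (Real.exp_pos _).le)

theorem schur (μ : Measure ℝ) [IsFiniteMeasure μ] {f k : ℝ → ℝ} (hf : Continuous f)
    (hk : Continuous k) {B B' M : ℝ} (hfB : ∀ t, 0 ≤ f t ∧ f t ≤ B) (hkB : ∀ t, |k t| ≤ B')
    (he : ∀ t, k (-t) = k t) (hM : ∀ t, ∫ s, k (t - s) ∂μ ≤ M) :
    Integrable (fun z : ℝ × ℝ => (f z.1 + f z.2) / 2 * k (z.1 - z.2)) (μ.prod μ) ∧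
      ∫ z : ℝ × ℝ, (f z.1 + f z.2) / 2 * k (z.1 - z.2) ∂(μ.prod μ) ≤ M * ∫ t, f t ∂μ := by
  have h0 : Integrable f μ := Integrable.of_bound hf.aestronglyMeasurable B
    (ae_of_all _ fun t => by rw [Real.norm_of_nonneg (hfB t).1]; exact (hfB t).2)
  have h1 : Integrable (fun z : ℝ × ℝ => f z.1 * k (z.1 - z.2)) (μ.prod μ) :=
    Integrable.of_bound (Continuous.aestronglyMeasurable (by fun_prop)) (B * B')
      (ae_of_all _ fun z => by
        rw [norm_mul, Real.norm_of_nonneg (hfB _).1]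
        exact mul_le_mul (hfB _).2 (hkB _) (norm_nonneg _) ((hfB 0).1.trans (hfB 0).2))
  have h2 : ∫ z : ℝ × ℝ, f z.1 * k (z.1 - z.2) ∂(μ.prod μ) ≤ M * ∫ t, f t ∂μ := by
    have h3 := h1.integral_prod_left
    rw [integral_prod _ h1, ← integral_const_mul]
    simp only [integral_const_mul] at h3 ⊢
    rw [← integral_const_mul]
    exact integral_mono h3 (h0.const_mul M) fun t =>
      (mul_le_mul_of_nonneg_left (hM t) (hfB t).1).trans_eq (mul_comm _ _)
  have h3 := integral_prod_swap (μ := μ) (ν := μ) fun z : ℝ × ℝ => f z.1 * k (z.1 - z.2)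
  have h4 : (fun z : ℝ × ℝ => (f z.1 + f z.2) / 2 * k (z.1 - z.2)) = fun z : ℝ × ℝ =>
      (f z.1 * k (z.1 - z.2) + f z.swap.1 * k (z.swap.1 - z.swap.2)) / 2 := by
    ext z
    rw [Prod.fst_swap, Prod.snd_swap, ← he (z.2 - z.1), neg_sub]
    ring
  have h5 : Integrable (fun z : ℝ × ℝ => f z.swap.1 * k (z.swap.1 - z.swap.2)) (μ.prod μ) :=
    h1.swap
  rw [h4, integral_div, integral_add h1 h5, h3]
  exact ⟨(h1.add h5).div_const 2, by linarith⟩

theorem dual (μ : Measure ℝ) [IsFiniteMeasure μ] {F : ℝ → ℂ} (hF : Continuous F) {B : ℝ}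
    (hB : ∀ t, ‖F t‖ ≤ B) {ν : ℕ → ℝ} (h0 : ∀ n, 0 ≤ ν n) (hs : Summable ν) (S : Finset ℕ) :
    ∑ n ∈ S, ν n * ‖∫ t, (starRingEnd ℂ) (F t) * nt t n ∂μ‖ ^ 2 ≤
      ‖∫ z : ℝ × ℝ, (starRingEnd ℂ) (F z.1) * F z.2 * ∑' n, (ν n : ℂ) * nt (z.1 - z.2) n
        ∂(μ.prod μ)‖ := by
  have hB0 : 0 ≤ B := (norm_nonneg _).trans (hB 0)
  have h1 : ∀ (n : ℕ) (z : ℝ × ℝ), ‖(starRingEnd ℂ) (F z.1) * F z.2 * (ν n * nt (z.1 - z.2) n)‖ =
      ν n * (‖F z.1‖ * ‖F z.2‖) := fun n z => by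
    simp only [norm_mul, norm_nt, Complex.norm_conj, Complex.norm_of_nonneg (h0 n)]
    ring
  have h2 := hasSum_integral_of_summable_integral_norm (μ := μ.prod μ)
    (F := fun (n : ℕ) (z : ℝ × ℝ) => (starRingEnd ℂ) (F z.1) * F z.2 * (ν n * nt (z.1 - z.2) n))
    (fun n => Integrable.of_bound (Continuous.aestronglyMeasurable (by
        have := continuous_nt n
        have := Complex.continuous_conj
        fun_prop)) (ν n * (B * B))
      (ae_of_all _ fun z => by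
        rw [h1]
        exact mul_le_mul_of_nonneg_left (mul_le_mul (hB _) (hB _) (norm_nonneg _) hB0) (h0 n)))
    (by simp only [h1, integral_const_mul]; exact hs.mul_right _)
  have h3 : ∀ n : ℕ, ∫ z : ℝ × ℝ, (starRingEnd ℂ) (F z.1) * F z.2 * (ν n * nt (z.1 - z.2) n)
      ∂(μ.prod μ) = ((ν n * ‖∫ t, (starRingEnd ℂ) (F t) * nt t n ∂μ‖ ^ 2 : ℝ) : ℂ) := fun n => by
    rw [Complex.ofReal_mul, Complex.ofReal_pow, ← Complex.mul_conj', ← integral_conj,
      ← integral_prod_mul, ← integral_const_mul]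
    congr 1
    ext z
    rw [map_mul, Complex.conj_conj, conj_nt, sub_eq_add_neg, nt_add]
    ring
  simp only [h3, tsum_mul_left] at h2
  have h4 := Complex.hasSum_re h2
  simp only [Complex.ofReal_re] at h4
  exact (sum_le_hasSum S (fun n _ => mul_nonneg (h0 n) (sq_nonneg _)) h4).trans
    (Complex.re_le_norm _)

theorem pair (μ : Measure ℝ) [IsFiniteMeasure μ] (b : ℕ → ℂ) (S : Finset ℕ) :
    ∫ t, ‖dv b S t‖ ^ 2 ∂μ ≤
      ∑ n ∈ S, ‖b n‖ * ‖∫ t, (starRingEnd ℂ) (dv b S t) * nt t n ∂μ‖ := by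
  have h1 : ((∫ t, ‖dv b S t‖ ^ 2 ∂μ : ℝ) : ℂ) =
      ∑ n ∈ S, b n * ∫ t, (starRingEnd ℂ) (dv b S t) * nt t n ∂μ := by
    simp only [← integral_const_mul]
    rw [← integral_finsetSum, ← integral_complex_ofReal]
    · congr 1
      ext t
      rw [Complex.ofReal_pow, ← Complex.conj_mul']
      conv_lhs => arg 2; rw [dv]
      rw [mul_sum]
      exact sum_congr rfl fun n _ => by ring
    · refine fun n _ => Integrable.const_mul (Integrable.of_bound (Continuous.aestronglyMeasurable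
        ((Complex.continuous_conj.comp (continuous_dv b S)).mul (continuous_nt n)))
        (∑ n ∈ S, ‖b n‖) (ae_of_all _ fun t => ?_)) _
      exact (norm_mul _ _).trans_le (by
        rw [norm_nt, mul_one]
        exact (Complex.norm_conj _).trans_le (norm_dv_le b S t))
  refine (le_abs_self _).trans ?_
  rw [← Real.norm_eq_abs, ← Complex.norm_real, h1]
  exact (norm_sum_le _ _).trans_eq (sum_congr rfl fun n _ => norm_mul _ _)

end HM

open HM in
theorem hm : KerStmt → HmStmt := by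
  rintro ⟨C, hC, hK⟩
  refine ⟨22 * Real.exp 3 ^ 2 * C ^ 2, by positivity,
    fun Q Y T β U b S hQ hT hY hβ hU hUT hv hS => ?_⟩
  have hY0 : 0 < Y := by linarith
  obtain ⟨ν, h0, hs, hν, hk⟩ := hK Q Y hQ hY0
  have hfin : IsFiniteMeasure (volume.restrict U) :=
    isFiniteMeasure_restrict.2 ((measure_mono hUT).trans_lt measure_Icc_lt_top).ne
  have hQ2 : (2 : ℝ) ≤ Q := by exact_mod_cast hQ
  set l := Real.log Q with hl
  have hl0 : 0 < l := Real.log_pos (by linarith)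
  have hl1 : l ≤ Q := Real.log_le_self (by linarith)
  have hT1 : 1 ≤ T ^ (3 / 2 : ℝ) := Real.one_le_rpow hT (by norm_num)
  set W := T ^ (3 / 2 : ℝ) with hW
  set v := volume.real U with hvd
  have hv0 : 0 ≤ v := measureReal_nonneg
  have h1 : (Q : ℝ) ^ 8 * ((1 + v) * W) / Y ≤ Y / l := by
    rw [div_le_div_iff₀ hY0 hl0]
    calc _ ≤ (Q : ℝ) ^ 8 * ((1 + v) * W) * Q := by gcongr
      _ = (Q : ℝ) ^ 9 * (1 + v) * W := by ring
      _ ≤ _ := hv.trans_eq (sq Y)
  have he : ∀ n ∈ S, 1 ≤ Real.exp 3 * ν n := fun n hn => by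
    obtain ⟨a, b, c, -⟩ := hS n hn
    have := mul_le_mul_of_nonneg_left (hν n a b c) (Real.exp_pos 3).le
    rwa [← Real.exp_add, add_neg_cancel, Real.exp_zero] at this
  have h2 : (S.card : ℝ) ≤ Real.exp 3 * (C * (2 * (Y / l))) := by
    have h3 := hk 0
    simp only [nt, Complex.ofReal_zero, mul_zero, zero_mul, neg_zero, Complex.exp_zero, mul_one,
      abs_zero, Real.exp_zero, add_zero, Real.one_rpow] at h3
    rw [← Complex.ofReal_tsum, Complex.norm_of_nonneg (tsum_nonneg h0)] at h3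
    have h4 : (Q : ℝ) ^ 8 / Y ≤ (Q : ℝ) ^ 8 * ((1 + v) * W) / Y := by
      gcongr
      exact le_mul_of_one_le_right (by positivity)
        (one_le_mul_of_one_le_of_one_le (by linarith) hT1)
    calc _ = ∑ _n ∈ S, (1 : ℝ) := by simp
      _ ≤ ∑ n ∈ S, Real.exp 3 * ν n := sum_le_sum he
      _ ≤ _ := by
        rw [← mul_sum]
        gcongr
        refine ((hs.sum_le_tsum S fun n _ => h0 n).trans h3).trans ?_
        gcongr
        linarith
  set I := ∫ t in U, ‖dv b S t‖ ^ 2 with hI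
  have hI0 : 0 ≤ I := integral_nonneg fun t => sq_nonneg _
  set g : ℕ → ℝ := fun n => ‖∫ t in U, (starRingEnd ℂ) (dv b S t) * nt t n‖ with hg
  have h3 : I ≤ β / Y * ∑ n ∈ S, g n := by
    rw [mul_sum]
    refine (pair _ b S).trans (sum_le_sum fun n hn => mul_le_mul_of_nonneg_right ?_ (norm_nonneg _))
    obtain ⟨-, a, -, c⟩ := hS n hn
    exact c.trans (div_le_div_of_nonneg_left hβ hY0 a)
  obtain ⟨h4, h5⟩ := schur (volume.restrict U) (f := fun t => ‖dv b S t‖ ^ 2)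
    (k := fun τ => C * (Y / l) * Real.exp (-|τ|) + C * ((Q : ℝ) ^ 8 * (9 * W) / Y))
    ((continuous_dv b S).norm.pow 2) (by fun_prop) (B := (∑ n ∈ S, ‖b n‖) ^ 2)
    (B' := C * (Y / l) * 1 + C * ((Q : ℝ) ^ 8 * (9 * W) / Y)) (M := C * (11 * (Y / l)))
    (fun t => ⟨sq_nonneg _, pow_le_pow_left₀ (norm_nonneg _) (norm_dv_le b S t) 2⟩)
    (fun t => by
      rw [abs_of_nonneg (by positivity)]
      gcongr
      exact Real.exp_le_one_iff.2 (neg_nonpos.2 (abs_nonneg t)))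
    (fun t => by rw [abs_neg]) fun t => by
      rw [integral_add (Integrable.const_mul (Integrable.of_bound (Continuous.aestronglyMeasurable
        (by fun_prop)) 1 (ae_of_all _ fun s => by
          rw [Real.norm_of_nonneg (Real.exp_pos _).le]
          exact Real.exp_le_one_iff.2 (neg_nonpos.2 (abs_nonneg _)))) _) (integrable_const _),
        integral_const_mul, setIntegral_const, smul_eq_mul, ← hvd]
      have a := mul_le_mul_of_nonneg_left (int_exp U t) (show 0 ≤ C * (Y / l) by positivity)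
      have c : v * (C * ((Q : ℝ) ^ 8 * (9 * W) / Y)) ≤ C * (9 * (Y / l)) :=
        calc _ = C * (9 * ((Q : ℝ) ^ 8 * (v * W) / Y)) := by ring
          _ ≤ C * (9 * ((Q : ℝ) ^ 8 * ((1 + v) * W) / Y)) := by gcongr; linarith
          _ ≤ _ := by gcongr
      linarith
  have h6 : ∑ n ∈ S, ν n * g n ^ 2 ≤ C * (11 * (Y / l)) * I := by
    refine (dual _ (continuous_dv b S) (norm_dv_le b S) h0 hs S).trans
      ((norm_integral_le_of_norm_le h4 ?_).trans h5)
    rw [Measure.prod_restrict]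
    filter_upwards [ae_restrict_mem (hU.prod hU)] with z hz
    rw [norm_mul, norm_mul, Complex.norm_conj]
    refine mul_le_mul (by nlinarith [sq_nonneg (‖dv b S z.1‖ - ‖dv b S z.2‖)]) ((hk _).trans ?_)
      (norm_nonneg _) (by positivity)
    have a : (1 + |z.1 - z.2|) ^ (3 / 2 : ℝ) ≤ 9 * W := by
      obtain ⟨c1, c2⟩ := hUT hz.1
      obtain ⟨c3, c4⟩ := hUT hz.2
      have c5 : |z.1 - z.2| ≤ 2 * T := abs_le.2 ⟨by linarith, by linarith⟩
      refine (Real.rpow_le_rpow (by positivity) (show _ ≤ 3 * T by linarith) (by norm_num)).trans ?_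
      rw [Real.mul_rpow (by norm_num) (by linarith)]
      gcongr
      refine (Real.rpow_le_rpow_of_exponent_le (by norm_num) (show _ ≤ (2 : ℝ) by norm_num)).trans ?_
      norm_num
    rw [mul_add, mul_div_right_comm, mul_assoc]
    gcongr
  have h7 : ∑ n ∈ S, g n ^ 2 ≤ Real.exp 3 * (C * (11 * (Y / l)) * I) := by
    refine le_trans ?_ (mul_le_mul_of_nonneg_left h6 (Real.exp_pos 3).le)
    rw [mul_sum]
    exact sum_le_sum fun n hn => (le_mul_of_one_le_left (sq_nonneg _) (he n hn)).trans_eq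
      (mul_assoc _ _ _)
  have h8 : I * I ≤ 22 * Real.exp 3 ^ 2 * C ^ 2 * β ^ 2 / l ^ 2 * I :=
    calc _ = I ^ 2 := (sq I).symm
      _ ≤ (β / Y * ∑ n ∈ S, g n) ^ 2 := by gcongr
      _ = (β / Y) ^ 2 * (∑ n ∈ S, g n) ^ 2 := mul_pow _ _ _
      _ ≤ (β / Y) ^ 2 * (S.card * ∑ n ∈ S, g n ^ 2) := by
        gcongr
        exact sq_sum_le_card_mul_sum_sq
      _ ≤ (β / Y) ^ 2 * (Real.exp 3 * (C * (2 * (Y / l))) *
          (Real.exp 3 * (C * (11 * (Y / l)) * I))) := by gcongr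
      _ = _ := by field_simp; ring
  rcases hI0.eq_or_lt with h | h
  · rw [← h]
    positivity
  · exact le_of_mul_le_mul_right h8 h

end Pool.Agent.MP_ca0a54_nt.H78M
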