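import Pool.Agent.MP_ca0a54_nt.H78M.Spec

/-! The Gaussian mean square of a polynomial over rough integers on a small set. -/

open Filter Finset MeasureTheory

namespace Pool.Agent.MP_ca0a54_nt.H78M

namespace HV

theorem cont_gw (c : ℝ) : Continuous (gw c) := by
  unfold gw
  fun_prop

theorem int_gw {c : ℝ} (hc : 0 < c) : Integrable (gw c) := by
  have := integrable_exp_neg_mul_sq hc
  refine this.congr (ae_of_all _ fun x => ?_)
  simp [gw]

theorem sum_gw (a : ℝ) (J : ℕ) :
    ∑ j ∈ range J, gw 1 (a + j) ≤ Real.exp 1 * ∫ y, gw (1 / 2) y := by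
  have hi := int_gw (c := 1 / 2) (by norm_num)
  have h1 : ∀ s : ℝ, gw 1 s ≤ Real.exp 1 * ∫ y in s..s + 1, gw (1 / 2) y := by
    intro s
    rw [← intervalIntegral.integral_const_mul]
    have h2 : gw 1 s = ∫ _y in s..s + 1, gw 1 s := by simp
    rw [h2]
    refine intervalIntegral.integral_mono_on (by linarith) (by simp)
      ((hi.const_mul _).intervalIntegrable) fun y hy => ?_
    rw [gw, gw, ← Real.exp_add]
    refine Real.exp_le_exp.2 ?_
    nlinarith [hy.1, hy.2, sq_nonneg (y - 2 * s), mul_nonneg (sub_nonneg.2 hy.1) (sub_nonneg.2 hy.2)]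
  refine (sum_le_sum fun (j : ℕ) _ => h1 (a + j)).trans ?_
  rw [← mul_sum]
  refine mul_le_mul_of_nonneg_left ?_ (Real.exp_pos _).le
  have h3 := intervalIntegral.sum_integral_adjacent_intervals (μ := volume) (f := gw (1 / 2))
    (a := fun j : ℕ => a + j) (n := J) fun k _ => hi.intervalIntegrable
  simp only [Nat.cast_add, Nat.cast_one, ← add_assoc] at h3
  rw [h3, intervalIntegral.integral_of_le (by simp)]
  exact setIntegral_le_integral hi (ae_of_all _ fun y => (gw_pos _ _).le)

theorem cs (J : ℕ) (F : ℕ → ℂ) (β : ℕ → ℝ) (hβ : ∀ j, 0 < β j) :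
    ‖∑ j ∈ range J, F j‖ ^ 2 ≤ (∑ j ∈ range J, β j) * ∑ j ∈ range J, (β j)⁻¹ * ‖F j‖ ^ 2 := by
  refine (pow_le_pow_left₀ (norm_nonneg _) (norm_sum_le _ _) 2).trans ?_
  refine sum_sq_le_sum_mul_sum_of_sq_le_mul _ (fun j _ => (hβ j).le)
    (fun j _ => mul_nonneg (inv_nonneg.2 (hβ j).le) (sq_nonneg _)) fun j _ => le_of_eq ?_
  rw [← mul_assoc, mul_inv_cancel₀ (hβ j).ne', one_mul]

theorem gw_le {s θ : ℝ} (h0 : 0 ≤ θ) (h1 : θ ≤ 1) : gw 2 (s + θ) ≤ Real.exp 2 * gw 1 s := by
  rw [gw, gw, ← Real.exp_add]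
  refine Real.exp_le_exp.2 ?_
  nlinarith [sq_nonneg (s + 2 * θ)]

end HV

open HV in
theorem hv : GaStmt → HmStmt → HvStmt := by
  rintro hga ⟨C, hC, hm⟩
  set K : ℝ := Real.exp 1 * ∫ y, gw (1 / 2) y with hK
  set K1 : ℝ := ∫ y, gw 1 y with hK1
  have hK0 : 0 ≤ K := mul_nonneg (Real.exp_pos _).le (integral_nonneg fun y => (gw_pos _ _).le)
  have hK10 : 0 ≤ K1 := integral_nonneg fun y => (gw_pos _ _).le
  refine ⟨4 * (Real.exp 2 * K * C * Real.exp 2) * K1, by positivity, ?_⟩
  intro Q Z R T U b S hQ hT hR hU hUT hsz hS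
  have hE := (hga 2 b S two_pos).2
  have hEc := (hga (1 / 4) b S (by norm_num)).1
  have h4 : ((2 : ℝ) * 2)⁻¹ = 1 / 4 := by norm_num
  rw [h4] at hE
  have hR0 : 0 < R := by linarith
  set J : ℕ := ⌊Real.log Z⌋₊ + 1 with hJ
  set bl : ℕ → ℕ := fun n => ⌊Real.log n - Real.log R⌋₊ with hbl
  set L : ℝ := Real.log Q ^ 2 with hL
  have hL0 : 0 ≤ L := sq_nonneg _
  have hcU : ∀ g : ℝ → ℝ, Continuous g → IntegrableOn g U := fun g hg =>
    (hg.continuousOn.integrableOn_compact isCompact_Icc).mono_set hUT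
  have hlog : ∀ n ∈ S, 0 ≤ Real.log n - Real.log R := fun n hn =>
    sub_nonneg.2 (Real.log_le_log hR0 (hS n hn).2.1)
  have key : ∀ v : ℝ, ∫ t in U, ‖ps b S 2 v t‖ ^ 2 ≤
      ∑ j ∈ range J, Real.exp 2 * K * C * Real.exp 2 / L * gw 1 (Real.log R + j - v) := by
    intro v
    set β : ℕ → ℝ := fun j => Real.exp 2 * gw 1 (Real.log R + j - v) with hβ
    have hβ0 : ∀ j, 0 < β j := fun j => mul_pos (Real.exp_pos _) (gw_pos _ _)
    set a : ℕ → ℂ := fun n => b n * (gw 2 (Real.log n - v) : ℝ) with ha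
    have hsum : ∀ t, ps b S 2 v t = ∑ j ∈ range J, dv a (S.filter fun n => bl n = j) t := by
      intro t
      refine (sum_fiberwise_of_maps_to (fun n hn => ?_) _).symm
      have h1 : Real.log n ≤ Real.log Z :=
        Real.log_le_log (hR0.trans_le (hS n hn).2.1) (by exact_mod_cast (hS n hn).2.2.1)
      exact mem_range.2 (Nat.lt_succ_of_le (Nat.floor_le_floor (by linarith [Real.log_nonneg hR])))
    have hB : ∑ j ∈ range J, β j ≤ Real.exp 2 * K := by
      rw [← mul_sum]
      refine mul_le_mul_of_nonneg_left (le_trans (le_of_eq ?_) (sum_gw (Real.log R - v) J))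
        (Real.exp_pos _).le
      exact sum_congr rfl fun j _ => by ring_nf
    have hj : ∀ j : ℕ, ∫ t in U, ‖dv a (S.filter fun n => bl n = j) t‖ ^ 2 ≤ C * β j ^ 2 / L := by
      intro j
      have he : 1 ≤ Real.exp j := Real.one_le_exp (Nat.cast_nonneg j)
      have hY : R ≤ R * Real.exp j := le_mul_of_one_le_right hR0.le he
      refine hm Q (R * Real.exp j) T (β j) U a _ hQ hT (hR.trans hY) (hβ0 j).le hU hUT
        (hsz.trans (pow_le_pow_left₀ hR0.le hY 2)) fun n hn => ?_
      obtain ⟨hn, hnj⟩ := mem_filter.1 hn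
      obtain ⟨h1, h2, -, h3⟩ := hS n hn
      have hn0 : (0 : ℝ) < n := hR0.trans_le h2
      have h5 : (j : ℝ) ≤ Real.log n - Real.log R := hnj ▸ Nat.floor_le (hlog n hn)
      have h6 : Real.log n - Real.log R < j + 1 := hnj ▸ Nat.lt_floor_add_one _
      have h7 : R * Real.exp j = Real.exp (Real.log R + j) := by
        rw [Real.exp_add, Real.exp_log hR0]
      refine ⟨h1, ?_, ?_, ?_⟩
      · rw [h7]
        exact (Real.le_log_iff_exp_le hn0).1 (by linarith)
      · have h8 : (n : ℝ) ≤ Real.exp (1 + (Real.log R + j)) :=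
          (Real.log_le_iff_le_exp hn0).1 (by linarith)
        rw [Real.exp_add, ← h7] at h8
        exact h8.trans (mul_le_mul_of_nonneg_right (by linarith [Real.exp_one_lt_d9])
          (by positivity))
      · have h9 := gw_le (s := Real.log R + j - v) (θ := Real.log n - Real.log R - j)
          (by linarith) (by linarith)
        rw [show Real.log R + j - v + (Real.log n - Real.log R - j) = Real.log n - v by ring] at h9
        rw [ha, norm_mul, Complex.norm_real, Real.norm_of_nonneg (gw_pos _ _).le]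
        refine (mul_le_mul h3 h9 (gw_pos _ _).le (by positivity)).trans (le_of_eq ?_)
        rw [hβ]
        ring
    have hI : ∀ j : ℕ, IntegrableOn
        (fun t => (β j)⁻¹ * ‖dv a (S.filter fun n => bl n = j) t‖ ^ 2) U := fun j =>
      hcU _ (continuous_const.mul ((continuous_dv _ _).norm.pow 2))
    calc ∫ t in U, ‖ps b S 2 v t‖ ^ 2
        ≤ ∫ t in U, Real.exp 2 * K *
            ∑ j ∈ range J, (β j)⁻¹ * ‖dv a (S.filter fun n => bl n = j) t‖ ^ 2 := by
          refine integral_mono_of_nonneg (ae_of_all _ fun t => sq_nonneg _)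
            ((integrable_finsetSum _ fun j _ => hI j).const_mul _) (ae_of_all _ fun t => ?_)
          simp only [hsum]
          exact (cs J _ β hβ0).trans (mul_le_mul_of_nonneg_right hB
            (sum_nonneg fun j _ => mul_nonneg (inv_nonneg.2 (hβ0 j).le) (sq_nonneg _)))
      _ ≤ _ := by
          rw [integral_const_mul, integral_finsetSum _ fun j _ => hI j, mul_sum]
          refine sum_le_sum fun j _ => ?_
          rw [integral_const_mul]
          refine (mul_le_mul_of_nonneg_left (mul_le_mul_of_nonneg_left (hj j)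
            (inv_nonneg.2 (hβ0 j).le)) (by positivity)).trans (le_of_eq ?_)
          have h0 := (hβ0 j).ne'
          have : (β j)⁻¹ * (C * β j ^ 2 / L) = C * β j / L := by
            rw [pow_two, ← mul_div_assoc, ← mul_assoc C, mul_comm (β j)⁻¹, mul_assoc,
              mul_inv_cancel₀ h0, mul_one]
          rw [this, hβ]
          ring
  have hc : Continuous fun p : ℝ × ℝ => ‖ps b S 2 p.2 p.1‖ ^ 2 := by
    unfold ps dv nt gw
    fun_prop
  have hprod : Integrable (Function.uncurry fun t v => ‖ps b S 2 v t‖ ^ 2)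
      ((volume.restrict U).prod volume) := by
    refine (integrable_prod_iff hc.aestronglyMeasurable).2
      ⟨ae_of_all _ fun t => (hE t).2.1, ?_⟩
    refine (hcU _ (continuous_const.mul hEc : Continuous fun t =>
      1 / 4 * En (1 / 4) b S t)).congr (ae_of_all _ fun t => ?_)
    simp only [Function.uncurry, norm_pow, norm_norm]
    exact (hE t).2.2.symm
  have hg : ∀ j : ℕ, Integrable fun v => gw 1 (Real.log R + j - v) := fun j =>
    (int_gw one_pos).comp_sub_left _
  have hJZ : (J : ℝ) ≤ 1 + Real.log Z := by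
    rw [hJ]
    push_cast
    linarith [Nat.floor_le (Real.log_natCast_nonneg Z)]
  calc ∫ t in U, En (1 / 4) b S t = ∫ t in U, 4 * ∫ v, ‖ps b S 2 v t‖ ^ 2 := by
        refine integral_congr_ae (ae_of_all _ fun t => ?_)
        simp only [(hE t).2.2]
        ring
    _ = 4 * ∫ v, ∫ t in U, ‖ps b S 2 v t‖ ^ 2 := by
        rw [integral_const_mul, integral_integral_swap hprod]
    _ ≤ 4 * ∫ v, ∑ j ∈ range J,
          Real.exp 2 * K * C * Real.exp 2 / L * gw 1 (Real.log R + j - v) := by
        refine mul_le_mul_of_nonneg_left (integral_mono_of_nonneg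
          (ae_of_all _ fun v => integral_nonneg fun t => sq_nonneg _)
          (integrable_finsetSum _ fun j _ => (hg j).const_mul _) (ae_of_all _ key)) (by norm_num)
    _ = 4 * (J * (Real.exp 2 * K * C * Real.exp 2 / L * K1)) := by
        rw [integral_finsetSum _ fun j _ => (hg j).const_mul _]
        simp only [integral_const_mul, integral_sub_left_eq_self (gw 1) volume, sum_const,
          card_range, nsmul_eq_mul, hK1]
    _ ≤ 4 * ((1 + Real.log Z) * (Real.exp 2 * K * C * Real.exp 2 / L * K1)) := by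
        gcongr
    _ = _ := by ring

end Pool.Agent.MP_ca0a54_nt.H78M
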