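import Pool.Agent.MP_ca0a54_nt.H78M.Spec

/-! A smooth majorant of the rough numbers with a small Fourier transform. -/

open Filter Finset MeasureTheory

namespace Pool.Agent.MP_ca0a54_nt.H78M

namespace KER

/-- the smooth weight -/
noncomputable def kw (Y : ℝ) (n : ℕ) : ℝ := n / Y * Real.exp (-(n / Y))

theorem kw_nonneg {Y : ℝ} (hY : 0 < Y) (n : ℕ) : 0 ≤ kw Y n := by
  unfold kw
  positivity

theorem summable_kw {Y : ℝ} (hY : 0 < Y) : Summable (kw Y) := by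
  have h : ‖Real.exp (-Y⁻¹)‖ < 1 := by
    rw [Real.norm_eq_abs, abs_of_pos (Real.exp_pos _), Real.exp_lt_one_iff]
    exact neg_neg_of_pos (inv_pos.2 hY)
  have h2 := (summable_pow_mul_geometric_of_norm_lt_one 1 h).mul_left Y⁻¹
  refine h2.congr fun n => ?_
  rw [kw, ← Real.exp_nat_mul, pow_one]
  rw [show (n : ℝ) * -Y⁻¹ = -(n / Y) by ring]
  ring

theorem kw_mul {Y : ℝ} (hY : 0 < Y) {D : ℕ} (hD : 0 < D) (m : ℕ) : kw Y (D * m) = kw (Y / D) m := by
  have hD' : (0 : ℝ) < D := by exact_mod_cast hD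
  have : ((D * m : ℕ) : ℝ) / Y = m / (Y / D) := by
    push_cast
    field_simp
  rw [kw, kw, this]

/-- the weight on the multiples of `D` -/
noncomputable def tm (Y τ : ℝ) (D n : ℕ) : ℂ := if D ∣ n then (kw Y n : ℂ) * nt τ n else 0

theorem summable_tm {Y : ℝ} (hY : 0 < Y) (τ : ℝ) (D : ℕ) : Summable (tm Y τ D) := by
  refine Summable.of_norm_bounded (summable_kw hY) fun n => ?_
  unfold tm
  split_ifs
  · rw [norm_mul, norm_nt, mul_one, Complex.norm_real, Real.norm_eq_abs,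
      abs_of_nonneg (kw_nonneg hY n)]
  · simpa using kw_nonneg hY n

theorem tsum_tm {Y : ℝ} (hY : 0 < Y) (τ : ℝ) {D : ℕ} (hD : 0 < D) :
    ∑' n, tm Y τ D n = nt τ D * ∑' m : ℕ, (kw (Y / D) m : ℂ) * nt τ m := by
  have hinj : Function.Injective fun m : ℕ => D * m := fun a b h => Nat.eq_of_mul_eq_mul_left hD h
  rw [← hinj.tsum_eq (f := tm Y τ D), ← tsum_mul_left]
  · refine tsum_congr fun m => ?_
    rw [tm, if_pos (dvd_mul_right D m), kw_mul hY hD]
    rcases eq_or_ne m 0 with rfl | hm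
    · simp [kw]
    · rw [nt_mul τ hD.ne' hm]
      ring
  · intro n hn
    by_contra h
    refine hn (if_neg fun hd => h ?_)
    obtain ⟨m, rfl⟩ := hd
    exact ⟨m, rfl⟩

theorem phase {Y : ℝ} (hY : 0 < Y) (τ : ℝ) {D : ℕ} (hD : 0 < D) :
    nt τ D * Complex.exp (-(Complex.I * τ * Real.log (Y / D))) =
      Complex.exp (-(Complex.I * τ * Real.log Y)) := by
  have hD' : (0 : ℝ) < D := by exact_mod_cast hD
  rw [nt, ← Complex.exp_add, Real.log_div hY.ne' hD'.ne']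
  congr 1
  push_cast
  ring

/-- the sieve weight -/
noncomputable def sv (w : ℕ → ℝ) (Q n : ℕ) : ℝ := ∑ d ∈ Icc 1 Q, if d ∣ n then w d else 0

theorem sv_rough {w : ℕ → ℝ} (hw : w 1 = 1) {Q n : ℕ} (hQ : 1 ≤ Q) (hn : n ≠ 0) (h : Rou Q n) :
    sv w Q n = 1 := by
  rw [sv, sum_eq_single 1]
  · simp [hw]
  · intro d hd h1
    refine if_neg fun hdn => ?_
    rw [mem_Icc] at hd
    have hp := Nat.minFac_prime h1
    have h2 := h d.minFac (Nat.mem_primeFactors.2 ⟨hp, (Nat.minFac_dvd d).trans hdn, hn⟩)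
    have h3 := Nat.minFac_le (n := d) (by omega)
    omega
  · intro h1
    exact absurd (mem_Icc.2 ⟨le_rfl, hQ⟩) h1

theorem expand (w : ℕ → ℝ) (Q : ℕ) (Y τ : ℝ) (n : ℕ) :
    ((sv w Q n ^ 2 * kw Y n : ℝ) : ℂ) * nt τ n =
      ∑ d ∈ Icc 1 Q, ∑ e ∈ Icc 1 Q, ((w d * w e : ℝ) : ℂ) * tm Y τ (Nat.lcm d e) n := by
  rw [sq, sv, sum_mul_sum]
  push_cast
  simp only [sum_mul]
  refine sum_congr rfl fun d _ => sum_congr rfl fun e _ => ?_
  unfold tm
  by_cases h1 : d ∣ n <;> by_cases h2 : e ∣ n <;> simp [Nat.lcm_dvd_iff, h1, h2, mul_assoc]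

end KER

open KER in
theorem ker : LipStmt → SelStmt → KerStmt := by
  rintro ⟨C, G, hC, hG, hL⟩ hS
  refine ⟨2 * C, by positivity, fun Q Y hQ hY => ?_⟩
  obtain ⟨w, hw1, hwb, hform⟩ := hS Q hQ
  have hQ0 : (0 : ℝ) < Q := by exact_mod_cast (by omega : 0 < Q)
  have hlog : 0 < Real.log Q := Real.log_pos (by exact_mod_cast hQ)
  refine ⟨fun n => sv w Q n ^ 2 * kw Y n, fun n => mul_nonneg (sq_nonneg _) (kw_nonneg hY n),
    ?_, ?_, fun τ => ?_⟩
  · refine Summable.of_nonneg_of_le (fun n => mul_nonneg (sq_nonneg _) (kw_nonneg hY n))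
      (fun n => mul_le_mul_of_nonneg_right ?_ (kw_nonneg hY n))
      ((summable_kw hY).mul_left ((∑ d ∈ Icc 1 Q, |w d|) ^ 2))
    rw [← sq_abs]
    refine pow_le_pow_left₀ (abs_nonneg _) ((abs_sum_le_sum_abs _ _).trans ?_) 2
    refine sum_le_sum fun d _ => ?_
    split_ifs <;> simp
  · intro n hn h1 h2
    have hn0 : n ≠ 0 := by
      rintro rfl
      simp at h1
      linarith
    have h3 : 1 ≤ (n : ℝ) / Y := (one_le_div hY).2 h1
    have h4 : (n : ℝ) / Y ≤ 3 := (div_le_iff₀ hY).2 h2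
    simp only [sv_rough hw1 (by omega) hn0 hn, one_pow, one_mul, kw]
    have h5 : Real.exp (-3) ≤ Real.exp (-(n / Y)) := Real.exp_le_exp.2 (by linarith)
    nlinarith [Real.exp_pos (-(n / Y))]
  · set E : ℂ := Complex.exp (-(Complex.I * τ * Real.log Y)) with hE
    have hEn : ‖E‖ = 1 := by
      rw [hE, show -(Complex.I * τ * Real.log Y) = ((-(τ * Real.log Y) : ℝ) : ℂ) * Complex.I by
        push_cast; ring, Complex.norm_exp_ofReal_mul_I]
    set M : ℝ := (1 + |τ|) ^ (3 / 2 : ℝ) with hM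
    have hM0 : 0 ≤ M := by positivity
    have hsum : ∑' n : ℕ, ((sv w Q n ^ 2 * kw Y n : ℝ) : ℂ) * nt τ n =
        ∑ d ∈ Icc 1 Q, ∑ e ∈ Icc 1 Q, ((w d * w e : ℝ) : ℂ) * ∑' n, tm Y τ (Nat.lcm d e) n := by
      simp only [expand]
      rw [Summable.tsum_finsetSum fun d _ => summable_sum fun e _ =>
        (summable_tm hY τ _).mul_left _]
      refine sum_congr rfl fun d _ => ?_
      rw [Summable.tsum_finsetSum fun e _ => (summable_tm hY τ _).mul_left _]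
      exact sum_congr rfl fun e _ => tsum_mul_left
    have herr : ∀ d ∈ Icc 1 Q, ∀ e ∈ Icc 1 Q,
        ‖((w d * w e : ℝ) : ℂ) * ∑' n, tm Y τ (Nat.lcm d e) n -
          G τ * Y * E * ((w d * w e / (Nat.lcm d e : ℝ) : ℝ) : ℂ)‖ ≤ C * (Q : ℝ) ^ 6 * M / Y := by
      intro d hd e he
      rw [mem_Icc] at hd he
      have hD : 0 < Nat.lcm d e := Nat.lcm_pos hd.1 he.1
      have hD' : (0 : ℝ) < Nat.lcm d e := by exact_mod_cast hD
      have hDQ : (Nat.lcm d e : ℝ) ≤ (Q : ℝ) ^ 2 := by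
        have : Nat.lcm d e ≤ Q ^ 2 :=
          (Nat.le_of_dvd (Nat.mul_pos hd.1 he.1) (Nat.lcm_dvd_mul d e)).trans
            (by rw [sq]; exact Nat.mul_le_mul hd.2 he.2)
        exact_mod_cast this
      have h1 := hL (Y / (Nat.lcm d e : ℕ)) τ (div_pos hY hD')
      have h2 : ((w d * w e : ℝ) : ℂ) * ∑' n, tm Y τ (Nat.lcm d e) n -
          G τ * Y * E * ((w d * w e / (Nat.lcm d e : ℝ) : ℝ) : ℂ) =
          ((w d * w e : ℝ) : ℂ) * nt τ (Nat.lcm d e) *
            ((∑' m : ℕ, (kw (Y / (Nat.lcm d e : ℕ)) m : ℂ) * nt τ m) -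
              G τ * (Y / (Nat.lcm d e : ℕ) : ℝ) *
                Complex.exp (-(Complex.I * τ * Real.log (Y / (Nat.lcm d e : ℕ))))) := by
        rw [tsum_tm hY τ hD, hE, ← phase hY τ hD]
        push_cast
        ring
      have h3 : |w d * w e| ≤ (Q : ℝ) ^ 2 * (Q : ℝ) ^ 2 := by
        rw [abs_mul]
        exact mul_le_mul (hwb d) (hwb e) (abs_nonneg _) (by positivity)
      rw [h2, norm_mul, norm_mul, norm_nt, mul_one, Complex.norm_real, Real.norm_eq_abs]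
      refine (mul_le_mul h3 h1 (norm_nonneg _) (by positivity)).trans ?_
      rw [div_div_eq_mul_div, ← mul_div_assoc]
      refine div_le_div_of_nonneg_right ?_ hY.le
      calc (Q : ℝ) ^ 2 * (Q : ℝ) ^ 2 * (C * M * (Nat.lcm d e : ℕ))
          ≤ (Q : ℝ) ^ 2 * (Q : ℝ) ^ 2 * (C * M * (Q : ℝ) ^ 2) := by gcongr
        _ = C * (Q : ℝ) ^ 6 * M := by ring
    have hmain : ‖G τ * Y * E *
        ((∑ d ∈ Icc 1 Q, ∑ e ∈ Icc 1 Q, w d * w e / (Nat.lcm d e : ℝ) : ℝ) : ℂ)‖ ≤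
        C * Real.exp (-|τ|) * Y * (2 / Real.log Q) := by
      rw [norm_mul, norm_mul, norm_mul, hEn, mul_one, Complex.norm_real, Complex.norm_real,
        Real.norm_eq_abs, Real.norm_eq_abs, abs_of_pos hY]
      exact mul_le_mul (mul_le_mul_of_nonneg_right (hG τ) hY.le) hform (abs_nonneg _)
        (by positivity)
    have hdiff : ‖(∑' n : ℕ, ((sv w Q n ^ 2 * kw Y n : ℝ) : ℂ) * nt τ n) - G τ * Y * E *
        ((∑ d ∈ Icc 1 Q, ∑ e ∈ Icc 1 Q, w d * w e / (Nat.lcm d e : ℝ) : ℝ) : ℂ)‖ ≤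
        C * (Q : ℝ) ^ 8 * M / Y := by
      rw [hsum, Complex.ofReal_sum, mul_sum, ← sum_sub_distrib]
      refine (norm_sum_le _ _).trans ((sum_le_card_nsmul _ _ (Q * (C * (Q : ℝ) ^ 6 * M / Y))
        fun d hd => ?_).trans_eq ?_)
      · rw [Complex.ofReal_sum, mul_sum, ← sum_sub_distrib]
        refine (norm_sum_le _ _).trans ((sum_le_card_nsmul _ _ _ (herr d hd)).trans_eq ?_)
        simp
      · simp only [Nat.card_Icc, add_tsub_cancel_right, nsmul_eq_mul]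
        ring
    have hfin := (norm_le_norm_add_norm_sub' _ _).trans (add_le_add hmain hdiff)
    refine hfin.trans ?_
    have h7 : 0 ≤ C * (Q : ℝ) ^ 8 * M / Y := by positivity
    calc C * Real.exp (-|τ|) * Y * (2 / Real.log Q) + C * (Q : ℝ) ^ 8 * M / Y
        ≤ C * Real.exp (-|τ|) * Y * (2 / Real.log Q) + 2 * (C * (Q : ℝ) ^ 8 * M / Y) := by linarith
      _ = _ := by ring

end Pool.Agent.MP_ca0a54_nt.H78M
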