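import Pool.Agent.MP_ca0a54_nt.H78M.Spec

/-! The mean value theorem for Dirichlet polynomials. -/

open Filter Finset MeasureTheory

namespace Pool.Agent.MP_ca0a54_nt.H78M

namespace MVT

theorem bern {x : ℝ} (hx : 0 ≤ x) (k : ℕ) : x ^ (k + 1) + (k + 1) * x ^ k ≤ (x + 1) ^ (k + 1) := by
  induction k with
  | zero => simp
  | succ k ih =>
    have h1 : 0 ≤ ((k : ℝ) + 1) * x ^ k := by positivity
    calc x ^ (k + 1 + 1) + ((k + 1 : ℕ) + 1) * x ^ (k + 1)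
        ≤ (x + 1) * (x ^ (k + 1) + (k + 1) * x ^ k) := by
          push_cast
          have : (x + 1) * (x ^ (k + 1) + (k + 1) * x ^ k) =
              x ^ (k + 1 + 1) + ((k : ℝ) + 1 + 1) * x ^ (k + 1) + (k + 1) * x ^ k := by ring
          linarith
      _ ≤ (x + 1) * (x + 1) ^ (k + 1) := by gcongr
      _ = (x + 1) ^ (k + 1 + 1) := by ring

theorem low (N n : ℕ) : ((N : ℝ) + 1) * ∑ m ∈ range n, (m : ℝ) ^ N ≤ (n : ℝ) ^ (N + 1) := by
  induction n with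
  | zero => simp
  | succ n ih =>
    rw [sum_range_succ, mul_add]
    have := bern (Nat.cast_nonneg (α := ℝ) n) N
    push_cast
    linarith

theorem step {x : ℝ} (hx : 0 < x) (k : ℕ) :
    ((k : ℝ) + 1) * ((x + 1) ^ (k + 2))⁻¹ ≤ (x ^ (k + 1))⁻¹ - ((x + 1) ^ (k + 1))⁻¹ := by
  have h1 := bern hx.le k
  have h2 : (x ^ (k + 1))⁻¹ - ((x + 1) ^ (k + 1))⁻¹ =
      ((x + 1) ^ (k + 1) - x ^ (k + 1)) / (x ^ (k + 1) * (x + 1) ^ (k + 1)) := by
    field_simp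
  have h3 : ((k : ℝ) + 1) * ((x + 1) ^ (k + 2))⁻¹ =
      (k + 1) * x ^ k / (x ^ k * (x + 1) * (x + 1) ^ (k + 1)) := by
    field_simp
    ring
  rw [h2, h3]
  gcongr
  · nlinarith [pow_nonneg hx.le k]
  · linarith
  · rw [pow_succ]
    gcongr
    linarith

theorem high {x : ℝ} (hx : 0 < x) (k M : ℕ) :
    ((k : ℝ) + 1) * ∑ j ∈ range M, ((x + j + 1) ^ (k + 2))⁻¹ ≤
      (x ^ (k + 1))⁻¹ - ((x + M) ^ (k + 1))⁻¹ := by
  induction M with
  | zero => simp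
  | succ M ih =>
    rw [sum_range_succ, mul_add]
    have := step (x := x + M) (by positivity) k
    push_cast
    rw [← add_assoc]
    linarith

/-- The kernel. -/
noncomputable def ker (N : ℝ) (m n : ℕ) : ℝ :=
  Real.exp (-((Real.log n - Real.log m) ^ 2 * N ^ 2 / 4))

theorem ker_comm (N : ℝ) (m n : ℕ) : ker N m n = ker N n m := by
  unfold ker
  congr 1
  ring

theorem ker_le (N m n : ℕ) (hm : 1 ≤ m) (hn : 1 ≤ n) :
    ker N m n ≤ 3 * ((m : ℝ) ^ N * ((n : ℝ) ^ N)⁻¹) := by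
  have hm' : (0 : ℝ) < m := by exact_mod_cast hm
  have hn' : (0 : ℝ) < n := by exact_mod_cast hn
  have h1 : (m : ℝ) ^ N * ((n : ℝ) ^ N)⁻¹ = Real.exp (N * Real.log m - N * Real.log n) := by
    rw [Real.exp_sub, Real.exp_nat_mul, Real.exp_nat_mul, Real.exp_log hm', Real.exp_log hn',
      div_eq_mul_inv]
  have h2 : Real.exp 1 ≤ 3 := by linarith [Real.exp_one_lt_d9]
  rw [h1]
  calc ker N m n ≤ Real.exp (1 + (N * Real.log m - N * Real.log n)) := by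
        refine Real.exp_le_exp.2 ?_
        nlinarith [sq_nonneg ((Real.log n - Real.log m) * N / 2 - 1)]
    _ ≤ _ := by
        rw [Real.exp_add]
        gcongr

theorem ker_sum (k n : ℕ) (hn : 1 ≤ n) (S : Finset ℕ) (hS : ∀ m ∈ S, 1 ≤ m) :
    ((k : ℝ) + 2) * ∑ m ∈ S, ker (k + 2 : ℕ) m n ≤ 9 * ((k : ℝ) + 2 + n) := by
  have hn' : (0 : ℝ) < n := by exact_mod_cast hn
  set w : ℕ → ℝ := fun m => if m ≤ n then (m : ℝ) ^ (k + 2) * ((n : ℝ) ^ (k + 2))⁻¹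
    else (n : ℝ) ^ (k + 2) * ((m : ℝ) ^ (k + 2))⁻¹ with hw
  have hw0 : ∀ m, 0 ≤ w m := fun m => by
    simp only [hw]
    split_ifs <;> positivity
  obtain ⟨M, hM⟩ : ∃ M, S ⊆ range (n + 1 + M) :=
    ⟨S.sup id, fun m hm => mem_range.2 (by
      have h : m ≤ S.sup id := le_sup (f := id) hm
      omega)⟩
  have h1 : ∑ m ∈ S, ker (k + 2 : ℕ) m n ≤ 3 * ∑ m ∈ range (n + 1 + M), w m := by
    calc ∑ m ∈ S, ker (k + 2 : ℕ) m n ≤ ∑ m ∈ S, 3 * w m := by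
          refine sum_le_sum fun m hm => ?_
          simp only [hw]
          split_ifs
          · exact ker_le _ m n (hS m hm) hn
          · rw [ker_comm]
            exact ker_le _ n m hn (hS m hm)
      _ = 3 * ∑ m ∈ S, w m := by rw [mul_sum]
      _ ≤ _ := by gcongr
  have h2 : ∑ m ∈ range n, w m = (∑ m ∈ range n, (m : ℝ) ^ (k + 2)) * ((n : ℝ) ^ (k + 2))⁻¹ := by
    rw [sum_mul]
    exact sum_congr rfl fun m hm => if_pos (mem_range.1 hm).le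
  have h3 : w n = 1 := by
    simp only [hw, le_refl, if_true]
    field_simp
  have h4 : ∑ j ∈ range M, w (n + 1 + j) =
      (n : ℝ) ^ (k + 2) * ∑ j ∈ range M, (((n : ℝ) + j + 1) ^ (k + 2))⁻¹ := by
    rw [mul_sum]
    refine sum_congr rfl fun j _ => ?_
    simp only [hw]
    rw [if_neg (by omega)]
    push_cast
    rw [show (n : ℝ) + 1 + j = n + j + 1 by ring]
  have h5 : ((k : ℝ) + 2) * ∑ m ∈ range n, w m ≤ n := by
    have h := low (k + 2) n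
    have h0 : 0 ≤ ∑ m ∈ range n, (m : ℝ) ^ (k + 2) := by positivity
    rw [h2, ← mul_assoc, ← div_eq_mul_inv, div_le_iff₀ (by positivity)]
    push_cast at h
    calc ((k : ℝ) + 2) * ∑ m ∈ range n, (m : ℝ) ^ (k + 2) ≤ (n : ℝ) ^ (k + 2 + 1) := by nlinarith
      _ = n * (n : ℝ) ^ (k + 2) := by ring
  have h6 : ((k : ℝ) + 1) * ∑ j ∈ range M, w (n + 1 + j) ≤ n := by
    have h := high hn' k M
    have h0 : 0 ≤ (((n : ℝ) + M) ^ (k + 1))⁻¹ := by positivity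
    rw [h4, mul_left_comm]
    calc (n : ℝ) ^ (k + 2) * (((k : ℝ) + 1) * ∑ j ∈ range M, (((n : ℝ) + j + 1) ^ (k + 2))⁻¹)
        ≤ (n : ℝ) ^ (k + 2) * ((n : ℝ) ^ (k + 1))⁻¹ := by
          gcongr
          linarith
      _ = n := by field_simp; ring
  have h7 : 0 ≤ ∑ j ∈ range M, w (n + 1 + j) := sum_nonneg fun j _ => hw0 _
  rw [sum_range_add, sum_range_succ, h3] at h1
  have hk : (0 : ℝ) ≤ k := Nat.cast_nonneg k
  have h8 : ((k : ℝ) + 2) * ∑ m ∈ S, ker (k + 2 : ℕ) m n ≤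
      ((k : ℝ) + 2) * (3 * (∑ m ∈ range n, w m + 1 + ∑ j ∈ range M, w (n + 1 + j))) := by gcongr
  nlinarith [mul_nonneg hk h7]

/-- One term of the expansion. -/
noncomputable def tm (c d t : ℝ) : ℂ :=
  Complex.exp (Complex.I * d * t) * Complex.exp (-(c : ℂ) * t ^ 2)

theorem tm_int {c : ℝ} (hc : 0 < c) (d : ℝ) : Integrable (tm c d) := by
  have h := integrable_cexp_quadratic (b := (c : ℂ)) (by simpa using hc) (Complex.I * d) 0
  refine h.congr (Eventually.of_forall fun t => ?_)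
  simp only [tm]
  rw [← Complex.exp_add]
  congr 1
  ring

theorem tm_norm {N : ℝ} (hN : 0 < N) (d : ℝ) :
    ‖∫ t, tm (N ^ 2)⁻¹ d t‖ ≤ 2 * N * Real.exp (-(d ^ 2 * N ^ 2 / 4)) := by
  have h := fourierIntegral_gaussian (b := (((N ^ 2)⁻¹ : ℝ) : ℂ))
    (by rw [Complex.ofReal_re]; positivity) (d : ℂ)
  unfold tm
  rw [h, norm_mul]
  have h1 : -(d : ℂ) ^ 2 / (4 * (((N ^ 2)⁻¹ : ℝ) : ℂ)) = ((-(d ^ 2 * N ^ 2 / 4) : ℝ) : ℂ) := by
    have : (N : ℂ) ≠ 0 := by exact_mod_cast hN.ne'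
    push_cast
    field_simp
  have h2 : (Real.pi : ℂ) / (((N ^ 2)⁻¹ : ℝ) : ℂ) = ((Real.pi * N ^ 2 : ℝ) : ℂ) := by
    push_cast
    rw [div_inv_eq_mul]
  rw [h1, h2, Complex.norm_exp_ofReal,
    Complex.norm_cpow_eq_rpow_re_of_pos (by positivity)]
  gcongr
  have h3 : (1 / 2 : ℂ).re = 1 / 2 := by norm_num
  rw [h3, ← Real.sqrt_eq_rpow, Real.sqrt_le_iff]
  exact ⟨by positivity, by nlinarith [Real.pi_le_four, sq_nonneg N]⟩

theorem expand (c : ℝ) (b : ℕ → ℂ) (S : Finset ℕ) (t : ℝ) :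
    ((gw c t * ‖dv b S t‖ ^ 2 : ℝ) : ℂ) = ∑ m ∈ S, ∑ n ∈ S,
      b m * (starRingEnd ℂ) (b n) * tm c (Real.log n - Real.log m) t := by
  have h1 : ((‖dv b S t‖ ^ 2 : ℝ) : ℂ) = dv b S t * (starRingEnd ℂ) (dv b S t) := by
    rw [Complex.mul_conj, Complex.normSq_eq_norm_sq]
  rw [Complex.ofReal_mul, h1, dv, map_sum, sum_mul_sum, mul_sum]
  refine sum_congr rfl fun m _ => ?_
  rw [mul_sum]
  refine sum_congr rfl fun n _ => ?_
  have h2 : nt t m * nt (-t) n = Complex.exp (Complex.I * (Real.log n - Real.log m : ℝ) * t) := by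
    rw [nt, nt, ← Complex.exp_add]
    congr 1
    push_cast
    ring
  have h3 : ((gw c t : ℝ) : ℂ) = Complex.exp (-(c : ℂ) * t ^ 2) := by
    rw [gw, Complex.ofReal_exp]
    congr 1
    push_cast
    ring
  rw [map_mul, conj_nt, tm, ← h2, h3]
  ring

theorem gauss {N : ℝ} (hN : 0 < N) (b : ℕ → ℂ) (S : Finset ℕ) :
    Integrable (fun t => gw (N ^ 2)⁻¹ t * ‖dv b S t‖ ^ 2) ∧
    ∫ t, gw (N ^ 2)⁻¹ t * ‖dv b S t‖ ^ 2 ≤ 2 * N * ∑ n ∈ S, ‖b n‖ ^ 2 * ∑ m ∈ S, ker N m n := by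
  have hc : 0 < (N ^ 2)⁻¹ := by positivity
  have hi : ∀ m n : ℕ, Integrable fun t =>
      b m * (starRingEnd ℂ) (b n) * tm (N ^ 2)⁻¹ (Real.log n - Real.log m) t :=
    fun m n => (tm_int hc _).const_mul _
  have hI : Integrable fun t => ((gw (N ^ 2)⁻¹ t * ‖dv b S t‖ ^ 2 : ℝ) : ℂ) := by
    simp only [expand]
    exact integrable_finsetSum _ fun m _ => integrable_finsetSum _ fun n _ => hi m n
  refine ⟨by simpa only [RCLike.re_to_complex, Complex.ofReal_re] using hI.re, ?_⟩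
  have h1 : ((∫ t, gw (N ^ 2)⁻¹ t * ‖dv b S t‖ ^ 2 : ℝ) : ℂ) = ∑ m ∈ S, ∑ n ∈ S,
      b m * (starRingEnd ℂ) (b n) * ∫ t, tm (N ^ 2)⁻¹ (Real.log n - Real.log m) t := by
    rw [← integral_complex_ofReal]
    simp only [expand]
    rw [integral_finsetSum _ fun m _ => integrable_finsetSum _ fun n _ => hi m n]
    refine sum_congr rfl fun m _ => ?_
    rw [integral_finsetSum _ fun n _ => hi m n]
    exact sum_congr rfl fun n _ => integral_const_mul _ _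
  have h2 : ∑ m ∈ S, ∑ n ∈ S, ‖b m‖ ^ 2 * ker N m n = ∑ n ∈ S, ‖b n‖ ^ 2 * ∑ m ∈ S, ker N m n :=
    sum_congr rfl fun m _ => by
      rw [mul_sum]
      exact sum_congr rfl fun n _ => by rw [ker_comm]
  have h3 : ∑ m ∈ S, ∑ n ∈ S, ‖b n‖ ^ 2 * ker N m n =
      ∑ n ∈ S, ‖b n‖ ^ 2 * ∑ m ∈ S, ker N m n := by
    rw [sum_comm]
    exact sum_congr rfl fun n _ => by rw [mul_sum]
  calc ∫ t, gw (N ^ 2)⁻¹ t * ‖dv b S t‖ ^ 2
      ≤ ‖((∫ t, gw (N ^ 2)⁻¹ t * ‖dv b S t‖ ^ 2 : ℝ) : ℂ)‖ := by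
        rw [Complex.norm_real]
        exact le_abs_self _
    _ ≤ ∑ m ∈ S, ∑ n ∈ S, N * (‖b m‖ ^ 2 * ker N m n + ‖b n‖ ^ 2 * ker N m n) := by
        rw [h1]
        refine (norm_sum_le _ _).trans (sum_le_sum fun m _ => ?_)
        refine (norm_sum_le _ _).trans (sum_le_sum fun n _ => ?_)
        rw [norm_mul, norm_mul, Complex.norm_conj]
        have h4 := tm_norm hN (Real.log n - Real.log m)
        have h5 : 0 ≤ N * ker N m n := mul_nonneg hN.le (Real.exp_pos _).le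
        calc _ ≤ ‖b m‖ * ‖b n‖ * (2 * N * ker N m n) := by
              gcongr
              exact h4
          _ ≤ _ := by nlinarith [mul_nonneg h5 (sq_nonneg (‖b m‖ - ‖b n‖))]
    _ = 2 * N * ∑ n ∈ S, ‖b n‖ ^ 2 * ∑ m ∈ S, ker N m n := by
        have h6 : ∑ m ∈ S, ∑ n ∈ S, N * (‖b m‖ ^ 2 * ker N m n + ‖b n‖ ^ 2 * ker N m n) =
            N * (∑ m ∈ S, ∑ n ∈ S, ‖b m‖ ^ 2 * ker N m n +
              ∑ m ∈ S, ∑ n ∈ S, ‖b n‖ ^ 2 * ker N m n) := by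
          simp only [mul_add, mul_sum, sum_add_distrib]
        rw [h6, h2, h3]
        ring

end MVT

open MVT in
theorem mvt : MvtStmt := by
  refine ⟨162, by norm_num, fun b S T hS hT => ?_⟩
  set k := ⌊T⌋₊ with hk
  have hk1 : (k : ℝ) ≤ T := Nat.floor_le hT
  have hk2 : T < k + 1 := Nat.lt_floor_add_one T
  set N : ℝ := ((k + 2 : ℕ) : ℝ) with hN
  have hN' : N = k + 2 := by rw [hN]; push_cast; ring
  have hN0 : 0 < N := by rw [hN']; positivity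
  obtain ⟨hi, hg⟩ := gauss hN0 b S
  have hF : Continuous fun t => ‖dv b S t‖ ^ 2 := (continuous_dv b S).norm.pow 2
  have h1 : ∫ t in -T..T, ‖dv b S t‖ ^ 2 ≤ 3 * ∫ t, gw (N ^ 2)⁻¹ t * ‖dv b S t‖ ^ 2 := by
    rw [intervalIntegral.integral_of_le (by linarith), ← integral_const_mul]
    calc ∫ t in Set.Ioc (-T) T, ‖dv b S t‖ ^ 2
        ≤ ∫ t in Set.Ioc (-T) T, 3 * (gw (N ^ 2)⁻¹ t * ‖dv b S t‖ ^ 2) := by
          refine setIntegral_mono_on (hF.integrableOn_Ioc) (hi.const_mul 3).integrableOn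
            measurableSet_Ioc fun t ht => ?_
          have h2 : (N ^ 2)⁻¹ * t ^ 2 ≤ 1 := by
            rw [inv_mul_le_iff₀ (by positivity), mul_one]
            exact sq_le_sq' (by linarith [ht.1]) (by linarith [ht.2])
          have h3 : 1 ≤ 3 * gw (N ^ 2)⁻¹ t := by
            have h4 : Real.exp (-1) ≤ gw (N ^ 2)⁻¹ t := Real.exp_le_exp.2 (by linarith)
            have h5 : Real.exp 1 * Real.exp (-1) = 1 := by rw [← Real.exp_add]; simp
            nlinarith [Real.exp_one_lt_d9, Real.exp_pos (-1)]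
          nlinarith [sq_nonneg ‖dv b S t‖]
      _ ≤ _ := setIntegral_le_integral (hi.const_mul 3) (Eventually.of_forall fun t =>
          mul_nonneg (by norm_num) (mul_nonneg (gw_pos _ _).le (sq_nonneg _)))
  have h6 : 2 * N * ∑ n ∈ S, ‖b n‖ ^ 2 * ∑ m ∈ S, ker N m n ≤
      54 * ∑ n ∈ S, ‖b n‖ ^ 2 * (T + n) := by
    rw [mul_sum, mul_sum]
    refine sum_le_sum fun n hn => ?_
    have h7 := ker_sum k n (hS n hn) S hS
    rw [← hN, ← hN'] at h7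
    have h8 : (1 : ℝ) ≤ n := by exact_mod_cast hS n hn
    have h9 : N * ∑ m ∈ S, ker N m n ≤ 27 * (T + n) := by linarith
    nlinarith [mul_le_mul_of_nonneg_left h9 (sq_nonneg ‖b n‖)]
  linarith

end Pool.Agent.MP_ca0a54_nt.H78M
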