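import Pool.Agent.MP_ca0a54_nt.H78M.Spec

/-! The choice of the parameters. -/

open Filter Finset

namespace Pool.Agent.MP_ca0a54_nt.H78M

namespace PAR

theorem le_exp (z : ℝ) : z ≤ Real.exp z := by linarith [Real.add_one_le_exp z]

theorem pow_le_exp {z : ℝ} (hz : 0 ≤ z) (k : ℕ) : z ^ k ≤ Real.exp (k * z) := by
  rw [Real.exp_nat_mul]
  exact pow_le_pow_left₀ hz (le_exp z) k

theorem exp_neg_le {z y : ℝ} (hy : 0 < y) (h : y ≤ z) : Real.exp (-z) ≤ y⁻¹ := by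
  rw [Real.exp_neg]
  exact inv_anti₀ hy (h.trans (le_exp z))

theorem ceil_le {b : ℝ} (hb : 2 ≤ b) : (⌈b ^ 2⌉₊ : ℝ) ≤ b ^ 3 := by
  have h := (Nat.ceil_lt_add_one (by positivity : 0 ≤ b ^ 2)).le
  nlinarith

theorem geo (n : ℕ) : ∑ j ∈ range n, ((3 / 2 : ℝ) ^ j)⁻¹ ≤ 3 := by
  have h : ∑ j ∈ range n, ((3 / 2 : ℝ) ^ j)⁻¹ = 3 - 3 * ((3 / 2 : ℝ) ^ n)⁻¹ := by
    induction n with
    | zero => simp
    | succ n ih =>
      rw [sum_range_succ, ih, pow_succ, mul_inv]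
      ring
  have : 0 ≤ ((3 / 2 : ℝ) ^ n)⁻¹ := by positivity
  linarith

theorem geo' {s η k : ℝ} (hs : 0 < s) (hk : 0 ≤ k) (h : 3 * k ≤ η * s) (n : ℕ) (f : ℕ → ℝ)
    (hf : ∀ j, f j ≤ k * (s * (3 / 2 : ℝ) ^ j)⁻¹) : ∑ j ∈ range n, f j ≤ η := by
  refine (sum_le_sum fun j _ => hf j).trans ?_
  simp only [mul_inv, ← mul_assoc]
  rw [← mul_sum]
  refine (mul_le_mul_of_nonneg_left (geo n) (by positivity)).trans ?_
  rw [mul_right_comm, ← div_eq_mul_inv, div_le_iff₀ hs]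
  linarith

theorem two_le {z : ℝ} (hz : 2 ≤ z) : 2 ≤ z ^ 18 :=
  hz.trans (le_self_pow₀ (by linarith) (by norm_num))

theorem vle {z : ℝ} (hz : 2 ≤ z) : (⌈(z ^ 18) ^ 2⌉₊ : ℝ) ≤ z ^ 54 :=
  (ceil_le (two_le hz)).trans_eq (by ring)

theorem first {z : ℝ} (hz : 2000 ≤ z) :
    (⌈(z ^ 18) ^ 2⌉₊ : ℝ) ^ 2 * Real.exp (-(z ^ 16 / 10)) ≤ Real.exp (-z) := by
  have z0 : 0 ≤ z := by linarith
  have h1 : (⌈(z ^ 18) ^ 2⌉₊ : ℝ) ^ 2 ≤ Real.exp ((108 : ℕ) * z) :=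
    ((pow_le_pow_left₀ (by positivity) (vle (by linarith)) 2).trans_eq (by ring)).trans
      (pow_le_exp z0 108)
  refine (mul_le_mul_of_nonneg_right h1 (Real.exp_pos _).le).trans ?_
  rw [← Real.exp_add, Real.exp_le_exp]
  have h2 : z ^ 2 ≤ z ^ 16 := pow_le_pow_right₀ (by linarith) (by norm_num)
  push_cast
  nlinarith

theorem step {C z y t a : ℝ} (hC : 0 ≤ C) (hz : 270 * C + 2000 ≤ z) (hy : 2 ≤ y)
    (e : y ^ 2 = z ^ 3) (t0 : 0 < t) (ht : t ≤ z) (ha : a ≤ 1 / 10) :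
    (⌈(y ^ 18) ^ 2⌉₊ : ℝ) ^ 2 * (⌈(z ^ 18) ^ 2⌉₊ : ℝ) * Real.exp (C * (y ^ 18 / z ^ 16 + 2) ^ 2 -
      2 * (60 * t)⁻¹ * y ^ 16 + 2 * a * z ^ 18) ≤ Real.exp (-z) := by
  have z1 : 1 ≤ z := by linarith
  have z0 : 0 < z := by linarith
  have e1 : y ^ 16 = z ^ 24 := by rw [show y ^ 16 = (y ^ 2) ^ 8 by ring, e]; ring
  have e2 : y ^ 18 / z ^ 16 = z ^ 11 := by
    rw [show y ^ 18 = (y ^ 2) ^ 9 by ring, e, div_eq_iff (by positivity)]
    ring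
  have e3 : y ^ 54 = z ^ 81 := by rw [show y ^ 54 = (y ^ 2) ^ 27 by ring, e]; ring
  have h1 : (⌈(y ^ 18) ^ 2⌉₊ : ℝ) ^ 2 * (⌈(z ^ 18) ^ 2⌉₊ : ℝ) ≤ Real.exp ((216 : ℕ) * z) :=
    ((mul_le_mul (pow_le_pow_left₀ (by positivity) ((vle hy).trans_eq e3) 2) (vle (by linarith))
      (by positivity) (by positivity)).trans_eq (by ring)).trans (pow_le_exp z0.le 216)
  refine (mul_le_mul_of_nonneg_right h1 (Real.exp_pos _).le).trans ?_
  rw [← Real.exp_add, Real.exp_le_exp, e1, e2]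
  have h2 : (z ^ 11 + 2) ^ 2 ≤ 9 * z ^ 22 := by
    have : 1 ≤ z ^ 11 := one_le_pow₀ z1
    rw [show z ^ 22 = (z ^ 11) ^ 2 by ring]
    nlinarith
  have h3 : z / 30 * z ^ 22 ≤ 2 * (60 * t)⁻¹ * z ^ 24 := by
    have : (60 * z)⁻¹ ≤ (60 * t)⁻¹ := inv_anti₀ (by positivity) (by linarith)
    refine le_trans (le_of_eq ?_) (mul_le_mul_of_nonneg_right
      (mul_le_mul_of_nonneg_left this zero_le_two) (by positivity))
    field_simp
    ring
  have h4 : z ^ 18 ≤ z ^ 22 := pow_le_pow_right₀ z1 (by norm_num)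
  have h5 : z ^ 2 ≤ z ^ 22 := pow_le_pow_right₀ z1 (by norm_num)
  have h6 : (9 * C + 3) * z ^ 22 ≤ z / 30 * z ^ 22 :=
    mul_le_mul_of_nonneg_right (by linarith) (by positivity)
  have h7 : 2 * a * z ^ 18 ≤ 1 * z ^ 18 := mul_le_mul_of_nonneg_right (by linarith) (by positivity)
  have h8 := mul_le_mul_of_nonneg_left h2 hC
  have h9 : 217 * z ≤ z ^ 2 := by nlinarith
  have h10 : 0 ≤ z ^ 22 := by positivity
  push_cast
  linarith

theorem last {C z x a : ℝ} (hC : 0 ≤ C) (hz : 14000 * C + 2000 ≤ z) (h1 : z ^ 18 ≤ x / 100)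
    (h2 : x / 100 ≤ z ^ 27) (ha : a ≤ 1 / 10) :
    2 * (⌈(z ^ 18) ^ 2⌉₊ : ℝ) * Real.exp (C * (x / z ^ 16 + 2) ^ 2 + 2 * a * (x + z ^ 18)) ≤
      Real.exp (x / 4) := by
  have z1 : 1 ≤ z := by linarith
  have z0 : 0 < z := by linarith
  have p0 : 0 < z ^ 18 := by positivity
  have x0 : 0 < x := by linarith
  have a1 : 2 * (⌈(z ^ 18) ^ 2⌉₊ : ℝ) ≤ Real.exp ((55 : ℕ) * z) :=
    ((mul_le_mul (by linarith : 2 ≤ z) (vle (by linarith)) (by positivity) z0.le).trans_eq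
      (by ring)).trans (pow_le_exp z0.le 55)
  refine (mul_le_mul_of_nonneg_right a1 (Real.exp_pos _).le).trans ?_
  rw [← Real.exp_add, Real.exp_le_exp]
  have a2 : z ^ 16 ≤ z ^ 18 := pow_le_pow_right₀ z1 (by norm_num)
  have a3 : z ^ 2 ≤ z ^ 18 := pow_le_pow_right₀ z1 (by norm_num)
  have a4 : 2 ≤ x / z ^ 16 := by
    rw [le_div_iff₀ (by positivity)]
    linarith
  have a5 : (x / z ^ 16) ^ 2 ≤ 100 * x / z := by
    rw [div_pow, div_le_div_iff₀ (by positivity) z0]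
    have b1 : z ^ 28 ≤ z ^ 32 := pow_le_pow_right₀ z1 (by norm_num)
    have b2 : x * z ≤ 100 * z ^ 28 := by
      rw [show z ^ 28 = z ^ 27 * z by ring, ← mul_assoc]
      exact mul_le_mul_of_nonneg_right (by linarith) z0.le
    calc x ^ 2 * z = x * (x * z) := by ring
      _ ≤ x * (100 * z ^ 32) := mul_le_mul_of_nonneg_left (by linarith) x0.le
      _ = _ := by ring
  have a6 : (x / z ^ 16 + 2) ^ 2 ≤ 400 * x / z := by
    have : 400 * x / z = 4 * (100 * x / z) := by ring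
    nlinarith
  have a7 : C * (400 * x / z) ≤ 3 / 100 * x := by
    rw [← mul_div_assoc, div_le_iff₀ z0]
    nlinarith
  have a8 := mul_le_mul_of_nonneg_left a6 hC
  have a9 : 2 * a * (x + z ^ 18) ≤ 1 / 5 * (x + z ^ 18) :=
    mul_le_mul_of_nonneg_right (by linarith) (by positivity)
  have a10 : 55 * z ≤ z ^ 2 := by nlinarith
  push_cast
  linarith

theorem del {z : ℝ} (hz : 2 ≤ z) : (z ^ 54)⁻¹ ≤ (z ^ 18 - z ^ 16) / (⌈(z ^ 18) ^ 2⌉₊ : ℝ) ∧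
    (z ^ 18 - z ^ 16) / (⌈(z ^ 18) ^ 2⌉₊ : ℝ) ≤ (z ^ 18)⁻¹ ∧ (0 : ℝ) < ⌈(z ^ 18) ^ 2⌉₊ := by
  have z0 : 0 < z := by linarith
  have v1 : (z ^ 18) ^ 2 ≤ (⌈(z ^ 18) ^ 2⌉₊ : ℝ) := Nat.le_ceil _
  have v0 : (0 : ℝ) < ⌈(z ^ 18) ^ 2⌉₊ := lt_of_lt_of_le (by positivity) v1
  have p1 : 1 ≤ z ^ 16 := one_le_pow₀ (by linarith)
  have p2 : 1 ≤ z ^ 18 - z ^ 16 := by
    rw [show z ^ 18 = z ^ 16 * z ^ 2 by ring]
    nlinarith [mul_le_mul_of_nonneg_left (by nlinarith : 2 ≤ z ^ 2) (by linarith : 0 ≤ z ^ 16)]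
  refine ⟨?_, ?_, v0⟩
  · rw [← one_div]
    exact div_le_div₀ (by linarith) p2 v0 (vle hz)
  · refine (div_le_div₀ (by positivity) (by linarith : z ^ 18 - z ^ 16 ≤ z ^ 18) (by positivity)
      v1).trans_eq ?_
    field_simp

end PAR

open PAR

theorem par : ParStmt := by
  intro C η hC hη
  obtain ⟨s, hs, hs'⟩ : ∃ s : ℝ, 14000 * C + 2000 ≤ s ∧ 6 ≤ η * s := by
    refine ⟨14000 * C + 2000 + 6 / η, le_add_of_nonneg_right (by positivity), ?_⟩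
    rw [mul_add, mul_div_cancel₀ _ hη.ne']
    exact le_add_of_nonneg_left (by positivity)
  have s0 : 0 < s := by linarith
  set t : ℕ → ℝ := fun j => (3 / 2 : ℝ) ^ j with ht
  set z : ℕ → ℝ := fun j => Real.exp (s * t j) with hz
  have t1 : ∀ j, 1 ≤ t j := fun j => one_le_pow₀ (by norm_num)
  have t2 : ∀ j, t (j + 1) = t j * (3 / 2) := fun j => pow_succ _ _
  have u1 : ∀ j, s ≤ s * t j := fun j => le_mul_of_one_le_right s0.le (t1 j)
  have z1 : ∀ j, s * t j ≤ z j := fun j => le_exp _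
  have z2 : ∀ j, s ≤ z j := fun j => (u1 j).trans (z1 j)
  have z3 : ∀ j, 2 ≤ z j := fun j => by linarith [z2 j]
  have z4 : ∀ j, t j ≤ z j := fun j =>
    (le_mul_of_one_le_left (by linarith [t1 j]) (by linarith)).trans (z1 j)
  have z5 : ∀ j, z (j + 1) ^ 2 = z j ^ 3 := fun j => by
    simp only [hz, ← Real.exp_nat_mul, t2]
    exact congrArg _ (by push_cast; ring)
  have l1 : ∀ j, s * t j ≤ Real.log (z j ^ 18 / z j ^ 16) - C := fun j => by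
    have : 0 < z j := by linarith [z3 j]
    rw [show z j ^ 18 / z j ^ 16 = z j ^ 2 by field_simp, Real.log_pow, hz, Real.log_exp]
    push_cast
    linarith [u1 j]
  have a1 : ∀ j, (1 - (2 * t (j + 1))⁻¹) / 10 - (1 - (2 * t j)⁻¹) / 10 = (60 * t j)⁻¹ := fun j => by
    have : 0 < t j := by linarith [t1 j]
    rw [t2]
    field_simp
    ring
  have a2 : ∀ j, (1 - (2 * t j)⁻¹) / 10 ≤ 1 / 10 := fun j => by
    have : 0 ≤ (2 * t j)⁻¹ := inv_nonneg.2 (by linarith [t1 j])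
    linarith
  have p1 : ∀ j, z j ≤ z j ^ 18 := fun j => le_self_pow₀ (by linarith [z3 j]) (by norm_num)
  have d0 : ∀ j, 0 < (z j ^ 18 - z j ^ 16) / (⌈(z j ^ 18) ^ 2⌉₊ : ℝ) := fun j =>
    lt_of_lt_of_le (inv_pos.2 (pow_pos (by linarith [z3 j]) _)) (del (z3 j)).1
  have d1 : ∀ j, (z j ^ 18 - z j ^ 16) / (⌈(z j ^ 18) ^ 2⌉₊ : ℝ) ≤ 1 := fun j =>
    (del (z3 j)).2.1.trans (inv_le_one_of_one_le₀ (by linarith [z3 j, p1 j]))
  refine ⟨fun j => z j ^ 16, fun j => z j ^ 18,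
    fun j => (z j ^ 18 - z j ^ 16) / (⌈(z j ^ 18) ^ 2⌉₊ : ℝ), fun j => (1 - (2 * t j)⁻¹) / 10,
    fun j => ⌈(z j ^ 18) ^ 2⌉₊, fun j => ⟨one_le_pow₀ (by linarith [z3 j]), ?_, d0 j, d1 j, ?_, ?_,
      by linarith [l1 j, u1 j]⟩, fun J => ?_, ?_, fun J => ?_, ?_⟩
  · rw [mul_div_cancel₀ _ (del (z3 j)).2.2.ne', add_sub_cancel]
  · have : (2 * t j)⁻¹ ≤ 1 := inv_le_one_of_one_le₀ (by linarith [t1 j])
    linarith
  · have : 0 ≤ (60 * t j)⁻¹ := inv_nonneg.2 (by linarith [t1 j])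
    linarith [a1 j]
  · refine geo' s0 zero_le_two (by linarith) _ _ fun j => ?_
    have u0 : 0 < s * t j := s0.trans_le (u1 j)
    have b1 := inv_anti₀ u0 (l1 j)
    have b2 := (del (z3 j)).2.1.trans (inv_anti₀ u0 ((z1 j).trans (p1 j)))
    have b3 := mul_le_mul_of_nonneg_left (d1 j) (d0 j).le
    rw [← sq] at b3
    linarith
  · have e : 2 * ((1 - (2 * t 0)⁻¹) / 10) * z 0 ^ 16 = z 0 ^ 16 / 10 := by
      simp only [ht, pow_zero]
      ring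
    simp only [e]
    refine ((first (by linarith [z2 0])).trans (exp_neg_le s0 (z2 0))).trans ?_
    rw [← one_div, div_le_iff₀ s0]
    linarith
  · refine geo' s0 zero_le_one (by linarith) _ _ fun j => ?_
    rw [a1, one_mul]
    exact (step hC (by linarith [z2 j]) (z3 (j + 1)) (z5 j) (by linarith [t1 j]) (z4 j)
      (a2 j)).trans (exp_neg_le (s0.trans_le (u1 j)) (z1 j))
  · filter_upwards [eventually_ge_atTop (100 * z 0 ^ 18)] with x hx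
    have ex : ∃ n, x / 100 < z n ^ 18 := by
      obtain ⟨n, hn⟩ := pow_unbounded_of_one_lt (x / 100) (by norm_num : (1 : ℝ) < 3 / 2)
      exact ⟨n, hn.trans_le ((z4 n).trans (p1 n))⟩
    have n0 : Nat.find ex ≠ 0 := fun h => by
      have := Nat.find_spec ex
      rw [h] at this
      linarith
    obtain ⟨J, hJ⟩ := Nat.exists_eq_succ_of_ne_zero n0
    have m1 : ∀ j ≤ J, z j ^ 18 ≤ x / 100 := fun j hj =>
      not_lt.1 (Nat.find_min ex (by omega))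
    have m2 : x / 100 ≤ z J ^ 27 := by
      have := (Nat.find_spec ex).le
      rwa [hJ, show z J.succ ^ 18 = (z (J + 1) ^ 2) ^ 9 by ring, z5, ← pow_mul] at this
    have x1 : 12 ≤ x := by linarith [two_le (z3 0)]
    refine ⟨J, fun j hj => ⟨by linarith [m1 j hj], le_trans ?_ (del (z3 j)).1⟩,
      last hC (hs.trans (z2 J)) (m1 J le_rfl) m2 (a2 J)⟩
    have q0 : 0 < z j := by linarith [z3 j]
    rw [Real.exp_neg]
    refine inv_anti₀ (by positivity) ?_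
    calc z j ^ 54 = (z j ^ 18) ^ 3 := by ring
      _ ≤ x ^ 3 := pow_le_pow_left₀ (by positivity) (by linarith [m1 j hj]) 3
      _ ≤ Real.exp ((3 : ℕ) * x) := pow_le_exp (by linarith) 3
      _ ≤ _ := Real.exp_le_exp.2 (by push_cast; nlinarith)

end Pool.Agent.MP_ca0a54_nt.H78M
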