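import Pool.Agent.MP_ca0a54_nt.H78M.Spec

/-! Selberg weights. -/

open Finset

namespace Pool.Agent.MP_ca0a54_nt.H78M

namespace SEL

/-- the Moebius function with real values -/
noncomputable def mu (n : ℕ) : ℝ := (ArithmeticFunction.moebius n : ℤ)

theorem sum_mu (m : ℕ) : ∑ i ∈ m.divisors, mu i = if m = 1 then 1 else 0 := by
  have h := congrArg (fun f : ArithmeticFunction ℤ => f m) ArithmeticFunction.moebius_mul_coe_zeta
  simp only [ArithmeticFunction.coe_mul_zeta_apply, ArithmeticFunction.one_apply] at h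
  simp only [mu]
  rw [← Int.cast_sum, h]
  split_ifs <;> simp

theorem abs_mu_le (n : ℕ) : |mu n| ≤ 1 := by
  rw [mu, ← Int.cast_abs]
  exact_mod_cast ArithmeticFunction.abs_moebius_le_one

theorem abs_mu (n : ℕ) : |mu n| = mu n ^ 2 := by
  rw [mu, ← Int.cast_abs, ← Int.cast_pow, ArithmeticFunction.abs_moebius,
    ArithmeticFunction.moebius_sq]

theorem mu_sq {n : ℕ} (h : Squarefree n) : mu n ^ 2 = 1 := by
  rw [mu, ← Int.cast_pow, ArithmeticFunction.moebius_sq_eq_one_of_squarefree h, Int.cast_one]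

theorem inner {Q l k : ℕ} (hl : 1 ≤ l) (hk : k ∈ Icc 1 Q) :
    ∑ d ∈ Icc 1 Q, (if l ∣ d ∧ d ∣ k then mu (k / d) else 0) = if k = l then 1 else 0 := by
  obtain ⟨hk1, hkQ⟩ := mem_Icc.1 hk
  by_cases hlk : l ∣ k
  · obtain ⟨m, rfl⟩ := hlk
    have hm : 0 < m := Nat.pos_of_mul_pos_left hk1
    have h1 : (l * m = l) ↔ m = 1 := by
      constructor
      · intro h
        exact Nat.eq_of_mul_eq_mul_left hl (by rw [h, mul_one])
      · rintro rfl
        exact mul_one l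
    simp only [h1]
    rw [← sum_mu m, ← sum_filter, ← Nat.sum_div_divisors m mu]
    symm
    refine sum_bij (fun j _ => l * j) ?_ ?_ ?_ ?_
    · intro j hj
      have hj' := Nat.dvd_of_mem_divisors hj
      have hj0 : 0 < j := Nat.pos_of_mem_divisors hj
      refine mem_filter.2 ⟨mem_Icc.2 ⟨Nat.mul_pos hl hj0, ?_⟩, dvd_mul_right _ _,
        Nat.mul_dvd_mul_left _ hj'⟩
      exact (Nat.mul_le_mul_left _ (Nat.le_of_dvd hm hj')).trans hkQ
    · intro a _ b _ h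
      exact Nat.eq_of_mul_eq_mul_left hl h
    · intro d hd
      obtain ⟨-, ⟨j, rfl⟩, h2⟩ := mem_filter.1 hd
      exact ⟨j, Nat.mem_divisors.2 ⟨Nat.dvd_of_mul_dvd_mul_left hl h2, hm.ne'⟩, rfl⟩
    · intro j _
      rw [Nat.mul_div_mul_left _ _ hl]
  · rw [if_neg (fun h : k = l => hlk (h ▸ dvd_rfl))]
    exact sum_eq_zero fun d _ => if_neg fun h => hlk (h.1.trans h.2)

/-- the dual Moebius transform -/
noncomputable def u (Q : ℕ) (y : ℕ → ℝ) (d : ℕ) : ℝ :=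
  ∑ k ∈ Icc 1 Q, if d ∣ k then mu (k / d) * y k else 0

theorem sum_u (Q : ℕ) (y : ℕ → ℝ) {l : ℕ} (hl : l ∈ Icc 1 Q) :
    ∑ d ∈ Icc 1 Q, (if l ∣ d then u Q y d else 0) = y l := by
  have h1 : ∀ d ∈ Icc 1 Q, (if l ∣ d then u Q y d else 0) =
      ∑ k ∈ Icc 1 Q, (if l ∣ d ∧ d ∣ k then mu (k / d) else 0) * y k := by
    intro d _
    by_cases h : l ∣ d
    · rw [if_pos h, u]
      refine sum_congr rfl fun k _ => ?_
      by_cases h2 : d ∣ k <;> simp [h, h2]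
    · simp [h]
  rw [sum_congr rfl h1, sum_comm]
  have h2 : ∀ k ∈ Icc 1 Q, ∑ d ∈ Icc 1 Q, (if l ∣ d ∧ d ∣ k then mu (k / d) else 0) * y k =
      if k = l then y k else 0 := by
    intro k hk
    rw [← sum_mul, inner (mem_Icc.1 hl).1 hk]
    split_ifs <;> simp
  rw [sum_congr rfl h2, sum_ite_eq', if_pos hl]

theorem gcd_eq {Q d e : ℕ} (hd : d ∈ Icc 1 Q) :
    (Nat.gcd d e : ℝ) = ∑ l ∈ Icc 1 Q, if l ∣ d ∧ l ∣ e then (Nat.totient l : ℝ) else 0 := by
  obtain ⟨hd1, hdQ⟩ := mem_Icc.1 hd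
  rw [← sum_filter, ← Nat.cast_sum]
  congr 1
  conv_lhs => rw [← Nat.sum_totient (Nat.gcd d e)]
  refine sum_congr ?_ fun _ _ => rfl
  ext l
  rw [Nat.mem_divisors, mem_filter, mem_Icc, Nat.dvd_gcd_iff]
  constructor
  · rintro ⟨h, -⟩
    exact ⟨⟨Nat.pos_of_dvd_of_pos h.1 hd1, (Nat.le_of_dvd hd1 h.1).trans hdQ⟩, h⟩
  · rintro ⟨-, h⟩
    exact ⟨h, (Nat.gcd_pos_of_pos_left e hd1).ne'⟩

theorem form (Q : ℕ) (v : ℕ → ℝ) :
    ∑ d ∈ Icc 1 Q, ∑ e ∈ Icc 1 Q, (d * v d) * (e * v e) / (Nat.lcm d e : ℝ) =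
      ∑ l ∈ Icc 1 Q, (Nat.totient l : ℝ) * (∑ d ∈ Icc 1 Q, if l ∣ d then v d else 0) ^ 2 := by
  have h1 : ∀ d ∈ Icc 1 Q, ∀ e ∈ Icc 1 Q, (d * v d) * (e * v e) / (Nat.lcm d e : ℝ) =
      ∑ l ∈ Icc 1 Q, (Nat.totient l : ℝ) *
        ((if l ∣ d then v d else 0) * (if l ∣ e then v e else 0)) := by
    intro d hd e he
    have h2 : (0 : ℝ) < Nat.lcm d e := by
      exact_mod_cast Nat.lcm_pos (mem_Icc.1 hd).1 (mem_Icc.1 he).1
    have h3 : (d : ℝ) * e = Nat.gcd d e * Nat.lcm d e := by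
      exact_mod_cast (Nat.gcd_mul_lcm d e).symm
    have h4 : (d * v d) * (e * v e) / (Nat.lcm d e : ℝ) = Nat.gcd d e * (v d * v e) := by
      rw [div_eq_iff h2.ne']
      linear_combination (v d * v e) * h3
    rw [h4, gcd_eq hd, sum_mul]
    refine sum_congr rfl fun l _ => ?_
    by_cases a : l ∣ d <;> by_cases b : l ∣ e <;> simp [a, b]
  rw [sum_congr rfl fun d hd => sum_congr rfl fun e he => h1 d hd e he]
  rw [sum_congr rfl fun d _ => sum_comm, sum_comm]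
  refine sum_congr rfl fun l _ => ?_
  rw [sq, sum_mul_sum, mul_sum]
  exact sum_congr rfl fun d _ => by rw [mul_sum]

/-- the normalising sum -/
noncomputable def G (Q : ℕ) : ℝ := ∑ k ∈ Icc 1 Q, mu k ^ 2 / k

theorem log_le (Q : ℕ) : Real.log Q ≤ 2 * G Q := by
  have h0 : Real.log Q ≤ ∑ n ∈ Icc 1 Q, (n : ℝ)⁻¹ := by
    have h := log_add_one_le_harmonic Q
    simp only [harmonic_eq_sum_Icc, Rat.cast_sum, Rat.cast_inv, Rat.cast_natCast] at h
    refine le_trans ?_ h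
    rcases Nat.eq_zero_or_pos Q with rfl | hQ
    · simp
    · exact Real.log_le_log (by exact_mod_cast hQ) (by exact_mod_cast Nat.le_succ Q)
  set A := (Icc 1 Q).filter Squarefree
  set B := Ioo 0 (Q + 1)
  have h1 : Icc 1 Q ⊆ (B ×ˢ A).image fun x : ℕ × ℕ => x.1 ^ 2 * x.2 := by
    intro n hn
    obtain ⟨hn1, hnQ⟩ := mem_Icc.1 hn
    obtain ⟨a, b, ha, hb, hab, hsq⟩ := Nat.sq_mul_squarefree_of_pos hn1
    refine mem_image.2 ⟨(b, a), mem_product.2 ⟨mem_Ioo.2 ⟨hb, ?_⟩,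
      mem_filter.2 ⟨mem_Icc.2 ⟨ha, ?_⟩, hsq⟩⟩, hab⟩
    · have : b ≤ n := Nat.le_of_dvd hn1 ⟨b * a, by rw [← hab]; ring⟩
      show b < Q + 1
      omega
    · exact (Nat.le_of_dvd hn1 ⟨b ^ 2, by rw [← hab]; ring⟩).trans hnQ
  have h2 : ∑ n ∈ Icc 1 Q, (n : ℝ)⁻¹ ≤ ∑ x ∈ B ×ˢ A, ((x.1 ^ 2 * x.2 : ℕ) : ℝ)⁻¹ :=
    (sum_le_sum_of_subset_of_nonneg h1 fun _ _ _ => by positivity).trans
      (sum_image_le_of_nonneg (f := fun n : ℕ => (n : ℝ)⁻¹) fun _ _ => by positivity)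
  have h3 : ∑ x ∈ B ×ˢ A, ((x.1 ^ 2 * x.2 : ℕ) : ℝ)⁻¹ =
      (∑ b ∈ B, ((b : ℝ) ^ 2)⁻¹) * ∑ a ∈ A, (a : ℝ)⁻¹ := by
    rw [sum_product, sum_mul_sum]
    refine sum_congr rfl fun b _ => sum_congr rfl fun a _ => ?_
    push_cast
    rw [mul_inv]
  have h4 : ∑ b ∈ B, ((b : ℝ) ^ 2)⁻¹ ≤ 2 := by
    simpa using sum_Ioo_inv_sq_le (α := ℝ) 0 (Q + 1)
  have h5 : ∑ a ∈ A, (a : ℝ)⁻¹ ≤ G Q := by
    rw [G]
    refine le_trans (le_of_eq (sum_congr rfl fun a ha => ?_))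
      (sum_le_sum_of_subset_of_nonneg (filter_subset Squarefree _) fun _ _ _ => by positivity)
    rw [mu_sq (mem_filter.1 ha).2, one_div]
  have h6 : 0 ≤ ∑ a ∈ A, (a : ℝ)⁻¹ := sum_nonneg fun _ _ => by positivity
  nlinarith

end SEL

open SEL in
theorem sel : SelStmt := by
  intro Q hQ
  have hL : 0 < Real.log Q := Real.log_pos (by exact_mod_cast hQ)
  have hG := log_le Q
  have hG0 : 0 < G Q := by linarith
  set y : ℕ → ℝ := fun k => mu k / k / G Q with hy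
  have hs : ∑ k ∈ Icc 1 Q, mu k * y k = 1 := by
    rw [← div_self hG0.ne']
    conv_rhs => rw [G, sum_div]
    refine sum_congr rfl fun k _ => ?_
    simp only [hy, G]
    ring
  have hab : ∀ k, |y k| = mu k * y k := by
    intro k
    simp only [hy]
    rw [abs_div, abs_div, abs_mu, abs_of_pos hG0, Nat.abs_cast]
    ring
  refine ⟨fun d => d * u Q y d, ?_, fun d => ?_, ?_⟩
  · simpa [u] using hs
  · by_cases hd : d ≤ Q
    · have h1 : |u Q y d| ≤ 1 := by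
        rw [← hs, u]
        refine (abs_sum_le_sum_abs _ _).trans (sum_le_sum fun k _ => ?_)
        rw [← hab]
        split_ifs
        · rw [abs_mul]
          exact mul_le_of_le_one_left (abs_nonneg _) (abs_mu_le _)
        · simp
      have h2 : (d : ℝ) ≤ Q := by exact_mod_cast hd
      have h3 : (2 : ℝ) ≤ Q := by exact_mod_cast hQ
      rw [abs_mul, Nat.abs_cast]
      have h4 : (0 : ℝ) ≤ d := Nat.cast_nonneg d
      nlinarith
    · have h1 : u Q y d = 0 := sum_eq_zero fun k hk => if_neg fun h => by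
        have := Nat.le_of_dvd (mem_Icc.1 hk).1 h
        have := (mem_Icc.1 hk).2
        omega
      simp only [h1, mul_zero, abs_zero]
      positivity
  · rw [form, sum_congr rfl fun l hl => by rw [sum_u Q y hl],
      abs_of_nonneg (sum_nonneg fun _ _ => by positivity)]
    have h1 : ∑ l ∈ Icc 1 Q, (Nat.totient l : ℝ) * y l ^ 2 ≤
        ∑ l ∈ Icc 1 Q, mu l * y l / G Q := by
      refine sum_le_sum fun l hl => ?_
      have h2 : (0 : ℝ) < l := by exact_mod_cast (mem_Icc.1 hl).1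
      have h3 : (Nat.totient l : ℝ) ≤ l := by exact_mod_cast Nat.totient_le l
      refine (mul_le_mul_of_nonneg_right h3 (sq_nonneg _)).trans_eq ?_
      simp only [hy]
      field_simp
    rw [← sum_div, hs] at h1
    refine h1.trans ?_
    rw [div_le_div_iff₀ hG0 hL]
    linarith

end Pool.Agent.MP_ca0a54_nt.H78M
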