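import Pool.Agent.MP_ca0a54_nt.H78M.Spec

/-! From Gaussian windows to sharp windows. -/

open Filter Finset MeasureTheory

namespace Pool.Agent.MP_ca0a54_nt.H78M

namespace SH

variable {c : ℝ}

lemma cont (c : ℝ) : Continuous (gw c) := by
  unfold gw
  fun_prop

lemma gw_neg (c x : ℝ) : gw c (-x) = gw c x := by rw [gw, gw, neg_sq]

lemma gw_eq (c : ℝ) : gw c = fun x => Real.exp (-c * x ^ 2) := funext fun x => by
  rw [gw, neg_mul]

lemma integ (hc : 0 < c) : Integrable (gw c) := gw_eq c ▸ integrable_exp_neg_mul_sq hc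

/-- The total mass. -/
noncomputable def ms (c : ℝ) : ℝ := √(Real.pi / c)

/-- The primitive. -/
noncomputable def G (c y : ℝ) : ℝ := ∫ u in (0 : ℝ)..y, gw c u

lemma G_sub (c a b : ℝ) : G c b - G c a = ∫ u in a..b, gw c u :=
  intervalIntegral.integral_interval_sub_left ((cont c).intervalIntegrable _ _)
    ((cont c).intervalIntegrable _ _)

lemma G_neg (c y : ℝ) : G c (-y) = -G c y := by
  have := intervalIntegral.integral_comp_neg (a := 0) (b := y) (gw c)
  simp only [gw_neg, neg_zero] at this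
  rw [G, G, this, intervalIntegral.integral_symm]

lemma tail (hc : 0 < c) {y : ℝ} (hy : 0 ≤ y) :
    0 ≤ G c y ∧ G c y ≤ ms c / 2 ∧ ms c / 2 - G c y ≤ ms c * gw c y := by
  have h1 := intervalIntegral.integral_interval_add_Ioi (a := 0) (b := y)
    (integ hc).integrableOn (integ hc).integrableOn
  have h2 : ∫ x in Set.Ioi (0 : ℝ), gw c x = ms c / 2 := gw_eq c ▸ integral_gaussian_Ioi c
  have h3 : 0 ≤ ∫ x in Set.Ioi y, gw c x := integral_nonneg fun x => (gw_pos c x).le
  have h4 : Integrable fun s => gw c y * gw c (s - y) := ((integ hc).comp_sub_right y).const_mul _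
  have h5 : ∫ x in Set.Ioi y, gw c x ≤ ms c * gw c y :=
    calc _ ≤ ∫ s in Set.Ioi y, gw c y * gw c (s - y) :=
          setIntegral_mono_on (integ hc).integrableOn h4.integrableOn measurableSet_Ioi
            fun s hs => by
              rw [gw, gw, gw, ← Real.exp_add]
              have := mul_nonneg hc.le (mul_nonneg hy (sub_pos.2 hs).le)
              exact Real.exp_le_exp.2 (by nlinarith)
      _ ≤ ∫ s, gw c y * gw c (s - y) := setIntegral_le_integral h4
          (Eventually.of_forall fun s => mul_nonneg (gw_pos _ _).le (gw_pos _ _).le)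
      _ = _ := by
          rw [integral_const_mul, integral_sub_right_eq_self (gw c), mul_comm, gw_eq,
            integral_gaussian, ms]
  refine ⟨intervalIntegral.integral_nonneg hy fun u _ => (gw_pos c u).le, ?_, ?_⟩ <;>
    rw [G] <;> linarith

lemma G_abs (hc : 0 < c) (y : ℝ) : |G c y| ≤ ms c / 2 := by
  rcases le_total 0 y with h | h
  · rw [abs_of_nonneg (tail hc h).1]
    exact (tail hc h).2.1
  · rw [← abs_neg, ← G_neg, abs_of_nonneg (tail hc (neg_nonneg.2 h)).1]
    exact (tail hc (neg_nonneg.2 h)).2.1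

lemma step (hc : 0 < c) (y : ℝ) :
    |ms c * (if 0 ≤ y then 1 else 0) - ms c / 2 - G c y| ≤ ms c * gw c y := by
  split_ifs with h
  · obtain ⟨-, h1, h2⟩ := tail hc h
    rw [abs_le]
    constructor <;> linarith
  · obtain ⟨-, h1, h2⟩ := tail hc (neg_nonneg.2 (not_le.1 h).le)
    rw [G_neg] at h1 h2
    rw [gw_neg] at h2
    rw [abs_le]
    constructor <;> linarith

lemma low {s s' v : ℝ} (h : s ≤ s') (h1 : ∀ u ∈ Set.Icc s s', v ≤ gw c u) :
    (s' - s) * v ≤ G c s' - G c s := by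
  have := intervalIntegral.integral_mono_on h (intervalIntegrable_const (μ := volume))
    ((cont c).intervalIntegrable _ _) h1
  rwa [intervalIntegral.integral_const, smul_eq_mul, ← G_sub] at this

lemma gw_le (hc : 0 < c) {u s : ℝ} (h : u ^ 2 ≤ s ^ 2) : gw c s ≤ gw c u :=
  Real.exp_le_exp.2 (neg_le_neg (mul_le_mul_of_nonneg_left h hc.le))

lemma log_succ {x : ℝ} (hx : 0 < x) : (x + 1)⁻¹ ≤ Real.log (x + 1) - Real.log x := by
  have := Real.one_sub_inv_le_log_of_pos (div_pos (add_pos hx one_pos) hx)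
  rw [Real.log_div (by positivity) hx.ne'] at this
  refine le_trans (le_of_eq ?_) this
  field_simp
  ring

lemma lnat {m n : ℕ} (h : m ≤ n) : Real.log m ≤ Real.log n := by
  rcases m.eq_zero_or_pos with rfl | h0
  · simpa using Real.log_natCast_nonneg n
  · exact Real.log_le_log (by exact_mod_cast h0) (by exact_mod_cast h)

lemma sumb (hc : 0 < c) {y : ℕ} (hy : 1 ≤ y) (N : ℕ) :
    ∑ n ∈ Icc 1 N, (n : ℝ)⁻¹ * gw c (Real.log n - Real.log y) ≤ (y : ℝ)⁻¹ + 4 * ms c := by
  set T : ℕ → ℝ := fun n => G c (Real.log n - Real.log y) with hT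
  have mono : ∀ n, 0 ≤ T (n + 1) - T n := fun n => by
    have := low (c := c) (v := 0) (sub_le_sub_right (lnat (n.le_succ)) (Real.log y))
      fun u _ => (gw_pos c u).le
    rwa [mul_zero] at this
  have key : ∀ i : ℕ, ((i + 1 : ℕ) : ℝ)⁻¹ * gw c (Real.log (i + 1 : ℕ) - Real.log y) ≤
      (if y - 1 = i then (y : ℝ)⁻¹ else 0) + (2 * (T (i + 1 + 1) - T (i + 1)) +
        2 * (T (i + 1) - T i)) := fun i => by
    have m1 := mono i
    have m2 := mono (i + 1)
    have hg := (gw_pos c (Real.log (i + 1 : ℕ) - Real.log y)).le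
    rcases lt_trichotomy (i + 1) y with h | h | h
    · rw [if_neg (by omega)]
      have l0 : Real.log (i + 1 + 1 : ℕ) ≤ Real.log y := lnat h
      have h1 := low (c := c) (v := gw c (Real.log (i + 1 : ℕ) - Real.log y))
        (sub_le_sub_right (lnat (i + 1).le_succ) (Real.log y))
        fun u hu => gw_le hc (by nlinarith [hu.1, hu.2])
      have h2 := log_succ (x := (i + 1 : ℕ)) (by positivity)
      have h3 : ((i + 1 : ℕ) : ℝ)⁻¹ ≤ 2 * (((i + 1 : ℕ) : ℝ) + 1)⁻¹ := by
        rw [← div_eq_mul_inv, inv_eq_one_div, div_le_div_iff₀ (by positivity) (by positivity)]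
        push_cast
        linarith [i.cast_nonneg (α := ℝ)]
      rw [← Nat.cast_succ] at h2 h3
      have := mul_le_mul_of_nonneg_right (h3.trans (mul_le_mul_of_nonneg_left h2 zero_le_two)) hg
      simp only [hT, Nat.succ_eq_add_one] at *
      nlinarith
    · rw [if_pos (by omega), h]
      have := mul_le_mul_of_nonneg_left (gw_le_one hc.le (Real.log y - Real.log y))
        (inv_nonneg.2 (y.cast_nonneg (α := ℝ)))
      rw [h] at m1 m2
      linarith
    · rw [if_neg (by omega)]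
      have l0 : Real.log y ≤ Real.log i := lnat (by omega)
      have h1 := low (c := c) (v := gw c (Real.log (i + 1 : ℕ) - Real.log y))
        (sub_le_sub_right (lnat i.le_succ) (Real.log y))
        fun u hu => gw_le hc (by nlinarith [hu.1, hu.2])
      have h2 := log_succ (x := i) (by exact_mod_cast (by omega : 0 < i))
      rw [← Nat.cast_succ] at h2
      have := mul_le_mul_of_nonneg_right h2 hg
      simp only [hT, Nat.succ_eq_add_one] at *
      nlinarith
  rw [← Ico_add_one_right_eq_Icc, sum_Ico_eq_sum_range, Nat.add_sub_cancel]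
  simp only [add_comm 1]
  refine (sum_le_sum fun i _ => key i).trans ?_
  rw [sum_add_distrib, sum_add_distrib, ← mul_sum, ← mul_sum, sum_range_sub T,
    sum_range_sub fun i => T (i + 1), sum_ite_eq]
  have b : ∀ n, -(ms c / 2) ≤ T n ∧ T n ≤ ms c / 2 := fun n => abs_le.1 (G_abs hc _)
  have : (if y - 1 ∈ range N then (y : ℝ)⁻¹ else 0) ≤ (y : ℝ)⁻¹ := by
    split_ifs
    exacts [le_rfl, by positivity]
  linarith [(b N).2, (b (N + 1)).2, (b 0).1, (b (0 + 1)).1]

lemma cs {f : ℝ → ℝ} (hf : Continuous f) {a b : ℝ} (h : a < b) :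
    (∫ x in a..b, f x) ^ 2 ≤ (b - a) * ∫ x in a..b, f x ^ 2 := by
  set A := ∫ x in a..b, f x with hA
  have hl : 0 < b - a := sub_pos.2 h
  have h1 := intervalIntegral.integral_mono_on (μ := volume) h.le
    (f := fun x => 2 * (A / (b - a)) * f x) (g := fun x => f x ^ 2 + (A / (b - a)) ^ 2)
    (Continuous.intervalIntegrable (by fun_prop) _ _)
    (Continuous.intervalIntegrable (by fun_prop) _ _)
    fun x _ => by nlinarith [sq_nonneg (f x - A / (b - a))]
  rw [intervalIntegral.integral_const_mul, intervalIntegral.integral_add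
    (Continuous.intervalIntegrable (by fun_prop) _ _) intervalIntegrable_const,
    intervalIntegral.integral_const, smul_eq_mul, ← hA] at h1
  have h2 := mul_le_mul_of_nonneg_left h1 hl.le
  have e1 : (b - a) * (2 * (A / (b - a)) * A) = 2 * A ^ 2 := by field_simp
  have e2 : (b - a) * ((b - a) * (A / (b - a)) ^ 2) = A ^ 2 := by field_simp
  rw [e1, mul_add, e2] at h2
  linarith

lemma tele {Q : ℕ → ℝ} {J : ℝ} (h : ∀ n n', n ≤ n' → Q n' - Q n ≤ J) (X N H : ℕ) :
    ∑ x ∈ Ioc X (X + N), (Q (x + H) - Q x) ≤ H * J := by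
  have t : ∀ (R : ℕ → ℝ) (N : ℕ),
      ∑ x ∈ Ioc X (X + N), (R (x + 1) - R x) = R (X + N + 1) - R (X + 1) := fun R N => by
    induction N with
    | zero => simp
    | succ N ih =>
      rw [← add_assoc, sum_Ioc_succ_top (by omega), ih]
      ring
  induction H with
  | zero => simp
  | succ H ih =>
    have h1 := t (fun n => Q (n + H)) N
    have h2 := h (X + 1 + H) (X + N + 1 + H) (by omega)
    have h3 : ∑ x ∈ Ioc X (X + N), (Q (x + (H + 1)) - Q x) = ∑ x ∈ Ioc X (X + N),
        (Q (x + 1 + H) - Q (x + H)) + ∑ x ∈ Ioc X (X + N), (Q (x + H) - Q x) := by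
      rw [← sum_add_distrib]
      exact sum_congr rfl fun x _ => by rw [show x + (H + 1) = x + 1 + H by omega]; ring
    rw [h3, h1]
    push_cast
    linarith

lemma ms_bd {ε : ℝ} (h : 0 < ε) : ε ≤ ms (ε ^ 2)⁻¹ ∧ ms (ε ^ 2)⁻¹ ≤ 2 * ε := by
  rw [ms, div_inv_eq_mul]
  exact ⟨Real.le_sqrt_of_sq_le (by nlinarith [Real.pi_gt_three, sq_nonneg ε]),
    Real.sqrt_le_iff.2 ⟨by positivity, by nlinarith [Real.pi_le_four, sq_nonneg ε]⟩⟩

/-- The sharp window against the mean of the Gaussian windows. -/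
lemma win (hc : 0 < c) {b : ℕ → ℂ} (hb : ∀ n, ‖b n‖ ≤ (n : ℝ)⁻¹) {x y Z : ℕ} (hx : 1 ≤ x)
    (hy : x ≤ y) (hZ : y ≤ Z) : ‖(ms c : ℂ) * ∑ n ∈ Ioc x y, b n -
      ∫ ξ in Real.log x..Real.log y, ps b (Icc 1 Z) c ξ 0‖ ≤
        ms c * ((x : ℝ)⁻¹ + (y : ℝ)⁻¹ + 8 * ms c) := by
  have hm : 0 ≤ ms c := Real.sqrt_nonneg _
  have e1 : ∫ ξ in Real.log x..Real.log y, ps b (Icc 1 Z) c ξ 0 = ∑ n ∈ Icc 1 Z,
      b n * (G c (Real.log y - Real.log n) - G c (Real.log x - Real.log n) : ℝ) := by
    simp only [ps, dv, nt, Complex.ofReal_zero, mul_zero, zero_mul, neg_zero, Complex.exp_zero,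
      mul_one]
    rw [intervalIntegral.integral_finsetSum fun n _ => Continuous.intervalIntegrable
      (by have := cont c; fun_prop) _ _]
    refine sum_congr rfl fun n _ => ?_
    rw [intervalIntegral.integral_const_mul, intervalIntegral.integral_ofReal, G_sub,
      ← intervalIntegral.integral_comp_sub_right]
    simp only [← gw_neg c (_ - Real.log n), neg_sub]
  have th : ∀ n ∈ Icc 1 Z, ∀ w : ℕ, 1 ≤ w → (0 ≤ Real.log w - Real.log n ↔ n ≤ w) :=
    fun n hn w hw => by
      rw [sub_nonneg, Real.log_le_log_iff (by exact_mod_cast (mem_Icc.1 hn).1)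
        (by exact_mod_cast hw), Nat.cast_le]
  have e2 : ∑ n ∈ Ioc x y, b n = ∑ n ∈ Icc 1 Z, b n *
      ((if 0 ≤ Real.log y - Real.log n then 1 else 0) -
        (if 0 ≤ Real.log x - Real.log n then 1 else 0) : ℝ) := by
    rw [← sum_subset (s₁ := Ioc x y) (s₂ := Icc 1 Z)
      (fun n hn => by simp only [mem_Ioc, mem_Icc] at *; omega)
      fun n hn hn' => ?_]
    · refine sum_congr rfl fun n hn => ?_
      have h1 : n ∈ Icc 1 Z := by simp only [mem_Ioc, mem_Icc] at *; omega
      rw [if_pos ((th n h1 y (by omega)).2 (mem_Ioc.1 hn).2),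
        if_neg fun h => (mem_Ioc.1 hn).1.not_ge ((th n h1 x hx).1 h)]
      simp
    · simp only [th n hn y (by omega), th n hn x hx]
      rw [mem_Ioc] at hn'
      split_ifs <;> first | omega | simp
  rw [e1, e2, mul_sum, ← sum_sub_distrib]
  refine (norm_sum_le _ _).trans ((sum_le_sum (g := fun n : ℕ => ms c *
    ((n : ℝ)⁻¹ * gw c (Real.log n - Real.log x) + (n : ℝ)⁻¹ * gw c (Real.log n - Real.log y)))
    fun n _ => ?_).trans ?_)
  · rw [mul_left_comm, ← mul_sub, ← Complex.ofReal_mul, ← Complex.ofReal_sub, norm_mul,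
      Complex.norm_real, Real.norm_eq_abs, ← mul_add, mul_left_comm]
    refine mul_le_mul (hb n) ?_ (abs_nonneg _) (by positivity)
    have h1 := abs_le.1 (step hc (Real.log x - Real.log n))
    have h2 := abs_le.1 (step hc (Real.log y - Real.log n))
    rw [← gw_neg, neg_sub] at h1 h2
    rw [abs_le, mul_sub, mul_add]
    constructor <;> linarith [h1.1, h1.2, h2.1, h2.2]
  · rw [← mul_sum, sum_add_distrib]
    exact mul_le_mul_of_nonneg_left (by linarith [sumb hc hx Z, sumb hc (hx.trans hy) Z]) hm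

/-- Removing the slowly varying weight. -/
lemma wt {X x n H : ℕ} (hX : 1 ≤ X) (h1 : X ≤ x) (h2 : x ≤ 2 * X) (h3 : x ≤ n) (h4 : n ≤ x + H)
    (h5 : H ≤ X) : |1 - x / gw 1 (Real.log x - Real.log X) *
      ((n : ℝ)⁻¹ * gw 1 (Real.log n - Real.log X))| ≤ 4 * (H / X) ∧
      x / gw 1 (Real.log x - Real.log X) ≤ 6 * X := by
  have p0 : (0 : ℝ) < X := by exact_mod_cast hX
  have p1 : (X : ℝ) ≤ x := by exact_mod_cast h1
  have p2 : (x : ℝ) ≤ 2 * X := by exact_mod_cast h2
  have p3 : (x : ℝ) ≤ n := by exact_mod_cast h3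
  have p4 : (n : ℝ) ≤ x + H := by exact_mod_cast h4
  have p5 : (H : ℝ) ≤ X := by exact_mod_cast h5
  have lg : ∀ {u v : ℝ}, 0 < u → u ≤ v →
      0 ≤ Real.log v - Real.log u ∧ Real.log v - Real.log u ≤ v / u - 1 := fun hu huv =>
    ⟨sub_nonneg.2 (Real.log_le_log hu huv), Real.log_div (hu.trans_le huv).ne' hu.ne' ▸
      Real.log_le_sub_one_of_pos (div_pos (hu.trans_le huv) hu)⟩
  obtain ⟨a1, a2⟩ := lg p0 p1
  obtain ⟨b1, b2⟩ := lg p0 (p1.trans p3)
  obtain ⟨c1, c2⟩ := lg (p0.trans_le p1) p3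
  have a3 : (x : ℝ) / X ≤ 2 := (div_le_iff₀ p0).2 p2
  have b3 : (n : ℝ) / X ≤ 3 := (div_le_iff₀ p0).2 (by linarith)
  have c3 : (n : ℝ) / x - 1 ≤ H / X := by
    rw [div_sub_one (p0.trans_le p1).ne']
    exact div_le_div₀ H.cast_nonneg (by linarith) p0 p1
  refine ⟨?_, ?_⟩
  · have e : x / gw 1 (Real.log x - Real.log X) * ((n : ℝ)⁻¹ * gw 1 (Real.log n - Real.log X)) =
        Real.exp (-((Real.log n - Real.log x) *
          (1 + (Real.log n - Real.log X) + (Real.log x - Real.log X)))) := by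
      conv_lhs => rw [← Real.exp_log (p0.trans_le p1), ← Real.exp_log (p0.trans_le (p1.trans p3))]
      rw [Real.log_exp, Real.log_exp, gw, gw, ← Real.exp_neg, ← Real.exp_sub, ← Real.exp_add,
        ← Real.exp_add]
      congr 1
      ring
    set w := (Real.log n - Real.log x) *
      (1 + (Real.log n - Real.log X) + (Real.log x - Real.log X))
    have w0 : 0 ≤ w := by positivity
    have w1 : w ≤ H / X * 4 := mul_le_mul (by linarith) (by linarith) (by positivity) (by positivity)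
    have := Real.add_one_le_exp (-w)
    have := Real.exp_le_one_iff.2 (neg_nonpos.2 w0)
    rw [e, abs_le]
    constructor <;> linarith
  · rw [gw, Real.exp_neg, div_inv_eq_mul]
    have : Real.exp (1 * (Real.log x - Real.log X) ^ 2) ≤ 3 :=
      (Real.exp_le_exp.2 (by nlinarith)).trans Real.exp_one_lt_three.le
    nlinarith [Real.exp_pos (1 * (Real.log x - Real.log X) ^ 2)]

end SH

open SH

theorem shs : GaStmt → ShStmt := by
  intro hG
  refine ⟨40000, by norm_num, fun h H X a h1 h2 h3 h4 ha => ?_⟩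
  have p0 : (3 : ℝ) ≤ X := by exact_mod_cast h4
  have p1 : (0 : ℝ) < H := by linarith
  have p2 : (H : ℝ) ≤ X := by exact_mod_cast h3
  have pH : 0 < H := by exact_mod_cast p1
  set ε := h / X with hε
  have e0 : 0 < ε := by positivity
  have hc : 0 < (ε ^ 2)⁻¹ := by positivity
  obtain ⟨m1, m2⟩ := ms_bd e0
  set m := ms (ε ^ 2)⁻¹ with hm
  set b : ℕ → ℂ := fun n => a n / n * (gw 1 (Real.log n - Real.log X) : ℝ) with hb
  have b1 : ∀ n, ‖b n‖ ≤ (n : ℝ)⁻¹ := fun n => by
    rw [hb, norm_mul, norm_div, Complex.norm_real, Real.norm_of_nonneg (gw_pos _ _).le,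
      Complex.norm_natCast, div_eq_mul_inv, mul_right_comm]
    exact mul_le_of_le_one_left (by positivity)
      (mul_le_one₀ (ha n) (gw_pos _ _).le (gw_le_one zero_le_one _))
  set S : ℝ → ℂ := fun ξ => ps b (Icc 1 (X ^ 2)) (ε ^ 2)⁻¹ ξ 0 with hS
  have Sc : Continuous S := by
    have := cont (ε ^ 2)⁻¹
    simp only [hS, ps, dv]
    fun_prop
  obtain ⟨-, i1, i2⟩ := (hG _ b (Icc 1 (X ^ 2)) hc).2 0
  set I := ∫ t : ℝ, gw (ε ^ 2 / 2) t * ‖Phi a (X ^ 2) (Real.log X) t‖ ^ 2 with hI
  have I0 : 0 ≤ I := integral_nonneg fun t => mul_nonneg (gw_pos _ _).le (sq_nonneg _)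
  have hJ : ∫ v, ‖S v‖ ^ 2 = ε ^ 2 / 2 * I := by
    rw [hS, i2, show (2 * (ε ^ 2)⁻¹)⁻¹ = ε ^ 2 / 2 by field_simp, En, hI,
      ← integral_neg_eq_self]
    simp only [gw_neg, zero_sub, neg_neg]
    rfl
  set Q : ℕ → ℝ := fun n => ∫ v in (0 : ℝ)..Real.log n, ‖S v‖ ^ 2 with hQ
  have Qs : ∀ n n' : ℕ, Q n' - Q n = ∫ v in Real.log n..Real.log n', ‖S v‖ ^ 2 := fun n n' =>
    intervalIntegral.integral_interval_sub_left i1.intervalIntegrable i1.intervalIntegrable
  have Qb : ∀ n n' : ℕ, n ≤ n' → Q n' - Q n ≤ ε ^ 2 / 2 * I := fun n n' hn => by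
    rw [Qs, intervalIntegral.integral_of_le (lnat hn), ← hJ]
    exact setIntegral_le_integral i1 (Eventually.of_forall fun v => sq_nonneg _)
  have key : ∀ x ∈ Ioc X (2 * X), ‖(H : ℂ)⁻¹ * ∑ j ∈ Icc 1 H, a (x + j)‖ ^ 2 ≤
      108 * X / (H * ε ^ 2) * (Q (x + H) - Q x) + 40000 * ((h / H) ^ 2 + ((H : ℝ) / X) ^ 2) := by
    intro x hx
    obtain ⟨x1, x2⟩ := mem_Ioc.1 hx
    have q1 : (X : ℝ) ≤ x := by exact_mod_cast x1.le
    have q0 : (0 : ℝ) < x := by linarith
    have e1 : ∑ j ∈ Icc 1 H, a (x + j) = ∑ n ∈ Ioc x (x + H), a n := by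
      rw [show Ioc x (x + H) = (Ioc 0 H).map (addLeftEmbedding x) by rw [map_add_left_Ioc]; rfl,
        sum_map]
      rfl
    set ρ := x / gw 1 (Real.log x - Real.log X) with hρ
    have r0 : 0 ≤ ρ := div_nonneg x.cast_nonneg (gw_pos _ _).le
    have r1 : ρ ≤ 6 * X := (wt (by omega) x1.le x2 le_rfl (Nat.le_add_right x H) h3).2
    have k1 : ‖∑ n ∈ Ioc x (x + H), a n - ρ * ∑ n ∈ Ioc x (x + H), b n‖ ≤ H * (4 * (H / X)) := by
      rw [mul_sum, ← sum_sub_distrib]
      refine (norm_sum_le _ _).trans ((sum_le_card_nsmul _ _ (4 * ((H : ℝ) / X))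
        fun n hn => ?_).trans (by simp))
      have : a n - ρ * b n =
          a n * (1 - ρ * ((n : ℝ)⁻¹ * gw 1 (Real.log n - Real.log X)) : ℝ) := by
        rw [hb]
        push_cast
        ring
      rw [this, norm_mul, Complex.norm_real, Real.norm_eq_abs]
      exact (mul_le_of_le_one_left (abs_nonneg _) (ha n)).trans
        (wt (by omega) x1.le x2 (mem_Ioc.1 hn).1.le (mem_Ioc.1 hn).2 h3).1
    have k2 := win hc b1 (x := x) (y := x + H) (Z := X ^ 2) (by omega) (by omega) (by nlinarith)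
    have l1 : Real.log x < Real.log (x + H : ℕ) :=
      Real.log_lt_log (by linarith) (by push_cast; linarith)
    have l2 : Real.log (x + H : ℕ) - Real.log x ≤ H / X := by
      rw [← Real.log_div (by positivity) (by linarith)]
      refine (Real.log_le_sub_one_of_pos (by positivity)).trans ?_
      rw [div_sub_one (by linarith)]
      exact div_le_div₀ p1.le (by push_cast; linarith) (by linarith) q1
    have k3 := cs Sc.norm l1
    rw [← Qs] at k3
    have k4 := intervalIntegral.norm_integral_le_integral_norm (f := S) (μ := volume) l1.le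
    set A := ∫ v in Real.log x..Real.log (x + H : ℕ), ‖S v‖
    have A0 : 0 ≤ A := (norm_nonneg _).trans k4
    have D0 : 0 ≤ Q (x + H) - Q x := by
      rw [Qs]
      exact intervalIntegral.integral_nonneg l1.le fun v _ => sq_nonneg _
    have iv : ∀ y : ℝ, X ≤ y → y⁻¹ ≤ ε := fun y hy => by
      rw [hε, inv_eq_one_div]
      exact div_le_div₀ (by linarith) h1 (by linarith) hy
    have k5 : ‖∑ n ∈ Ioc x (x + H), b n‖ ≤ A / ε + 18 * ε := by
      have u1 := iv x q1
      have u2 := iv (x + H : ℕ) (by push_cast; linarith)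
      have u3 := (norm_le_insert' _ _).trans (add_le_add k4 k2)
      rw [norm_mul, Complex.norm_real, Real.norm_of_nonneg (by linarith), ← hm] at u3
      have u4 : A ≤ m * (A / ε) := by
        rw [← mul_div_assoc, le_div_iff₀ e0]
        nlinarith
      refine le_of_mul_le_mul_left ?_ (e0.trans_le m1)
      nlinarith
    have k6 : ‖(H : ℂ)⁻¹ * ∑ j ∈ Icc 1 H, a (x + j)‖ ≤
        6 * X / (H * ε) * A + 108 * (h / H) + 4 * (H / X) := by
      have u1 := (norm_le_insert' _ _).trans (add_le_add_right k1 _)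
      rw [norm_mul, Complex.norm_real, Real.norm_of_nonneg r0] at u1
      have u2 := mul_le_mul r1 k5 (norm_nonneg _) (by positivity)
      rw [e1, norm_mul, norm_inv, Complex.norm_natCast, inv_mul_le_iff₀ p1]
      refine u1.trans ((add_le_add_left u2 _).trans_eq ?_)
      rw [hε]
      field_simp
      ring
    have k7 : (6 * X / (H * ε) * A) ^ 2 ≤ 36 * X / (H * ε ^ 2) * (Q (x + H) - Q x) :=
      calc _ = (6 * X / (H * ε)) ^ 2 * A ^ 2 := by ring
        _ ≤ (6 * X / (H * ε)) ^ 2 * (H / X * (Q (x + H) - Q x)) :=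
          mul_le_mul_of_nonneg_left (k3.trans (mul_le_mul_of_nonneg_right l2 D0)) (sq_nonneg _)
        _ = _ := by
          field_simp
          ring
    refine (pow_le_pow_left₀ (norm_nonneg _) k6 2).trans ?_
    rw [show 108 * X / (H * ε ^ 2) * (Q (x + H) - Q x) =
      3 * (36 * X / (H * ε ^ 2) * (Q (x + H) - Q x)) by ring]
    generalize 6 * X / (H * ε) * A = u at *
    nlinarith [sq_nonneg (u - 108 * (h / H)), sq_nonneg (u - 4 * (H / X)),
      sq_nonneg (108 * (h / H) - 4 * (H / X)), sq_nonneg (h / H), sq_nonneg ((H : ℝ) / X)]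
  refine (sum_le_sum key).trans ?_
  have t1 := tele Qb X X H
  rw [← two_mul] at t1
  have t2 := mul_le_mul_of_nonneg_left t1 (by positivity : 0 ≤ 108 * X / (H * ε ^ 2))
  rw [show 108 * X / (H * ε ^ 2) * (H * (ε ^ 2 / 2 * I)) = 54 * (X * I) by field_simp; ring] at t2
  rw [sum_add_distrib, ← mul_sum, sum_const, Nat.card_Ioc, show 2 * X - X = X by omega,
    nsmul_eq_mul]
  have : 0 ≤ X * I := by positivity
  nlinarith

end Pool.Agent.MP_ca0a54_nt.H78M
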