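import Pool.Agent.MP_ca0a54_nt.H78M.Spec

/-! The splitting of an integer into its smooth and its rough part. -/

open Filter Finset MeasureTheory

namespace Pool.Agent.MP_ca0a54_nt.H78M

namespace SPL

lemma pow_ne {Q n : ℕ} : ∀ p ∈ n.primeFactors.filter (· ≤ Q), p ^ n.factorization p ≠ 0 :=
  fun _ hp => pow_ne_zero _ (Nat.prime_of_mem_primeFactors (mem_filter.1 hp).1).ne_zero

lemma sm_ne (Q n : ℕ) : sm Q n ≠ 0 := prod_ne_zero_iff.2 pow_ne

lemma sm_pos (Q n : ℕ) : 0 < sm Q n := Nat.pos_of_ne_zero (sm_ne Q n)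

lemma fac_sm (Q n p : ℕ) :
    (sm Q n).factorization p = if p ≤ Q then n.factorization p else 0 := by
  rw [sm, Nat.factorization_prod pow_ne, Finsupp.finsetSum_apply]
  have h : ∀ q ∈ n.primeFactors.filter (· ≤ Q), (q ^ n.factorization q).factorization p =
      if q = p then n.factorization q else 0 := by
    intro q hq
    rw [(Nat.prime_of_mem_primeFactors (mem_filter.1 hq).1).factorization_pow,
      Finsupp.single_apply]
  rw [sum_congr rfl h, sum_ite_eq']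
  by_cases h1 : p ≤ Q
  · by_cases h2 : p ∈ n.primeFactors
    · rw [if_pos (mem_filter.2 ⟨h2, h1⟩), if_pos h1]
    · rw [if_neg fun h => h2 (mem_filter.1 h).1, if_pos h1]
      exact (Finsupp.notMem_support_iff.1 h2).symm
  · have h2 : p ∉ n.primeFactors.filter (· ≤ Q) := fun h => h1 (mem_filter.1 h).2
    rw [if_neg h2, if_neg h1]

lemma sm_mul (Q : ℕ) {a b : ℕ} (ha : a ≠ 0) (hb : b ≠ 0) : sm Q (a * b) = sm Q a * sm Q b := by
  refine Nat.eq_of_factorization_eq (sm_ne _ _) (mul_ne_zero (sm_ne _ _) (sm_ne _ _)) fun p => ?_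
  rw [Nat.factorization_mul (sm_ne _ _) (sm_ne _ _), Finsupp.add_apply, fac_sm, fac_sm, fac_sm,
    Nat.factorization_mul ha hb, Finsupp.add_apply]
  split_ifs <;> rfl

lemma sm_dvd (Q n : ℕ) : sm Q n ∣ n := by
  rcases eq_or_ne n 0 with rfl | hn
  · exact dvd_zero _
  refine (Nat.factorization_le_iff_dvd (sm_ne _ _) hn).1 fun p => ?_
  rw [fac_sm]
  split_ifs
  · exact le_rfl
  · exact Nat.zero_le _

lemma smo_sm (Q n : ℕ) : Smo Q (sm Q n) := by
  intro p hp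
  by_contra h
  have h1 : (sm Q n).factorization p ≠ 0 := Finsupp.mem_support_iff.1 hp
  rw [fac_sm, if_neg h] at h1
  exact h1 rfl

lemma rou_div (Q n : ℕ) : Rou Q (n / sm Q n) := by
  intro p hp
  by_contra h
  have h1 : (n / sm Q n).factorization p ≠ 0 := Finsupp.mem_support_iff.1 hp
  rw [Nat.factorization_div (sm_dvd Q n), Finsupp.tsub_apply, fac_sm, if_pos (not_lt.1 h)] at h1
  exact h1 (Nat.sub_self _)

lemma sm_smo {Q n : ℕ} (hn : n ≠ 0) (h : Smo Q n) : sm Q n = n := by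
  rw [sm, filter_true_of_mem h]
  exact Nat.prod_factorization_pow_eq_self hn

lemma sm_rou {Q n : ℕ} (h : Rou Q n) : sm Q n = 1 := by
  rw [sm, filter_false_of_mem fun p hp => not_le.2 (h p hp), prod_empty]

lemma one (Q p m : ℕ) (hp : p.Prime) (hQ : Q < p) (hm : 1 ≤ m) : sm Q (p * m) = sm Q m := by
  have h : Rou Q p := by
    intro q hq
    rw [hp.primeFactors, mem_singleton] at hq
    exact hq ▸ hQ
  rw [sm_mul Q hp.ne_zero (by omega), sm_rou h, one_mul]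

lemma sm_pair {Q Y Z a b : ℕ} {R : ℝ} (ha : a ∈ S1 Q Y) (hb : b ∈ S2 Q R Z) :
    sm Q (a * b) = a ∧ a * b / sm Q (a * b) = b := by
  obtain ⟨a1, a2⟩ := mem_filter.1 ha
  obtain ⟨b1, b2, -⟩ := mem_filter.1 hb
  have a3 := (mem_Icc.1 a1).1
  have b3 := (mem_Icc.1 b1).1
  have h : sm Q (a * b) = a := by
    rw [sm_mul Q (by omega) (by omega), sm_smo (by omega) a2, sm_rou b2, mul_one]
  exact ⟨h, by rw [h, Nat.mul_div_cancel_left _ (by omega)]⟩

lemma two (f : ℕ → ℂ) (hf : CM f) (Q Y Z : ℕ) (R s : ℝ) :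
    dv (fun n => f n / n) (S3 Q Y R Z) s =
      dv (fun n => f n / n) (S1 Q Y) s * dv (fun n => f n / n) (S2 Q R Z) s := by
  rw [dv, dv, dv, sum_mul_sum, ← sum_product']
  symm
  refine sum_nbij' (fun x => x.1 * x.2) (fun n => (sm Q n, n / sm Q n)) ?_ ?_ ?_ ?_ ?_
  · rintro ⟨a, b⟩ hx
    obtain ⟨ha, hb⟩ := mem_product.1 hx
    obtain ⟨h1, h2⟩ := sm_pair ha hb
    obtain ⟨a1, -⟩ := mem_filter.1 ha
    obtain ⟨b1, -, b2⟩ := mem_filter.1 hb
    obtain ⟨a3, a4⟩ := mem_Icc.1 a1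
    obtain ⟨b3, b4⟩ := mem_Icc.1 b1
    refine mem_filter.2 ⟨mem_Icc.2 ⟨Nat.mul_pos a3 b3, Nat.mul_le_mul a4 b4⟩, ?_⟩
    simp only at h1 h2 a4 b2 b4 ⊢
    rw [h2, h1]
    exact ⟨a4, b2, b4⟩
  · intro n hn
    obtain ⟨h1, h2, h3, h4⟩ := mem_filter.1 hn
    have h5 := (mem_Icc.1 h1).1
    refine mem_product.2 ⟨mem_filter.2 ⟨mem_Icc.2 ⟨sm_pos Q n, h2⟩, smo_sm Q n⟩,
      mem_filter.2 ⟨mem_Icc.2 ⟨?_, h4⟩, rou_div Q n, h3⟩⟩
    exact Nat.div_pos (Nat.le_of_dvd h5 (sm_dvd Q n)) (sm_pos Q n)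
  · rintro ⟨a, b⟩ hx
    obtain ⟨ha, hb⟩ := mem_product.1 hx
    obtain ⟨h1, h2⟩ := sm_pair ha hb
    exact Prod.ext h1 h2
  · intro n _
    exact Nat.mul_div_cancel' (sm_dvd Q n)
  · rintro ⟨a, b⟩ hx
    obtain ⟨ha, hb⟩ := mem_product.1 hx
    have a3 := (mem_Icc.1 (mem_filter.1 ha).1).1
    have b3 := (mem_Icc.1 (mem_filter.1 hb).1).1
    simp only at a3 b3 ⊢
    rw [hf.2.2, nt_mul s (by omega) (by omega), Nat.cast_mul, ← div_mul_div_comm]
    ring

lemma three (f : ℕ → ℂ) (Q Y Z : ℕ) (R u t θ : ℝ) (hf : ∀ n, ‖f n‖ ≤ 1) (hY : 1 ≤ Y) (hθ : 0 ≤ θ)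
    (h : ∀ n : ℕ, 1 ≤ n → ((n : ℝ) ≤ R * Y ∨ Z < n) → gw 1 (Real.log n - u) ≤ θ) :
    ‖Phi (cut f Q Y) Z u t - ps (fun n => f n / n) (S3 Q Y R Z) 1 u t‖ ≤ Y * Z * θ := by
  have e1 : Icc 1 Z = (Icc 1 (Y * Z)).filter (· ≤ Z) := by
    ext n
    simp only [mem_filter, mem_Icc]
    constructor
    · rintro ⟨h1, h2⟩
      exact ⟨⟨h1, h2.trans (Nat.le_mul_of_pos_left Z hY)⟩, h2⟩
    · rintro ⟨⟨h1, -⟩, h2⟩
      exact ⟨h1, h2⟩
  have hterm : ∀ n : ℕ, 1 ≤ n → ((n : ℝ) ≤ R * Y ∨ Z < n) →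
      ‖f n / n * (gw 1 (Real.log n - u) : ℝ) * nt t n‖ ≤ θ := by
    intro n h1 h2
    rw [norm_mul, norm_nt, mul_one, norm_mul, Complex.norm_real, Real.norm_eq_abs,
      abs_of_pos (gw_pos _ _), norm_div, Complex.norm_natCast]
    have h3 : ‖f n‖ / n ≤ 1 :=
      div_le_one_of_le₀ ((hf n).trans (by exact_mod_cast h1)) (Nat.cast_nonneg n)
    exact (mul_le_of_le_one_left (gw_pos _ _).le h3).trans (h n h1 h2)
  rw [Phi, ps, ps, dv, dv, e1, S3, sum_filter, sum_filter, ← sum_sub_distrib]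
  refine (norm_sum_le_of_le _ (n := fun _ => θ) fun n hn => ?_).trans (by simp)
  have h1 := (mem_Icc.1 hn).1
  by_cases c1 : n ≤ Z
  · rw [if_pos c1, cut]
    by_cases c2 : sm Q n ≤ Y
    · rw [if_pos c2]
      by_cases c3 : R ≤ ((n / sm Q n : ℕ) : ℝ)
      · rw [if_pos ⟨c2, c3, (Nat.div_le_self _ _).trans c1⟩, sub_self, norm_zero]
        exact hθ
      · rw [if_neg fun hc => c3 hc.2.1, sub_zero]
        refine hterm n h1 (Or.inl ?_)
        have e2 : (n : ℝ) = ((n / sm Q n : ℕ) : ℝ) * sm Q n := by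
          exact_mod_cast (Nat.div_mul_cancel (sm_dvd Q n)).symm
        have c4 := (not_le.1 c3).le
        calc (n : ℝ) = ((n / sm Q n : ℕ) : ℝ) * sm Q n := e2
          _ ≤ R * Y := mul_le_mul c4 (by exact_mod_cast c2) (Nat.cast_nonneg _)
              ((Nat.cast_nonneg _).trans c4)
    · rw [if_neg c2, if_neg fun hc => c2 hc.1]
      simpa using hθ
  · rw [if_neg c1, zero_sub, norm_neg]
    split_ifs
    · exact hterm n h1 (Or.inr (not_le.1 c1))
    · simpa using hθ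

lemma log_sm (Q n : ℕ) : Real.log (sm Q n) =
    ∑ p ∈ (Icc 1 Q).filter Nat.Prime, (n.factorization p : ℝ) * Real.log p := by
  rw [sm, Nat.cast_prod, Real.log_prod fun p hp => Nat.cast_ne_zero.2 (pow_ne p hp)]
  simp only [Nat.cast_pow, Real.log_pow]
  refine sum_subset (fun p hp => ?_) fun p hp hp' => ?_
  · obtain ⟨h1, h2⟩ := mem_filter.1 hp
    have h3 := Nat.prime_of_mem_primeFactors h1
    exact mem_filter.2 ⟨mem_Icc.2 ⟨h3.pos, h2⟩, h3⟩
  · have h1 : p ∉ n.primeFactors := fun h =>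
      hp' (mem_filter.2 ⟨h, (mem_Icc.1 (mem_filter.1 hp).1).2⟩)
    rw [Finsupp.notMem_support_iff.1 h1, Nat.cast_zero, zero_mul]

lemma sum_fac {p : ℕ} (hp : p.Prime) (N : ℕ) :
    ∑ n ∈ Ioc 0 N, (n.factorization p : ℝ) ≤ 2 * N / p := by
  have e1 : Ioc 0 N = Ico 1 (N + 1) := by
    ext n
    simp only [mem_Ioc, mem_Ico]
    omega
  have e2 : ∑ n ∈ Ioc 0 N, n.factorization p = N.factorial.factorization p := by
    rw [e1, ← prod_Ico_id_eq_factorial, Nat.factorization_prod, Finsupp.finsetSum_apply]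
    intro n hn
    have := (mem_Ico.1 hn).1
    omega
  have e3 : (p - 1) * N.factorial.factorization p ≤ N := by
    rw [Nat.sub_one_mul_factorization_factorial hp]
    exact Nat.sub_le _ _
  have e4 : N.factorial.factorization p * p ≤ 2 * N := by
    have h2 := hp.two_le
    obtain ⟨k, rfl⟩ : ∃ k, p = k + 2 := ⟨p - 2, by omega⟩
    rw [show k + 2 - 1 = k + 1 by omega] at e3
    nlinarith
  rw [← Nat.cast_sum, e2, le_div_iff₀ (by exact_mod_cast hp.pos)]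
  exact_mod_cast e4

end SPL

theorem spl : SplStmt := ⟨SPL.one, SPL.two, SPL.three⟩

theorem den (hM : MerStmt) : DenStmt := by
  obtain ⟨C, hC, -, h2, -⟩ := hM
  refine ⟨2 * (1 + 2 * C), by linarith, fun Q Y N hQ hY => ?_⟩
  have hlY : 0 < Real.log Y := Real.log_pos (by exact_mod_cast hY)
  have hlQ : 1 / 2 ≤ Real.log Q := by
    have := Real.log_le_log two_pos (show (2 : ℝ) ≤ Q by exact_mod_cast hQ)
    linarith [Real.log_two_gt_d9]
  have h3 := h2 (Real.log Q) (by linarith)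
  rw [pr_log (by norm_num) (by omega)] at h3
  have h4 : (((Ioc 0 N).filter fun n => Y < sm Q n).card : ℝ) * Real.log Y ≤
      ∑ n ∈ Ioc 0 N, Real.log (sm Q n) := by
    rw [← nsmul_eq_mul, ← sum_const]
    refine (sum_le_sum fun n hn => ?_).trans (sum_le_sum_of_subset_of_nonneg (filter_subset _ _)
      fun n _ _ => Real.log_natCast_nonneg _)
    exact Real.log_le_log (by exact_mod_cast (show 0 < Y by omega))
      (by exact_mod_cast (mem_filter.1 hn).2.le)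
  have h5 : ∑ n ∈ Ioc 0 N, Real.log (sm Q n) ≤
      2 * N * ∑ p ∈ (Icc 1 Q).filter Nat.Prime, Real.log p / p := by
    simp only [SPL.log_sm]
    rw [sum_comm, mul_sum]
    refine sum_le_sum fun p hp => ?_
    rw [← sum_mul]
    refine (mul_le_mul_of_nonneg_right (SPL.sum_fac (mem_filter.1 hp).2 N)
      (Real.log_natCast_nonneg p)).trans (le_of_eq ?_)
    ring
  have hN : (0 : ℝ) ≤ 2 * N := mul_nonneg zero_le_two (Nat.cast_nonneg N)
  have h6 := mul_le_mul_of_nonneg_left (h3.trans (show Real.log Q + C ≤ (1 + 2 * C) * Real.log Q by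
    nlinarith)) hN
  have e : 2 * (1 + 2 * C) * (Real.log Q / Real.log Y) * N =
      2 * N * ((1 + 2 * C) * Real.log Q) / Real.log Y := by ring
  rw [e, le_div_iff₀ hlY]
  exact h4.trans (h5.trans h6)

end Pool.Agent.MP_ca0a54_nt.H78M
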