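import Pool.Agent.MP_ca0a54_nt.H78M.Spec

/-! The Gaussian mean square is controlled by a short interval. -/

open Filter Finset MeasureTheory

namespace Pool.Agent.MP_ca0a54_nt.H78M

namespace TAIL

theorem pt {X t : ℝ} (hX : 0 < X) (K : ℕ) (h : t ∈ Set.Ioc (-(K * X)) (K * X)) :
    Real.exp (-(t / X) ^ 2 / 4) ≤ ∑ k ∈ range K,
      (Set.Ioc (-((k + 1 : ℕ) * X)) ((k + 1 : ℕ) * X)).indicator
        (fun _ => Real.exp (4 - 2 * k)) t := by
  have hn : ∀ k : ℕ, 0 ≤ (Set.Ioc (-((k + 1 : ℕ) * X)) ((k + 1 : ℕ) * X)).indicator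
      (fun _ => Real.exp (4 - 2 * k)) t := fun k =>
    Set.indicator_nonneg (fun _ _ => (Real.exp_pos _).le) _
  induction K with
  | zero => simp at h
  | succ K ih =>
    rw [sum_range_succ, Set.indicator_of_mem h]
    by_cases h' : t ∈ Set.Ioc (-(K * X)) (K * X)
    · exact (ih h').trans (le_add_of_nonneg_right (Real.exp_pos _).le)
    · refine le_trans (Real.exp_le_exp.2 ?_) (le_add_of_nonneg_left (sum_nonneg fun k _ => hn k))
      have h1 : (K : ℝ) * X ≤ |t| := by
        by_contra hc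
        push Not at hc
        exact h' ⟨(abs_lt.1 hc).1, (abs_lt.1 hc).2.le⟩
      have h2 : (K : ℝ) ≤ |t / X| := by
        rwa [abs_div, abs_of_pos hX, le_div_iff₀ hX]
      rw [← sq_abs (t / X)]
      nlinarith [sq_nonneg (|t / X| - 4)]

theorem sum_le (K : ℕ) :
    ∑ k ∈ range K, Real.exp (4 - 2 * k) * (1 + (k + 1 : ℕ)) ≤ 4 * Real.exp 4 := by
  have h1 : ∀ k : ℕ, Real.exp (4 - 2 * k) * (1 + (k + 1 : ℕ)) ≤
      2 * Real.exp 4 * (1 / 2 : ℝ) ^ k := fun k => by
    have a1 : (1 : ℝ) + (k + 1 : ℕ) ≤ 2 * Real.exp k := by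
      have := Real.add_one_le_exp (k : ℝ)
      have h0 : (0 : ℝ) ≤ k := Nat.cast_nonneg k
      push_cast
      linarith
    have a2 : Real.exp (-1) ^ k ≤ (1 / 2 : ℝ) ^ k := by
      refine pow_le_pow_left₀ (Real.exp_pos _).le ?_ k
      rw [Real.exp_neg, one_div]
      exact inv_anti₀ two_pos (by linarith [Real.add_one_le_exp (1 : ℝ)])
    have a3 : Real.exp (4 - 2 * k) * Real.exp k = Real.exp 4 * Real.exp (-1) ^ k := by
      rw [← Real.exp_nat_mul, ← Real.exp_add, ← Real.exp_add]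
      congr 1
      ring
    calc _ ≤ Real.exp (4 - 2 * k) * (2 * Real.exp k) := by gcongr
      _ = 2 * Real.exp 4 * Real.exp (-1) ^ k := by rw [mul_left_comm, a3, mul_assoc]
      _ ≤ _ := by gcongr
  refine (sum_le_sum fun k _ => h1 k).trans ?_
  rw [← mul_sum]
  nlinarith [sum_geometric_two_le K, Real.exp_pos 4]

theorem gw_le {X H h t : ℝ} (hX : 0 < X) (hH : 0 < H) (hh : 1 ≤ h)
    (ht : t ∉ Set.Ioc (-(X / H)) (X / H)) :
    gw ((h / X) ^ 2 / 2) t ≤ Real.exp (-(h / (2 * H)) ^ 2) * Real.exp (-(t / X) ^ 2 / 4) := by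
  rw [gw, ← Real.exp_add, Real.exp_le_exp]
  have h1 : X / H ≤ |t| := by
    by_contra hc
    push Not at hc
    exact ht ⟨(abs_lt.1 hc).1, (abs_lt.1 hc).2.le⟩
  have h2 : 1 / H ≤ |t / X| := by
    rw [abs_div, abs_of_pos hX, le_div_iff₀ hX]
    rwa [one_div_mul_eq_div]
  have h3 : (1 / H) ^ 2 ≤ (t / X) ^ 2 := by
    rw [← sq_abs (t / X)]
    exact pow_le_pow_left₀ (by positivity) h2 2
  have h4 : 1 ≤ h ^ 2 := one_le_pow₀ hh
  have e1 : (h / X) ^ 2 / 2 * t ^ 2 = h ^ 2 * (t / X) ^ 2 / 2 := by ring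
  have e2 : (h / (2 * H)) ^ 2 = h ^ 2 * (1 / H) ^ 2 / 4 := by ring
  rw [e1, e2]
  nlinarith [mul_le_mul_of_nonneg_left h3 (sq_nonneg h),
    mul_le_mul_of_nonneg_right h4 (sq_nonneg (t / X))]

theorem main {F : ℝ → ℝ} {X H h M B η : ℝ} (hF : Continuous F) (h0 : ∀ t, 0 ≤ F t)
    (hB : ∀ t, F t ≤ B) (hX : 0 < X) (hH : 0 < H) (hh : 1 ≤ h) (hM : 0 ≤ M)
    (h1 : ∀ k : ℕ, ∫ t in -(k * X)..(k * X), F t ≤ M * (1 + k))
    (h2 : ∫ t in -(X / H)..(X / H), F t ≤ η) :
    ∫ t, gw ((h / X) ^ 2 / 2) t * F t ≤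
      η + Real.exp (-(h / (2 * H)) ^ 2) * (M * (4 * Real.exp 4)) := by
  have hc : 0 < (h / X) ^ 2 / 2 := by positivity
  have hI : Integrable fun t => gw ((h / X) ^ 2 / 2) t * F t := by
    refine Integrable.mul_bdd (c := B) ?_ hF.aestronglyMeasurable
      (Eventually.of_forall fun t => by rw [Real.norm_of_nonneg (h0 t)]; exact hB t)
    exact (integrable_exp_neg_mul_sq hc).congr (Eventually.of_forall fun t => by
      simp only [gw, neg_mul])
  have hi : ∀ a b : ℝ, Integrable ((Set.Ioc a b).indicator F) := fun a b =>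
    (integrable_indicator_iff measurableSet_Ioc).2 (hF.integrableOn_Icc.mono_set
      Set.Ioc_subset_Icc_self)
  have he : ∀ T : ℝ, 0 ≤ T → ∀ G : ℝ → ℝ,
      ∫ t in -T..T, G t = ∫ t, (Set.Ioc (-T) T).indicator G t := fun T hT G => by
    rw [intervalIntegral.integral_of_le (by linarith), integral_indicator measurableSet_Ioc]
  have hT : Tendsto (fun K : ℕ => (K : ℝ) * X) atTop atTop :=
    tendsto_natCast_atTop_atTop.atTop_mul_const hX
  refine le_of_tendsto' (intervalIntegral_tendsto_integral hI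
    (tendsto_neg_atTop_atBot.comp hT) hT) fun K => ?_
  set ε := Real.exp (-(h / (2 * H)) ^ 2) with hε
  have hε0 : 0 < ε := Real.exp_pos _
  have hs : Integrable fun t => ε * ∑ k ∈ range K, Real.exp (4 - 2 * k) *
      (Set.Ioc (-((k + 1 : ℕ) * X)) ((k + 1 : ℕ) * X)).indicator F t :=
    (integrable_finsetSum _ fun k _ => (hi _ _).const_mul _).const_mul _
  calc ∫ t in -(K * X)..(K * X), gw ((h / X) ^ 2 / 2) t * F t
      ≤ ∫ t, ((Set.Ioc (-(X / H)) (X / H)).indicator F t + ε * ∑ k ∈ range K,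
          Real.exp (4 - 2 * k) *
            (Set.Ioc (-((k + 1 : ℕ) * X)) ((k + 1 : ℕ) * X)).indicator F t) := by
        rw [he _ (by positivity)]
        refine integral_mono (hI.indicator measurableSet_Ioc) ((hi _ _).add hs) fun t => ?_
        have n1 : 0 ≤ (Set.Ioc (-(X / H)) (X / H)).indicator F t :=
          Set.indicator_nonneg (fun t _ => h0 t) _
        have n2 : 0 ≤ ε * ∑ k ∈ range K, Real.exp (4 - 2 * k) *
            (Set.Ioc (-((k + 1 : ℕ) * X)) ((k + 1 : ℕ) * X)).indicator F t :=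
          mul_nonneg hε0.le (sum_nonneg fun k _ => mul_nonneg (Real.exp_pos _).le
            (Set.indicator_nonneg (fun t _ => h0 t) _))
        beta_reduce
        by_cases m1 : t ∈ Set.Ioc (-(K * X)) (K * X)
        · rw [Set.indicator_of_mem m1]
          by_cases m2 : t ∈ Set.Ioc (-(X / H)) (X / H)
          · rw [Set.indicator_of_mem m2]
            exact (mul_le_of_le_one_left (h0 t) (gw_le_one hc.le t)).trans
              (le_add_of_nonneg_right n2)
          · refine le_trans ?_ (le_add_of_nonneg_left n1)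
            refine (mul_le_mul_of_nonneg_right ((gw_le hX hH hh m2).trans
              (mul_le_mul_of_nonneg_left (pt hX K m1) hε0.le)) (h0 t)).trans_eq ?_
            rw [mul_assoc, sum_mul]
            congr 1
            refine sum_congr rfl fun k _ => ?_
            simp only [Set.indicator_apply]
            split_ifs <;> simp
        · rw [Set.indicator_of_notMem m1]
          exact add_nonneg n1 n2
    _ ≤ η + ε * (M * (4 * Real.exp 4)) := by
        rw [integral_add (hi _ _) hs, ← he _ (by positivity), integral_const_mul,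
          integral_finsetSum _ fun k _ => (hi _ _).const_mul _]
        refine add_le_add h2 (mul_le_mul_of_nonneg_left ?_ hε0.le)
        refine le_trans ?_ (mul_le_mul_of_nonneg_left (sum_le K) hM)
        rw [mul_sum]
        refine sum_le_sum fun k _ => ?_
        rw [integral_const_mul, ← he _ (by positivity), mul_left_comm]
        exact mul_le_mul_of_nonneg_left (h1 (k + 1)) (Real.exp_pos _).le

end TAIL

theorem tail : AmpStmt → TailStmt := by
  rintro ⟨C, -, H⟩ H₀ η hH hη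
  set M := Real.exp C * (4 * Real.exp 4) with hM
  have hM0 : 0 < M := by positivity
  have hs : 1 ≤ 1 + M / η := le_add_of_nonneg_right (by positivity)
  refine ⟨2 * H₀ * (1 + M / η), by nlinarith, fun X a hX ha h2 => ?_⟩
  have hX0 : (0 : ℝ) < X := by exact_mod_cast hX
  have h3 := TAIL.main (h := 2 * H₀ * (1 + M / η)) (M := Real.exp C)
    (F := fun t => ‖Phi a (X ^ 2) (Real.log X) t‖ ^ 2)
    ((continuous_Phi a (X ^ 2) (Real.log X)).norm.pow 2) (fun t => sq_nonneg _)
    (fun t => pow_le_pow_left₀ (norm_nonneg _) (norm_dv_le _ _ t) 2) hX0 (by linarith)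
    (by nlinarith) (Real.exp_pos C).le (fun k => by
      have h4 := H a (fun _ => 0) (X ^ 2) 0 ∅ 0 (Real.log X) (k * X) ha (by simp)
        (by positivity) (by simp)
      simp only [mul_zero, pow_zero, one_mul, Nat.cast_zero, zero_add, one_pow, mul_one,
        add_zero] at h4
      rwa [Real.exp_neg, Real.exp_log hX0, mul_inv_cancel_right₀ hX0.ne'] at h4) h2
  refine h3.trans ?_
  rw [mul_div_cancel_left₀ _ (by positivity : 2 * H₀ ≠ 0), ← hM]
  have h5 : Real.exp (-(1 + M / η) ^ 2) ≤ η / M := by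
    rw [Real.exp_neg]
    refine (inv_anti₀ (div_pos hM0 hη) ?_).trans_eq (inv_div M η)
    nlinarith [Real.add_one_le_exp ((1 + M / η) ^ 2)]
  have h6 := mul_le_mul_of_nonneg_right h5 hM0.le
  rw [div_mul_cancel₀ _ hM0.ne'] at h6
  linarith

end Pool.Agent.MP_ca0a54_nt.H78M
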