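import Pool.Agent.MP_ca0a54_nt.H78M.Spec

/-! The multi-scale chain. -/

open Filter Finset MeasureTheory

namespace Pool.Agent.MP_ca0a54_nt.H78M

namespace TT

lemma split {T : ℝ} (hT : 0 ≤ T) {φ G : ℝ → ℝ} (hφ : Continuous φ) (hG : Continuous G)
    {U : Set ℝ} (hU : MeasurableSet U) (hUT : U ⊆ Set.Icc (-T) T) (h0 : ∀ t, 0 ≤ G t)
    (h : ∀ t ∈ Set.Icc (-T) T, t ∉ U → φ t ≤ G t) :
    ∫ t in -T..T, φ t ≤ (∫ t in -T..T, G t) + ∫ t in U, φ t := by
  have hle : -T ≤ T := by linarith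
  rw [intervalIntegral.integral_of_le hle, intervalIntegral.integral_of_le hle,
    ← integral_Icc_eq_integral_Ioc, ← integral_Icc_eq_integral_Ioc]
  have iφ : IntegrableOn φ (Set.Icc (-T) T) := hφ.integrableOn_Icc
  have iG : IntegrableOn G (Set.Icc (-T) T) := hG.integrableOn_Icc
  have e := setIntegral_sdiff (μ := volume) hU iφ hUT
  have h1 : ∫ t in Set.Icc (-T) T \ U, φ t ≤ ∫ t in Set.Icc (-T) T \ U, G t :=
    setIntegral_mono_on (iφ.mono_set Set.sdiff_subset) (iG.mono_set Set.sdiff_subset)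
      (measurableSet_Icc.diff hU) fun t ht => h t ht.1 ht.2
  have h2 : ∫ t in Set.Icc (-T) T \ U, G t ≤ ∫ t in Set.Icc (-T) T, G t :=
    setIntegral_mono_set iG (ae_of_all _ h0) Set.sdiff_subset.eventuallyLE
  linarith

lemma meas {T : ℝ} (hT : 0 ≤ T) {G : ℝ → ℝ} (hG : Continuous G)
    {U : Set ℝ} (hU : MeasurableSet U) (hUT : U ⊆ Set.Icc (-T) T) (h0 : ∀ t, 0 ≤ G t)
    (h : ∀ t ∈ U, 1 ≤ G t) : volume.real U ≤ ∫ t in -T..T, G t := by
  have hle : -T ≤ T := by linarith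
  rw [intervalIntegral.integral_of_le hle, ← integral_Icc_eq_integral_Ioc]
  have iG : IntegrableOn G (Set.Icc (-T) T) := hG.integrableOn_Icc
  have i1 : IntegrableOn (fun _ : ℝ => (1 : ℝ)) U :=
    (continuous_const.integrableOn_Icc (a := -T) (b := T)).mono_set hUT
  have h1 : ∫ _ in U, (1 : ℝ) ≤ ∫ t in U, G t :=
    setIntegral_mono_on i1 (iG.mono_set hUT) hU h
  have h2 : ∫ t in U, G t ≤ ∫ t in Set.Icc (-T) T, G t :=
    setIntegral_mono_set iG (ae_of_all _ h0) hUT.eventuallyLE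
  simp only [setIntegral_const, smul_eq_mul, mul_one] at h1
  linarith

lemma int_sum_le {ι : Type*} (s : Finset ι) (g : ι → ℝ → ℝ) (b : ι → ℝ) (T : ℝ)
    (hg : ∀ i ∈ s, Continuous (g i)) (h : ∀ i ∈ s, ∫ t in -T..T, g i t ≤ b i) :
    ∫ t in -T..T, ∑ i ∈ s, g i t ≤ ∑ i ∈ s, b i := by
  rw [intervalIntegral.integral_finsetSum fun i hi => (hg i hi).intervalIntegrable _ _]
  exact sum_le_sum h

lemma pt (z : ℂ) {S : ℝ} (hS : 1 ≤ S) (V : ℕ) (q w : ℕ → ℂ) (e : ℕ → ℝ)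
    (hq : ∀ v < V, ‖q v‖ ≤ e v) :
    ‖z‖ ^ 2 ≤ 2 * ‖z - (S : ℂ)⁻¹ * ∑ v ∈ range V, q v * w v‖ ^ 2 +
      2 * V * ∑ v ∈ range V, e v ^ 2 * ‖w v‖ ^ 2 := by
  set y := (S : ℂ)⁻¹ * ∑ v ∈ range V, q v * w v with hy
  have h1 : ‖y‖ ≤ ∑ v ∈ range V, e v * ‖w v‖ := by
    rw [hy, norm_mul, norm_inv, Complex.norm_real, Real.norm_of_nonneg (by linarith)]
    have h2 : ‖∑ v ∈ range V, q v * w v‖ ≤ ∑ v ∈ range V, e v * ‖w v‖ :=
      (norm_sum_le _ _).trans (sum_le_sum fun v hv => by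
        rw [norm_mul]
        exact mul_le_mul_of_nonneg_right (hq v (mem_range.1 hv)) (norm_nonneg _))
    have h3 : S⁻¹ ≤ 1 := inv_le_one_of_one_le₀ hS
    calc S⁻¹ * ‖∑ v ∈ range V, q v * w v‖ ≤ 1 * ‖∑ v ∈ range V, q v * w v‖ :=
          mul_le_mul_of_nonneg_right h3 (norm_nonneg _)
      _ ≤ _ := by rw [one_mul]; exact h2
  have h4 : ‖y‖ ^ 2 ≤ V * ∑ v ∈ range V, e v ^ 2 * ‖w v‖ ^ 2 := by
    have h5 := sq_sum_le_card_mul_sum_sq (s := range V) (f := fun v => e v * ‖w v‖)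
    rw [card_range] at h5
    simp only [mul_pow] at h5
    exact (pow_le_pow_left₀ (norm_nonneg _) h1 2).trans h5
  have h6 : ‖z‖ ≤ ‖z - y‖ + ‖y‖ := by
    simpa using norm_add_le (z - y) y
  nlinarith [norm_nonneg z, norm_nonneg y, norm_nonneg (z - y), sq_nonneg (‖z - y‖ - ‖y‖)]

lemma sum_pr (a d : ℝ) (hd : 0 ≤ d) (g : ℕ → ℝ) (V : ℕ) :
    ∑ v ∈ range V, ∑ p ∈ pr (a + v * d) (a + ((v + 1 : ℕ) : ℝ) * d), g p =
      ∑ p ∈ pr a (a + V * d), g p := by
  induction V with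
  | zero =>
    have : pr a (a + ((0 : ℕ) : ℝ) * d) = ∅ := by
      ext p
      simp only [mem_pr, notMem_empty, iff_false]
      rintro ⟨-, h1, h2⟩
      simp at h2
      linarith
    rw [this]
    simp
  | succ V ih =>
    have h0 : (0 : ℝ) ≤ V * d := by positivity
    rw [sum_range_succ, ih, ← sum_union]
    · congr 1
      ext p
      simp only [mem_union, mem_pr]
      push_cast
      constructor
      · rintro (⟨h1, h2, h3⟩ | ⟨h1, h2, h3⟩)
        · exact ⟨h1, h2, by linarith⟩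
        · exact ⟨h1, by linarith, h3⟩
      · rintro ⟨h1, h2, h3⟩
        rcases le_or_gt (Real.log p) (a + V * d) with h | h
        · exact Or.inl ⟨h1, h2, h⟩
        · exact Or.inr ⟨h1, h, h3⟩
    · rw [disjoint_left]
      intro p h1 h2
      rw [mem_pr] at h1 h2
      linarith [h1.2.2, h2.2.1]

/-- the left end of a block -/
def Lv (a d : ℝ) (v : ℕ) : ℝ := a + v * d

/-- the primes of a block -/
noncomputable def Pv (a d : ℝ) (v : ℕ) : Finset ℕ := pr (Lv a d v) (Lv a d (v + 1))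

/-- all block polynomials are small -/
def good (f : ℕ → ℂ) (a d α : ℝ) (V : ℕ) (t : ℝ) : Prop :=
  ∀ v < V, ‖pp f (Pv a d v) t‖ ≤ Real.exp (-(α * Lv a d v))

/-- the amplifier -/
noncomputable def Am (f : ℕ → ℂ) (a d α : ℝ) (V : ℕ) (y t : ℝ) : ℝ :=
  ∑ r ∈ range V, (‖pp f (Pv a d r) t‖ * Real.exp (α * Lv a d r)) ^ (2 * ⌈y / Lv a d r⌉₊)

lemma Am_nonneg (f : ℕ → ℂ) (a d α : ℝ) (V : ℕ) (y t : ℝ) : 0 ≤ Am f a d α V y t :=
  sum_nonneg fun _ _ => by positivity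

lemma continuous_Am (f : ℕ → ℂ) (a d α : ℝ) (V : ℕ) (y : ℝ) : Continuous (Am f a d α V y) :=
  continuous_finsetSum _ fun _ _ => ((continuous_pp _ _).norm.mul continuous_const).pow _

lemma one_le_Am {f : ℕ → ℂ} {a d α : ℝ} {V : ℕ} {t : ℝ} (h : ¬ good f a d α V t) (y : ℝ) :
    1 ≤ Am f a d α V y t := by
  simp only [good, not_forall, not_le] at h
  obtain ⟨r, hr, h⟩ := h
  have h1 : 1 ≤ ‖pp f (Pv a d r) t‖ * Real.exp (α * Lv a d r) := by
    have h2 := mul_le_mul_of_nonneg_right h.le (Real.exp_pos (α * Lv a d r)).le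
    rwa [← Real.exp_add, neg_add_cancel, Real.exp_zero] at h2
  exact (one_le_pow₀ h1).trans (single_le_sum
    (f := fun r => (‖pp f (Pv a d r) t‖ * Real.exp (α * Lv a d r)) ^ (2 * ⌈y / Lv a d r⌉₊))
    (fun _ _ => by positivity) (mem_range.2 hr))

lemma measurable_bad (f : ℕ → ℂ) (a d α : ℝ) (V : ℕ) :
    MeasurableSet {t | ¬ good f a d α V t} := by
  have : {t | good f a d α V t} =
      ⋂ v ∈ {v | v < V}, {t | ‖pp f (Pv a d v) t‖ ≤ Real.exp (-(α * Lv a d v))} := by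
    ext t
    simp [good]
  have h : IsClosed {t | good f a d α V t} := by
    rw [this]
    exact isClosed_biInter fun v _ => isClosed_le (continuous_pp _ _).norm continuous_const
  exact h.measurableSet.compl

lemma mem_Pv {a d : ℝ} {v p : ℕ} (h : p ∈ Pv a d v) :
    p.Prime ∧ Lv a d v < Real.log p ∧ Real.log p ≤ Lv a d v + d := by
  rw [Pv, mem_pr] at h
  refine ⟨h.1, h.2.1, h.2.2.trans_eq ?_⟩
  simp only [Lv]
  push_cast
  ring

lemma Lv_ge {a d : ℝ} (hd : 0 ≤ d) (v : ℕ) : a ≤ Lv a d v :=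
  le_add_of_nonneg_right (by positivity)

lemma Lv_le {a d : ℝ} (hd : 0 ≤ d) {v V : ℕ} (h : v ≤ V) : Lv a d v ≤ a + V * d := by
  have : (v : ℝ) ≤ V := by exact_mod_cast h
  simp only [Lv]
  nlinarith

/-- the moment bound with a fixed constant -/
def Amp (C : ℝ) : Prop := ∀ (a c : ℕ → ℂ) (Z l : ℕ) (P : Finset ℕ) (L u T : ℝ),
  (∀ n, ‖a n‖ ≤ 1) → (∀ n, ‖c n‖ ≤ 1) → 0 ≤ T →
  (∀ p ∈ P, p.Prime ∧ L ≤ Real.log p ∧ Real.log p ≤ L + 1) →
  ∫ t in -T..T, ‖pp c P t‖ ^ (2 * l) * ‖Phi a Z u t‖ ^ 2 ≤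
    Real.exp (C * (l + 1) ^ 2) * (1 + T * Real.exp (-(u + l * L)))

lemma amp0 {C : ℝ} (h : Amp C) (g : ℕ → ℂ) (hg : ∀ n, ‖g n‖ ≤ 1) (Z : ℕ) (u T : ℝ) (hT : 0 ≤ T)
    (hu : T * Real.exp (-u) ≤ 1) : ∫ t in -T..T, ‖Phi g Z u t‖ ^ 2 ≤ 2 * Real.exp C := by
  have h1 := h g g Z 0 ∅ 0 u T hg hg hT (by simp)
  simp only [mul_zero, pow_zero, one_mul, Nat.cast_zero, zero_add, one_pow, mul_one,
    add_zero] at h1
  nlinarith [Real.exp_pos C]

lemma int_Am {C : ℝ} (hC : 0 ≤ C) (h : Amp C) (f g : ℕ → ℂ) (hf : ∀ n, ‖f n‖ ≤ 1)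
    (hg : ∀ n, ‖g n‖ ≤ 1) (Z : ℕ) {a d α y Y u T : ℝ} (V : ℕ) (ha : 1 ≤ a) (hd : 0 ≤ d)
    (hd1 : d ≤ 1) (hα : 0 ≤ α) (hy : 0 ≤ y) (hY : y ≤ Y) (hT : 0 ≤ T)
    (hu : T * Real.exp (-(u + y)) ≤ 1) :
    ∫ t in -T..T, Am f a d α V y t * ‖Phi g Z u t‖ ^ 2 ≤
      2 * V * Real.exp (C * (Y / a + 2) ^ 2 + 2 * α * (y + (a + V * d))) := by
  simp only [Am, sum_mul]
  refine (int_sum_le (range V) _
    (fun _ => 2 * Real.exp (C * (Y / a + 2) ^ 2 + 2 * α * (y + (a + V * d)))) T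
    (fun r _ => (((continuous_pp _ _).norm.mul continuous_const).pow _).mul
      ((continuous_Phi _ _ _).norm.pow _)) fun r hr => ?_).trans_eq (by simp; ring)
  set L := Lv a d r with hL
  set l := ⌈y / L⌉₊ with hl
  have hLa : a ≤ L := Lv_ge hd r
  have hLB : L ≤ a + V * d := Lv_le hd (mem_range.1 hr).le
  have hL0 : 0 < L := by linarith
  have hl1 : y ≤ l * L := by
    have := Nat.le_ceil (y / L)
    rwa [div_le_iff₀ hL0] at this
  have hl2 : (l : ℝ) < y / L + 1 := Nat.ceil_lt_add_one (by positivity)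
  have hl3 : l * L ≤ y + L := by
    have := mul_le_mul_of_nonneg_right hl2.le hL0.le
    rwa [add_mul, div_mul_cancel₀ _ hL0.ne', one_mul] at this
  have hl4 : (l : ℝ) + 1 ≤ Y / a + 2 := by
    have : y / L ≤ Y / a := div_le_div₀ (by linarith) hY (by linarith) hLa
    linarith
  have h1 := h g f Z l (Pv a d r) L u T hg hf hT fun p hp =>
    ⟨(mem_Pv hp).1, (mem_Pv hp).2.1.le, by linarith [(mem_Pv hp).2.2]⟩
  have h2 : T * Real.exp (-(u + l * L)) ≤ 1 :=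
    (mul_le_mul_of_nonneg_left (Real.exp_le_exp.2 (by linarith)) hT).trans hu
  have h3 : Real.exp (C * (l + 1) ^ 2) ≤ Real.exp (C * (Y / a + 2) ^ 2) :=
    Real.exp_le_exp.2 (mul_le_mul_of_nonneg_left (pow_le_pow_left₀ (by positivity) hl4 2) hC)
  have h4 : Real.exp (α * L) ^ (2 * l) ≤ Real.exp (2 * α * (y + (a + V * d))) := by
    rw [← Real.exp_nat_mul, Real.exp_le_exp]
    push_cast
    nlinarith
  have h5 : ∫ t in -T..T, ‖pp f (Pv a d r) t‖ ^ (2 * l) * ‖Phi g Z u t‖ ^ 2 ≤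
      Real.exp (C * (Y / a + 2) ^ 2) * 2 :=
    h1.trans (mul_le_mul h3 (by linarith) (by positivity) (Real.exp_pos _).le)
  have e : ∀ t, (‖pp f (Pv a d r) t‖ * Real.exp (α * L)) ^ (2 * l) * ‖Phi g Z u t‖ ^ 2 =
      Real.exp (α * L) ^ (2 * l) * (‖pp f (Pv a d r) t‖ ^ (2 * l) * ‖Phi g Z u t‖ ^ 2) :=
    fun t => by rw [mul_pow]; ring
  refine le_trans (le_of_eq (intervalIntegral.integral_congr fun t _ => e t)) ?_
  rw [intervalIntegral.integral_const_mul, Real.exp_add]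
  calc _ ≤ Real.exp (α * L) ^ (2 * l) * (Real.exp (C * (Y / a + 2) ^ 2) * 2) :=
        mul_le_mul_of_nonneg_left h5 (by positivity)
    _ ≤ Real.exp (2 * α * (y + (a + V * d))) * (Real.exp (C * (Y / a + 2) ^ 2) * 2) :=
        mul_le_mul_of_nonneg_right h4 (by positivity)
    _ = _ := by ring

lemma Phi_one (t : ℝ) : Phi (fun _ => 1) 1 0 t = 1 := by
  simp [Phi, ps, dv, gw, nt]

/-- the decomposition bound with a fixed constant -/
def Dec (C : ℝ) : Prop := ∀ (a c : ℕ → ℂ) (Z : ℕ) (V : Finset ℕ) (P : ℕ → Finset ℕ)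
  (L : ℕ → ℝ) (δ u T S : ℝ), (∀ n, ‖a n‖ ≤ 1) → (∀ n, ‖c n‖ ≤ 1) → 0 < δ → δ ≤ 1 → 0 ≤ T →
  (∀ v ∈ V, ∀ p ∈ P v, p.Prime ∧ L v ≤ Real.log p ∧ Real.log p ≤ L v + δ ∧
    ∀ m, 1 ≤ m → a (p * m) = c p * a m) →
  (∀ v ∈ V, ∀ w ∈ V, v ≠ w → Disjoint (P v) (P w)) →
  S = ∑ v ∈ V, ∑ p ∈ P v, (p : ℝ)⁻¹ → 1 ≤ S → u ≤ Real.log Z →
  Real.exp (-((Real.log Z - u) ^ 2 / 4)) ≤ δ →
  ∫ t in -T..T, ‖Phi a Z u t - (S : ℂ)⁻¹ * ∑ v ∈ V, pp c (P v) t * Phi a Z (u - L v) t‖ ^ 2 ≤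
    C * (1 + T * Real.exp (-u)) * (S⁻¹ + δ ^ 2) *
      (1 + (∑ v ∈ V, ((P v).card : ℝ)) * Real.exp (-u))

/-- the mass of a scale -/
noncomputable def Sj (a d : ℝ) (V : ℕ) : ℝ := ∑ v ∈ range V, ∑ p ∈ Pv a d v, (p : ℝ)⁻¹

/-- the error of a scale -/
noncomputable def Ej (f : ℕ → ℂ) (Z : ℕ) (x a d : ℝ) (V : ℕ) (t : ℝ) : ℝ :=
  2 * ‖Phi f Z x t - (Sj a d V : ℂ)⁻¹ *
    ∑ v ∈ range V, pp f (Pv a d v) t * Phi f Z (x - Lv a d v) t‖ ^ 2

/-- the main term of a scale, with a weight -/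
noncomputable def Mj (f : ℕ → ℂ) (Z : ℕ) (x a d α : ℝ) (V : ℕ) (w : ℝ → ℝ → ℝ) (t : ℝ) : ℝ :=
  2 * V * ∑ v ∈ range V, Real.exp (-(α * Lv a d v)) ^ 2 *
    (w (Lv a d v) t * ‖Phi f Z (x - Lv a d v) t‖ ^ 2)

lemma continuous_Ej (f : ℕ → ℂ) (Z : ℕ) (x a d : ℝ) (V : ℕ) : Continuous (Ej f Z x a d V) :=
  continuous_const.mul (((continuous_Phi _ _ _).sub (continuous_const.mul
    (continuous_finsetSum _ fun _ _ => (continuous_pp _ _).mul (continuous_Phi _ _ _)))).norm.pow _)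

lemma Ej_nonneg (f : ℕ → ℂ) (Z : ℕ) (x a d : ℝ) (V : ℕ) (t : ℝ) : 0 ≤ Ej f Z x a d V t := by
  unfold Ej
  positivity

lemma continuous_Mj (f : ℕ → ℂ) (Z : ℕ) (x a d α : ℝ) (V : ℕ) {w : ℝ → ℝ → ℝ}
    (hw : ∀ y, Continuous (w y)) : Continuous (Mj f Z x a d α V w) :=
  continuous_const.mul (continuous_finsetSum _ fun _ _ => continuous_const.mul
    ((hw _).mul ((continuous_Phi _ _ _).norm.pow _)))

lemma Mj_nonneg (f : ℕ → ℂ) (Z : ℕ) (x a d α : ℝ) (V : ℕ) {w : ℝ → ℝ → ℝ}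
    (hw : ∀ y t, 0 ≤ w y t) (t : ℝ) : 0 ≤ Mj f Z x a d α V w t :=
  mul_nonneg (by positivity) (sum_nonneg fun _ _ =>
    mul_nonneg (by positivity) (mul_nonneg (hw _ _) (by positivity)))

lemma pt' {f : ℕ → ℂ} (Z : ℕ) (x : ℝ) {a d α : ℝ} {V : ℕ} {w : ℝ → ℝ → ℝ} {t : ℝ}
    (hS : 1 ≤ Sj a d V) (hg : good f a d α V t) (hw : ∀ y, 1 ≤ w y t) :
    ‖Phi f Z x t‖ ^ 2 ≤ Ej f Z x a d V t + Mj f Z x a d α V w t := by
  refine (pt (Phi f Z x t) hS V (fun v => pp f (Pv a d v) t) (fun v => Phi f Z (x - Lv a d v) t)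
    (fun v => Real.exp (-(α * Lv a d v))) hg).trans (add_le_add le_rfl ?_)
  refine mul_le_mul_of_nonneg_left (sum_le_sum fun v _ => ?_) (by positivity)
  exact mul_le_mul_of_nonneg_left (le_mul_of_one_le_left (by positivity) (hw _)) (by positivity)

lemma int_Mj (f : ℕ → ℂ) (Z : ℕ) (x : ℝ) {a d α T K β : ℝ} {V : ℕ} {w : ℝ → ℝ → ℝ}
    (hw : ∀ y, Continuous (w y)) (hK : 0 ≤ K) (hd : 0 ≤ d) (hβ : β ≤ α)
    (h : ∀ y, a ≤ y → y ≤ a + V * d →
      ∫ t in -T..T, w y t * ‖Phi f Z (x - y) t‖ ^ 2 ≤ K * Real.exp (2 * β * y)) :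
    ∫ t in -T..T, Mj f Z x a d α V w t ≤ 2 * V ^ 2 * K * Real.exp (-(2 * (α - β) * a)) := by
  unfold Mj
  rw [intervalIntegral.integral_const_mul]
  refine (mul_le_mul_of_nonneg_left (int_sum_le (range V) _
    (fun _ => K * Real.exp (-(2 * (α - β) * a))) T (fun v _ => continuous_const.mul
      ((hw _).mul ((continuous_Phi _ _ _).norm.pow _))) fun v hv => ?_)
    (by positivity)).trans_eq (by simp; ring)
  have h1 := Lv_ge (a := a) hd v
  have h2 := Lv_le (a := a) hd (mem_range.1 hv).le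
  show ∫ t in -T..T, Real.exp (-(α * Lv a d v)) ^ 2 *
    (w (Lv a d v) t * ‖Phi f Z (x - Lv a d v) t‖ ^ 2) ≤ _
  rw [intervalIntegral.integral_const_mul]
  calc _ ≤ Real.exp (-(α * Lv a d v)) ^ 2 * (K * Real.exp (2 * β * Lv a d v)) :=
        mul_le_mul_of_nonneg_left (h _ h1 h2) (by positivity)
    _ = K * Real.exp (-(2 * (α - β) * Lv a d v)) := by
        rw [sq, ← Real.exp_add, mul_left_comm, ← Real.exp_add]
        congr 2
        ring
    _ ≤ _ := mul_le_mul_of_nonneg_left (Real.exp_le_exp.2 (by nlinarith)) hK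

lemma int_Ej {C : ℝ} (hC : 0 ≤ C) (h : Dec C) {f : ℕ → ℂ} (hf : CM f) {X : ℕ} (hX : 1 ≤ X)
    {a d T σ : ℝ} {V : ℕ} (hd : 0 < d) (hd1 : d ≤ 1) (hT : 0 ≤ T) (hTX : T ≤ X) (hσ : 1 ≤ σ)
    (hS : σ ≤ Sj a d V) (hB : a + V * d ≤ Real.log X)
    (he : Real.exp (-(Real.log X ^ 2 / 4)) ≤ d) :
    ∫ t in -T..T, Ej f (X ^ 2) (Real.log X) a d V t ≤ 8 * C * (σ⁻¹ + d ^ 2) := by
  have hX' : (1 : ℝ) ≤ X := by exact_mod_cast hX
  have hx := Real.log_nonneg hX'
  have hlog : Real.log ((X ^ 2 : ℕ) : ℝ) = 2 * Real.log X := by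
    push_cast
    rw [Real.log_pow]
    norm_num
  have hex : Real.exp (-Real.log X) = (X : ℝ)⁻¹ := by
    rw [Real.exp_neg, Real.exp_log (by linarith)]
  have h1 := h f f (X ^ 2) (range V) (Pv a d) (Lv a d) d (Real.log X) T (Sj a d V) hf.1 hf.1 hd
    hd1 hT (fun v _ p hp => ⟨(mem_Pv hp).1, (mem_Pv hp).2.1.le, (mem_Pv hp).2.2,
      fun m _ => hf.2.2 p m⟩)
    (fun v _ w _ hvw => by
      rw [disjoint_left]
      intro p h1 h2
      have h3 := mem_Pv h1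
      have h4 := mem_Pv h2
      simp only [Lv] at h3 h4
      rcases lt_or_gt_of_ne hvw with h5 | h5
      · have : (v : ℝ) + 1 ≤ w := by exact_mod_cast h5
        nlinarith [h3.2.2, h4.2.1]
      · have : (w : ℝ) + 1 ≤ v := by exact_mod_cast h5
        nlinarith [h4.2.2, h3.2.1])
    rfl (hσ.trans hS) (by rw [hlog]; linarith)
    (by rw [hlog, show 2 * Real.log X - Real.log X = Real.log X by ring]; exact he)
  have h2 : T * Real.exp (-Real.log X) ≤ 1 := by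
    rw [hex, ← div_eq_mul_inv, div_le_one (by linarith)]
    exact hTX
  have h3 : (∑ v ∈ range V, ((Pv a d v).card : ℝ)) * Real.exp (-Real.log X) ≤ 1 := by
    have h4 := sum_pr a d hd.le (fun _ => 1) V
    simp only [sum_const, nsmul_eq_mul, mul_one] at h4
    have h5 : ∑ v ∈ range V, ((Pv a d v).card : ℝ) ≤ X := by
      refine (le_of_eq h4).trans ((card_pr_le _ _).trans ?_)
      exact (Real.exp_le_exp.2 hB).trans_eq (Real.exp_log (by linarith))
    rw [hex, ← div_eq_mul_inv, div_le_one (by linarith)]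
    exact h5
  have h6 : (Sj a d V)⁻¹ ≤ σ⁻¹ := inv_anti₀ (by linarith) hS
  have h7 : 0 ≤ (Sj a d V)⁻¹ := inv_nonneg.2 (by linarith)
  unfold Ej
  rw [intervalIntegral.integral_const_mul]
  have h8 : C * (1 + T * Real.exp (-Real.log X)) * ((Sj a d V)⁻¹ + d ^ 2) *
      (1 + (∑ v ∈ range V, ((Pv a d v).card : ℝ)) * Real.exp (-Real.log X)) ≤
      C * 2 * (σ⁻¹ + d ^ 2) * 2 := by
    have h9 : 0 ≤ σ⁻¹ := inv_nonneg.2 (by linarith)
    refine mul_le_mul (mul_le_mul (mul_le_mul_of_nonneg_left (by linarith) hC) (by linarith)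
      (by positivity) (by positivity)) (by linarith) (by positivity) (by positivity)
  linarith

end TT

open TT in
theorem tt : AmpStmt → DecStmt → MerStmt → ParStmt → TtStmt := by
  rintro ⟨CA, hCA, hA0⟩ ⟨CD, hCD, hD⟩ ⟨CM, hCM, hM, -, -⟩ hP η hη
  set C := max CA CM with hCdef
  have hC : 0 ≤ C := hCA.trans (le_max_left _ _)
  have hA : Amp C := fun a c Z l P L u T h1 h2 h3 h4 => (hA0 a c Z l P L u T h1 h2 h3 h4).trans
    (mul_le_mul_of_nonneg_right (Real.exp_le_exp.2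
      (mul_le_mul_of_nonneg_right (le_max_left _ _) (by positivity))) (by positivity))
  set K := 8 * CD + 4 * Real.exp C + 4 with hK
  have hK0 : 0 < K := by positivity
  obtain ⟨A, B, δ, α, V, hb, hs1, hs2, hs3, hev⟩ := hP C (η / K) hC (by positivity)
  have hB0 : 0 ≤ B 0 := by
    obtain ⟨h1, h2, h3, -⟩ := hb 0
    rw [h2]
    positivity
  have hH : 1 ≤ Real.exp (B 0) := Real.one_le_exp hB0
  refine ⟨Real.exp (B 0), hH, ?_⟩
  have hlim : Tendsto (fun X : ℕ => Real.log X) atTop atTop :=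
    Real.tendsto_log_atTop.comp tendsto_natCast_atTop_atTop
  filter_upwards [hlim.eventually hev, eventually_ge_atTop 1] with X ⟨J, hJ, hU⟩ hX f hf
  have hX' : (1 : ℝ) ≤ X := by exact_mod_cast hX
  have hx0 := Real.log_nonneg hX'
  set x := Real.log X with hx
  set T := (X : ℝ) / Real.exp (B 0) with hT
  have hT0 : 0 ≤ T := by positivity
  have hTX : T ≤ X := div_le_self (by linarith) hH
  have hex : Real.exp (-x) = (X : ℝ)⁻¹ := by rw [Real.exp_neg, Real.exp_log (by linarith)]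
  have hTx : T * Real.exp (-x) ≤ 1 := by
    rw [hex, ← div_eq_mul_inv, div_le_one (by linarith)]
    exact hTX
  have hS : ∀ j, Real.log (B j / A j) - C ≤ Sj (A j) (δ j) (V j) := fun j => by
    obtain ⟨h1, h2, h3, -⟩ := hb j
    have h4 : Sj (A j) (δ j) (V j) = ∑ p ∈ pr (A j) (B j), (p : ℝ)⁻¹ := by
      rw [h2]
      exact sum_pr (A j) (δ j) h3.le _ (V j)
    have h5 := hM (A j) (B j) (by linarith) (by rw [h2]; exact le_add_of_nonneg_right (by positivity))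
    have h6 : CM / A j ≤ C := (div_le_self hCM h1).trans (le_max_right _ _)
    rw [h4]
    linarith [(abs_le.1 h5).1]
  have hS1 : ∀ j, 1 ≤ Sj (A j) (δ j) (V j) := fun j => (hb j).2.2.2.2.2.2.trans (hS j)
  let g : ℕ → ℝ → Prop := fun j t => good f (A j) (δ j) (α j) (V j) t
  let E : ℕ → ℝ → ℝ := fun j => Ej f (X ^ 2) x (A j) (δ j) (V j)
  let M0 : ℝ → ℝ := Mj f (X ^ 2) x (A 0) (δ 0) (α 0) (V 0) fun _ _ => 1
  let M : ℕ → ℝ → ℝ := fun i => Mj f (X ^ 2) x (A (i + 1)) (δ (i + 1)) (α (i + 1)) (V (i + 1))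
    (Am f (A i) (δ i) (α i) (V i))
  have cE : ∀ j, Continuous (E j) := fun j => continuous_Ej _ _ _ _ _ _
  have cM0 : Continuous M0 := continuous_Mj _ _ _ _ _ _ _ fun _ => continuous_const
  have cM : ∀ i, Continuous (M i) := fun i =>
    continuous_Mj _ _ _ _ _ _ _ fun _ => continuous_Am _ _ _ _ _ _
  have nE : ∀ j t, 0 ≤ E j t := fun j t => Ej_nonneg _ _ _ _ _ _ _
  have nM0 : ∀ t, 0 ≤ M0 t := fun t => Mj_nonneg _ _ _ _ _ _ _ (fun _ _ => zero_le_one) _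
  have nM : ∀ i t, 0 ≤ M i t := fun i t =>
    Mj_nonneg _ _ _ _ _ _ _ (fun _ _ => Am_nonneg _ _ _ _ _ _ _) _
  have hUm : MeasurableSet (Set.Icc (-T) T ∩ {t | ¬ g J t}) :=
    measurableSet_Icc.inter (measurable_bad _ _ _ _ _)
  have hUX : Set.Icc (-T) T ∩ {t | ¬ g J t} ⊆ Set.Icc (-(X : ℝ)) X :=
    Set.inter_subset_left.trans (Set.Icc_subset_Icc (by linarith) hTX)
  refine ⟨Set.Icc (-T) T ∩ {t | ¬ g J t}, hUm, hUX, ?_, ?_⟩
  · obtain ⟨h1, h2, h3, h4, h5, -⟩ := hb J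
    have h6 := int_Am hC hA f (fun _ => 1) hf.1 (by simp) 1 (u := 0) (T := X) (α := α J) (V J) h1
      h3.le h4 h5 hx0 le_rfl (by linarith)
      (by rw [zero_add, hex, mul_inv_cancel₀ (by linarith)])
    simp only [Phi_one, norm_one, one_pow, mul_one] at h6
    rw [← h2] at h6
    refine (meas (by linarith) (continuous_Am _ _ _ _ _ _) hUm hUX (Am_nonneg _ _ _ _ _ _)
      fun t ht => one_le_Am ht.2 x).trans (h6.trans (hU.trans_eq ?_))
    rw [Real.rpow_def_of_pos (by linarith)]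
    congr 1
    ring
  · have hpt : ∀ t ∈ Set.Icc (-T) T, t ∉ Set.Icc (-T) T ∩ {t | ¬ g J t} →
        ‖Phi f (X ^ 2) x t‖ ^ 2 ≤
          (∑ j ∈ range (J + 1), E j t) + (M0 t + ∑ i ∈ range J, M i t) := by
      classical
      intro t ht htU
      have hgJ : g J t := by
        by_contra h
        exact htU ⟨ht, h⟩
      have hex' : ∃ j, g j t := ⟨J, hgJ⟩
      have hj : Nat.find hex' ≤ J := Nat.find_min' hex' hgJ
      have hg := Nat.find_spec hex'
      have hmin := fun i => Nat.find_min hex' (m := i)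
      generalize Nat.find hex' = j at hj hg hmin
      have h1 : E j t ≤ ∑ j ∈ range (J + 1), E j t :=
        single_le_sum (f := fun j => E j t) (fun j _ => nE j t) (mem_range.2 (by omega))
      have h2 : 0 ≤ ∑ i ∈ range J, M i t := sum_nonneg fun i _ => nM i t
      rcases j with _ | i
      · have h3 : ‖Phi f (X ^ 2) x t‖ ^ 2 ≤ E 0 t + M0 t := pt' _ _ (hS1 0) hg fun _ => le_rfl
        linarith
      · have h3 : ‖Phi f (X ^ 2) x t‖ ^ 2 ≤ E (i + 1) t + M i t :=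
          pt' _ _ (hS1 (i + 1)) hg fun y => one_le_Am (hmin i (by omega)) y
        have h4 : M i t ≤ ∑ i ∈ range J, M i t :=
          single_le_sum (f := fun i => M i t) (fun i _ => nM i t) (mem_range.2 (by omega))
        linarith [nM0 t]
    have c1 : Continuous fun t => ∑ j ∈ range (J + 1), E j t :=
      continuous_finsetSum _ fun j _ => cE j
    have c2 : Continuous fun t => ∑ i ∈ range J, M i t := continuous_finsetSum _ fun i _ => cM i
    refine (split hT0 ((continuous_Phi _ _ _).norm.pow 2) (c1.add (cM0.add c2)) hUm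
      Set.inter_subset_left (fun t => add_nonneg (sum_nonneg fun j _ => nE j t)
        (add_nonneg (nM0 t) (sum_nonneg fun i _ => nM i t))) hpt).trans (add_le_add ?_ le_rfl)
    have i1 : ∫ t in -T..T, ∑ j ∈ range (J + 1), E j t ≤ 8 * CD * (η / K) := by
      refine (int_sum_le _ E (fun j => 8 * CD * ((Real.log (B j / A j) - C)⁻¹ + δ j ^ 2)) T
        (fun j _ => cE j) fun j hj => ?_).trans ?_
      · obtain ⟨h1, h2, h3, h4, -, -, h7⟩ := hb j
        have h8 := hJ j (by have := mem_range.1 hj; omega)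
        exact int_Ej hCD hD hf hX h3 h4 hT0 hTX h7 (hS j) (by rw [← h2]; exact h8.1) h8.2
      · rw [← mul_sum]
        exact mul_le_mul_of_nonneg_left (hs1 J) (by positivity)
    have i2 : ∫ t in -T..T, M0 t ≤ 4 * Real.exp C * (η / K) := by
      obtain ⟨h1, h2, h3, h4, h5, -⟩ := hb 0
      refine (int_Mj f (X ^ 2) x (K := 2 * Real.exp C) (β := 0) (fun _ => continuous_const)
        (by positivity) h3.le h5 fun y _ hy => ?_).trans ?_
      · simp only [one_mul, mul_zero, zero_mul, Real.exp_zero, mul_one]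
        refine amp0 hA f hf.1 _ _ _ hT0 ?_
        rw [← h2] at hy
        rw [neg_sub, sub_eq_add_neg, Real.exp_add, hex, hT]
        have h6 := Real.exp_le_exp.2 hy
        have h7 := Real.exp_pos (B 0)
        calc _ = Real.exp y / Real.exp (B 0) := by field_simp
          _ ≤ 1 := (div_le_one h7).2 h6
      · rw [sub_zero]
        nlinarith [Real.exp_pos C]
    have i3 : ∫ t in -T..T, ∑ i ∈ range J, M i t ≤ 4 * (η / K) := by
      refine (int_sum_le _ M (fun j => 4 * ((V (j + 1) : ℝ) ^ 2 * V j *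
        Real.exp (C * (B (j + 1) / A j + 2) ^ 2 - 2 * (α (j + 1) - α j) * A (j + 1) +
          2 * α j * B j))) T (fun i _ => cM i) fun i _ => ?_).trans ?_
      · obtain ⟨h1, h2, h3, h4, h5, h6, -⟩ := hb i
        obtain ⟨k1, k2, k3, -⟩ := hb (i + 1)
        refine (int_Mj f (X ^ 2) x (β := α i)
          (K := 2 * V i * Real.exp (C * (B (i + 1) / A i + 2) ^ 2 + 2 * α i * B i))
          (fun _ => continuous_Am _ _ _ _ _ _) (by positivity) k3.le h6
          fun y hy hy' => ?_).trans_eq ?_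
        · rw [← k2] at hy'
          refine (int_Am hC hA f f hf.1 hf.1 _ (V i) h1 h3.le h4 h5 (by linarith) hy' hT0
            (by rw [sub_add_cancel]; exact hTx)).trans_eq ?_
          rw [← h2, mul_assoc (2 * (V i : ℝ)), ← Real.exp_add]
          congr 2
          ring
        · rw [show C * (B (i + 1) / A i + 2) ^ 2 - 2 * (α (i + 1) - α i) * A (i + 1) +
            2 * α i * B i = (C * (B (i + 1) / A i + 2) ^ 2 + 2 * α i * B i) +
              -(2 * (α (i + 1) - α i) * A (i + 1)) by ring, Real.exp_add _ (-_)]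
          ring
      · rw [← mul_sum]
        exact mul_le_mul_of_nonneg_left (hs3 J) (by norm_num)
    have e1 := intervalIntegral.integral_add (μ := volume) (c1.intervalIntegrable (-T) T)
      ((cM0.add c2).intervalIntegrable (-T) T)
    have e2 := intervalIntegral.integral_add (μ := volume) (cM0.intervalIntegrable (-T) T)
      (c2.intervalIntegrable (-T) T)
    have e3 : 8 * CD * (η / K) + 4 * Real.exp C * (η / K) + 4 * (η / K) = η := by
      rw [← add_mul, ← add_mul, ← hK]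
      field_simp
    calc _ = (∫ t in -T..T, ∑ j ∈ range (J + 1), E j t) +
          ((∫ t in -T..T, M0 t) + ∫ t in -T..T, ∑ i ∈ range J, M i t) := by
          rw [← e2]
          exact e1
      _ ≤ η := by linarith

end Pool.Agent.MP_ca0a54_nt.H78M
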