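import Pool.Agent.MP_ca0a54_nt.H78M.Spec

/-! The exceptional set: smooth times rough. -/

open Filter Finset MeasureTheory

namespace Pool.Agent.MP_ca0a54_nt.H78M

namespace UU

theorem norm_div_le {f : ℕ → ℂ} (hf : ∀ n, ‖f n‖ ≤ 1) (n : ℕ) : ‖f n / n‖ ≤ 1 / n := by
  rw [norm_div, Complex.norm_natCast]
  gcongr
  exact hf n

theorem dv_le {f : ℕ → ℂ} (hf : ∀ n, ‖f n‖ ≤ 1) {S : Finset ℕ} {N : ℕ} (hS : S ⊆ Icc 1 N)
    (t : ℝ) : ‖dv (fun n => f n / n) S t‖ ≤ N := by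
  refine (norm_dv_le _ _ _).trans ((sum_le_card_nsmul _ _ 1 fun n hn => ?_).trans ?_)
  · have h1 : (1 : ℝ) ≤ n := by exact_mod_cast (mem_Icc.1 (hS hn)).1
    exact (norm_div_le hf n).trans (div_le_one_of_le₀ h1 (by linarith))
  · rw [nsmul_eq_mul, mul_one]
    exact_mod_cast (card_le_card hS).trans_eq (by simp)

theorem en_le (ga : GaStmt) (spl : SplStmt) {f : ℕ → ℂ} (hf : CM f) (Q Y Z : ℕ) {R T M t : ℝ}
    (hT : 0 ≤ T) (ht : |t| ≤ T)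
    (hM : ∀ s, |s| ≤ 2 * T → ‖dv (fun n => f n / n) (S1 Q Y) s‖ ≤ M) :
    En (1 / 4) (fun n => f n / n) (S3 Q Y R Z) t ≤
      M ^ 2 * En (1 / 4) (fun n => f n / n) (S2 Q R Z) t +
        ((Y : ℝ) * Z) ^ 2 * Real.exp (-(T ^ 2 / 8)) * 6 := by
  have hi : Integrable fun τ : ℝ => gw (1 / 8) τ := by
    simpa [gw] using integrable_exp_neg_mul_sq (b := 1 / 8) (by norm_num)
  have hv : ∫ τ : ℝ, gw (1 / 8) τ ≤ 6 := by
    have h := integral_gaussian (1 / 8)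
    simp only [neg_mul] at h
    simp only [gw]
    rw [h, Real.sqrt_le_iff]
    exact ⟨by norm_num, by linarith [Real.pi_le_four, show Real.pi / (1 / 8) = 8 * Real.pi by ring]⟩
  have h2 := ((ga (1 / 4) (fun n => f n / n) (S2 Q R Z) (by norm_num)).2 t).1
  have h3 := ((ga (1 / 4) (fun n => f n / n) (S3 Q Y R Z) (by norm_num)).2 t).1
  set K := ((Y : ℝ) * Z) ^ 2 * Real.exp (-(T ^ 2 / 8)) with hK
  have hK0 : 0 ≤ K := by positivity
  calc _ ≤ ∫ τ : ℝ, (M ^ 2 * (gw (1 / 4) τ * ‖dv (fun n => f n / n) (S2 Q R Z) (t - τ)‖ ^ 2) +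
        K * gw (1 / 8) τ) := by
        refine integral_mono h3 ((h2.const_mul _).add (hi.const_mul _)) fun τ => ?_
        have hg := gw_pos (1 / 4) τ
        have hg' := gw_pos (1 / 8) τ
        simp only
        rw [spl.2.1 f hf, norm_mul, mul_pow]
        rcases le_or_gt |τ| T with h | h
        · have h4 := hM (t - τ) ((abs_sub _ _).trans (by linarith))
          have h5 : ‖dv (fun n => f n / n) (S1 Q Y) (t - τ)‖ ^ 2 ≤ M ^ 2 := by gcongr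
          calc _ ≤ gw (1 / 4) τ * (M ^ 2 * ‖dv (fun n => f n / n) (S2 Q R Z) (t - τ)‖ ^ 2) := by
                gcongr
            _ ≤ _ := by nlinarith [mul_nonneg hK0 hg'.le]
        · have h4 := dv_le hf.1 (filter_subset (Smo Q) (Icc 1 Y)) (t - τ)
          have h5 := dv_le hf.1 (filter_subset (fun n => Rou Q n ∧ R ≤ (n : ℝ)) (Icc 1 Z)) (t - τ)
          have h6 : gw (1 / 4) τ ≤ Real.exp (-(T ^ 2 / 8)) * gw (1 / 8) τ := by
            rw [gw, gw, ← Real.exp_add, Real.exp_le_exp]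
            have : T ^ 2 ≤ τ ^ 2 := by rw [← sq_abs τ]; gcongr
            linarith
          calc _ ≤ Real.exp (-(T ^ 2 / 8)) * gw (1 / 8) τ * ((Y : ℝ) ^ 2 * (Z : ℝ) ^ 2) := by
                gcongr
                · exact h4
                · exact h5
            _ = K * gw (1 / 8) τ := by rw [hK]; ring
            _ ≤ _ := le_add_of_nonneg_left (by positivity)
    _ = M ^ 2 * En (1 / 4) (fun n => f n / n) (S2 Q R Z) t + K * ∫ τ : ℝ, gw (1 / 8) τ := by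
        rw [integral_add (h2.const_mul _) (hi.const_mul _), integral_const_mul, integral_const_mul,
          En]
    _ ≤ _ := by gcongr

theorem avg_le (c : ℕ → ℂ) (hc : ∀ n, ‖c n‖ ≤ 1) (P : Finset ℕ) (F : ℕ → ℂ) {S : ℝ} (t : ℝ)
    (hS : S = ∑ p ∈ P, (p : ℝ)⁻¹) (h1 : 1 ≤ S) :
    ‖(S : ℂ)⁻¹ * ∑ p ∈ P, pp c {p} t * F p‖ ^ 2 ≤ S⁻¹ * ∑ p ∈ P, (p : ℝ)⁻¹ * ‖F p‖ ^ 2 := by
  have h0 : 0 < S := by linarith
  have h2 : ‖∑ p ∈ P, pp c {p} t * F p‖ ≤ ∑ p ∈ P, (p : ℝ)⁻¹ * ‖F p‖ := by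
    refine (norm_sum_le _ _).trans (sum_le_sum fun p _ => ?_)
    rw [norm_mul, pp, dv, sum_singleton, norm_mul, norm_nt, mul_one, ← one_div]
    gcongr
    exact norm_div_le hc p
  have h3 : (∑ p ∈ P, (p : ℝ)⁻¹ * ‖F p‖) ^ 2 ≤ S * ∑ p ∈ P, (p : ℝ)⁻¹ * ‖F p‖ ^ 2 := by
    rw [hS]
    exact sum_sq_le_sum_mul_sum_of_sq_le_mul P (fun p _ => by positivity)
      (fun p _ => by positivity) (fun p _ => le_of_eq (by ring))
  rw [norm_mul, norm_inv, Complex.norm_real, Real.norm_of_nonneg h0.le, mul_pow]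
  calc _ ≤ S⁻¹ ^ 2 * (S * ∑ p ∈ P, (p : ℝ)⁻¹ * ‖F p‖ ^ 2) := by
        gcongr
        exact (pow_le_pow_left₀ (norm_nonneg _) h2 2).trans h3
    _ = _ := by field_simp

theorem three (a b c : ℂ) : ‖a‖ ^ 2 ≤ 3 * ‖a - b‖ ^ 2 + 3 * ‖b - c‖ ^ 2 + 3 * ‖c‖ ^ 2 := by
  have h : ‖a‖ ≤ ‖a - b‖ + ‖b - c‖ + ‖c‖ := by
    calc ‖a‖ = ‖a - b + (b - c) + c‖ := by congr 1; ring
      _ ≤ _ := norm_add₃_le
  nlinarith [norm_nonneg a, sq_nonneg (‖a - b‖ - ‖b - c‖), sq_nonneg (‖a - b‖ - ‖c‖),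
    sq_nonneg (‖b - c‖ - ‖c‖), norm_nonneg (a - b), norm_nonneg (b - c), norm_nonneg c]

theorem point (ga : GaStmt) (bes : BesStmt) (spl : SplStmt) {f : ℕ → ℂ} (hf : CM f)
    (Q Y Z : ℕ) (P : Finset ℕ) {R T M t u S K θ : ℝ} (hT : 0 ≤ T) (ht : |t| ≤ T) (hY : 1 ≤ Y)
    (hθ : 0 ≤ θ) (hM : ∀ s, |s| ≤ 2 * T → ‖dv (fun n => f n / n) (S1 Q Y) s‖ ≤ M)
    (hS : S = ∑ p ∈ P, (p : ℝ)⁻¹) (h1 : 1 ≤ S)
    (hK : ∀ v : ℝ, ∑ p ∈ P, (p : ℝ)⁻¹ * gw 2 (Real.log p - v) ≤ K)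
    (hg : ∀ p ∈ P, ∀ n : ℕ, 1 ≤ n → ((n : ℝ) ≤ R * Y ∨ Z < n) →
      gw 1 (Real.log n - (u - Real.log p)) ≤ θ) :
    ‖(S : ℂ)⁻¹ * ∑ p ∈ P, pp f {p} t * Phi (cut f Q Y) Z (u - Real.log p) t‖ ^ 2 ≤
      2 * K * (M ^ 2 * En (1 / 4) (fun n => f n / n) (S2 Q R Z) t +
        ((Y : ℝ) * Z) ^ 2 * Real.exp (-(T ^ 2 / 8)) * 6) + 2 * (Y * Z * θ) ^ 2 := by
  have h0 : 0 < S := by linarith
  have hK0 : 0 ≤ K := le_trans (sum_nonneg fun p _ => mul_nonneg (by positivity) (gw_pos _ _).le)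
    (hK 0)
  set Ψ : ℕ → ℂ := fun p => ps (fun n => f n / n) (S3 Q Y R Z) 1 (u - Real.log p) t with hΨ
  have h2 := bes (fun n => f n / n) (S3 Q Y R Z) P (fun p => (p : ℝ)⁻¹)
    (fun p => u - Real.log p) K t (fun p _ => by positivity) fun v => by
      refine le_of_eq_of_le (sum_congr rfl fun p _ => ?_) (hK (u - v))
      rw [gw, gw]
      congr 3
      ring
  have h3 := en_le ga spl hf Q Y Z (R := R) hT ht hM
  have h4 : ∑ p ∈ P, (p : ℝ)⁻¹ * ‖Phi (cut f Q Y) Z (u - Real.log p) t‖ ^ 2 ≤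
      ∑ p ∈ P, (2 * ((p : ℝ)⁻¹ * ‖Ψ p‖ ^ 2) + (p : ℝ)⁻¹ * (2 * (Y * Z * θ) ^ 2)) := by
    refine sum_le_sum fun p hp => ?_
    have h5 := spl.2.2 f Q Y Z R (u - Real.log p) t θ hf.1 hY hθ (hg p hp)
    have h6 : ‖Phi (cut f Q Y) Z (u - Real.log p) t‖ ≤ ‖Ψ p‖ + Y * Z * θ :=
      (norm_le_norm_add_norm_sub' _ (Ψ p)).trans (by linarith)
    have h7 : ‖Phi (cut f Q Y) Z (u - Real.log p) t‖ ^ 2 ≤ 2 * ‖Ψ p‖ ^ 2 + 2 * (Y * Z * θ) ^ 2 :=
      (pow_le_pow_left₀ (norm_nonneg _) h6 2).trans (by nlinarith [sq_nonneg (‖Ψ p‖ - Y * Z * θ)])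
    calc _ ≤ (p : ℝ)⁻¹ * (2 * ‖Ψ p‖ ^ 2 + 2 * (Y * Z * θ) ^ 2) := by gcongr
      _ = _ := by ring
  rw [sum_add_distrib, ← mul_sum, ← sum_mul, ← hS] at h4
  have h5 : S⁻¹ ≤ 1 := inv_le_one_of_one_le₀ h1
  have h6 : 0 ≤ ∑ p ∈ P, (p : ℝ)⁻¹ * ‖Ψ p‖ ^ 2 := sum_nonneg fun p _ => by positivity
  calc _ ≤ S⁻¹ * (2 * ∑ p ∈ P, (p : ℝ)⁻¹ * ‖Ψ p‖ ^ 2 + S * (2 * (Y * Z * θ) ^ 2)) :=
        (avg_le f hf.1 P _ t hS h1).trans (by gcongr)
    _ = S⁻¹ * (2 * ∑ p ∈ P, (p : ℝ)⁻¹ * ‖Ψ p‖ ^ 2) + 2 * (Y * Z * θ) ^ 2 := by field_simp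
    _ ≤ 1 * (2 * (K * (M ^ 2 * En (1 / 4) (fun n => f n / n) (S2 Q R Z) t +
        ((Y : ℝ) * Z) ^ 2 * Real.exp (-(T ^ 2 / 8)) * 6))) + 2 * (Y * Z * θ) ^ 2 := by
        gcongr
        exact h2.trans (by gcongr)
    _ = _ := by ring

theorem set_le {F : ℝ → ℂ} (hF : Continuous F) {U : Set ℝ} {T : ℝ} (hT : 0 ≤ T)
    (hU : U ⊆ Set.Icc (-T) T) : ∫ t in U, ‖F t‖ ^ 2 ≤ ∫ t in -T..T, ‖F t‖ ^ 2 := by
  rw [intervalIntegral.integral_of_le (by linarith), ← integral_Icc_eq_integral_Ioc]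
  exact setIntegral_mono_set ((hF.norm.pow 2).integrableOn_Icc)
    (Eventually.of_forall fun t => by positivity) (Eventually.of_forall hU)

theorem combine {F G H : ℝ → ℂ} {E : ℝ → ℝ} (hF : Continuous F) (hG : Continuous G)
    (hH : Continuous H) (hE : Continuous E) {U : Set ℝ} {T a b : ℝ} (hT : 0 ≤ T) (hb : 0 ≤ b)
    (hm : MeasurableSet U) (hU : U ⊆ Set.Icc (-T) T) (h : ∀ t ∈ U, ‖H t‖ ^ 2 ≤ a * E t + b) :
    ∫ t in U, ‖F t‖ ^ 2 ≤ 3 * (∫ t in -T..T, ‖F t - G t‖ ^ 2) +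
      3 * (∫ t in -T..T, ‖G t - H t‖ ^ 2) + 3 * (a * (∫ t in U, E t) + b * (2 * T)) := by
  have hi : ∀ {g : ℝ → ℝ}, Continuous g → IntegrableOn g U := fun hg =>
    hg.integrableOn_Icc.mono_set hU
  have h1 := set_le (F := fun t => F t - G t) (hF.sub hG) hT hU
  have h2 := set_le (F := fun t => G t - H t) (hG.sub hH) hT hU
  have h3 : volume.real U ≤ 2 * T := by
    refine (measureReal_mono hU measure_Icc_lt_top.ne).trans_eq ?_
    rw [Real.volume_real_Icc_of_le (by linarith)]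
    ring
  have c3 : Continuous fun t => a * E t := continuous_const.mul hE
  calc _ ≤ ∫ t in U, (3 * ‖F t - G t‖ ^ 2 + 3 * ‖G t - H t‖ ^ 2 + 3 * (a * E t + b)) :=
        setIntegral_mono_on (hi (by fun_prop)) (hi (by fun_prop)) hm fun t ht => by
          linarith [three (F t) (G t) (H t), h t ht]
    _ = 3 * (∫ t in U, ‖F t - G t‖ ^ 2) + 3 * (∫ t in U, ‖G t - H t‖ ^ 2) +
        3 * (a * (∫ t in U, E t) + b * volume.real U) := by
        rw [integral_add (hi (by fun_prop)) (hi (by fun_prop)),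
          integral_add (hi (by fun_prop)) (hi (by fun_prop)), integral_const_mul,
          integral_const_mul, integral_const_mul, integral_add (hi c3) (hi continuous_const),
          integral_const_mul, setIntegral_const, smul_eq_mul, mul_comm _ b]
    _ ≤ _ := by gcongr

theorem small {K η : ℝ} (hK : 0 ≤ K) (hη : 0 < η) : ∃ ρ : ℝ, 0 < ρ ∧ ρ ≤ 1 ∧ K * ρ ≤ η := by
  refine ⟨min 1 (η / (K + 1)), by positivity, min_le_left _ _, ?_⟩
  calc _ ≤ (K + 1) * (η / (K + 1)) := by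
        gcongr
        · linarith
        · exact min_le_right _ _
    _ = η := by field_simp

theorem norm_cut {f : ℕ → ℂ} (hf : ∀ n, ‖f n‖ ≤ 1) (Q Y n : ℕ) : ‖cut f Q Y n‖ ≤ 1 := by
  unfold cut
  split_ifs
  · exact hf n
  · simp

theorem drop {Cg Cn : ℝ} (hn0 : 0 ≤ Cn)
    (hg : ∀ (b : ℕ → ℂ) (e : ℕ → ℝ) (S : Finset ℕ) (α β u T : ℝ),
      0 ≤ α → 0 ≤ β → 0 ≤ T → (∀ N : ℕ, ∑ n ∈ Ioc 0 N, e n ^ 2 ≤ α * N + β) →
      (∀ n ∈ S, 1 ≤ n ∧ ‖b n‖ ≤ |e n| * gw (1 / 2) (Real.log n - u) / n) →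
      ∫ t in -T..T, ‖dv b S t‖ ^ 2 ≤ Cg * (1 + T * Real.exp (-u)) * (α + β * Real.exp (-u)))
    {Q Y : ℕ} {ρ : ℝ} (hρ : 0 ≤ ρ)
    (hn : ∀ N : ℕ, (((Ioc 0 N).filter fun n => Y < sm Q n).card : ℝ) ≤ Cn * ρ * N)
    {f : ℕ → ℂ} (hf : ∀ n, ‖f n‖ ≤ 1) (Z : ℕ) (u : ℝ) {T : ℝ} (hT : 0 ≤ T) :
    ∫ t in -T..T, ‖Phi f Z u t - Phi (cut f Q Y) Z u t‖ ^ 2 ≤
      Cg * (1 + T * Real.exp (-u)) * (Cn * ρ) := by
  have h := hg (fun n => (f n - cut f Q Y n) / n * (gw 1 (Real.log n - u) : ℝ))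
    (fun n => if Y < sm Q n then 1 else 0) (Icc 1 Z) (Cn * ρ) 0 u T (by positivity) le_rfl hT
    (fun N => by
      refine le_trans (le_of_eq ?_) ((hn N).trans_eq (add_zero _).symm)
      rw [card_filter]
      push_cast
      exact sum_congr rfl fun n _ => by split_ifs <;> simp)
    (fun n hn => ⟨(mem_Icc.1 hn).1, by
      have h1 : gw 1 (Real.log n - u) ≤ gw (1 / 2) (Real.log n - u) :=
        Real.exp_le_exp.2 (by nlinarith [sq_nonneg (Real.log n - u)])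
      have h2 := gw_pos 1 (Real.log n - u)
      rw [norm_mul, norm_div, Complex.norm_natCast, Complex.norm_real, Real.norm_of_nonneg h2.le,
        cut]
      split_ifs with h3 h4 h4
      · omega
      · simp
      · rw [sub_zero, abs_one, mul_div_right_comm]
        gcongr
        exact hf n
      · omega⟩)
  rw [zero_mul, add_zero] at h
  refine le_of_eq_of_le (intervalIntegral.integral_congr fun t _ => ?_) h
  simp only [Phi, ps, dv, ← sum_sub_distrib]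
  congr 2
  exact sum_congr rfl fun n _ => by ring

theorem two_le {y : ℝ} (hy : 1 ≤ y) : 2 ≤ Real.exp y := by linarith [Real.add_one_le_exp y]

theorem ceil_le {y : ℝ} (hy : 1 ≤ y) : (⌈Real.exp y⌉₊ : ℝ) ≤ Real.exp (2 * y) := by
  have h1 := (Nat.ceil_lt_add_one (Real.exp_pos y).le).le
  rw [two_mul, Real.exp_add]
  nlinarith [two_le hy]

theorem le_floor {y : ℝ} (hy : 200 ≤ y) : Real.exp (y / 200) ≤ ⌊Real.exp (y / 100)⌋₊ := by
  have h1 := (Nat.lt_floor_add_one (Real.exp (y / 100))).le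
  have h2 : Real.exp (y / 100) = Real.exp (y / 200) * Real.exp (y / 200) := by
    rw [← Real.exp_add]
    congr 1
    ring
  nlinarith [two_le (y := y / 200) (by linarith)]

theorem hyp_le {x k q v : ℝ} (hx : 800 ≤ x) (hk : k ≤ x / 400) (h0 : 0 ≤ q) (hv0 : 0 ≤ v)
    (hq : q ≤ Real.exp (2 * k)) (hv : v ≤ Real.exp (1 / 4 * x)) :
    q ^ 9 * (1 + v) * Real.exp (3 / 2 * x) ≤ Real.exp (9 / 10 * x) ^ 2 := by
  have h1 : 1 + v ≤ Real.exp (x / 200) * Real.exp (1 / 4 * x) := by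
    nlinarith [two_le (y := x / 200) (by linarith), two_le (y := 1 / 4 * x) (by linarith)]
  calc _ ≤ Real.exp (2 * k) ^ 9 * (Real.exp (x / 200) * Real.exp (1 / 4 * x)) *
        Real.exp (3 / 2 * x) := by gcongr
    _ ≤ _ := by
      rw [← Real.exp_nat_mul, ← Real.exp_nat_mul, ← Real.exp_add, ← Real.exp_add,
        ← Real.exp_add, Real.exp_le_exp]
      push_cast
      linarith

theorem gw_le {x l a : ℝ} (hx : 0 ≤ x) (h0 : 0 ≤ l) (h1 : l ≤ x / 100)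
    (h : a ≤ 9 / 10 * x + x / 100 ∨ 2 * x ≤ a) :
    gw 1 (a - (x - l)) ≤ Real.exp (-(x ^ 2 / 200)) := by
  rw [gw, Real.exp_le_exp]
  rcases h with h | h <;> nlinarith

theorem junk_le {x k y : ℝ} (hx : 800 ≤ x) (hk : k ≤ 1) (h0 : 0 ≤ y)
    (hy : y ≤ Real.exp (x / 100)) :
    2 * k * ((y * Real.exp x ^ 2) ^ 2 * Real.exp (-(Real.exp x ^ 2 / 8)) * 6) +
      2 * (y * Real.exp x ^ 2 * Real.exp (-(x ^ 2 / 200))) ^ 2 ≤
      14 * Real.exp (6 * x - x ^ 2 / 100) := by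
  have h2 : y * Real.exp x ^ 2 ≤ Real.exp (3 * x) := by
    rw [← Real.exp_nat_mul]
    calc _ ≤ Real.exp (x / 100) * Real.exp ((2 : ℕ) * x) := by gcongr
      _ ≤ _ := by rw [← Real.exp_add, Real.exp_le_exp]; push_cast; linarith
  have h4 : Real.exp (-(Real.exp x ^ 2 / 8)) ≤ Real.exp (-(x ^ 2 / 200)) ^ 2 := by
    have : x ≤ Real.exp x := by linarith [Real.add_one_le_exp x]
    rw [← Real.exp_nat_mul (-(x ^ 2 / 200)), Real.exp_le_exp]
    push_cast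
    nlinarith
  have h5 : Real.exp (3 * x) ^ 2 * Real.exp (-(x ^ 2 / 200)) ^ 2 =
      Real.exp (6 * x - x ^ 2 / 100) := by
    rw [← Real.exp_nat_mul, ← Real.exp_nat_mul, ← Real.exp_add]
    congr 1
    push_cast
    ring
  have h6 : 2 * k * ((y * Real.exp x ^ 2) ^ 2 * Real.exp (-(Real.exp x ^ 2 / 8)) * 6) ≤
      2 * 1 * (Real.exp (3 * x) ^ 2 * Real.exp (-(x ^ 2 / 200)) ^ 2 * 6) := by gcongr
  have h7 : (y * Real.exp x ^ 2 * Real.exp (-(x ^ 2 / 200))) ^ 2 ≤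
      Real.exp (3 * x) ^ 2 * Real.exp (-(x ^ 2 / 200)) ^ 2 := by
    rw [mul_pow]
    gcongr
  rw [h5] at h6 h7
  linarith

theorem junk2 {x : ℝ} (hx : 800 ≤ x) :
    14 * Real.exp (6 * x - x ^ 2 / 100) * (2 * Real.exp x) ≤ 28 * Real.exp (-x) := by
  rw [show 14 * Real.exp (6 * x - x ^ 2 / 100) * (2 * Real.exp x) =
    28 * (Real.exp (6 * x - x ^ 2 / 100) * Real.exp x) by ring, ← Real.exp_add]
  gcongr
  nlinarith

theorem main_le {x lm Cm Ch Ce ρ q : ℝ} (hx : 1 ≤ x) (hl : 0 < lm) (hm : 0 ≤ Cm) (hh : 0 ≤ Ch)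
    (hρ0 : 0 < ρ) (hρ1 : ρ ≤ 1) (hq : 0 < q) :
    2 * (Cm / (lm * x)) * (Ce * q * (2 * ρ)) ^ 2 * (Ch * (1 + 2 * x) / q ^ 2) ≤
      24 * Cm * Ch * Ce ^ 2 / lm * ρ := by
  have h0 : 0 < x := by linarith
  have h2 : ρ ^ 2 ≤ ρ := by nlinarith
  calc _ = 8 * Cm * Ch * Ce ^ 2 / lm * ρ ^ 2 * ((1 + 2 * x) / x) := by
        field_simp
        ring
    _ ≤ 8 * Cm * Ch * Ce ^ 2 / lm * ρ * 3 := by
        gcongr
        rw [div_le_iff₀ h0]
        linarith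
    _ = _ := by ring

end UU

open UU in
theorem uu (gm : GmStmt) (dec : DecStmt) (mer : MerStmt) (ga : GaStmt) (bes : BesStmt)
    (hv : HvStmt) (spl : SplStmt) (den : DenStmt) (eul : EulStmt) : UuStmt := by
  obtain ⟨Cg, hg0, hg⟩ := gm
  obtain ⟨Cd, hd0, hd⟩ := dec
  obtain ⟨Cm, hm0, hm1, -, hm3⟩ := mer
  obtain ⟨Ch, hh0, hh⟩ := hv
  obtain ⟨Cn, hn0, hn⟩ := den
  obtain ⟨Ce, he0, he⟩ := eul
  intro f hf hnp η hη
  obtain ⟨δ, hδ0, hδ1, hδ⟩ := small (K := 24 * Cd) (by positivity) (show 0 < η / 4 by positivity)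
  obtain ⟨lm, hlm⟩ : ∃ lm, lm = Real.exp (-((δ ^ 2)⁻¹ + 1)) / 100 := ⟨_, rfl⟩
  have hl0 : 0 < lm := by rw [hlm]; positivity
  have hl1 : lm ≤ 1 / 100 := by
    rw [hlm]
    gcongr
    exact Real.exp_le_one_iff.2 (neg_nonpos.2 (by positivity))
  obtain ⟨ρ, hρ0, hρ1, hρ⟩ := small (K := 6 * Cg * Cn + 72 * Cm * Ch * Ce ^ 2 / lm)
    (by positivity) (show 0 < η / 4 by positivity)
  obtain ⟨κ, hκ0, hκ1, hκ2⟩ : ∃ κ : ℝ, 0 < κ ∧ κ ≤ ρ / 400 ∧ κ ≤ lm / 2 :=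
    ⟨min (ρ / 400) (lm / 2), by positivity, min_le_left _ _, min_le_right _ _⟩
  have hx := Real.tendsto_log_atTop.comp (tendsto_natCast_atTop_atTop (R := ℝ))
  have hex : ∀ ε : ℝ, 0 < ε → ∀ᶠ x : ℝ in atTop, Real.exp (-x) ≤ ε := fun ε hε =>
    Real.tendsto_exp_neg_atTop_nhds_zero.eventually (ge_mem_nhds hε)
  filter_upwards [hnp (-Real.log ρ) κ hκ0, eventually_ge_atTop 1,
    hx.eventually (eventually_ge_atTop 800), hx.eventually (eventually_ge_atTop (1 / κ)),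
    hx.eventually (eventually_ge_atTop ((1 + Cm) / lm)), hx.eventually (hex δ hδ0),
    hx.eventually (hex (η / 4 / 84) (by positivity))] with X hA hX1 x1 x2 x3 x4 x5
  intro U hUm hU hvol
  simp only [Function.comp] at x1 x2 x3 x4 x5
  have hX0 : (0 : ℝ) < X := by exact_mod_cast hX1
  obtain ⟨x, hxd⟩ : ∃ x, x = Real.log X := ⟨_, rfl⟩
  rw [← hxd] at x1 x2 x3 x4 x5 ⊢
  have x0 : 0 < x := by linarith
  have hXx : (X : ℝ) = Real.exp x := by rw [hxd, Real.exp_log hX0]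
  have hpow : ∀ a : ℝ, (X : ℝ) ^ a = Real.exp (a * x) := fun a => by
    rw [Real.rpow_def_of_pos hX0, mul_comm, hxd]
  have hXe : (X : ℝ) * Real.exp (-x) = 1 := by rw [hXx, ← Real.exp_add]; simp
  have hZ : ((X ^ 2 : ℕ) : ℝ) = Real.exp x ^ 2 := by rw [← hXx, Nat.cast_pow]
  have hlZ : Real.log ((X ^ 2 : ℕ) : ℝ) = 2 * x := by
    rw [hZ, Real.log_pow, Real.log_exp, Nat.cast_ofNat]
  have k1 : 1 ≤ κ * x := by rwa [div_le_iff₀' hκ0] at x2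
  have k2 : 1 + Cm ≤ lm * x := by rwa [div_le_iff₀' hl0] at x3
  have k3 := mul_le_mul_of_nonneg_right hκ1 x0.le
  have k4 := mul_le_mul_of_nonneg_right hκ2 x0.le
  have k5 := mul_le_mul_of_nonneg_right hl1 x0.le
  have k6 := mul_le_mul_of_nonneg_right hρ1 x0.le
  have k7 : Cm / (lm * x) ≤ 1 := div_le_one_of_le₀ (by linarith) (by linarith)
  obtain ⟨Q, q1, q2⟩ : ∃ Q : ℕ, Real.exp (κ * x) ≤ Q ∧ (Q : ℝ) ≤ Real.exp (2 * (κ * x)) :=
    ⟨_, Nat.le_ceil _, ceil_le k1⟩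
  obtain ⟨Y, y1, y2⟩ : ∃ Y : ℕ, (Y : ℝ) ≤ Real.exp (x / 100) ∧ Real.exp (x / 200) ≤ Y :=
    ⟨_, Nat.floor_le (Real.exp_pos _).le, le_floor (by linarith)⟩
  have q3 : 2 ≤ Q := by exact_mod_cast (two_le k1).trans q1
  have q0 : (0 : ℝ) < Q := by positivity
  have q4 : Real.log Q ≤ 2 * (κ * x) := (Real.log_le_iff_le_exp q0).2 q2
  have q5 : 0 < Real.log Q := Real.log_pos (by exact_mod_cast q3)
  have y3 : 2 ≤ Y := by exact_mod_cast (two_le (y := x / 200) (by linarith)).trans y2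
  have y4 : x / 200 ≤ Real.log Y := (Real.le_log_iff_exp_le (by positivity)).2 y2
  have r1 : Real.log Q / Real.log Y ≤ ρ := by
    rw [div_le_iff₀ (by linarith)]
    linarith [mul_le_mul_of_nonneg_left y4 hρ0.le]
  obtain ⟨P, hP⟩ : ∃ P, P = pr (lm * x) (x / 100) := ⟨_, rfl⟩
  obtain ⟨S, hS⟩ : ∃ S, S = ∑ p ∈ P, (p : ℝ)⁻¹ := ⟨_, rfl⟩
  have s1 : (δ ^ 2)⁻¹ ≤ S := by
    have h1 := (abs_le.1 (hm1 (lm * x) (x / 100) (by linarith) (by linarith))).1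
    have h2 : x / 100 / (lm * x) = Real.exp ((δ ^ 2)⁻¹ + 1) := by
      rw [hlm, Real.exp_neg]
      field_simp
    rw [h2, Real.log_exp, ← hP, ← hS] at h1
    linarith
  have s2 : 1 ≤ S := le_trans (one_le_inv₀ (by positivity) |>.2 (pow_le_one₀ hδ0.le hδ1)) s1
  have s3 : S⁻¹ ≤ δ ^ 2 := inv_le_of_inv_le₀ (by positivity) s1
  have t0 := drop hn0 hg hρ0.le (Q := Q) (Y := Y)
    (fun N => (hn Q Y N q3 y3).trans (by gcongr)) hf.1 (X ^ 2) x hX0.le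
  have t1 := hd (cut f Q Y) f (X ^ 2) P (fun p => {p}) (fun p => Real.log p) δ x X S
    (norm_cut hf.1 Q Y) hf.1 hδ0 hδ1 hX0.le
    (fun v hv p hp => by
      obtain rfl := mem_singleton.1 hp
      obtain ⟨h1, h2, -⟩ := mem_pr.1 (hP ▸ hv)
      have h3 : Q < p := by
        have : Real.log Q < Real.log p := by linarith
        exact_mod_cast (Real.log_lt_log_iff q0 (by exact_mod_cast h1.pos)).1 this
      refine ⟨h1, le_rfl, by linarith, fun m hm => ?_⟩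
      rw [cut, cut, spl.1 Q p m h1 h3 hm, hf.2.2]
      split_ifs <;> simp)
    (fun v _ w _ h => disjoint_singleton.2 h) (by simp only [sum_singleton, hS]) s2
    (by rw [hlZ]; linarith)
    (by
      rw [hlZ, show 2 * x - x = x by ring]
      exact le_trans (Real.exp_le_exp.2 (by
        linarith [mul_le_mul_of_nonneg_right x1 x0.le, sq x])) x4)
  have t2 := hh Q (X ^ 2) (Real.exp (9 / 10 * x)) X U (fun n => f n / n)
    (S2 Q (Real.exp (9 / 10 * x)) (X ^ 2)) q3 (by exact_mod_cast hX1)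
    (Real.one_le_exp (by linarith)) hUm hU
    (by rw [hpow] at hvol ⊢; exact hyp_le x1 (by linarith) q0.le measureReal_nonneg q2 hvol)
    (fun n hn => by
      obtain ⟨h1, h2, h3⟩ := mem_filter.1 hn
      exact ⟨h2, h3, (mem_Icc.1 h1).2, norm_div_le hf.1 n⟩)
  have hM : ∀ s, |s| ≤ 2 * (X : ℝ) →
      ‖dv (fun n => f n / n) (S1 Q Y) s‖ ≤ Ce * Real.log Q * (2 * ρ) := fun s hs => by
    have h1 := hA s hs Q (by rw [hpow]; exact q1)
    have h2 : Real.exp (-Dq f Q s) ≤ ρ :=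
      (Real.exp_le_exp.2 (by linarith)).trans_eq (Real.exp_log hρ0)
    exact (he f hf Q Y s q3 y3).trans
      (mul_le_mul_of_nonneg_left (by linarith) (mul_nonneg he0 q5.le))
  have t3 := combine (continuous_Phi f (X ^ 2) x) (continuous_Phi (cut f Q Y) (X ^ 2) x)
    (H := fun t => (S : ℂ)⁻¹ * ∑ p ∈ P, pp f {p} t * Phi (cut f Q Y) (X ^ 2) (x - Real.log p) t)
    (continuous_const.mul (continuous_finsetSum _ fun p _ =>
      (continuous_pp _ _).mul (continuous_Phi _ _ _)))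
    (ga (1 / 4) (fun n => f n / n) (S2 Q (Real.exp (9 / 10 * x)) (X ^ 2)) (by norm_num)).1
    (a := 2 * (Cm / (lm * x)) * (Ce * Real.log Q * (2 * ρ)) ^ 2)
    (b := 14 * Real.exp (6 * x - x ^ 2 / 100)) hX0.le (by positivity) hUm hU fun t ht => by
      have h1 := point ga bes spl hf Q Y (X ^ 2) P (R := Real.exp (9 / 10 * x)) (u := x)
        (θ := Real.exp (-(x ^ 2 / 200))) hX0.le (abs_le.2 (hU ht)) (by omega) (by positivity) hM
        hS s2 (fun v => hP ▸ hm3 (lm * x) (x / 100) v (by linarith)) fun p hp n hn1 hn2 => by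
          have hn0 : (0 : ℝ) < n := by exact_mod_cast hn1
          refine gw_le x0.le (Real.log_natCast_nonneg p) (mem_pr.1 (hP ▸ hp)).2.2
            (hn2.imp (fun h => ?_) fun h => ?_)
          · rw [Real.log_le_iff_le_exp hn0, Real.exp_add]
            exact h.trans (mul_le_mul_of_nonneg_left y1 (Real.exp_pos _).le)
          · rw [← hlZ]
            exact Real.log_le_log (by positivity) (by exact_mod_cast h.le)
      have h2 := junk_le x1 k7 (Nat.cast_nonneg Y) y1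
      rw [← hXx] at h2
      rw [Nat.cast_pow] at h1
      linarith
  have u0 : Cg * (1 + X * Real.exp (-x)) * (Cn * ρ) = 2 * Cg * Cn * ρ := by rw [hXe]; ring
  have u1 : Cd * (1 + X * Real.exp (-x)) * (S⁻¹ + δ ^ 2) *
      (1 + (∑ v ∈ P, (({v} : Finset ℕ).card : ℝ)) * Real.exp (-x)) ≤ 8 * Cd * δ := by
    have h1 : (∑ v ∈ P, (({v} : Finset ℕ).card : ℝ)) ≤ X := by
      simp only [card_singleton, Nat.cast_one, sum_const, nsmul_eq_mul, mul_one]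
      rw [hP, hXx]
      exact (card_pr_le _ _).trans (Real.exp_le_exp.2 (by linarith))
    have h2 : δ ^ 2 ≤ δ := pow_le_of_le_one hδ0.le hδ1 two_ne_zero
    have h3 := s3.trans h2
    calc _ ≤ Cd * (1 + X * Real.exp (-x)) * (δ + δ) * (1 + X * Real.exp (-x)) :=
          mul_le_mul (mul_le_mul_of_nonneg_left (add_le_add h3 h2) (by positivity))
            (add_le_add le_rfl (mul_le_mul_of_nonneg_right h1 (Real.exp_pos _).le))
            (add_nonneg zero_le_one (mul_nonneg (sum_nonneg fun _ _ => Nat.cast_nonneg _)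
              (Real.exp_pos _).le)) (by positivity)
      _ = _ := by rw [hXe]; ring
  have u2 := main_le (Ce := Ce) (by linarith : 1 ≤ x) hl0 hm0 hh0 hρ0 hρ1 q5
  have u3 := junk2 x1
  have u4 := mul_le_mul_of_nonneg_left t2
    (show 0 ≤ 2 * (Cm / (lm * x)) * (Ce * Real.log Q * (2 * ρ)) ^ 2 by positivity)
  have u5 : (6 * Cg * Cn + 72 * Cm * Ch * Ce ^ 2 / lm) * ρ =
      3 * (2 * Cg * Cn * ρ) + 3 * (24 * Cm * Ch * Ce ^ 2 / lm * ρ) := by ring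
  rw [← hXx] at u3
  rw [hlZ] at u4
  linarith

end Pool.Agent.MP_ca0a54_nt.H78M
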