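import Pool.Agent.MP_ca0a54_nt.H78M.Spec

/-! Cancellation in sums of `n ^ (-i t)` by repeated differencing and the inequality of Kusmin
and Landau. -/

open Filter Finset

namespace Pool.Agent.MP_ca0a54_nt.H78M

namespace WEYL

/-- `exp (i x)` -/
noncomputable def ex (x : ℝ) : ℂ := Complex.exp (x * Complex.I)

theorem norm_ex (x : ℝ) : ‖ex x‖ = 1 := Complex.norm_exp_ofReal_mul_I x

theorem ex_add (x y : ℝ) : ex (x + y) = ex x * ex y := by
  rw [ex, ex, ex, ← Complex.exp_add]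
  congr 1
  push_cast
  ring

theorem ex_conj (x y : ℝ) : ex x * (starRingEnd ℂ) (ex y) = ex (x - y) := by
  rw [ex, ex, ex, ← Complex.exp_conj, ← Complex.exp_add]
  congr 1
  simp only [map_mul, Complex.conj_I, Complex.conj_ofReal]
  push_cast
  ring

theorem sum_ex_le (s : Finset ℕ) (φ : ℕ → ℝ) : ‖∑ n ∈ s, ex (φ n)‖ ≤ s.card :=
  (norm_sum_le _ _).trans_eq (by simp [norm_ex])

/-- half of the cotangent of the half angle -/
noncomputable def ct (θ : ℝ) : ℝ := Real.cos (θ / 2) / (2 * Real.sin (θ / 2))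

theorem sin_half_pos {θ : ℝ} (h0 : 0 < θ) (h1 : θ ≤ Real.pi) : 0 < Real.sin (θ / 2) :=
  Real.sin_pos_of_pos_of_lt_pi (by linarith) (by linarith [Real.pi_pos])

theorem cos_half_nonneg {θ : ℝ} (h0 : 0 < θ) (h1 : θ ≤ Real.pi) : 0 ≤ Real.cos (θ / 2) :=
  Real.cos_nonneg_of_neg_pi_div_two_le_of_le (by linarith [Real.pi_pos]) (by linarith)

theorem ct_nonneg {θ : ℝ} (h0 : 0 < θ) (h1 : θ ≤ Real.pi) : 0 ≤ ct θ :=
  div_nonneg (cos_half_nonneg h0 h1) (by linarith [sin_half_pos h0 h1])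

theorem ct_anti {θ η : ℝ} (h0 : 0 < θ) (h : θ ≤ η) (h1 : η ≤ Real.pi) : ct η ≤ ct θ := by
  have hs : Real.sin (θ / 2) ≤ Real.sin (η / 2) :=
    Real.sin_le_sin_of_le_of_le_pi_div_two (by linarith [Real.pi_pos]) (by linarith) (by linarith)
  have hc : Real.cos (η / 2) ≤ Real.cos (θ / 2) :=
    Real.cos_le_cos_of_nonneg_of_le_pi (by linarith) (by linarith [Real.pi_pos]) (by linarith)
  exact div_le_div₀ (cos_half_nonneg h0 (h.trans h1)) hc
    (by linarith [sin_half_pos h0 (h.trans h1)]) (by linarith)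

theorem ct_le {θ lam : ℝ} (h0 : 0 < lam) (h : lam ≤ θ) (h1 : θ ≤ Real.pi) : ct θ ≤ 2 / lam := by
  refine (ct_anti h0 h h1).trans ?_
  have h2 : lam ≤ Real.pi := h.trans h1
  have h3 := Real.mul_le_sin (x := lam / 2) (by linarith) (by linarith)
  have h4 := sin_half_pos h0 h2
  have h5 : 2 / Real.pi * (lam / 2) = lam / Real.pi := by field_simp
  rw [h5, div_le_iff₀ Real.pi_pos] at h3
  rw [ct, div_le_div_iff₀ (by linarith) h0]
  have h6 := mul_le_mul_of_nonneg_right (Real.cos_le_one (lam / 2)) h0.le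
  have h7 := mul_le_mul_of_nonneg_left Real.pi_le_four h4.le
  linarith

/-- the inverse of `exp (i θ) - 1` -/
noncomputable def cc (θ : ℝ) : ℂ := -1 / 2 - Complex.I * ct θ

theorem ex_cc {θ : ℝ} (h0 : 0 < θ) (h1 : θ ≤ Real.pi) : ex θ * cc θ = 1 + cc θ := by
  have hs : ((Real.sin (θ / 2) : ℝ) : ℂ) ≠ 0 := by exact_mod_cast (sin_half_pos h0 h1).ne'
  have h2 : ex θ = (((Real.cos (θ / 2) : ℝ) : ℂ) + ((Real.sin (θ / 2) : ℝ) : ℂ) * Complex.I) ^ 2 := by
    rw [Complex.ofReal_cos, Complex.ofReal_sin, ← Complex.exp_mul_I, sq, ← Complex.exp_add, ex]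
    congr 1
    push_cast
    ring
  have h3 : ((Real.sin (θ / 2) : ℝ) : ℂ) ^ 2 + ((Real.cos (θ / 2) : ℝ) : ℂ) ^ 2 = 1 := by
    exact_mod_cast Real.sin_sq_add_cos_sq (θ / 2)
  rw [h2, cc, ct, Complex.ofReal_div, Complex.ofReal_mul]
  generalize ((Real.sin (θ / 2) : ℝ) : ℂ) = s at *
  generalize ((Real.cos (θ / 2) : ℝ) : ℂ) = c at *
  have hI := Complex.I_sq
  push_cast
  field_simp
  linear_combination (s - Complex.I * c) * h3 - (s ^ 3 + 2 * s * c ^ 2 + Complex.I * c * s ^ 2) * hI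

theorem norm_cc {θ lam : ℝ} (h0 : 0 < lam) (h : lam ≤ θ) (h1 : θ ≤ Real.pi) :
    ‖cc θ‖ ≤ 4 / lam := by
  have h2 := ct_le h0 h h1
  have h3 := ct_nonneg (h0.trans_le h) h1
  have h4 : 1 / 2 ≤ 2 / lam := by
    rw [div_le_div_iff₀ two_pos h0]
    linarith [Real.pi_le_four]
  refine (norm_sub_le _ _).trans ?_
  rw [norm_mul, Complex.norm_I, Complex.norm_real, Real.norm_eq_abs, abs_of_nonneg h3, norm_div,
    norm_neg, norm_one, Complex.norm_two, show 4 / lam = 2 / lam + 2 / lam by ring]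
  linarith

theorem kusmin (φ θ : ℕ → ℝ) {lam : ℝ} (h0 : 0 < lam) (L : ℕ)
    (hθ : ∀ n, φ (n + 1) = φ n + θ n) (h1 : ∀ n ≤ L, lam ≤ θ n ∧ θ n ≤ Real.pi)
    (h2 : ∀ n < L, θ (n + 1) ≤ θ n) : ‖∑ n ∈ range L, ex (φ n)‖ ≤ 10 / lam := by
  have key (K : ℕ) (hK : K ≤ L) :
      ‖∑ n ∈ range K, ex (φ n) - ex (φ K) * cc (θ K) + ex (φ 0) * cc (θ 0)‖ ≤
        ct (θ K) - ct (θ 0) := by
    induction K with
    | zero => simp
    | succ K ih =>
      have a1 := h1 K (by omega)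
      have a2 := h1 (K + 1) hK
      have a3 := ct_anti (h0.trans_le a2.1) (h2 K hK) a1.2
      have e : ∑ n ∈ range (K + 1), ex (φ n) - ex (φ (K + 1)) * cc (θ (K + 1)) +
          ex (φ 0) * cc (θ 0) = (∑ n ∈ range K, ex (φ n) - ex (φ K) * cc (θ K) +
          ex (φ 0) * cc (θ 0)) + ex (φ (K + 1)) * Complex.I *
            ((ct (θ (K + 1)) - ct (θ K) : ℝ) : ℂ) := by
        have a4 := ex_cc (h0.trans_le a1.1) a1.2
        rw [sum_range_succ, hθ, ex_add]
        simp only [cc] at a4 ⊢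
        push_cast
        linear_combination (-ex (φ K)) * a4
      rw [e]
      refine (norm_add_le _ _).trans ?_
      rw [norm_mul, norm_mul, norm_ex, Complex.norm_I, Complex.norm_real, Real.norm_eq_abs,
        abs_of_nonneg (sub_nonneg.2 a3)]
      linarith [ih (by omega)]
  have a1 := h1 L le_rfl
  have a2 := h1 0 (Nat.zero_le _)
  have e : ∑ n ∈ range L, ex (φ n) = (∑ n ∈ range L, ex (φ n) - ex (φ L) * cc (θ L) +
      ex (φ 0) * cc (θ 0)) + ex (φ L) * cc (θ L) - ex (φ 0) * cc (θ 0) := by ring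
  rw [e]
  refine (norm_sub_le _ _).trans ((add_le_add_left (norm_add_le _ _) _).trans ?_)
  rw [norm_mul, norm_mul, norm_ex, norm_ex, show 10 / lam = 2 / lam + 4 / lam + 4 / lam by ring]
  linarith [key L le_rfl, norm_cc h0 a1.1 a1.2, norm_cc h0 a2.1 a2.2, ct_le h0 a1.1 a1.2,
    ct_nonneg (h0.trans_le a2.1) a2.2]

/-- a chain of derivatives with a controlled member -/
structure Cl (k : ℕ) (F : ℕ → ℝ → ℝ) (lo hi lam A : ℝ) : Prop where
  der : ∀ j x, 0 < x → HasDerivAt (F j) (F (j + 1) x) x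
  bd : ∀ x, lo ≤ x → x ≤ hi → lam ≤ F k x ∧ F k x ≤ A * lam
  neg : ∀ x, lo ≤ x → x ≤ hi → F (k + 1) x ≤ 0

theorem mvt {F : ℕ → ℝ → ℝ} (h : ∀ j x, 0 < x → HasDerivAt (F j) (F (j + 1) x) x) (j : ℕ)
    {x δ : ℝ} (hx : 0 < x) (hδ : 0 < δ) :
    ∃ y, x ≤ y ∧ y ≤ x + δ ∧ F j (x + δ) - F j x = δ * F (j + 1) y := by
  obtain ⟨y, hy, e⟩ := exists_hasDerivAt_eq_slope (F j) (F (j + 1)) (a := x) (b := x + δ)
    (by linarith) (fun z hz => (h j z (hx.trans_le hz.1)).continuousAt.continuousWithinAt)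
    fun z hz => h j z (hx.trans hz.1)
  refine ⟨y, hy.1.le, hy.2.le, ?_⟩
  rw [e, add_sub_cancel_left]
  field_simp

theorem Cl.diff {k : ℕ} {F : ℕ → ℝ → ℝ} {lo hi lam A : ℝ} (h : Cl (k + 1) F lo hi lam A)
    (hlo : 0 < lo) (hlam : 0 ≤ lam) {q J δ : ℝ} (hq : 0 < q) (h1 : q ≤ δ)
    (h2 : δ ≤ J * q) :
    Cl k (fun j x => F j (x + δ) - F j x) lo (hi - δ) (q * lam) (J * A) := by
  have hδ : 0 < δ := hq.trans_le h1
  refine ⟨fun j x hx => ?_, fun x a b => ?_, fun x a b => ?_⟩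
  · exact ((h.der j (x + δ) (by linarith)).comp_add_const x δ).sub (h.der j x hx)
  · obtain ⟨y, y1, y2, e⟩ := mvt h.der k (hlo.trans_le a) hδ
    obtain ⟨c1, c2⟩ := h.bd y (by linarith) (by linarith)
    rw [e]
    refine ⟨mul_le_mul h1 c1 hlam hδ.le, ?_⟩
    calc δ * F (k + 1) y ≤ J * q * (A * lam) :=
          mul_le_mul h2 c2 (hlam.trans c1) (hδ.le.trans h2)
      _ = _ := by ring
  · obtain ⟨y, y1, y2, e⟩ := mvt h.der (k + 1) (hlo.trans_le a) hδ
    rw [e]
    exact mul_nonpos_of_nonneg_of_nonpos hδ.le (h.neg y (by linarith) (by linarith))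

theorem vdc (φ : ℕ → ℝ) (L J q : ℕ) {N d : ℝ} (hN : (L : ℝ) ≤ N) (hd : 0 < d) (hJ : 8 ≤ d ^ 2 * J)
    (hq : (J * q : ℝ) ≤ d / 2 * N)
    (h : J * q ≤ L → ∀ j < J, ∀ i < j,
      ‖∑ m ∈ range (L - J * q), ex (φ (m + j * q) - φ (m + i * q))‖ ≤ d ^ 2 / 8 * N) :
    ‖∑ m ∈ range L, ex (φ m)‖ ≤ d * N := by
  have hN0 : 0 ≤ N := (Nat.cast_nonneg L).trans hN
  have hdN : 0 ≤ d * N := by positivity
  rcases lt_or_ge L (J * q) with hL | hL
  · refine (sum_ex_le _ _).trans ?_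
    have : (L : ℝ) ≤ J * q := by exact_mod_cast hL.le
    rw [card_range]
    linarith
  have hJ0 : (0 : ℝ) < J := by
    by_contra hc
    nlinarith [sq_nonneg d, Nat.cast_nonneg (α := ℝ) J]
  obtain ⟨K, hK⟩ : ∃ K, L = K + J * q := ⟨L - J * q, by omega⟩
  have h' := h hL
  rw [show L - J * q = K by omega] at h'
  have hKN : (K : ℝ) ≤ N := le_trans (by exact_mod_cast (by omega : K ≤ L)) hN
  have shift (j : ℕ) (hj : j < J) :
      ‖∑ m ∈ range L, ex (φ m) - ∑ m ∈ range K, ex (φ (m + j * q))‖ ≤ d / 2 * N := by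
    have hjq : j * q ≤ J * q := Nat.mul_le_mul_right q hj.le
    obtain ⟨r, hr⟩ : ∃ r, J * q = j * q + r := ⟨J * q - j * q, by omega⟩
    rw [show L = j * q + K + r by omega, sum_range_add, sum_range_add]
    simp only [add_comm (j * q)]
    rw [add_sub_right_comm, add_sub_cancel_right]
    refine (norm_add_le _ _).trans ((add_le_add (sum_ex_le _ _) (sum_ex_le _ _)).trans ?_)
    rw [card_range, card_range]
    have : ((j * q : ℕ) : ℝ) + r = J * q := by exact_mod_cast hr.symm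
    linarith
  have corr (j : ℕ) (hj : j < J) (i : ℕ) (hi : i < J) :
      ‖∑ m ∈ range K, ex (φ (m + j * q) - φ (m + i * q))‖ ≤
        d ^ 2 / 8 * N + if j = i then N else 0 := by
    have hp : 0 ≤ d ^ 2 / 8 * N := by positivity
    rcases lt_trichotomy i j with c | c | c
    · rw [if_neg c.ne', add_zero]
      exact h' j hj i c
    · rw [if_pos c.symm]
      refine (sum_ex_le _ _).trans ?_
      rw [card_range]
      linarith
    · rw [if_neg c.ne, add_zero, ← Complex.norm_conj, map_sum]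
      refine le_of_eq_of_le (congrArg _ (sum_congr rfl fun m _ => ?_)) (h' i hi j c)
      have e := ex_conj 0 (φ (m + j * q) - φ (m + i * q))
      rw [show ex 0 = 1 by simp [ex], one_mul, zero_sub, neg_sub] at e
      exact e
  have sq1 : ∑ m ∈ range K, ‖∑ j ∈ range J, ex (φ (m + j * q))‖ ^ 2 ≤ J ^ 2 * (d ^ 2 / 4) * N := by
    have e : ((∑ m ∈ range K, ‖∑ j ∈ range J, ex (φ (m + j * q))‖ ^ 2 : ℝ) : ℂ) =
        ∑ j ∈ range J, ∑ i ∈ range J, ∑ m ∈ range K,
          ex (φ (m + j * q) - φ (m + i * q)) := by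
      push_cast
      simp only [← Complex.mul_conj', map_sum, sum_mul_sum, ex_conj]
      rw [sum_comm]
      exact sum_congr rfl fun j _ => sum_comm
    have e2 := congrArg norm e
    rw [Complex.norm_real, Real.norm_eq_abs] at e2
    refine (le_abs_self _).trans (e2.trans_le ((norm_sum_le _ _).trans ?_))
    refine (sum_le_sum fun j hj => (norm_sum_le _ _).trans
      (sum_le_sum fun i hi => corr j (mem_range.1 hj) i (mem_range.1 hi))).trans ?_
    have e3 (j : ℕ) (hj : j ∈ range J) :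
        ∑ i ∈ range J, (d ^ 2 / 8 * N + if j = i then N else 0) = J * (d ^ 2 / 8 * N) + N := by
      rw [sum_add_distrib, sum_ite_eq, if_pos hj, sum_const, card_range, nsmul_eq_mul]
    rw [sum_congr rfl e3, sum_const, card_range, nsmul_eq_mul]
    nlinarith [mul_le_mul_of_nonneg_right hJ (mul_nonneg hJ0.le hN0)]
  have sq2 : ‖∑ j ∈ range J, ∑ m ∈ range K, ex (φ (m + j * q))‖ ≤ J * (d / 2 * N) := by
    rw [sum_comm]
    refine (norm_sum_le _ _).trans (abs_le_of_sq_le_sq' ?_ (by positivity)).2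
    refine sq_sum_le_card_mul_sum_sq.trans ?_
    rw [card_range]
    refine (mul_le_mul hKN sq1 (by positivity) hN0).trans_eq (by ring)
  have e : (J : ℂ) * ∑ m ∈ range L, ex (φ m) =
      ∑ j ∈ range J, (∑ m ∈ range L, ex (φ m) - ∑ m ∈ range K, ex (φ (m + j * q))) +
        ∑ j ∈ range J, ∑ m ∈ range K, ex (φ (m + j * q)) := by
    rw [sum_sub_distrib, sum_const, card_range, nsmul_eq_mul, sub_add_cancel]
  have e2 := congrArg norm e
  rw [norm_mul, Complex.norm_natCast] at e2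
  have e3 := (norm_sum_le _ _).trans (sum_le_sum fun j hj => shift j (mem_range.1 hj))
  rw [sum_const, card_range, nsmul_eq_mul] at e3
  have e4 := e2.trans_le ((norm_add_le _ _).trans (add_le_add e3 sq2))
  refine le_of_mul_le_mul_left (e4.trans_eq (by ring)) hJ0

theorem main (k : ℕ) : ∀ A d : ℝ, 0 ≤ A → 0 < d → ∃ ω : ℝ, 0 < ω ∧
    ∀ (F : ℕ → ℝ → ℝ) (lo hi lam a N : ℝ) (q L : ℕ), Cl (k + 1) F lo hi lam A → 0 < lo →
      0 < lam → 1 ≤ q → lo ≤ a → a + L + 1 ≤ hi → (L : ℝ) ≤ N → ω * q ≤ N →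
      ω * (q ^ k * lam) ≤ 1 → ω ≤ q ^ k * lam * N →
      ‖∑ m ∈ range L, ex (F 0 (a + m))‖ ≤ d * N := by
  induction k with
  | zero =>
    intro A d hA hd
    refine ⟨A + 10 / d, by positivity, ?_⟩
    intro F lo hi lam a N q L hF hlo hlam _ ha hb _ _ h1 h2
    rw [pow_zero, one_mul] at h1 h2
    have hG := hF.diff hlo hlam.le (q := 1) (J := 1) (δ := 1) one_pos le_rfl (by simp)
    have hd' : 0 < 10 / d := by positivity
    have hk := kusmin (fun m => F 0 (a + m)) (fun m => F 0 (a + m + 1) - F 0 (a + m)) hlam L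
      (fun n => by push_cast; ring_nf) (fun n hn => ?_) (fun n hn => ?_)
    · refine hk.trans ?_
      have h3 : 10 / d ≤ lam * N := by linarith
      rw [div_le_iff₀ hd] at h3
      rw [div_le_iff₀ hlam]
      linarith
    · have hn' : (n : ℝ) ≤ L := by exact_mod_cast hn
      have hn0 : (0 : ℝ) ≤ n := Nat.cast_nonneg n
      obtain ⟨c1, c2⟩ := hG.bd (a + n) (by linarith) (by linarith)
      refine ⟨by linarith, c2.trans ?_⟩
      nlinarith [Real.pi_gt_three, mul_pos hd' hlam]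
    · have hn' : (n : ℝ) + 1 ≤ L := by exact_mod_cast hn
      have hn0 : (0 : ℝ) ≤ n := Nat.cast_nonneg n
      obtain ⟨y, y1, y2, e⟩ := mvt hG.der 0 (x := a + n) (by linarith) one_pos
      have c := hG.neg y (by linarith) (by linarith)
      push_cast
      rw [← add_assoc]
      linarith
  | succ k ih =>
    intro A d hA hd
    obtain ⟨J, hJ⟩ := exists_nat_ge (8 / d ^ 2)
    obtain ⟨ω, hω, H⟩ := ih (J * A) (d ^ 2 / 8) (by positivity) (by positivity)
    refine ⟨ω + 2 * J / d, by positivity, ?_⟩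
    intro F lo hi lam a N q L hF hlo hlam hq ha hb hL h0 h1 h2
    have hq' : (0 : ℝ) < q := by exact_mod_cast hq
    have hJd : (0 : ℝ) ≤ 2 * J / d := by positivity
    rw [div_le_iff₀ (by positivity)] at hJ
    refine vdc (fun m => F 0 (a + m)) L J q hL hd (by linarith) ?_ fun hJL j hj i hi => ?_
    · have h3 : 2 * J / d * q ≤ N := by nlinarith [mul_pos hω hq']
      rw [div_mul_eq_mul_div, div_le_iff₀ hd] at h3
      linarith
    · have hj' : (j : ℝ) ≤ J := by exact_mod_cast hj.le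
      have hi' : (i : ℝ) + 1 ≤ j := by exact_mod_cast hi
      have hi0 : (0 : ℝ) ≤ i := Nat.cast_nonneg i
      have hG := hF.diff hlo hlam.le (q := q) (J := J) (δ := (j - i) * q) hq'
        (by nlinarith) (by nlinarith)
      have hc : ((L - J * q : ℕ) : ℝ) = L - J * q := by
        rw [Nat.cast_sub hJL]
        push_cast
        rfl
      have hp : 0 < (q : ℝ) ^ (k + 1) * lam := by positivity
      have e : (q : ℝ) ^ k * (q * lam) = q ^ (k + 1) * lam := by ring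
      have hk := H _ _ _ _ (a + i * q) N q (L - J * q) hG hlo (by positivity) hq (by nlinarith)
        (by rw [hc]; nlinarith) (by rw [hc]; nlinarith) (by nlinarith)
        (by rw [e]; nlinarith) (by rw [e]; linarith)
      refine le_of_eq_of_le (congrArg _ (sum_congr rfl fun m _ => ?_)) hk
      push_cast
      ring_nf

/-- the derivatives of `-τ log x` -/
noncomputable def lg (τ : ℝ) : ℕ → ℝ → ℝ
  | 0, x => -(τ * Real.log x)
  | j + 1, x => -(τ * (-1) ^ j * j.factorial) * (x ^ (j + 1))⁻¹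

theorem lg_der (τ : ℝ) (j : ℕ) (x : ℝ) (hx : 0 < x) :
    HasDerivAt (lg τ j) (lg τ (j + 1) x) x := by
  rcases j with _ | j
  · have h := ((Real.hasDerivAt_log hx.ne').const_mul τ).neg
    refine h.congr_deriv ?_
    simp [lg]
  · have h := ((hasDerivAt_pow (j + 1) x).inv (pow_pos hx _).ne').const_mul
      (-(τ * (-1) ^ j * j.factorial))
    refine h.congr_deriv ?_
    simp only [lg, Nat.factorial_succ, Nat.add_sub_cancel]
    push_cast
    field_simp
    ring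

theorem lg_cl {τ N : ℝ} (hτ : 0 ≤ τ) (hN : 0 < N) {k : ℕ} (hk : Odd k) :
    Cl (k + 1) (lg τ) N (3 * N) (τ * k.factorial * ((3 * N) ^ (k + 1))⁻¹) (3 ^ (k + 1)) := by
  refine ⟨lg_der τ, fun x a b => ?_, fun x a _ => ?_⟩
  · have hx : 0 < x := hN.trans_le a
    simp only [lg, hk.neg_one_pow]
    rw [show -(τ * -1 * (k.factorial : ℝ)) = τ * k.factorial by ring]
    constructor
    · gcongr
    · calc τ * k.factorial * (x ^ (k + 1))⁻¹ ≤ τ * k.factorial * (N ^ (k + 1))⁻¹ := by gcongr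
        _ = _ := by
          rw [mul_pow]
          field_simp
  · have hx : 0 < x := hN.trans_le a
    simp only [lg, hk.add_one.neg_one_pow]
    rw [neg_mul, neg_nonpos]
    positivity

theorem pos_case (e d : ℝ) (he : 0 < e) (hd : 0 < d) : ∃ t₀ : ℝ, ∀ t : ℝ, t₀ ≤ t → ∀ N M : ℕ,
    t ^ e ≤ N → N ≤ M → M ≤ 2 * N → ‖∑ n ∈ Ioc N M, nt t n‖ ≤ d * N := by
  obtain ⟨r, hr⟩ := exists_nat_ge (1 / e)
  obtain ⟨k, hk, hrk⟩ : ∃ k, Odd k ∧ r ≤ k := ⟨2 * r + 1, odd_two_mul_add_one r, by omega⟩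
  obtain ⟨ω, hω, H⟩ := main k (3 ^ (k + 1)) d (by positivity) hd
  have hf : (1 : ℝ) ≤ k.factorial := by exact_mod_cast k.factorial_pos
  obtain ⟨t₀, ht₀⟩ := eventually_atTop.1
    ((((tendsto_rpow_atTop he).eventually_ge_atTop (2 + ω * k.factorial + 2 ^ k * ω ^ 2)).and
      (eventually_ge_atTop (2 ^ k * (3 * ω) ^ (k + 1)))).and (eventually_gt_atTop 0))
  refine ⟨t₀, fun t ht N M h1 h2 h3 => ?_⟩
  obtain ⟨⟨b1, b2⟩, b3⟩ := ht₀ t ht
  have b4 := b1.trans h1
  have p1 : 0 < ω * k.factorial := by positivity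
  have p2 : 0 < 2 ^ k * ω ^ 2 := by positivity
  have hN : (2 : ℝ) ≤ N := by linarith
  have hN0 : (0 : ℝ) < N := by linarith
  have htN : t ≤ (N : ℝ) ^ k := by
    have hrk' : (r : ℝ) ≤ k := by exact_mod_cast hrk
    calc t = (t ^ e) ^ (1 / e) := by
          rw [← Real.rpow_mul b3.le, mul_one_div_cancel he.ne', Real.rpow_one]
      _ ≤ (N : ℝ) ^ (1 / e) := Real.rpow_le_rpow (by positivity) h1 (by positivity)
      _ ≤ (N : ℝ) ^ (k : ℝ) := Real.rpow_le_rpow_of_exponent_le (by linarith) (hr.trans hrk')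
      _ = _ := Real.rpow_natCast _ _
  obtain ⟨lam, hlam⟩ : ∃ lam : ℝ, lam = t * k.factorial * ((3 * (N : ℝ)) ^ (k + 1))⁻¹ := ⟨_, rfl⟩
  have hl0 : 0 < lam := by rw [hlam]; positivity
  have hl1 : lam * (3 * (N : ℝ)) ^ (k + 1) = t * k.factorial := by rw [hlam]; field_simp
  obtain ⟨q, hq, c1, c2, c3⟩ : ∃ q : ℕ, 1 ≤ q ∧ ω * q ≤ N ∧ ω * (q ^ k * lam) ≤ 1 ∧
      ω ≤ q ^ k * lam * N := by
    have hex : ∃ p : ℕ, ω ≤ ((p + 1 : ℕ) : ℝ) ^ k * lam * N := by
      obtain ⟨p, hp⟩ := exists_nat_ge (ω / (lam * N))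
      refine ⟨p, ?_⟩
      rw [div_le_iff₀ (by positivity)] at hp
      have c : (p : ℝ) ≤ ((p + 1 : ℕ) : ℝ) ^ k :=
        le_trans (by push_cast; linarith)
          (le_self_pow₀ (by push_cast; linarith [Nat.cast_nonneg (α := ℝ) p]) hk.pos.ne')
      rw [mul_assoc]
      exact hp.trans (mul_le_mul_of_nonneg_right c (by positivity))
    classical
    refine ⟨Nat.find hex + 1, by omega, ?_⟩
    have s1 := Nat.find_spec hex
    rcases hp : Nat.find hex with _ | p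
    · rw [hp] at s1
      refine ⟨by push_cast; nlinarith, ?_, s1⟩
      have c1 : (N : ℝ) ^ (k + 1) ≤ (3 * (N : ℝ)) ^ (k + 1) := by gcongr; linarith
      have c2 : lam * N * (N : ℝ) ^ k ≤ k.factorial * (N : ℝ) ^ k := by
        calc lam * N * (N : ℝ) ^ k = lam * (N : ℝ) ^ (k + 1) := by ring
          _ ≤ lam * (3 * (N : ℝ)) ^ (k + 1) := by gcongr
          _ = k.factorial * t := by rw [hl1, mul_comm]
          _ ≤ _ := by gcongr
      have c3 := le_of_mul_le_mul_right c2 (by positivity)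
      have c4 : ω * lam * N ≤ 1 * N := by nlinarith
      simpa using le_of_mul_le_mul_right c4 hN0
    · rw [hp] at s1
      have s2 := not_le.1 (Nat.find_min hex (m := p) (by omega))
      have c1 : ((p + 1 + 1 : ℕ) : ℝ) ^ k ≤ 2 ^ k * ((p + 1 : ℕ) : ℝ) ^ k := by
        rw [← mul_pow]
        gcongr
        push_cast
        linarith [Nat.cast_nonneg (α := ℝ) p]
      have c2 : ((p + 1 + 1 : ℕ) : ℝ) ^ k * lam * N ≤ 2 ^ k * ω := by
        calc _ ≤ 2 ^ k * ((p + 1 : ℕ) : ℝ) ^ k * lam * N := by gcongr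
          _ = 2 ^ k * (((p + 1 : ℕ) : ℝ) ^ k * lam * N) := by ring
          _ ≤ _ := by gcongr
      generalize ((p + 1 + 1 : ℕ) : ℝ) = q at *
      have hq : 0 ≤ q ^ k := by
        by_contra hc
        nlinarith [mul_pos hl0 hN0]
      refine ⟨?_, ?_, s1⟩
      · refine le_of_pow_le_pow_left₀ hk.pos.ne' hN0.le ?_
        have c3 : (ω * q) ^ k * (lam * (3 * (N : ℝ)) ^ (k + 1)) ≤ (N : ℝ) ^ k * t := by
          calc _ = ω ^ k * 3 ^ (k + 1) * (N : ℝ) ^ k * (q ^ k * lam * N) := by ring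
            _ ≤ ω ^ k * 3 ^ (k + 1) * (N : ℝ) ^ k * (2 ^ k * ω) := by gcongr
            _ = (N : ℝ) ^ k * (2 ^ k * (3 * ω) ^ (k + 1)) := by ring
            _ ≤ _ := by gcongr
        rw [hl1] at c3
        have c4 : (ω * q) ^ k * t ≤ (ω * q) ^ k * (t * k.factorial) := by
          rw [mul_pow]
          exact mul_le_mul_of_nonneg_left (le_mul_of_one_le_right b3.le hf) (by positivity)
        exact le_of_mul_le_mul_right (c4.trans c3) b3
      · have c3 : ω * (q ^ k * lam) * N ≤ 1 * N := by nlinarith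
        exact le_of_mul_le_mul_right c3 hN0
  have hc : ((M - N : ℕ) : ℝ) = M - N := Nat.cast_sub h2
  have h3' : (M : ℝ) ≤ 2 * N := by exact_mod_cast h3
  have hk := H (lg t) N (3 * N) lam (N + 1) N q (M - N) (hlam ▸ lg_cl b3.le hN0 hk) hN0 hl0 hq
    (by linarith) (by rw [hc]; linarith) (by rw [hc]; linarith) c1 c2 c3
  rw [show Ioc N M = Ico (N + 1) (M + 1) by ext n; simp only [mem_Ioc, mem_Ico]; omega,
    sum_Ico_eq_sum_range, Nat.add_sub_add_right]
  refine le_of_eq_of_le (congrArg _ (sum_congr rfl fun m _ => ?_)) hk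
  simp only [nt, ex, lg]
  congr 1
  push_cast
  ring

end WEYL

theorem weyl : WeylStmt := by
  intro e d he hd
  obtain ⟨t₀, h⟩ := WEYL.pos_case e d he hd
  refine ⟨t₀, fun t ht N M h1 _ h2 h3 => ?_⟩
  have h4 := h |t| ht N M h1 h2 h3
  rcases abs_choice t with c | c
  · rwa [c] at h4
  · rw [c] at h4
    rw [← Complex.norm_conj, map_sum]
    simpa only [conj_nt] using h4

end Pool.Agent.MP_ca0a54_nt.H78M
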