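import Pool.Agent.MP_ca0a54_nt.H78M.Glue
import Pool.Agent.MP_ca0a54_nt.H78M.UU
import Pool.Agent.MP_ca0a54_nt.H78M.AMP
import Pool.Agent.MP_ca0a54_nt.H78M.COS
import Pool.Agent.MP_ca0a54_nt.H78M.DEC
import Pool.Agent.MP_ca0a54_nt.H78M.EUL
import Pool.Agent.MP_ca0a54_nt.H78M.GA
import Pool.Agent.MP_ca0a54_nt.H78M.GM
import Pool.Agent.MP_ca0a54_nt.H78M.HM
import Pool.Agent.MP_ca0a54_nt.H78M.HV
import Pool.Agent.MP_ca0a54_nt.H78M.KER
import Pool.Agent.MP_ca0a54_nt.H78M.LIP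
import Pool.Agent.MP_ca0a54_nt.H78M.MER
import Pool.Agent.MP_ca0a54_nt.H78M.MVT
import Pool.Agent.MP_ca0a54_nt.H78M.NP
import Pool.Agent.MP_ca0a54_nt.H78M.PAR
import Pool.Agent.MP_ca0a54_nt.H78M.RAT
import Pool.Agent.MP_ca0a54_nt.H78M.SEL
import Pool.Agent.MP_ca0a54_nt.H78M.SH
import Pool.Agent.MP_ca0a54_nt.H78M.SPL
import Pool.Agent.MP_ca0a54_nt.H78M.TAIL
import Pool.Agent.MP_ca0a54_nt.H78M.TT
import Pool.Agent.MP_ca0a54_nt.H78M.WEYL
import Pool.Agent.MP_ca0a54_nt.H78M.ZB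

/-! Short sums of the Liouville function times a periodic function are almost always small. -/

namespace Pool.Agent.MP_ca0a54_nt.H78M

theorem fin : FinStmt :=
  fin_of (tt (amp (gm mvt)) (dec (gm mvt)) mer par)
    (uu (gm mvt) (dec (gm mvt)) mer ga (bes ga) (hv ga (hm (ker lip sel))) spl (den mer) (eul mer))
    (tail (amp (gm mvt))) (shs ga) (np (cosl (zb weyl) mer)) rat

end Pool.Agent.MP_ca0a54_nt.H78M
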