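import Mathlib

/-! Short sums of the Liouville function times a periodic function: definitions and the
statements of the rows. -/

open Filter Finset MeasureTheory

namespace Pool.Agent.MP_ca0a54_nt.H78M

/-- `n ^ (-i t)` -/
noncomputable def nt (t : ℝ) (n : ℕ) : ℂ := Complex.exp (-(Complex.I * t * Real.log n))

/-- a Dirichlet polynomial -/
noncomputable def dv (b : ℕ → ℂ) (S : Finset ℕ) (t : ℝ) : ℂ := ∑ n ∈ S, b n * nt t n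

/-- a Gaussian -/
noncomputable def gw (c x : ℝ) : ℝ := Real.exp (-(c * x ^ 2))

/-- a Dirichlet polynomial localised at the logarithmic scale `v` -/
noncomputable def ps (b : ℕ → ℂ) (S : Finset ℕ) (c v t : ℝ) : ℂ :=
  dv (fun n => b n * (gw c (Real.log n - v) : ℝ)) S t

/-- the main object -/
noncomputable def Phi (a : ℕ → ℂ) (Z : ℕ) (u t : ℝ) : ℂ :=
  ps (fun n => a n / n) (Icc 1 Z) 1 u t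

/-- a polynomial over primes -/
noncomputable def pp (c : ℕ → ℂ) (P : Finset ℕ) (t : ℝ) : ℂ := dv (fun p => c p / p) P t

/-- the primes with `A < log p ≤ B` -/
noncomputable def pr (A B : ℝ) : Finset ℕ :=
  (Icc 1 ⌊Real.exp B⌋₊).filter fun p => p.Prime ∧ A < Real.log p

/-- the Gaussian mean of the square of a Dirichlet polynomial around `t` -/
noncomputable def En (c : ℝ) (b : ℕ → ℂ) (S : Finset ℕ) (t : ℝ) : ℝ :=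
  ∫ τ : ℝ, gw c τ * ‖dv b S (t - τ)‖ ^ 2

/-- completely multiplicative and bounded by one -/
def CM (f : ℕ → ℂ) : Prop := (∀ n, ‖f n‖ ≤ 1) ∧ f 1 = 1 ∧ ∀ m n, f (m * n) = f m * f n

/-- all prime factors are at most `Q` -/
def Smo (Q n : ℕ) : Prop := ∀ p ∈ n.primeFactors, p ≤ Q

/-- all prime factors exceed `Q` -/
def Rou (Q n : ℕ) : Prop := ∀ p ∈ n.primeFactors, Q < p

instance (Q : ℕ) : DecidablePred (Smo Q) := fun n => by unfold Smo; infer_instance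

instance (Q : ℕ) : DecidablePred (Rou Q) := fun n => by unfold Rou; infer_instance

/-- the smooth part of `n` -/
def sm (Q n : ℕ) : ℕ := ∏ p ∈ n.primeFactors.filter (· ≤ Q), p ^ n.factorization p

/-- `f` restricted to the integers with a small smooth part -/
noncomputable def cut (f : ℕ → ℂ) (Q Y n : ℕ) : ℂ := if sm Q n ≤ Y then f n else 0

/-- smooth numbers up to `Y` -/
def S1 (Q Y : ℕ) : Finset ℕ := (Icc 1 Y).filter (Smo Q)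

/-- rough numbers in `[R, Z]` -/
noncomputable def S2 (Q : ℕ) (R : ℝ) (Z : ℕ) : Finset ℕ :=
  (Icc 1 Z).filter fun n => Rou Q n ∧ R ≤ (n : ℝ)

/-- the products of the two -/
noncomputable def S3 (Q Y : ℕ) (R : ℝ) (Z : ℕ) : Finset ℕ :=
  (Icc 1 (Y * Z)).filter fun n => sm Q n ≤ Y ∧ R ≤ ((n / sm Q n : ℕ) : ℝ) ∧ n / sm Q n ≤ Z

/-- the squared distance from `f` to `n ^ (i s)` -/
noncomputable def Dq (f : ℕ → ℂ) (Q : ℕ) (s : ℝ) : ℝ :=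
  ∑ p ∈ (Icc 1 Q).filter Nat.Prime, (1 - (f p * nt s p).re) / p

/-- `f` does not pretend to be `n ^ (i s)` -/
def NPr (f : ℕ → ℂ) : Prop := ∀ A κ : ℝ, 0 < κ → ∀ᶠ X : ℕ in atTop, ∀ s : ℝ, |s| ≤ 2 * X →
  ∀ Q : ℕ, (X : ℝ) ^ κ ≤ Q → A ≤ Dq f Q s

/-- the mean square of the short averages -/
noncomputable def sh (a : ℕ → ℂ) (H X : ℕ) : ℝ :=
  ∑ x ∈ Ioc X (2 * X), ‖(H : ℂ)⁻¹ * ∑ j ∈ Icc 1 H, a (x + j)‖ ^ 2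

/-- almost all short averages are small -/
def MR (a : ℕ → ℂ) : Prop :=
  ∀ η : ℝ, 0 < η → ∃ H₁ : ℕ, ∀ H : ℕ, H₁ ≤ H → ∀ᶠ X : ℕ in atTop, sh a H X ≤ η * X

/-- the Liouville function -/
noncomputable def lam (n : ℕ) : ℂ := (ArithmeticFunction.liouville n : ℤ)

/-- the Liouville function twisted by a character -/
noncomputable def lc {q : ℕ} (χ : DirichletCharacter ℂ q) (n : ℕ) : ℂ := lam n * χ n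

def MvtStmt : Prop := ∃ C : ℝ, 0 ≤ C ∧ ∀ (b : ℕ → ℂ) (S : Finset ℕ) (T : ℝ), (∀ n ∈ S, 1 ≤ n) →
  0 ≤ T → ∫ t in -T..T, ‖dv b S t‖ ^ 2 ≤ C * ∑ n ∈ S, ‖b n‖ ^ 2 * (T + n)

def GmStmt : Prop := ∃ C : ℝ, 0 ≤ C ∧ ∀ (b : ℕ → ℂ) (e : ℕ → ℝ) (S : Finset ℕ) (α β u T : ℝ),
  0 ≤ α → 0 ≤ β → 0 ≤ T → (∀ N : ℕ, ∑ n ∈ Ioc 0 N, e n ^ 2 ≤ α * N + β) →
  (∀ n ∈ S, 1 ≤ n ∧ ‖b n‖ ≤ |e n| * gw (1 / 2) (Real.log n - u) / n) →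
  ∫ t in -T..T, ‖dv b S t‖ ^ 2 ≤ C * (1 + T * Real.exp (-u)) * (α + β * Real.exp (-u))

def AmpStmt : Prop := ∃ C : ℝ, 0 ≤ C ∧ ∀ (a c : ℕ → ℂ) (Z l : ℕ) (P : Finset ℕ) (L u T : ℝ),
  (∀ n, ‖a n‖ ≤ 1) → (∀ n, ‖c n‖ ≤ 1) → 0 ≤ T →
  (∀ p ∈ P, p.Prime ∧ L ≤ Real.log p ∧ Real.log p ≤ L + 1) →
  ∫ t in -T..T, ‖pp c P t‖ ^ (2 * l) * ‖Phi a Z u t‖ ^ 2 ≤
    Real.exp (C * (l + 1) ^ 2) * (1 + T * Real.exp (-(u + l * L)))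

def DecStmt : Prop := ∃ C : ℝ, 0 ≤ C ∧ ∀ (a c : ℕ → ℂ) (Z : ℕ) (V : Finset ℕ) (P : ℕ → Finset ℕ)
  (L : ℕ → ℝ) (δ u T S : ℝ), (∀ n, ‖a n‖ ≤ 1) → (∀ n, ‖c n‖ ≤ 1) → 0 < δ → δ ≤ 1 → 0 ≤ T →
  (∀ v ∈ V, ∀ p ∈ P v, p.Prime ∧ L v ≤ Real.log p ∧ Real.log p ≤ L v + δ ∧
    ∀ m, 1 ≤ m → a (p * m) = c p * a m) →
  (∀ v ∈ V, ∀ w ∈ V, v ≠ w → Disjoint (P v) (P w)) →
  S = ∑ v ∈ V, ∑ p ∈ P v, (p : ℝ)⁻¹ → 1 ≤ S → u ≤ Real.log Z →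
  Real.exp (-((Real.log Z - u) ^ 2 / 4)) ≤ δ →
  ∫ t in -T..T, ‖Phi a Z u t - (S : ℂ)⁻¹ * ∑ v ∈ V, pp c (P v) t * Phi a Z (u - L v) t‖ ^ 2 ≤
    C * (1 + T * Real.exp (-u)) * (S⁻¹ + δ ^ 2) *
      (1 + (∑ v ∈ V, ((P v).card : ℝ)) * Real.exp (-u))

def MerStmt : Prop := ∃ C : ℝ, 0 ≤ C ∧
  (∀ A B : ℝ, 1 / 2 ≤ A → A ≤ B → |∑ p ∈ pr A B, (p : ℝ)⁻¹ - Real.log (B / A)| ≤ C / A) ∧
  (∀ B : ℝ, 0 ≤ B → ∑ p ∈ pr 0 B, Real.log p / p ≤ B + C) ∧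
  (∀ A B v : ℝ, 1 ≤ A → ∑ p ∈ pr A B, (p : ℝ)⁻¹ * gw 2 (Real.log p - v) ≤ C / A)

def ParStmt : Prop := ∀ C η : ℝ, 0 ≤ C → 0 < η → ∃ (A B δ α : ℕ → ℝ) (V : ℕ → ℕ),
  (∀ j, 1 ≤ A j ∧ B j = A j + V j * δ j ∧ 0 < δ j ∧ δ j ≤ 1 ∧ 0 ≤ α j ∧ α j ≤ α (j + 1) ∧
    1 ≤ Real.log (B j / A j) - C) ∧
  (∀ J, ∑ j ∈ range (J + 1), ((Real.log (B j / A j) - C)⁻¹ + δ j ^ 2) ≤ η) ∧
  (V 0 : ℝ) ^ 2 * Real.exp (-(2 * α 0 * A 0)) ≤ η ∧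
  (∀ J, ∑ j ∈ range J, (V (j + 1) : ℝ) ^ 2 * V j * Real.exp (C * (B (j + 1) / A j + 2) ^ 2 -
    2 * (α (j + 1) - α j) * A (j + 1) + 2 * α j * B j) ≤ η) ∧
  ∀ᶠ x : ℝ in atTop, ∃ J, (∀ j ≤ J, B j ≤ x ∧ Real.exp (-(x ^ 2 / 4)) ≤ δ j) ∧
    2 * V J * Real.exp (C * (x / A J + 2) ^ 2 + 2 * α J * (x + B J)) ≤ Real.exp (x / 4)

def TtStmt : Prop := ∀ η : ℝ, 0 < η → ∃ H₀ : ℝ, 1 ≤ H₀ ∧ ∀ᶠ X : ℕ in atTop, ∀ f, CM f →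
  ∃ U : Set ℝ, MeasurableSet U ∧ U ⊆ Set.Icc (-(X : ℝ)) X ∧
    volume.real U ≤ (X : ℝ) ^ (1 / 4 : ℝ) ∧
    ∫ t in -(X / H₀)..(X / H₀), ‖Phi f (X ^ 2) (Real.log X) t‖ ^ 2 ≤
      η + ∫ t in U, ‖Phi f (X ^ 2) (Real.log X) t‖ ^ 2

def LipStmt : Prop := ∃ (C : ℝ) (G : ℝ → ℂ), 0 ≤ C ∧ (∀ τ, ‖G τ‖ ≤ C * Real.exp (-|τ|)) ∧
  ∀ Y τ : ℝ, 0 < Y →
    ‖(∑' n : ℕ, ((n / Y * Real.exp (-(n / Y)) : ℝ) : ℂ) * nt τ n) -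
      G τ * Y * Complex.exp (-(Complex.I * τ * Real.log Y))‖ ≤ C * (1 + |τ|) ^ (3 / 2 : ℝ) / Y

def SelStmt : Prop := ∀ Q : ℕ, 2 ≤ Q → ∃ w : ℕ → ℝ, w 1 = 1 ∧ (∀ d, |w d| ≤ (Q : ℝ) ^ 2) ∧
  |∑ d ∈ Icc 1 Q, ∑ e ∈ Icc 1 Q, w d * w e / (Nat.lcm d e : ℝ)| ≤ 2 / Real.log Q

def KerStmt : Prop := ∃ C : ℝ, 0 ≤ C ∧ ∀ (Q : ℕ) (Y : ℝ), 2 ≤ Q → 0 < Y → ∃ ν : ℕ → ℝ,
  (∀ n, 0 ≤ ν n) ∧ Summable ν ∧
  (∀ n : ℕ, Rou Q n → Y ≤ n → (n : ℝ) ≤ 3 * Y → Real.exp (-3) ≤ ν n) ∧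
  ∀ τ : ℝ, ‖∑' n : ℕ, (ν n : ℂ) * nt τ n‖ ≤
    C * (Y * Real.exp (-|τ|) / Real.log Q + (Q : ℝ) ^ 8 * (1 + |τ|) ^ (3 / 2 : ℝ) / Y)

def HmStmt : Prop := ∃ C : ℝ, 0 ≤ C ∧ ∀ (Q : ℕ) (Y T β : ℝ) (U : Set ℝ) (b : ℕ → ℂ)
  (S : Finset ℕ), 2 ≤ Q → 1 ≤ T → 1 ≤ Y → 0 ≤ β → MeasurableSet U → U ⊆ Set.Icc (-T) T →
  (Q : ℝ) ^ 9 * (1 + volume.real U) * T ^ (3 / 2 : ℝ) ≤ Y ^ 2 →
  (∀ n ∈ S, Rou Q n ∧ Y ≤ n ∧ (n : ℝ) ≤ 3 * Y ∧ ‖b n‖ ≤ β / n) →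
  ∫ t in U, ‖dv b S t‖ ^ 2 ≤ C * β ^ 2 / Real.log Q ^ 2

def GaStmt : Prop := ∀ (c : ℝ) (b : ℕ → ℂ) (S : Finset ℕ), 0 < c →
  Continuous (En c b S) ∧ ∀ t : ℝ, Integrable (fun τ => gw c τ * ‖dv b S (t - τ)‖ ^ 2) ∧
    Integrable (fun v => ‖ps b S c v t‖ ^ 2) ∧
    ∫ v : ℝ, ‖ps b S c v t‖ ^ 2 = (2 * c)⁻¹ * En (2 * c)⁻¹ b S t

def BesStmt : Prop := ∀ (b : ℕ → ℂ) (S P : Finset ℕ) (μ x : ℕ → ℝ) (K t : ℝ),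
  (∀ p ∈ P, 0 ≤ μ p) → (∀ v : ℝ, ∑ p ∈ P, μ p * gw 2 (x p - v) ≤ K) →
  ∑ p ∈ P, μ p * ‖ps b S 1 (x p) t‖ ^ 2 ≤ K * En (1 / 4) b S t

def HvStmt : Prop := ∃ C : ℝ, 0 ≤ C ∧ ∀ (Q Z : ℕ) (R T : ℝ) (U : Set ℝ) (b : ℕ → ℂ)
  (S : Finset ℕ), 2 ≤ Q → 1 ≤ T → 1 ≤ R → MeasurableSet U → U ⊆ Set.Icc (-T) T →
  (Q : ℝ) ^ 9 * (1 + volume.real U) * T ^ (3 / 2 : ℝ) ≤ R ^ 2 →
  (∀ n ∈ S, Rou Q n ∧ R ≤ n ∧ n ≤ Z ∧ ‖b n‖ ≤ 1 / n) →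
  ∫ t in U, En (1 / 4) b S t ≤ C * (1 + Real.log Z) / Real.log Q ^ 2

def SplStmt : Prop :=
  (∀ Q p m : ℕ, p.Prime → Q < p → 1 ≤ m → sm Q (p * m) = sm Q m) ∧
  (∀ f, CM f → ∀ (Q Y Z : ℕ) (R s : ℝ), dv (fun n => f n / n) (S3 Q Y R Z) s =
    dv (fun n => f n / n) (S1 Q Y) s * dv (fun n => f n / n) (S2 Q R Z) s) ∧
  ∀ (f : ℕ → ℂ) (Q Y Z : ℕ) (R u t θ : ℝ), (∀ n, ‖f n‖ ≤ 1) → 1 ≤ Y → 0 ≤ θ →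
    (∀ n : ℕ, 1 ≤ n → ((n : ℝ) ≤ R * Y ∨ Z < n) → gw 1 (Real.log n - u) ≤ θ) →
    ‖Phi (cut f Q Y) Z u t - ps (fun n => f n / n) (S3 Q Y R Z) 1 u t‖ ≤ Y * Z * θ

def DenStmt : Prop := ∃ C : ℝ, 0 ≤ C ∧ ∀ Q Y N : ℕ, 2 ≤ Q → 2 ≤ Y →
  (((Ioc 0 N).filter fun n => Y < sm Q n).card : ℝ) ≤ C * (Real.log Q / Real.log Y) * N

def EulStmt : Prop := ∃ C : ℝ, 0 ≤ C ∧ ∀ f, CM f → ∀ (Q Y : ℕ) (s : ℝ), 2 ≤ Q → 2 ≤ Y →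
  ‖dv (fun n => f n / n) (S1 Q Y) s‖ ≤
    C * Real.log Q * (Real.exp (-Dq f Q s) + Real.log Q / Real.log Y)

def UuStmt : Prop := ∀ f, CM f → NPr f → ∀ η : ℝ, 0 < η → ∀ᶠ X : ℕ in atTop, ∀ U : Set ℝ,
  MeasurableSet U → U ⊆ Set.Icc (-(X : ℝ)) X → volume.real U ≤ (X : ℝ) ^ (1 / 4 : ℝ) →
  ∫ t in U, ‖Phi f (X ^ 2) (Real.log X) t‖ ^ 2 ≤ η

def WeylStmt : Prop := ∀ e d : ℝ, 0 < e → 0 < d → ∃ t₀ : ℝ, ∀ t : ℝ, t₀ ≤ |t| → ∀ N M : ℕ,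
  |t| ^ e ≤ N → (N : ℝ) ≤ t ^ 2 → N ≤ M → M ≤ 2 * N → ‖∑ n ∈ Ioc N M, nt t n‖ ≤ d * N

def ZbStmt : Prop := ∀ ε : ℝ, 0 < ε → ∃ C : ℝ, ∀ σ τ : ℝ, 1 < σ → σ ≤ 2 → τ ≠ 0 →
  ‖riemannZeta (σ + Complex.I * τ)‖ ≤ ε * Real.log (|τ| + 2) + C + 1 / |τ|

def CosStmt : Prop := ∀ A κ : ℝ, 0 < κ → ∃ B : ℝ, ∀ᶠ X : ℕ in atTop, ∀ τ : ℝ,
  B / Real.log X ≤ |τ| → |τ| ≤ (X : ℝ) ^ 2 → ∀ Q : ℕ, (X : ℝ) ^ κ ≤ Q →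
  A ≤ ∑ p ∈ (Icc 1 Q).filter Nat.Prime, (1 - Real.cos (τ * Real.log p)) / p

def NpStmt : Prop := ∀ (q : ℕ) (χ : DirichletCharacter ℂ q), 0 < q → NPr (lc χ)

def TailStmt : Prop := ∀ H₀ η : ℝ, 1 ≤ H₀ → 0 < η → ∃ h : ℝ, 1 ≤ h ∧ ∀ (X : ℕ) (a : ℕ → ℂ),
  1 ≤ X → (∀ n, ‖a n‖ ≤ 1) →
  ∫ t in -(X / H₀)..(X / H₀), ‖Phi a (X ^ 2) (Real.log X) t‖ ^ 2 ≤ η →
  ∫ t : ℝ, gw ((h / X) ^ 2 / 2) t * ‖Phi a (X ^ 2) (Real.log X) t‖ ^ 2 ≤ 2 * η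

def ShStmt : Prop := ∃ C : ℝ, 0 ≤ C ∧ ∀ (h : ℝ) (H X : ℕ) (a : ℕ → ℂ), 1 ≤ h → h ≤ H → H ≤ X →
  3 ≤ X → (∀ n, ‖a n‖ ≤ 1) →
  sh a H X ≤ C * X * ((∫ t : ℝ, gw ((h / X) ^ 2 / 2) t * ‖Phi a (X ^ 2) (Real.log X) t‖ ^ 2) +
    (h / H) ^ 2 + ((H : ℝ) / X) ^ 2)

/-- the final statement -/
def FinStmt : Prop := ∀ (q : ℕ) (η : ℝ), 0 < q → 0 < η → ∃ H₁ : ℕ, ∀ H : ℕ, H₁ ≤ H →
  ∀ᶠ X : ℕ in atTop, ∀ ψ : ℕ → ℂ, (∀ n, ‖ψ n‖ ≤ 1) → (∀ n, ψ (n + q) = ψ n) →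
  sh (fun n => lam n * ψ n) H X ≤ η * X

def RatStmt : Prop := (∀ (q : ℕ) (χ : DirichletCharacter ℂ q), 0 < q → MR (lc χ)) → FinStmt

theorem norm_nt (t : ℝ) (n : ℕ) : ‖nt t n‖ = 1 := by
  rw [nt, show -(Complex.I * t * Real.log n) = ((-(t * Real.log n) : ℝ) : ℂ) * Complex.I by
    push_cast; ring, Complex.norm_exp_ofReal_mul_I]

theorem nt_mul (t : ℝ) {m n : ℕ} (hm : m ≠ 0) (hn : n ≠ 0) : nt t (m * n) = nt t m * nt t n := by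
  rw [nt, nt, nt, ← Complex.exp_add, Nat.cast_mul,
    Real.log_mul (Nat.cast_ne_zero.2 hm) (Nat.cast_ne_zero.2 hn)]
  congr 1
  push_cast
  ring

theorem nt_one (t : ℝ) : nt t 1 = 1 := by simp [nt]

theorem nt_add (s t : ℝ) (n : ℕ) : nt (s + t) n = nt s n * nt t n := by
  rw [nt, nt, nt, ← Complex.exp_add]
  congr 1
  push_cast
  ring

theorem conj_nt (t : ℝ) (n : ℕ) : (starRingEnd ℂ) (nt t n) = nt (-t) n := by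
  rw [nt, nt, ← Complex.exp_conj]
  congr 1
  simp only [map_neg, map_mul, Complex.conj_I, Complex.conj_ofReal]
  push_cast
  ring

theorem continuous_nt (n : ℕ) : Continuous fun t => nt t n := by
  unfold nt
  fun_prop

theorem continuous_dv (b : ℕ → ℂ) (S : Finset ℕ) : Continuous (dv b S) :=
  continuous_finsetSum _ fun n _ => continuous_const.mul (continuous_nt n)

theorem continuous_pp (c : ℕ → ℂ) (P : Finset ℕ) : Continuous (pp c P) := continuous_dv _ _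

theorem continuous_Phi (a : ℕ → ℂ) (Z : ℕ) (u : ℝ) : Continuous (Phi a Z u) :=
  continuous_dv (fun n => a n / n * (gw 1 (Real.log n - u) : ℝ)) (Icc 1 Z)

theorem norm_dv_le (b : ℕ → ℂ) (S : Finset ℕ) (t : ℝ) : ‖dv b S t‖ ≤ ∑ n ∈ S, ‖b n‖ :=
  (norm_sum_le _ _).trans_eq (sum_congr rfl fun n _ => by rw [norm_mul, norm_nt, mul_one])

theorem gw_pos (c x : ℝ) : 0 < gw c x := Real.exp_pos _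

theorem gw_le_one {c : ℝ} (hc : 0 ≤ c) (x : ℝ) : gw c x ≤ 1 :=
  Real.exp_le_one_iff.2 (neg_nonpos.2 (by positivity))

theorem mem_pr {A B : ℝ} {p : ℕ} :
    p ∈ pr A B ↔ p.Prime ∧ A < Real.log p ∧ Real.log p ≤ B := by
  simp only [pr, mem_filter, mem_Icc, Nat.le_floor_iff (Real.exp_pos B).le]
  constructor
  · rintro ⟨⟨-, h⟩, h1, h2⟩
    exact ⟨h1, h2, (Real.log_le_iff_le_exp (by exact_mod_cast h1.pos)).2 h⟩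
  · rintro ⟨h1, h2, h⟩
    exact ⟨⟨h1.pos, (Real.log_le_iff_le_exp (by exact_mod_cast h1.pos)).1 h⟩, h1, h2⟩

theorem pr_log {A : ℝ} (hA : A ≤ 1 / 2) {Q : ℕ} (hQ : 1 ≤ Q) :
    pr A (Real.log Q) = (Icc 1 Q).filter Nat.Prime := by
  ext p
  rw [mem_pr, mem_filter, mem_Icc]
  constructor
  · rintro ⟨h1, -, h⟩
    refine ⟨⟨h1.pos, ?_⟩, h1⟩
    exact_mod_cast (Real.log_le_log_iff (by exact_mod_cast h1.pos) (by exact_mod_cast hQ)).1 h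
  · rintro ⟨⟨-, h⟩, h1⟩
    have h2 : Real.log 2 ≤ Real.log p := Real.log_le_log two_pos (by exact_mod_cast h1.two_le)
    refine ⟨h1, by linarith [Real.log_two_gt_d9], ?_⟩
    exact Real.log_le_log (by exact_mod_cast h1.pos) (by exact_mod_cast h)

theorem card_pr_le (A B : ℝ) : ((pr A B).card : ℝ) ≤ Real.exp B := by
  refine le_trans ?_ (Nat.floor_le (Real.exp_pos B).le)
  exact_mod_cast (card_filter_le _ _).trans_eq (by simp)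

theorem norm_lam_le (n : ℕ) : ‖lam n‖ ≤ 1 := by
  rcases eq_or_ne n 0 with rfl | h
  · simp [lam]
  · simp [lam, ArithmeticFunction.liouville_apply h]

theorem lam_mul (m n : ℕ) : lam (m * n) = lam m * lam n := by
  simp [lam, ArithmeticFunction.liouville_apply_mul]

theorem lam_prime {p : ℕ} (hp : p.Prime) : lam p = -1 := by
  simp [lam, ArithmeticFunction.liouville_apply hp.ne_zero,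
    ArithmeticFunction.cardFactors_apply_prime hp]

theorem cm_lc {q : ℕ} (χ : DirichletCharacter ℂ q) : CM (lc χ) := by
  refine ⟨fun n => ?_, by simp [lc, lam, ArithmeticFunction.liouville_apply_one], fun m n => ?_⟩
  · rw [lc, norm_mul]
    exact mul_le_one₀ (norm_lam_le n) (norm_nonneg _) (χ.norm_le_one _)
  · simp only [lc, lam_mul, Nat.cast_mul, map_mul]
    ring

end Pool.Agent.MP_ca0a54_nt.H78M
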