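import Pool.Agent.MP_ca0a54_nt.H78M.Spec

/-! From the frequency side to short averages. -/

open Filter Finset MeasureTheory

namespace Pool.Agent.MP_ca0a54_nt.H78M

theorem mr_of (tt : TtStmt) (uu : UuStmt) (tail : TailStmt) (shs : ShStmt) {f : ℕ → ℂ}
    (hf : CM f) (hn : NPr f) : MR f := by
  obtain ⟨C, hC0, hC⟩ := shs
  intro η hη
  obtain ⟨ε, hε0, hε1, hε⟩ : ∃ ε : ℝ, 0 < ε ∧ ε ≤ 1 ∧ C * (6 * ε) ≤ η := by
    refine ⟨min 1 (η / (6 * (C + 1))), by positivity, min_le_left _ _, ?_⟩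
    calc _ ≤ (C + 1) * (6 * (η / (6 * (C + 1)))) := by
          gcongr
          · linarith
          · exact min_le_right _ _
      _ = η := by field_simp
  obtain ⟨H₀, hH₀, h1⟩ := tt ε hε0
  obtain ⟨h, hh1, h2⟩ := tail H₀ (2 * ε) hH₀ (by positivity)
  refine ⟨⌈h / ε⌉₊, fun H hH => ?_⟩
  have h3 : h / ε ≤ H := (Nat.le_ceil _).trans (by exact_mod_cast hH)
  have h4 : h ≤ ε * H := by rwa [div_le_iff₀' hε0] at h3
  have h5 : h ≤ H := h4.trans (mul_le_of_le_one_left (Nat.cast_nonneg H) hε1)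
  have hH0 : (0 : ℝ) < H := by linarith
  filter_upwards [h1, uu f hf hn ε hε0, eventually_ge_atTop 3, eventually_ge_atTop H,
    (tendsto_natCast_atTop_atTop (R := ℝ)).eventually (eventually_ge_atTop (H / ε))]
    with X a1 a2 a3 a4 a5
  obtain ⟨U, b1, b2, b3, b4⟩ := a1 f hf
  have hX0 : (0 : ℝ) < X := by positivity
  have c1 := h2 X f (by omega) hf.1 (by linarith [a2 U b1 b2 b3])
  have c2 : (h / H) ^ 2 ≤ ε := by
    have : h / H ≤ ε := by rwa [div_le_iff₀ hH0]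
    have h0 : 0 ≤ h / H := by positivity
    nlinarith
  have c3 : ((H : ℝ) / X) ^ 2 ≤ ε := by
    have : (H : ℝ) / X ≤ ε := by rwa [div_le_iff₀ hX0, ← div_le_iff₀' hε0]
    have h0 : 0 ≤ (H : ℝ) / X := by positivity
    nlinarith
  calc _ ≤ C * X * (6 * ε) := (hC h H X f hh1 h5 a4 a3 hf.1).trans (by gcongr; linarith)
    _ = C * (6 * ε) * X := by ring
    _ ≤ _ := by gcongr

theorem fin_of (tt : TtStmt) (uu : UuStmt) (tail : TailStmt) (shs : ShStmt) (np : NpStmt)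
    (rat : RatStmt) : FinStmt :=
  rat fun q χ hq => mr_of tt uu tail shs (cm_lc χ) (np q χ hq)

end Pool.Agent.MP_ca0a54_nt.H78M
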