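import Pool.Agent.MP_ca0a54_nt.H78M.Spec

/-! The zeta function near the line `σ = 1`. -/

open Filter Finset

namespace Pool.Agent.MP_ca0a54_nt.H78M

namespace ZB

theorem abel (w : ℕ → ℝ) (u : ℕ → ℂ) (N : ℕ) (B : ℝ) (hw : ∀ n, N ≤ n → w (n + 1) ≤ w n) :
    ∀ M, N ≤ M → (∀ m, N ≤ m → m ≤ M → ‖∑ n ∈ Ioc N m, u n‖ ≤ B) →
      ‖∑ n ∈ Ioc N M, (w n : ℂ) * u n - w M * ∑ n ∈ Ioc N M, u n‖ ≤ (w N - w M) * B := by
  intro M hM
  induction M, hM using Nat.le_induction with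
  | base => intro _; simp
  | succ M hM ih =>
    intro h
    have h1 := ih fun m a b => h m a (b.trans (Nat.le_succ M))
    have h2 := h M hM (Nat.le_succ M)
    rw [sum_Ioc_succ_top hM, sum_Ioc_succ_top hM]
    have e : ∑ n ∈ Ioc N M, (w n : ℂ) * u n + (w (M + 1) : ℂ) * u (M + 1) -
        (w (M + 1) : ℂ) * (∑ n ∈ Ioc N M, u n + u (M + 1)) =
        (∑ n ∈ Ioc N M, (w n : ℂ) * u n - w M * ∑ n ∈ Ioc N M, u n) +
          ((w M - w (M + 1) : ℝ) : ℂ) * ∑ n ∈ Ioc N M, u n := by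
      push_cast; ring
    rw [e]
    refine (norm_add_le _ _).trans ?_
    rw [norm_mul, Complex.norm_real, Real.norm_of_nonneg (sub_nonneg.2 (hw M hM))]
    have := mul_le_mul_of_nonneg_left h2 (sub_nonneg.2 (hw M hM))
    linarith

theorem abel' (w : ℕ → ℝ) (u : ℕ → ℂ) (N M : ℕ) (B : ℝ) (hw : ∀ n, N ≤ n → w (n + 1) ≤ w n)
    (h0 : 0 ≤ w M) (hM : N ≤ M) (h : ∀ m, N ≤ m → m ≤ M → ‖∑ n ∈ Ioc N m, u n‖ ≤ B) :
    ‖∑ n ∈ Ioc N M, (w n : ℂ) * u n‖ ≤ w N * B := by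
  have h1 := abel w u N B hw M hM h
  have h2 : ‖(w M : ℂ) * ∑ n ∈ Ioc N M, u n‖ ≤ w M * B := by
    rw [norm_mul, Complex.norm_real, Real.norm_of_nonneg h0]
    exact mul_le_mul_of_nonneg_left (h M hM le_rfl) h0
  have h3 := norm_le_norm_sub_add (∑ n ∈ Ioc N M, (w n : ℂ) * u n)
    ((w M : ℂ) * ∑ n ∈ Ioc N M, u n)
  linarith

theorem norm_cp {x : ℝ} (hx : 0 < x) (z : ℂ) : ‖(x : ℂ) ^ z‖ = x ^ z.re :=
  Complex.norm_cpow_eq_rpow_re_of_pos hx z

theorem step1 {s : ℂ} (hs : 1 < s.re) {a x y : ℝ} (ha : 1 ≤ a) (hx : x ∈ Set.Icc a (a + 1))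
    (hy : y ∈ Set.Icc a (a + 1)) : ‖(x : ℂ) ^ (-s) - (y : ℂ) ^ (-s)‖ ≤ ‖s‖ / a ^ 2 := by
  have hs0 : -s ≠ 0 := by
    intro h
    rw [neg_eq_zero.1 h] at hs
    norm_num at hs
  have key := (convex_Icc a (a + 1)).norm_image_sub_le_of_norm_hasDerivWithin_le
    (f := fun x : ℝ => (x : ℂ) ^ (-s)) (f' := fun x : ℝ => -s * (x : ℂ) ^ (-s - 1))
    (C := ‖s‖ / a ^ 2)
    (fun z hz => (hasDerivAt_ofReal_cpow_const (by linarith [hz.1]) hs0).hasDerivWithinAt)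
    (fun z hz => by
      have hz0 : 0 < z := by linarith [hz.1]
      rw [norm_mul, norm_neg, norm_cp hz0, div_eq_mul_inv]
      refine mul_le_mul_of_nonneg_left ?_ (norm_nonneg _)
      have h1 : z ^ (-s - 1).re ≤ z ^ (-2 : ℝ) :=
        Real.rpow_le_rpow_of_exponent_le (ha.trans hz.1) (by simp; linarith)
      refine h1.trans ?_
      rw [Real.rpow_neg hz0.le, Real.rpow_two]
      exact inv_anti₀ (by positivity) (pow_le_pow_left₀ (by linarith) hz.1 2)) hy hx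
  refine key.trans ?_
  have : ‖x - y‖ ≤ 1 := by
    rw [Real.norm_eq_abs, abs_le]
    constructor <;> linarith [hx.1, hx.2, hy.1, hy.2]
  exact mul_le_of_le_one_right (by positivity) this

theorem step2 {s : ℂ} (hs : 1 < s.re) {a : ℝ} (ha : 1 ≤ a) :
    ‖((a + 1 : ℝ) : ℂ) ^ (-s) - (((a + 1 : ℝ) : ℂ) ^ (1 - s) / (1 - s) -
      (a : ℂ) ^ (1 - s) / (1 - s))‖ ≤ ‖s‖ / a ^ 2 := by
  have hs0 : 1 - s ≠ 0 := by
    intro h
    rw [← sub_eq_zero.1 h] at hs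
    norm_num at hs
  have hb : a + 1 ∈ Set.Icc a (a + 1) := ⟨by linarith, le_rfl⟩
  have key := (convex_Icc a (a + 1)).norm_image_sub_le_of_norm_hasDerivWithin_le
    (f := fun x : ℝ => (x : ℂ) * ((a + 1 : ℝ) : ℂ) ^ (-s) - (x : ℂ) ^ (1 - s) / (1 - s))
    (f' := fun x : ℝ => ((a + 1 : ℝ) : ℂ) ^ (-s) - (x : ℂ) ^ (-s))
    (C := ‖s‖ / a ^ 2)
    (fun z hz => by
      have h1 := (hasDerivAt_ofReal_cpow_const (x := z) (by linarith [hz.1]) hs0).div_const (1 - s)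
      have h2 : HasDerivAt (fun x : ℝ => (x : ℂ)) 1 z := Complex.ofRealCLM.hasDerivAt
      have h3 := (h2.mul_const (((a + 1 : ℝ) : ℂ) ^ (-s))).sub h1
      rw [mul_div_cancel_left₀ _ hs0, one_mul, show 1 - s - 1 = -s by ring] at h3
      exact h3.hasDerivWithinAt)
    (fun z hz => step1 hs ha hb hz) ⟨le_rfl, by linarith⟩ hb
  simp only [add_sub_cancel_left, norm_one, mul_one] at key
  refine le_trans (le_of_eq ?_) key
  congr 1
  generalize ((a + 1 : ℝ) : ℂ) ^ (-s) = A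
  generalize ((a + 1 : ℝ) : ℂ) ^ (1 - s) = B
  push_cast
  ring

theorem block {s : ℂ} (hs : 1 < s.re) {N : ℕ} (hN : 1 ≤ N) : ∀ M, N ≤ M →
    ‖∑ n ∈ Ioc N M, (n : ℂ) ^ (-s) - ((M : ℂ) ^ (1 - s) / (1 - s) - (N : ℂ) ^ (1 - s) / (1 - s))‖
      ≤ ‖s‖ * (2 / N - 2 / M) := by
  intro M hM
  induction M, hM using Nat.le_induction with
  | base => simp
  | succ M hM ih =>
    have hM1 : (1 : ℝ) ≤ M := by exact_mod_cast hN.trans hM
    have h1 := step2 hs hM1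
    rw [sum_Ioc_succ_top hM]
    push_cast at h1 ⊢
    have h2 := (norm_add_le _ _).trans (add_le_add ih h1)
    have h3 : ‖s‖ / (M : ℝ) ^ 2 ≤ ‖s‖ * (2 / M - 2 / (M + 1)) := by
      rw [div_eq_mul_inv]
      refine mul_le_mul_of_nonneg_left ?_ (norm_nonneg _)
      rw [div_sub_div _ _ (by positivity) (by positivity), inv_eq_one_div,
        div_le_div_iff₀ (by positivity) (by positivity)]
      nlinarith
    refine le_trans (le_of_eq ?_) (h2.trans (by linarith))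
    congr 1
    ring

theorem tail {s : ℂ} (hs : 1 < s.re) (ht : s.im ≠ 0) {N : ℕ} (hN : 1 ≤ N) :
    ‖riemannZeta s‖ ≤ ‖∑ n ∈ Ioc 0 N, (n : ℂ) ^ (-s)‖ + 1 / |s.im| + 2 * ‖s‖ / N := by
  have hs0 : s ≠ 0 := by
    rintro rfl
    norm_num at hs
  have hsum : HasSum (fun n : ℕ => 1 / (n : ℂ) ^ s) (riemannZeta s) := by
    rw [zeta_eq_tsum_one_div_nat_cpow hs]
    exact (Complex.summable_one_div_nat_cpow.2 hs).hasSum
  have h1 : Tendsto (fun M : ℕ => ‖∑ n ∈ range (M + 1), 1 / (n : ℂ) ^ s‖) atTop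
      (nhds ‖riemannZeta s‖) := (hsum.tendsto_sum_nat.comp (tendsto_add_atTop_nat 1)).norm
  have h2 : Tendsto (fun M : ℕ => ‖∑ n ∈ Ioc 0 N, (n : ℂ) ^ (-s)‖ + 1 / |s.im| + 2 * ‖s‖ / N +
      (M : ℝ) ^ (-(s.re - 1)) / |s.im|) atTop
      (nhds (‖∑ n ∈ Ioc 0 N, (n : ℂ) ^ (-s)‖ + 1 / |s.im| + 2 * ‖s‖ / N + 0 / |s.im|)) :=
    tendsto_const_nhds.add ((((tendsto_rpow_neg_atTop (by linarith)).comp
      tendsto_natCast_atTop_atTop)).div_const _)
  rw [zero_div, add_zero] at h2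
  refine le_of_tendsto_of_tendsto h1 h2 ?_
  filter_upwards [eventually_ge_atTop N] with M hM
  have e : ∑ n ∈ range (M + 1), 1 / (n : ℂ) ^ s =
      ∑ n ∈ Ioc 0 N, (n : ℂ) ^ (-s) + ∑ n ∈ Ioc N M, (n : ℂ) ^ (-s) := by
    rw [sum_Ioc_consecutive _ (Nat.zero_le N) hM, 
      show range (M + 1) = insert 0 (Ioc 0 M) by ext; simp, sum_insert (by simp)]
    simp [Complex.zero_cpow hs0, Complex.cpow_neg]
  have hpos : 0 < |s.im| := abs_pos.2 ht
  have hg : ∀ K : ℕ, 1 ≤ K → ‖(K : ℂ) ^ (1 - s) / (1 - s)‖ ≤ (K : ℝ) ^ (-(s.re - 1)) / |s.im| := by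
    intro K hK
    have := norm_cp (x := K) (by exact_mod_cast hK) (1 - s)
    rw [Complex.ofReal_natCast] at this
    rw [norm_div, this, show (1 - s).re = -(s.re - 1) by simp]
    refine div_le_div_of_nonneg_left (by positivity) hpos ?_
    simpa using Complex.abs_im_le_norm (1 - s)
  have hN' : (N : ℝ) ^ (-(s.re - 1)) / |s.im| ≤ 1 / |s.im| :=
    div_le_div_of_nonneg_right (Real.rpow_le_one_of_one_le_of_nonpos (by exact_mod_cast hN)
      (by linarith)) hpos.le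
  have h3 := block hs hN M hM
  have h4 := norm_le_norm_sub_add (∑ n ∈ Ioc N M, (n : ℂ) ^ (-s))
    ((M : ℂ) ^ (1 - s) / (1 - s) - (N : ℂ) ^ (1 - s) / (1 - s))
  have h5 := norm_sub_le ((M : ℂ) ^ (1 - s) / (1 - s)) ((N : ℂ) ^ (1 - s) / (1 - s))
  have h6 := hg M (hN.trans hM)
  have h7 := hg N hN
  have h8 : ‖s‖ * (2 / N - 2 / M) ≤ 2 * ‖s‖ / N := by
    have : 0 ≤ ‖s‖ * (2 / (M : ℝ)) := by positivity
    rw [mul_sub, show ‖s‖ * (2 / (N : ℝ)) = 2 * ‖s‖ / N by ring]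
    linarith
  show ‖∑ n ∈ range (M + 1), 1 / (n : ℂ) ^ s‖ ≤ _
  rw [e]
  refine (norm_add_le _ _).trans ?_
  linarith

theorem cp_eq (σ τ : ℝ) {n : ℕ} (hn : 0 < n) :
    (n : ℂ) ^ (-((σ : ℂ) + Complex.I * τ)) = (((n : ℝ) ^ (-σ) : ℝ) : ℂ) * nt τ n := by
  have h0 : (0 : ℝ) < n := by exact_mod_cast hn
  rw [Real.rpow_def_of_pos h0, nt, Complex.cpow_def_of_ne_zero (by exact_mod_cast hn.ne'),
    Complex.ofReal_exp, ← Complex.exp_add, ← Complex.natCast_log]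
  congr 1
  push_cast
  ring

theorem head {s : ℂ} (hs : 1 < s.re) (N : ℕ) :
    ‖∑ n ∈ Ioc 0 N, (n : ℂ) ^ (-s)‖ ≤ 1 + Real.log N := by
  refine (norm_sum_le _ _).trans (le_trans ?_ (harmonic_le_one_add_log N))
  rw [harmonic_eq_sum_Icc]
  push_cast
  refine le_trans (sum_le_sum fun n hn => ?_) (le_of_eq (sum_congr (by ext; simp; omega)
    fun _ _ => rfl))
  have hn : 1 ≤ n := (mem_Ioc.1 hn).1
  have := norm_cp (x := n) (by exact_mod_cast hn) (-s)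
  rw [Complex.ofReal_natCast] at this
  rw [this, ← Real.rpow_neg_one]
  exact Real.rpow_le_rpow_of_exponent_le (by exact_mod_cast hn) (by simp; linarith)

theorem dyad {σ τ d : ℝ} (hσ : 1 < σ) (hd : 0 ≤ d) {N : ℕ} (hN : 1 ≤ N)
    (h : ∀ M, N ≤ M → M ≤ 2 * N → ‖∑ n ∈ Ioc N M, nt τ n‖ ≤ d * N) :
    ‖∑ n ∈ Ioc N (2 * N), (n : ℂ) ^ (-((σ : ℂ) + Complex.I * τ))‖ ≤ d := by
  have hN' : (1 : ℝ) ≤ N := by exact_mod_cast hN
  rw [sum_congr rfl fun n hn => cp_eq σ τ (lt_of_le_of_lt (Nat.zero_le N) (mem_Ioc.1 hn).1)]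
  refine (abel' (fun n => (n : ℝ) ^ (-σ)) (nt τ) N (2 * N) (d * N) (fun n hn => ?_)
    (by positivity) (by omega) h).trans ?_
  · exact Real.rpow_le_rpow_of_nonpos (by exact_mod_cast hN.trans hn) (by push_cast; linarith)
      (by linarith)
  · have h1 : (N : ℝ) ^ (-σ) ≤ (N : ℝ)⁻¹ := by
      rw [← Real.rpow_neg_one]
      exact Real.rpow_le_rpow_of_exponent_le hN' (by linarith)
    calc (N : ℝ) ^ (-σ) * (d * N) ≤ (N : ℝ)⁻¹ * (d * N) :=
          mul_le_mul_of_nonneg_right h1 (by positivity)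
      _ = d := by field_simp

end ZB

open ZB in
theorem zb : WeylStmt → ZbStmt := by
  intro hW ε hε
  obtain ⟨t₀, ht₀⟩ := hW (ε / 2) (ε / 4) (by positivity) (by positivity)
  refine ⟨9 + ε + 2 * |t₀|, fun σ τ h1 h2 hτ => ?_⟩
  have hre : ((σ : ℂ) + Complex.I * τ).re = σ := by simp
  have him : ((σ : ℂ) + Complex.I * τ).im = τ := by simp
  have hs : 1 < ((σ : ℂ) + Complex.I * τ).re := by rwa [hre]
  have hns : ‖(σ : ℂ) + Complex.I * τ‖ ≤ 2 + |τ| := by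
    refine (Complex.norm_le_abs_re_add_abs_im _).trans ?_
    rw [hre, him, abs_of_pos (by linarith)]
    linarith
  have hT := fun N (hN : 1 ≤ N) => tail hs (by rwa [him]) hN
  rw [him] at hT
  have ha := abs_nonneg τ
  have ha0 := abs_nonneg t₀
  have hlog : 0 ≤ Real.log (|τ| + 2) := Real.log_nonneg (by linarith)
  by_cases hc : |τ| ≤ 2 ∨ |τ| ≤ t₀
  · have h3 := hT 1 le_rfl
    have h4 := head hs 1
    have h5 : |τ| ≤ 2 + |t₀| := by
      rcases hc with h | h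
      · linarith
      · linarith [le_abs_self t₀]
    have h6 := mul_nonneg hε.le hlog
    simp only [Nat.cast_one, Real.log_one, add_zero, div_one] at h3 h4
    linarith
  rw [not_or, not_le, not_le] at hc
  obtain ⟨hc2, hc0⟩ := hc
  set N₀ := ⌈|τ| ^ (ε / 2)⌉₊ with hN₀
  have hp1 : 1 ≤ |τ| ^ (ε / 2) := Real.one_le_rpow (by linarith) (by positivity)
  have hN1 : 1 ≤ N₀ := Nat.one_le_iff_ne_zero.2 (Nat.ceil_pos.2 (by linarith)).ne'
  have hN1' : (1 : ℝ) ≤ N₀ := by exact_mod_cast hN1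
  have hlN : Real.log N₀ ≤ 1 + ε / 2 * Real.log |τ| := by
    have h3 : (N₀ : ℝ) ≤ 2 * |τ| ^ (ε / 2) := by
      have := Nat.ceil_lt_add_one (a := |τ| ^ (ε / 2)) (by positivity)
      linarith
    refine (Real.log_le_log (by linarith) h3).trans ?_
    rw [Real.log_mul two_ne_zero (by positivity), Real.log_rpow (by linarith)]
    linarith [Real.log_two_lt_d9]
  have hex : ∃ k : ℕ, |τ| ≤ ((2 ^ k * N₀ : ℕ) : ℝ) := by
    obtain ⟨k, hk⟩ := pow_unbounded_of_one_lt |τ| (one_lt_two (α := ℝ))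
    refine ⟨k, hk.le.trans ?_⟩
    push_cast
    exact le_mul_of_one_le_right (by positivity) hN1'
  have hind : ∀ k : ℕ, k ≤ Nat.find hex →
      ‖∑ n ∈ Ioc 0 (2 ^ k * N₀), (n : ℂ) ^ (-((σ : ℂ) + Complex.I * τ))‖ ≤
        1 + Real.log N₀ + k * (ε / 4) := by
    intro k
    induction k with
    | zero => intro _; simpa using head hs N₀
    | succ k ih =>
      intro hk
      have h3 := ih (by omega)
      have h4 := not_le.1 (Nat.find_min hex (show k < Nat.find hex by omega))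
      have h5 : 1 ≤ 2 ^ k * N₀ := Nat.mul_pos (by positivity) hN1
      have h6 : |τ| ^ (ε / 2) ≤ ((2 ^ k * N₀ : ℕ) : ℝ) :=
        (Nat.le_ceil _).trans (by exact_mod_cast Nat.le_mul_of_pos_left N₀ (by positivity))
      have h7 : ((2 ^ k * N₀ : ℕ) : ℝ) ≤ τ ^ 2 := by
        rw [← sq_abs τ]
        nlinarith
      have h8 := dyad (σ := σ) h1 (by positivity : 0 ≤ ε / 4) h5
        fun M a b => ht₀ τ hc0.le _ M h6 h7 a b
      rw [show 2 ^ (k + 1) * N₀ = 2 * (2 ^ k * N₀) by ring,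
        ← sum_Ioc_consecutive _ (Nat.zero_le (2 ^ k * N₀)) (by omega)]
      refine (norm_add_le _ _).trans ?_
      push_cast
      linarith
  have hl0 : 0 ≤ Real.log |τ| := Real.log_nonneg (by linarith)
  have hK : (Nat.find hex : ℝ) ≤ 1 + 2 * Real.log |τ| := by
    rcases Nat.eq_zero_or_pos (Nat.find hex) with h | h
    · rw [h]
      push_cast
      linarith
    · obtain ⟨k, hk⟩ : ∃ k, Nat.find hex = k + 1 := ⟨Nat.find hex - 1, by omega⟩
      have h4 := not_le.1 (Nat.find_min hex (show k < Nat.find hex by omega))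
      have h5 : (2 : ℝ) ^ k ≤ |τ| := by
        refine le_trans ?_ h4.le
        push_cast
        exact le_mul_of_one_le_right (by positivity) hN1'
      have h6 := Real.log_le_log (by positivity) h5
      rw [Real.log_pow] at h6
      rw [hk]
      push_cast
      nlinarith [Real.log_two_gt_d9, (Nat.cast_nonneg k : (0 : ℝ) ≤ k)]
  have h3 := hT (2 ^ Nat.find hex * N₀) (Nat.mul_pos (by positivity) hN1)
  have h4 := hind _ le_rfl
  have h5 := Nat.find_spec hex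
  have h6 : 2 * ‖(σ : ℂ) + Complex.I * τ‖ / ((2 ^ Nat.find hex * N₀ : ℕ) : ℝ) ≤ 4 := by
    rw [div_le_iff₀ (by linarith)]
    linarith
  have h7 : Real.log |τ| ≤ Real.log (|τ| + 2) := Real.log_le_log (by linarith) (by linarith)
  have h8 := mul_le_mul_of_nonneg_right hK (by positivity : 0 ≤ ε / 4)
  have h9 := mul_le_mul_of_nonneg_left h7 hε.le
  nlinarith

end Pool.Agent.MP_ca0a54_nt.H78M
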