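import Pool.Agent.MP_ca0a54_nt.H78M.Spec

/-! A smoothed sum of `n ^ (-i τ)` by Poisson summation. -/

namespace Pool.Agent.MP_ca0a54_nt.H78M

open Complex Filter Topology Set MeasureTheory Asymptotics
open scoped Real FourierTransform

namespace LIP

theorem integrableOn_gamma {a z : ℂ} (ha : 0 < a.re) (hz : 0 < z.re) :
    IntegrableOn (fun t : ℝ => (t : ℂ) ^ (a - 1) * exp (-(z * t))) (Ioi 0) := by
  have h := integrableOn_rpow_mul_exp_neg_mul_rpow (p := 1) (s := a.re - 1) (b := z.re)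
    (by linarith) one_pos hz
  refine h.mono' ?_ ?_
  · refine ContinuousOn.aestronglyMeasurable (fun t ht => ?_) measurableSet_Ioi
    exact ((continuousAt_ofReal_cpow_const t _ (Or.inr (ne_of_gt ht))).mul
      (by fun_prop)).continuousWithinAt
  · refine (ae_restrict_iff' measurableSet_Ioi).mpr (Eventually.of_forall fun t ht => ?_)
    rw [norm_mul, norm_cpow_eq_rpow_re_of_pos ht, norm_exp]
    simp

theorem gamma_cplx {a z : ℂ} (ha : 0 < a.re) (hz : 0 < z.re) :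
    ∫ t : ℝ in Ioi 0, (t : ℂ) ^ (a - 1) * exp (-(z * t)) = z ^ (-a) * Gamma a := by
  let U : Set ℂ := {z | 0 < z.re}
  have hUo : IsOpen U := isOpen_lt continuous_const continuous_re
  have hd1 : DifferentiableOn ℂ
      (fun z : ℂ => ∫ t : ℝ in Ioi 0, (t : ℂ) ^ (a - 1) * exp (-(z * t))) U := by
    intro z0 hz0
    have hz0' : 0 < z0.re := hz0
    have hs : {z : ℂ | z0.re / 2 < z.re} ∈ 𝓝 z0 :=
      (isOpen_lt continuous_const continuous_re).mem_nhds (by simp only [mem_ofPred_eq]; linarith)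
    have hb := integrableOn_rpow_mul_exp_neg_mul_rpow (p := 1) (s := a.re) (b := z0.re / 2)
      (by linarith) one_pos (by linarith)
    refine (hasDerivAt_integral_of_dominated_loc_of_deriv_le
      (F := fun (z : ℂ) (t : ℝ) => (t : ℂ) ^ (a - 1) * exp (-(z * t)))
      (F' := fun (z : ℂ) (t : ℝ) => -((t : ℂ) ^ (a + 1 - 1) * exp (-(z * t)))) hs ?_
      (integrableOn_gamma ha hz0') ?_ ?_ hb ?_).2.differentiableAt.differentiableWithinAt
    · filter_upwards [hUo.mem_nhds hz0] with z hz using (integrableOn_gamma ha hz).1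
    · exact (integrableOn_gamma (a := a + 1) (by simp; linarith) hz0').1.neg
    · refine (ae_restrict_iff' measurableSet_Ioi).mpr (Eventually.of_forall fun t ht z hz => ?_)
      have ht' : 0 < t := ht
      have hz' : z0.re / 2 < z.re := hz
      rw [norm_neg, norm_mul, norm_cpow_eq_rpow_re_of_pos ht, norm_exp]
      simp only [add_sub_cancel_right, neg_re, mul_re, ofReal_re, ofReal_im, mul_zero, sub_zero,
        Real.rpow_one]
      gcongr
      nlinarith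
    · refine (ae_restrict_iff' measurableSet_Ioi).mpr (Eventually.of_forall fun t ht z _ => ?_)
      have ht' : (t : ℂ) ≠ 0 := ofReal_ne_zero.mpr (ne_of_gt ht)
      have h1 : HasDerivAt (fun z : ℂ => exp (-(z * t))) (exp (-(z * t)) * -(1 * t)) z :=
        ((hasDerivAt_id z).mul_const (t : ℂ)).neg.cexp
      refine (h1.const_mul _).congr_deriv ?_
      rw [show a + 1 - 1 = (a - 1) + 1 by ring, cpow_add _ _ ht', cpow_one]
      ring
  have hd2 : DifferentiableOn ℂ (fun z : ℂ => z ^ (-a) * Gamma a) U := fun z hz =>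
    ((differentiableAt_id.cpow_const (Or.inl hz)).mul_const _).differentiableWithinAt
  have h3 : Tendsto ((↑) : ℝ → ℂ) (𝓝[≠] 1) (𝓝[≠] 1) := by
    rw [tendsto_nhdsWithin_iff]; constructor
    · exact tendsto_nhdsWithin_of_tendsto_nhds continuous_ofReal.continuousAt
    · exact eventually_nhdsWithin_iff.mpr (Eventually.of_forall fun t ht => ofReal_ne_one.mpr ht)
  refine (hd1.analyticOnNhd hUo).eqOn_of_preconnected_of_frequently_eq (hd2.analyticOnNhd hUo)
    (convex_halfSpace_re_gt 0).isPreconnected (z₀ := 1) (by simp [U]) (h3.frequently ?_) hz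
  refine ((Eventually.filter_mono nhdsWithin_le_nhds) ?_).frequently
  refine (eventually_gt_nhds zero_lt_one).mp (Eventually.of_forall fun t ht => ?_)
  rw [integral_cpow_mul_exp_neg_mul_Ioi ha ht, one_div, inv_cpow _ _ (by
    rw [arg_ofReal_of_nonneg ht.le]; exact Real.pi_pos.ne), cpow_neg]

lemma norm_Gamma_one_sq {τ : ℝ} (hτ : τ ≠ 0) :
    ‖Gamma (1 + I * τ)‖ ^ 2 = Real.pi * τ / Real.sinh (Real.pi * τ) := by
  have h0 : (I * τ : ℂ) ≠ 0 := mul_ne_zero I_ne_zero (ofReal_ne_zero.2 hτ)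
  have h1 := Gamma_mul_Gamma_one_sub (I * τ)
  have h2 : Gamma (1 + I * τ) = I * τ * Gamma (I * τ) := by rw [add_comm, Gamma_add_one _ h0]
  have h3 : (starRingEnd ℂ) (Gamma (1 + I * τ)) = Gamma (1 - I * τ) := by
    rw [← Gamma_conj]; congr 1; simp; ring
  have h4 : ((‖Gamma (1 + I * τ)‖ ^ 2 : ℝ) : ℂ) = I * τ * (Gamma (I * τ) * Gamma (1 - I * τ)) := by
    rw [← normSq_eq_norm_sq, ← mul_conj, h3, h2]; ring
  have h5 : sin (Real.pi * (I * τ)) = (Real.sinh (Real.pi * τ) : ℝ) * I := by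
    rw [show (Real.pi * (I * τ) : ℂ) = ((Real.pi * τ : ℝ) : ℂ) * I by push_cast; ring, sin_mul_I,
      ofReal_sinh]
  have h6 : ((Real.sinh (Real.pi * τ) : ℝ) : ℂ) ≠ 0 :=
    ofReal_ne_zero.2 (Real.sinh_ne_zero.2 (mul_ne_zero Real.pi_ne_zero hτ))
  rw [h1, h5] at h4
  apply ofReal_injective
  rw [h4, ofReal_div, ofReal_mul]
  field_simp

lemma norm_Gamma_le (s : ℂ) (hs : 0 < s.re) : ‖Gamma s‖ ≤ Real.Gamma s.re := by
  rw [Complex.Gamma_eq_integral hs, Real.Gamma_eq_integral hs, Complex.GammaIntegral]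
  refine (MeasureTheory.norm_integral_le_integral_norm _).trans (le_of_eq ?_)
  refine MeasureTheory.setIntegral_congr_fun measurableSet_Ioi fun x hx => ?_
  simp only [norm_mul, Complex.norm_real, Real.norm_eq_abs, abs_of_pos (Real.exp_pos _)]
  rw [Complex.norm_cpow_eq_rpow_re_of_pos hx]
  simp

lemma Gamma_one_le (τ : ℝ) :
    ‖Gamma (1 + I * τ)‖ ^ 2 ≤ 100 * (1 + |τ|) * Real.exp (-(π * |τ|)) := by
  have hpi := Real.pi_lt_d2
  have hpi3 := Real.pi_gt_three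
  rcases le_total |τ| 1 with h | h
  · have h1 : ‖Gamma (1 + I * τ)‖ ≤ 1 := by
      simpa using norm_Gamma_le (1 + I * τ) (by simp)
    have h2 : Real.exp (-4) ≤ Real.exp (-(π * |τ|)) :=
      Real.exp_le_exp.2 (by nlinarith [abs_nonneg τ])
    have h3 : Real.exp 4 ≤ 100 := by
      have := Real.exp_one_lt_d9
      have e : Real.exp 4 = Real.exp 1 ^ 4 := by rw [← Real.exp_nat_mul]; norm_num
      rw [e]
      calc _ ≤ (3 : ℝ) ^ 4 := pow_le_pow_left₀ (Real.exp_pos _).le (by linarith) 4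
        _ ≤ 100 := by norm_num
    have h4 : 1 ≤ 100 * Real.exp (-4) := by
      rw [Real.exp_neg, ← div_eq_mul_inv, le_div_iff₀ (Real.exp_pos _)]; linarith
    have h5 : ‖Gamma (1 + I * τ)‖ ^ 2 ≤ 1 := pow_le_one₀ (norm_nonneg _) h1
    nlinarith [abs_nonneg τ, Real.exp_pos (-(π * |τ|))]
  · have hτ : τ ≠ 0 := by rintro rfl; simp at h; linarith
    have e : π * τ / Real.sinh (π * τ) = π * |τ| / Real.sinh (π * |τ|) := by
      rcases abs_choice τ with h1 | h1 <;> rw [h1]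
      rw [mul_neg, Real.sinh_neg, neg_div_neg_eq]
    have h2 : Real.exp (π * |τ|) / 4 ≤ Real.sinh (π * |τ|) := by
      rw [Real.sinh_eq]
      have h3 : Real.exp (-(π * |τ|)) ≤ 1 := Real.exp_le_one_iff.2 (by nlinarith)
      have h4 := Real.add_one_le_exp (π * |τ|)
      nlinarith
    rw [norm_Gamma_one_sq hτ, e]
    calc _ ≤ π * |τ| / (Real.exp (π * |τ|) / 4) := by gcongr
      _ = 4 * π * |τ| * Real.exp (-(π * |τ|)) := by rw [Real.exp_neg]; field_simp
      _ ≤ _ := by gcongr <;> linarith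

lemma Gamma_two_le (τ : ℝ) :
    ‖Gamma (2 - I * τ)‖ ≤ 10 * (1 + |τ|) ^ (3 / 2 : ℝ) * Real.exp (-(π * |τ| / 2)) := by
  have h0 : (0 : ℝ) < 1 + |τ| := by positivity
  have h1 : (1 - I * τ : ℂ) ≠ 0 := fun h => by simpa using congrArg re h
  have e1 : Gamma (2 - I * τ) = (1 - I * τ) * Gamma (1 + I * ((-τ : ℝ) : ℂ)) := by
    rw [show (1 + I * ((-τ : ℝ) : ℂ)) = 1 - I * τ by push_cast; ring, ← Gamma_add_one _ h1]
    congr 1; ring
  have h2 : ‖(1 - I * τ : ℂ)‖ ≤ 1 + |τ| := (norm_sub_le _ _).trans_eq (by simp)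
  have h3 := Gamma_one_le (-τ)
  rw [abs_neg] at h3
  have h4 : ‖Gamma (1 + I * ((-τ : ℝ) : ℂ))‖ ≤
      10 * (1 + |τ|) ^ (1 / 2 : ℝ) * Real.exp (-(π * |τ| / 2)) := by
    refine (pow_le_pow_iff_left₀ (norm_nonneg _) (by positivity) two_ne_zero).1 (h3.trans_eq ?_)
    rw [mul_pow, mul_pow, ← Real.exp_nat_mul, ← Real.rpow_natCast ((1 + |τ|) ^ (1 / 2 : ℝ)),
      ← Real.rpow_mul h0.le]
    norm_num
    left; ring
  rw [e1, norm_mul, show (3 / 2 : ℝ) = 1 + 1 / 2 by norm_num, Real.rpow_add h0, Real.rpow_one]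
  calc _ ≤ (1 + |τ|) * (10 * (1 + |τ|) ^ (1 / 2 : ℝ) * Real.exp (-(π * |τ| / 2))) := by gcongr
    _ = _ := by ring

lemma Gamma_two_le' (τ : ℝ) : ‖Gamma (2 - I * τ)‖ ≤ 160 * Real.exp (-|τ|) := by
  have h0 := abs_nonneg τ
  have h1 : (1 + |τ|) ^ (3 / 2 : ℝ) ≤ (1 + |τ|) ^ 2 := by
    rw [← Real.rpow_natCast]
    exact Real.rpow_le_rpow_of_exponent_le (by linarith) (by norm_num)
  have h2 : (1 + |τ|) ^ 2 ≤ 16 * Real.exp (|τ| / 2) := by
    have h3 := Real.add_one_le_exp (|τ| / 4)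
    have h4 : Real.exp (|τ| / 2) = Real.exp (|τ| / 4) ^ 2 := by
      rw [← Real.exp_nat_mul]; congr 1; push_cast; ring
    rw [h4]
    nlinarith
  have h5 : Real.exp (|τ| / 2) * Real.exp (-(π * |τ| / 2)) ≤ Real.exp (-|τ|) := by
    rw [← Real.exp_add]
    exact Real.exp_le_exp.2 (by nlinarith [Real.pi_gt_three])
  refine (Gamma_two_le τ).trans ?_
  calc _ ≤ 10 * (16 * Real.exp (|τ| / 2)) * Real.exp (-(π * |τ| / 2)) := by
        gcongr; exact h1.trans h2
    _ ≤ _ := by nlinarith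

/-- the function to which Poisson summation is applied -/
noncomputable def g (Y τ x : ℝ) : ℂ :=
  ((max x 0 / Y * Real.exp (-(max x 0 / Y)) : ℝ) : ℂ) * exp (-(I * τ * Real.log x))

lemma norm_g {Y : ℝ} (hY : 0 < Y) (τ x : ℝ) :
    ‖g Y τ x‖ = max x 0 / Y * Real.exp (-(max x 0 / Y)) := by
  have h : 0 ≤ max x 0 := le_max_right _ _
  rw [g, norm_mul, show -(I * τ * Real.log x) = ((-(τ * Real.log x) : ℝ) : ℂ) * I by
    push_cast; ring, norm_exp_ofReal_mul_I, mul_one, norm_real, Real.norm_of_nonneg (by positivity)]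

lemma g_of_nonpos (Y τ : ℝ) {x : ℝ} (hx : x ≤ 0) : g Y τ x = 0 := by
  simp [g, max_eq_right hx]

lemma continuous_g {Y : ℝ} (hY : 0 < Y) (τ : ℝ) : Continuous (g Y τ) := by
  refine continuous_iff_continuousAt.2 fun x => ?_
  rcases eq_or_ne x 0 with rfl | hx
  · rw [ContinuousAt, g_of_nonpos Y τ le_rfl, tendsto_zero_iff_norm_tendsto_zero]
    simp_rw [norm_g hY]
    have h : Continuous fun x : ℝ => max x 0 / Y * Real.exp (-(max x 0 / Y)) := by fun_prop
    simpa using h.tendsto 0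
  · have h := Real.continuousAt_log hx
    unfold g
    fun_prop

lemma g_decay {Y : ℝ} (hY : 0 < Y) (τ : ℝ) :
    g Y τ =O[cocompact ℝ] fun x : ℝ => |x| ^ (-(2 : ℝ)) := by
  refine IsBigO.of_bound (6 * Y ^ 2) ?_
  filter_upwards [(isCompact_singleton (x := (0 : ℝ))).compl_mem_cocompact] with x hx
  rcases le_or_gt x 0 with h | h
  · rw [g_of_nonpos Y τ h, norm_zero]; positivity
  · have h1 := Real.pow_div_factorial_le_exp (x / Y) (by positivity) 3
    rw [norm_g hY, max_eq_left h.le, abs_of_pos h, Real.norm_of_nonneg (by positivity),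
      Real.rpow_neg h.le, Real.exp_neg, Real.rpow_two]
    have h2 : (0 : ℝ) < (x / Y) ^ 3 / (Nat.factorial 3 : ℕ) := by positivity
    calc _ ≤ x / Y * ((x / Y) ^ 3 / (Nat.factorial 3 : ℕ))⁻¹ := by gcongr
      _ = _ := by norm_num [Nat.factorial]; field_simp

lemma fourier_g {Y : ℝ} (hY : 0 < Y) (τ ξ : ℝ) : 𝓕 (g Y τ) ξ =
    (Y : ℂ)⁻¹ * (((Y : ℂ)⁻¹ + 2 * π * ξ * I) ^ (-(2 - I * τ)) * Gamma (2 - I * τ)) := by
  rw [← gamma_cplx (by simp) (by simpa using hY), Real.fourier_real_eq_integral_exp_smul,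
    ← setIntegral_eq_integral_of_forall_compl_eq_zero (s := Ioi 0)
      (fun x hx => by rw [g_of_nonpos Y τ (not_lt.1 hx), smul_zero]), ← integral_const_mul]
  refine setIntegral_congr_fun measurableSet_Ioi fun x hx => ?_
  have hx' : 0 < x := hx
  have hx0 : (x : ℂ) ≠ 0 := ofReal_ne_zero.2 hx'.ne'
  simp only [g, max_eq_left hx'.le, smul_eq_mul]
  rw [show (2 - I * τ - 1 : ℂ) = 1 + -(I * τ) by ring, cpow_add _ _ hx0, cpow_one,
    cpow_def_of_ne_zero hx0, ← ofReal_log hx'.le,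
    show -(((Y : ℂ)⁻¹ + 2 * π * ξ * I) * x) = ((-(x / Y) : ℝ) : ℂ) + (-2 * π * x * ξ : ℝ) * I by
      push_cast; ring, exp_add, ← ofReal_exp,
    show (Real.log x : ℂ) * -(I * τ) = -(I * τ * Real.log x) by ring, ofReal_mul (x / Y),
    ofReal_div]
  ring

lemma fourier_g_zero {Y : ℝ} (hY : 0 < Y) (τ : ℝ) : 𝓕 (g Y τ) 0 =
    Gamma (2 - I * τ) * Y * exp (-(I * τ * Real.log Y)) := by
  have hY0 : (Y : ℂ) ≠ 0 := ofReal_ne_zero.2 hY.ne'
  have h1 : exp (Real.log Y : ℂ) = Y := by rw [← ofReal_exp, Real.exp_log hY]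
  rw [fourier_g hY, ofReal_zero, mul_zero, zero_mul, add_zero, cpow_def_of_ne_zero (inv_ne_zero hY0),
    ← ofReal_inv, ← ofReal_log (inv_pos.2 hY).le, Real.log_inv,
    show ((-Real.log Y : ℝ) : ℂ) * -(2 - I * τ) =
      Real.log Y + (Real.log Y + -(I * τ * Real.log Y)) by push_cast; ring, exp_add, exp_add, h1,
    ofReal_inv]
  field_simp

lemma norm_fourier_g {Y : ℝ} (hY : 0 < Y) (τ : ℝ) {ξ : ℝ} (hξ : ξ ≠ 0) :
    ‖𝓕 (g Y τ) ξ‖ ≤ 10 * (1 + |τ|) ^ (3 / 2 : ℝ) / Y * (1 / ξ ^ 2) := by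
  set z : ℂ := (Y : ℂ)⁻¹ + 2 * π * ξ * I with hz
  have hre : 0 < z.re := by simpa [hz] using hY
  have hz0 : z ≠ 0 := fun h => by simp [h] at hre
  have hx := abs_pos.2 hξ
  have h1 : |ξ| ≤ ‖z‖ := by
    have h := abs_im_le_norm z
    have e : z.im = 2 * π * ξ := by simp [hz]
    rw [e, abs_mul, abs_of_pos Real.two_pi_pos] at h
    nlinarith [Real.pi_gt_three]
  have h2 : ‖z ^ (-(2 - I * τ))‖ ≤ 1 / ξ ^ 2 * Real.exp (π * |τ| / 2) := by
    have e1 : (-(2 - I * τ : ℂ)).re = -2 := by simp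
    have e2 : (-(2 - I * τ : ℂ)).im = τ := by simp
    rw [norm_cpow_of_ne_zero hz0, e1, e2, div_eq_mul_inv, ← Real.exp_neg,
      Real.rpow_neg (norm_nonneg _), Real.rpow_two, one_div, ← sq_abs ξ]
    gcongr
    have h3 := abs_arg_le_pi_div_two_iff.2 hre.le
    calc _ ≤ |arg z * τ| := neg_le_abs _
      _ = |arg z| * |τ| := abs_mul _ _
      _ ≤ π / 2 * |τ| := by gcongr
      _ = _ := by ring
  rw [fourier_g hY, norm_mul, norm_mul, norm_inv, norm_real, Real.norm_of_nonneg hY.le]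
  calc _ ≤ Y⁻¹ * (1 / ξ ^ 2 * Real.exp (π * |τ| / 2) *
        (10 * (1 + |τ|) ^ (3 / 2 : ℝ) * Real.exp (-(π * |τ| / 2)))) := by
        gcongr; exact Gamma_two_le τ
    _ = _ := by rw [Real.exp_neg]; field_simp

end LIP

open LIP in
theorem lip : LipStmt := by
  have hS : Summable fun n : ℤ => 1 / (n : ℝ) ^ 2 := Real.summable_one_div_int_pow.2 one_lt_two
  have hS0 : 0 ≤ ∑' n : ℤ, 1 / (n : ℝ) ^ 2 := tsum_nonneg fun n => by positivity
  refine ⟨160 + 10 * ∑' n : ℤ, 1 / (n : ℝ) ^ 2, fun τ => Gamma (2 - I * τ), by positivity,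
    fun τ => (Gamma_two_le' τ).trans (by gcongr; linarith), fun Y τ hY => ?_⟩
  have hb : ∀ n : ℤ, ‖if n = 0 then 0 else 𝓕 (g Y τ) n‖ ≤
      10 * (1 + |τ|) ^ (3 / 2 : ℝ) / Y * (1 / (n : ℝ) ^ 2) := fun n => by
    split_ifs with h
    · rw [norm_zero]; positivity
    · exact norm_fourier_g hY τ (Int.cast_ne_zero.2 h)
  have hF : Summable fun n : ℤ => 𝓕 (g Y τ) n := by
    refine Summable.of_norm_bounded_eventually
      (hS.mul_left (10 * (1 + |τ|) ^ (3 / 2 : ℝ) / Y)) ?_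
    filter_upwards [eventually_cofinite_ne 0] with n hn
    simpa only [if_neg hn] using hb n
  have hP := Real.tsum_eq_tsum_fourier_of_rpow_decay_of_summable (continuous_g hY τ) one_lt_two
    (g_decay hY τ) hF 0
  simp only [zero_add, QuotientAddGroup.mk_zero, fourier_eval_zero, mul_one] at hP
  have hN : ∑' n : ℕ, g Y τ ((n : ℤ) : ℝ) = ∑' n : ℤ, g Y τ n := by
    refine Nat.cast_injective.tsum_eq (f := fun n : ℤ => g Y τ n) fun n hn => ?_
    by_contra h
    refine hn (g_of_nonpos Y τ ?_)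
    by_contra h1
    exact h ⟨n.toNat, Int.toNat_of_nonneg (by exact_mod_cast (not_le.1 h1).le)⟩
  have hE : ∑' n : ℕ, ((n / Y * Real.exp (-(n / Y)) : ℝ) : ℂ) * nt τ n =
      ∑' n : ℕ, g Y τ ((n : ℤ) : ℝ) := tsum_congr fun n => by
    rw [g, nt, Int.cast_natCast, max_eq_left (Nat.cast_nonneg n)]
  rw [hE, hN, hP, hF.tsum_eq_add_tsum_ite 0, Int.cast_zero, fourier_g_zero hY, add_sub_cancel_left]
  refine (tsum_of_norm_bounded (hS.hasSum.mul_left _) hb).trans ?_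
  rw [div_mul_eq_mul_div]
  refine div_le_div_of_nonneg_right ?_ hY.le
  have : (0 : ℝ) ≤ (1 + |τ|) ^ (3 / 2 : ℝ) := by positivity
  nlinarith

end Pool.Agent.MP_ca0a54_nt.H78M
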